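import Pool.Agent.Work.MP_7d1693_pr.FM.Defs

/-! # Module Vert (S): typed sets lie inside the box

`sub_vert`: the intervals of an ordered box are pairwise disjoint, so the cardinals of the parts of `e` in them add
up to `k * (shape B).sum = e.card`, hence nothing of `e` lies outside. Proof by induction on `B`, generalizing `c`: show that
`(e.filter (fun v => v ∈ vert B)).card = k * (shape B).sum`; `vert (b :: B) = Ico b.2.1 b.2.2 ∪ vert B` and the two sets are
disjoint because every vertex of `vert B` is `≥ b.2.2` (auxiliary induction: `BOrd c B → ∀ v ∈ vert B, c ≤ v`).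
Then the filter has the cardinal of `e`, so it is `e`.
* `vert_ge`: the auxiliary fact. -/

namespace Pool.Agent.Work.MP_7d1693_pr.FM

open Finset

theorem vert_ge {c : ℕ} {B : Box} (hB : BOrd c B) {v : ℕ} (hv : v ∈ vert B) : c ≤ v := by
  induction B generalizing c with
  | nil => simp [vert] at hv
  | cons b B ih =>
    obtain ⟨h1, h2, h3⟩ := hB
    unfold vert at hv
    rw [mem_biUnion] at hv
    obtain ⟨x, hx, hv⟩ := hv
    rw [List.mem_toFinset] at hx
    rw [mem_Ico] at hv
    rcases List.mem_cons.1 hx with rfl | hx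
    · omega
    · have h4 : b.2.2 ≤ v := ih h3 (by
        unfold vert
        rw [mem_biUnion]
        exact ⟨x, List.mem_toFinset.2 hx, mem_Ico.2 hv⟩)
      omega

private theorem mem_vert' {B : Box} {v : ℕ} : v ∈ vert B ↔ ∃ b ∈ B, b.2.1 ≤ v ∧ v < b.2.2 := by
  unfold vert
  rw [mem_biUnion]
  simp only [List.mem_toFinset, mem_Ico]

private theorem card_vert' {c : ℕ} {B : Box} (hB : BOrd c B) {k : ℕ} {e : Finset ℕ}
    (h : InB B k e) : (e.filter (fun v => v ∈ vert B)).card = k * (shape B).sum := by
  induction B generalizing c with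
  | nil =>
    have h1 : e.filter (fun v => v ∈ vert []) = ∅ := by
      ext v
      rw [mem_filter, mem_vert']
      simp
    rw [h1]
    simp [shape]
  | cons b B ih =>
    obtain ⟨h1, h2, h3⟩ := hB
    have h4 := ih h3 (fun x hx => h x (List.mem_cons_of_mem _ hx))
    have h5 := h b List.mem_cons_self
    have h6 : e.filter (fun v => v ∈ vert (b :: B)) =
        e.filter (fun v => b.2.1 ≤ v ∧ v < b.2.2) ∪ e.filter (fun v => v ∈ vert B) := by
      ext v
      simp only [mem_filter, mem_union, mem_vert', List.mem_cons]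
      constructor
      · rintro ⟨hv, x, rfl | hx, hx2⟩
        · exact Or.inl ⟨hv, hx2⟩
        · exact Or.inr ⟨hv, x, hx, hx2⟩
      · rintro (⟨hv, hx⟩ | ⟨hv, x, hx, hx2⟩)
        · exact ⟨hv, b, Or.inl rfl, hx⟩
        · exact ⟨hv, x, Or.inr hx, hx2⟩
    rw [h6, card_union_of_disjoint, h4, h5]
    · unfold shape
      rw [List.map_cons, List.sum_cons]
      ring
    · rw [disjoint_left]
      intro v hv1 hv2
      have h7 := vert_ge h3 (mem_filter.1 hv2).2
      have h8 := (mem_filter.1 hv1).2.2
      omega

theorem sub_vert {c : ℕ} {B : Box} (hB : BOrd c B) {k : ℕ} {e : Finset ℕ} (h : InB B k e)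
    (hc : e.card = k * (shape B).sum) : e ⊆ vert B := by
  have h1 := card_vert' hB h
  have h2 : e.filter (fun v => v ∈ vert B) = e :=
    eq_of_subset_of_card_le (filter_subset _ _) (by rw [h1, hc])
  intro v hv
  rw [← h2] at hv
  exact (mem_filter.1 hv).2

end Pool.Agent.Work.MP_7d1693_pr.FM
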