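import Pool.Agent.Work.MP_7d1693_pr.FM.Defs
import Pool.Agent.Work.MP_7d1693_pr.CNT2
import Pool.Agent.Work.MP_7d1693_pr.FM.Vert

/-! # Module ERank (M): ranks inside a typed vertex set

For `U` with `k * s` vertices in each interval `[lo, hi)` of an ordered box `B` (and none outside), an element `v` of `U` lies
in the `i`-th interval of `B` iff its rank `c2_rk U v = #{u ∈ U : u < v}` lies in the `i`-th interval of the standard box.
Proof: for fixed `U` prove by induction on `B`, for all `c`, `c0`: if `BOrd c B`, every `b ∈ B` satisfies the count condition, every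
`v ∈ U` with `c ≤ v` lies in `vert B`, and `#{u ∈ U : u < c} = c0`, then the Forall₂ statement holds with `stdBox k c0 (shape B)`.
Step `b = (s, lo, hi)`: no element of `U` lies in `[c, lo)` (it would be in `vert`, whose elements are `≥ lo`), so
`#{u < lo} = c0` and `#{u < hi} = c0 + k s`. For `v ∈ U`: if `v < lo` then `v < c`, and `c2_rk U v < c0` because `v` itself is one of the `c0`
elements; if `lo ≤ v` then `c2_rk U v ≥ c0`; if `v < hi` then `{u < v}` is contained in `{u < hi}` minus `v`, so the rank is `< c0 + k s`;
if `hi ≤ v` the rank is `≥ c0 + k s`. Then use the induction hypothesis with `hi`, `c0 + k s`.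
The elements of `Ubox B k` are subsets of `vert B` (membership in the powerset). -/

namespace Pool.Agent.Work.MP_7d1693_pr.FM

open Finset

private theorem mem_vert'' {B : Box} {v : ℕ} : v ∈ vert B ↔ ∃ b ∈ B, b.2.1 ≤ v ∧ v < b.2.2 := by
  unfold vert
  rw [mem_biUnion]
  simp only [List.mem_toFinset, mem_Ico]

private theorem rank_aux' {k : ℕ} {U : Finset ℕ} : ∀ (B : Box) (c c0 : ℕ), BOrd c B →
    (∀ b ∈ B, (U.filter (fun v => b.2.1 ≤ v ∧ v < b.2.2)).card = k * b.1) →
    (∀ v ∈ U, c ≤ v → v ∈ vert B) → (U.filter (fun u => u < c)).card = c0 →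
    List.Forall₂ (fun b b' => b.1 = b'.1 ∧ ∀ v ∈ U, ((b.2.1 ≤ v ∧ v < b.2.2) ↔
      (b'.2.1 ≤ c2_rk U v ∧ c2_rk U v < b'.2.2))) B (stdBox k c0 (shape B)) := by
  intro B
  induction B with
  | nil =>
    intro c c0 _ _ _ _
    exact List.Forall₂.nil
  | cons b B ih =>
    intro c c0 hB h1 h2 h3
    obtain ⟨s, lo, hi⟩ := b
    obtain ⟨hb1, hb2, hb3⟩ := hB
    simp only at hb1 hb2 hb3
    have hs : (U.filter (fun v => lo ≤ v ∧ v < hi)).card = k * s := h1 (s, lo, hi) List.mem_cons_self
    have hge : ∀ v ∈ U, c ≤ v → lo ≤ v := by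
      intro v hv hcv
      obtain ⟨x, hx, hx2⟩ := mem_vert''.1 (h2 v hv hcv)
      rcases List.mem_cons.1 hx with rfl | hx
      · exact hx2.1
      · have h4 := vert_ge hb3 (mem_vert''.2 ⟨x, hx, hx2⟩)
        omega
    have hlo : U.filter (fun u => u < lo) = U.filter (fun u => u < c) := by
      ext v
      rw [mem_filter, mem_filter]
      constructor
      · rintro ⟨hv, h4⟩
        refine ⟨hv, ?_⟩
        by_contra h5
        have := hge v hv (by omega)
        omega
      · rintro ⟨hv, h4⟩
        exact ⟨hv, by omega⟩
    have hlo' : (U.filter (fun u => u < lo)).card = c0 := by rw [hlo, h3]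
    have hhi : (U.filter (fun u => u < hi)).card = c0 + k * s := by
      have h4 : U.filter (fun u => u < hi) =
          U.filter (fun u => u < lo) ∪ U.filter (fun v => lo ≤ v ∧ v < hi) := by
        ext v
        simp only [mem_filter, mem_union]
        constructor
        · rintro ⟨hv, h5⟩
          by_cases h6 : v < lo
          · exact Or.inl ⟨hv, h6⟩
          · exact Or.inr ⟨hv, by omega, h5⟩
        · rintro (⟨hv, h5⟩ | ⟨hv, h5, h6⟩)
          · exact ⟨hv, by omega⟩
          · exact ⟨hv, h6⟩
      rw [h4, card_union_of_disjoint, hlo', hs]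
      rw [disjoint_left]
      intro v hv1 hv2
      have h5 := (mem_filter.1 hv1).2
      have h6 := (mem_filter.1 hv2).2.1
      omega
    refine List.Forall₂.cons ⟨rfl, ?_⟩ (ih hi (c0 + k * s) hb3
      (fun x hx => h1 x (List.mem_cons_of_mem _ hx)) ?_ hhi)
    · intro v hv
      dsimp only
      constructor
      · rintro ⟨h4, h5⟩
        constructor
        · rw [← hlo']
          unfold c2_rk
          apply card_le_card
          intro u hu
          rw [mem_filter] at hu ⊢
          exact ⟨hu.1, by omega⟩
        · rw [← hhi]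
          unfold c2_rk
          apply card_lt_card
          rw [Finset.ssubset_iff_of_subset]
          · exact ⟨v, mem_filter.2 ⟨hv, h5⟩, by simp⟩
          · intro z hz
            rw [mem_filter] at hz ⊢
            exact ⟨hz.1, by omega⟩
      · rintro ⟨h4, h5⟩
        constructor
        · by_contra h6
          have h7 : c2_rk U v < c0 := by
            rw [← hlo']
            unfold c2_rk
            apply card_lt_card
            rw [Finset.ssubset_iff_of_subset]
            · exact ⟨v, mem_filter.2 ⟨hv, by omega⟩, by simp⟩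
            · intro z hz
              rw [mem_filter] at hz ⊢
              exact ⟨hz.1, by omega⟩
          omega
        · by_contra h6
          have h7 : c0 + k * s ≤ c2_rk U v := by
            rw [← hhi]
            unfold c2_rk
            apply card_le_card
            intro u hu
            rw [mem_filter] at hu ⊢
            exact ⟨hu.1, by omega⟩
          omega
    · intro v hv h4
      obtain ⟨x, hx, hx2⟩ := mem_vert''.1 (h2 v hv (by omega))
      rcases List.mem_cons.1 hx with rfl | hx
      · simp only at hx2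
        omega
      · exact mem_vert''.2 ⟨x, hx, hx2⟩

theorem rank_box {c : ℕ} {B : Box} (hB : BOrd c B) {k : ℕ} {U : Finset ℕ} (hU : U ∈ Ubox B k) :
    List.Forall₂ (fun b b' => b.1 = b'.1 ∧ ∀ v ∈ U, ((b.2.1 ≤ v ∧ v < b.2.2) ↔
      (b'.2.1 ≤ c2_rk U v ∧ c2_rk U v < b'.2.2))) B (stdBox k 0 (shape B)) := by
  classical
  unfold Ubox at hU
  rw [mem_filter, mem_powerset] at hU
  refine rank_aux' B c 0 hB hU.2 (fun v hv _ => hU.1 hv) ?_
  rw [card_eq_zero, filter_eq_empty_iff]
  intro v hv h1
  have := vert_ge hB (hU.1 hv)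
  omega

end Pool.Agent.Work.MP_7d1693_pr.FM
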