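import Pool.Agent.Work.MP_7d1693_pr.FM.Defs
import Pool.Agent.Work.MP_7d1693_pr.CNT2
import Pool.Agent.Work.MP_7d1693_pr.FM.Vert
import Pool.Agent.Work.MP_7d1693_pr.FM.ERank

/-! # Module ECard (M): cliques with a given vertex set

`std_ord`, `std_shape`, `std_vert`: easy inductions on `lam` (general offset `c`): `BOrd c (stdBox k c lam)`, `shape (stdBox k c lam) = lam`,
`vert (stdBox k c lam) = Ico c (c + k * lam.sum)`.

`card_sup_eq`: the map `K ↦ c2_nrm K` (with `K.sup id = U` it is `K.image (fun e => e.image (c2_rk U))`) is a bijection from the cliques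
with vertex set `U` onto `Cl r P (stdBox k 0 (shape B)) k` (`Finset.card_bij` or two injections).
* it maps into: `c2_nrm_mem` (family of disjoint `r`-sets on `range (r*k)`, `PMs`), its number of edges is `k` (the map on edges is injective on subsets of
  `U`), `c2_nrm_clique` (clique). Interval condition: for `e ∈ K`, `e ⊆ U` and for corresponding intervals `b`, `b'` of `rank_box` the set
  `(e.image rk).filter (∈ b')` is the image of `e.filter (∈ b)`, same cardinal. An element of the standard box condition lies in `Ebox`: `sub_vert`.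
* injective: `c2_nrm_inj` (both have supremum `U`).
* surjective: let `K'` be in the target. All its edges lie in `vert (stdBox k 0 (shape B)) = range (r*k)` and `K'.sup id` has `r k` elements, so
  it is `range (r*k) = U.image rk`. Put `K = K'.image (fun e' => U.filter (fun x => c2_rk U x ∈ e'))`. Since `rk` is a strictly increasing bijection `U → range (r*k)`
  (`c2_rk_strictMonoOn`, `c2_rk_image`), `(that edge).image rk = e'`, so cardinals, disjointness, minima and words (`c2_pat_image`) are the same, the
  interval conditions follow from `rank_box`, the supremum is `U`, and `c2_nrm K = K'`.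
`U` has `r k` elements: `sub_vert`-type count, or `c2_card_sup` when a clique exists; in general sum the counts over the intervals. -/

namespace Pool.Agent.Work.MP_7d1693_pr.FM

open Finset

theorem std_ord (k : ℕ) (lam : List ℕ) (c : ℕ) : BOrd c (stdBox k c lam) := by
  induction lam generalizing c with
  | nil => exact trivial
  | cons s l ih => exact ⟨le_rfl, Nat.le_add_right _ _, ih _⟩

theorem std_shape (k : ℕ) (lam : List ℕ) (c : ℕ) : shape (stdBox k c lam) = lam := by
  induction lam generalizing c with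
  | nil => rfl
  | cons s l ih =>
    have h := ih (c + k * s)
    unfold shape at h ⊢
    rw [stdBox, List.map_cons, h]

private theorem vert_cons (b : ℕ × ℕ × ℕ) (B : Box) :
    vert (b :: B) = Ico b.2.1 b.2.2 ∪ vert B := by
  unfold vert
  rw [List.toFinset_cons, Finset.biUnion_insert]

theorem std_vert (k : ℕ) (lam : List ℕ) (c : ℕ) :
    vert (stdBox k c lam) = Ico c (c + k * lam.sum) := by
  induction lam generalizing c with
  | nil => simp [stdBox, vert]
  | cons s l ih =>
    rw [stdBox, vert_cons, ih]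
    rw [Finset.Ico_union_Ico_eq_Ico (Nat.le_add_right _ _) (Nat.le_add_right _ _)]
    rw [List.sum_cons, Nat.mul_add, Nat.add_assoc]

private theorem card_InB {k : ℕ} (B : Box) : ∀ (c : ℕ) (U : Finset ℕ), BOrd c B → U ⊆ vert B →
    InB B k U → U.card = k * (shape B).sum := by
  induction B with
  | nil =>
    intro c U _ hU _
    have : U = ∅ := by
      apply Finset.subset_empty.1
      simpa [vert] using hU
    rw [this]
    simp [shape]
  | cons b B ih =>
    intro c U hB hU hI
    obtain ⟨h1, h2, h3⟩ := hB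
    have hsplit := Finset.card_filter_add_card_filter_not (s := U)
      (fun v => b.2.1 ≤ v ∧ v < b.2.2)
    have hb := hI b List.mem_cons_self
    have hU2 : (U.filter (fun v => ¬ (b.2.1 ≤ v ∧ v < b.2.2))) ⊆ vert B := by
      intro v hv
      rw [mem_filter] at hv
      have := hU hv.1
      rw [vert_cons, mem_union, mem_Ico] at this
      rcases this with h | h
      · exact absurd h hv.2
      · exact h
    have hI2 : InB B k (U.filter (fun v => ¬ (b.2.1 ≤ v ∧ v < b.2.2))) := by
      intro b' hb'
      rw [← hI b' (List.mem_cons_of_mem _ hb')]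
      congr 1
      ext v
      simp only [mem_filter]
      constructor
      · rintro ⟨⟨hv, -⟩, h⟩
        exact ⟨hv, h⟩
      · rintro ⟨hv, h⟩
        refine ⟨⟨hv, ?_⟩, h⟩
        have hvB : v ∈ vert B := by
          unfold vert
          rw [mem_biUnion]
          exact ⟨b', List.mem_toFinset.2 hb', mem_Ico.2 h⟩
        have := vert_ge h3 hvB
        omega
    have h4 := ih b.2.2 _ h3 hU2 hI2
    rw [← hsplit, hb, h4]
    simp only [shape, List.map_cons, List.sum_cons]
    ring

private theorem forall2_right {α β : Type} {R : α → β → Prop} {l : List α} {l' : List β}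
    (h : List.Forall₂ R l l') : ∀ b' ∈ l', ∃ b ∈ l, R b b' := by
  induction h with
  | nil => intro b' hb'; simp at hb'
  | cons h1 _ ih =>
    intro b' hb'
    rcases List.mem_cons.1 hb' with rfl | hb'
    · exact ⟨_, List.mem_cons_self, h1⟩
    · obtain ⟨b, hb, hR⟩ := ih b' hb'
      exact ⟨b, List.mem_cons_of_mem _ hb, hR⟩

private theorem forall2_left {α β : Type} {R : α → β → Prop} {l : List α} {l' : List β}
    (h : List.Forall₂ R l l') : ∀ b ∈ l, ∃ b' ∈ l', R b b' := by
  induction h with
  | nil => intro b' hb'; simp at hb'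
  | cons h1 _ ih =>
    intro b' hb'
    rcases List.mem_cons.1 hb' with rfl | hb'
    · exact ⟨_, List.mem_cons_self, h1⟩
    · obtain ⟨b, hb, hR⟩ := ih b' hb'
      exact ⟨b, List.mem_cons_of_mem _ hb, hR⟩

private theorem mem_Cl {r : ℕ} {P : Set (List Bool)} {B : Box} {k : ℕ} {K : Finset (Finset ℕ)} :
    K ∈ Cl r P B k ↔ ((∀ e ∈ K, e ⊆ vert B ∧ e.card = r ∧ InB B 1 e) ∧ K.card = k) ∧
      Fam r K ∧ IsClique P K := by
  classical
  unfold Cl Ebox
  rw [mem_filter, mem_powersetCard]
  have : (K ⊆ ((vert B).powersetCard r).filter (fun e => InB B 1 e)) ↔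
      ∀ e ∈ K, e ⊆ vert B ∧ e.card = r ∧ InB B 1 e := by
    constructor
    · intro h e he
      have := h he
      rw [mem_filter, mem_powersetCard] at this
      exact ⟨this.1.1, this.1.2, this.2⟩
    · intro h e he
      rw [mem_filter, mem_powersetCard]
      exact ⟨⟨(h e he).1, (h e he).2.1⟩, (h e he).2.2⟩
  rw [this]

theorem card_sup_eq {r : ℕ} (hr : 1 ≤ r) (P : Set (List Bool)) {c : ℕ} {B : Box} (hB : BOrd c B)
    (hs : (shape B).sum = r) {k : ℕ} {U : Finset ℕ} (hU : U ∈ Ubox B k) :
    ((Cl r P B k).filter (fun K => K.sup id = U)).card = ac r P (shape B) k := by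
  classical
  have hR := rank_box hB hU
  have hU' : U ⊆ vert B ∧ InB B k U := by
    unfold Ubox at hU
    rw [mem_filter, mem_powerset] at hU
    exact hU
  have hUc : U.card = r * k := by
    rw [card_InB B c U hB hU'.1 hU'.2, hs, mul_comm]
  have him : U.image (c2_rk U) = range (r * k) := by rw [c2_rk_image, hUc]
  have hvs : vert (stdBox k 0 (shape B)) = range (r * k) := by
    rw [std_vert, hs, Nat.zero_add, mul_comm k r, Finset.range_eq_Ico]
  -- the inverse on edges
  let g : Finset ℕ → Finset ℕ := fun e' => U.filter (fun x => c2_rk U x ∈ e')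
  have hgU : ∀ e', g e' ⊆ U := fun e' => filter_subset _ _
  have hgi : ∀ e', e' ⊆ range (r * k) → (g e').image (c2_rk U) = e' := by
    intro e' he'
    ext j
    rw [mem_image]
    constructor
    · rintro ⟨x, hx, rfl⟩
      exact (mem_filter.1 hx).2
    · intro hj
      have h1 := he' hj
      rw [← him, mem_image] at h1
      obtain ⟨x, hx, rfl⟩ := h1
      exact ⟨x, mem_filter.2 ⟨hx, hj⟩, rfl⟩
  have hig : ∀ e, e ⊆ U → g (e.image (c2_rk U)) = e := by
    intro e he
    ext x
    simp only [g, mem_filter, mem_image]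
    constructor
    · rintro ⟨hx, y, hy, hyx⟩
      rwa [← c2_rk_injOn U (he hy) hx hyx]
    · intro hx
      exact ⟨he hx, x, hx, rfl⟩
  have hcard : ∀ e, e ⊆ U → (e.image (c2_rk U)).card = e.card := by
    intro e he
    exact card_image_of_injOn ((c2_rk_injOn U).mono (by rw [coe_subset]; exact he))
  have hcount : ∀ e, e ⊆ U → ∀ b b' : ℕ × ℕ × ℕ,
      (∀ v ∈ U, ((b.2.1 ≤ v ∧ v < b.2.2) ↔ (b'.2.1 ≤ c2_rk U v ∧ c2_rk U v < b'.2.2))) →
      ((e.image (c2_rk U)).filter (fun v => b'.2.1 ≤ v ∧ v < b'.2.2)).card =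
        (e.filter (fun v => b.2.1 ≤ v ∧ v < b.2.2)).card := by
    intro e he b b' hbb
    rw [← hcard (e.filter (fun v => b.2.1 ≤ v ∧ v < b.2.2)) ((filter_subset _ _).trans he)]
    congr 1
    ext j
    simp only [mem_filter, mem_image]
    constructor
    · rintro ⟨⟨x, hx, rfl⟩, h⟩
      exact ⟨x, ⟨hx, (hbb x (he hx)).2 h⟩, rfl⟩
    · rintro ⟨x, ⟨hx, h⟩, rfl⟩
      exact ⟨⟨x, hx, rfl⟩, (hbb x (he hx)).1 h⟩
  unfold ac
  refine Finset.card_nbij' c2_nrm (fun K' => K'.image g) ?_ ?_ ?_ ?_
  · intro K hK
    rw [mem_coe, mem_filter] at hK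
    obtain ⟨hK, hsup⟩ := hK
    obtain ⟨⟨hKe, hKk⟩, hF, hC⟩ := mem_Cl.1 hK
    have hN := c2_nrm_mem r k K hF hKk
    unfold PMs at hN
    rw [mem_filter, mem_powerset] at hN
    obtain ⟨hN1, hN2, hN3⟩ := hN
    rw [mem_coe, mem_Cl]
    refine ⟨⟨?_, ?_⟩, hN2, c2_nrm_clique r hr P K hF hC⟩
    · intro e' he'
      have h1 : e' ⊆ range (r * k) := mem_powerset.1 (hN1 he')
      refine ⟨by rw [hvs]; exact h1, hN2.1 e' he', ?_⟩
      rw [c2_nrm, mem_image] at he'
      obtain ⟨e, he, rfl⟩ := he'
      have heU : e ⊆ U := hsup ▸ c2_sub_sup K he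
      intro b' hb'
      obtain ⟨b, hb, hbb1, hbb2⟩ := forall2_right hR b' hb'
      rw [hsup, hcount e heU b b' hbb2, (hKe e he).2.2 b hb, hbb1]
    · have h2 := c2_card_sup r (c2_nrm K) hN2
      rw [hN3, card_range] at h2
      exact (Nat.eq_of_mul_eq_mul_left hr h2).symm
  · intro K' hK'
    rw [mem_coe] at hK'
    obtain ⟨⟨hKe, hKk⟩, hF, hC⟩ := mem_Cl.1 hK'
    rw [hvs] at hKe
    have hsupr : K'.sup id = range (r * k) := by
      apply Finset.eq_of_subset_of_card_le
      · intro x hx
        rw [Finset.mem_sup] at hx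
        obtain ⟨e, he, hx⟩ := hx
        exact (hKe e he).1 hx
      · rw [c2_card_sup r K' hF, hKk, card_range]
    have hgc : ∀ e' ∈ K', (g e').card = r := by
      intro e' he'
      rw [← hcard (g e') (hgU e'), hgi e' (hKe e' he').1]
      exact (hKe e' he').2.1
    have hinj : Set.InjOn g (K' : Set (Finset ℕ)) := by
      intro e' he' f' hf' h
      rw [← hgi e' (hKe e' he').1, ← hgi f' (hKe f' hf').1, h]
    rw [mem_coe, mem_filter, mem_Cl]
    refine ⟨⟨⟨?_, ?_⟩, ⟨?_, ?_⟩, ?_⟩, ?_⟩
    · intro e he
      rw [mem_image] at he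
      obtain ⟨e', he', rfl⟩ := he
      refine ⟨(hgU e').trans hU'.1, hgc e' he', ?_⟩
      intro b hb
      obtain ⟨b', hb', hbb1, hbb2⟩ := forall2_left hR b hb
      rw [← hcount (g e') (hgU e') b b' hbb2, hgi e' (hKe e' he').1,
        (hKe e' he').2.2 b' hb', hbb1]
    · rw [card_image_of_injOn hinj, hKk]
    · intro e he
      rw [mem_image] at he
      obtain ⟨e', he', rfl⟩ := he
      exact hgc e' he'
    · intro e he f hf hne
      rw [mem_image] at he hf
      obtain ⟨e', he', rfl⟩ := he
      obtain ⟨f', hf', rfl⟩ := hf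
      have hne' : e' ≠ f' := fun h => hne (by rw [h])
      rw [Finset.disjoint_left]
      intro x hx hx2
      exact (Finset.disjoint_left.1 (hF.2 e' he' f' hf' hne')) (mem_filter.1 hx).2
        (mem_filter.1 hx2).2
    · intro e he f hf hlt
      rw [mem_image] at he hf
      obtain ⟨e', he', rfl⟩ := he
      obtain ⟨f', hf', rfl⟩ := hf
      have hne1 : (g e').Nonempty := by rw [← card_pos, hgc e' he']; omega
      have hne2 : (g f').Nonempty := by rw [← card_pos, hgc f' hf']; omega
      have hne1' : e'.Nonempty := by rw [← card_pos, (hKe e' he').2.1]; omega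
      have hne2' : f'.Nonempty := by rw [← card_pos, (hKe f' hf').2.1]; omega
      rw [← c2_pat_image U (g e') (g f') (hgU e') (hgU f'), hgi e' (hKe e' he').1,
        hgi f' (hKe f' hf').1]
      apply hC e' he' f' hf'
      rw [c2_min_lt_iff _ _ hne1 hne2] at hlt
      rw [c2_min_lt_iff _ _ hne1' hne2']
      obtain ⟨x, hx, h⟩ := hlt
      refine ⟨c2_rk U x, (mem_filter.1 hx).2, fun y hy => ?_⟩
      rw [← hgi f' (hKe f' hf').1, mem_image] at hy
      obtain ⟨z, hz, rfl⟩ := hy
      exact c2_rk_lt U (hgU e' hx) (h z hz)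
    · ext x
      rw [Finset.mem_sup]
      constructor
      · rintro ⟨e, he, hx⟩
        rw [mem_image] at he
        obtain ⟨e', he', rfl⟩ := he
        exact hgU e' hx
      · intro hx
        have h1 : c2_rk U x ∈ range (r * k) := by
          rw [← him]
          exact mem_image_of_mem _ hx
        rw [← hsupr, Finset.mem_sup] at h1
        obtain ⟨e', he', h1⟩ := h1
        exact ⟨g e', mem_image_of_mem _ he', mem_filter.2 ⟨hx, h1⟩⟩
  · intro K hK
    rw [mem_coe, mem_filter] at hK
    obtain ⟨hK, hsup⟩ := hK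
    simp only [c2_nrm, image_image]
    rw [hsup]
    conv_rhs => rw [← Finset.image_id (s := K)]
    apply Finset.image_congr
    intro e he
    exact hig e (hsup ▸ c2_sub_sup K he)
  · intro K' hK'
    rw [mem_coe] at hK'
    obtain ⟨⟨hKe, hKk⟩, hF, hC⟩ := mem_Cl.1 hK'
    rw [hvs] at hKe
    have hsupr : K'.sup id = range (r * k) := by
      apply Finset.eq_of_subset_of_card_le
      · intro x hx
        rw [Finset.mem_sup] at hx
        obtain ⟨e, he, hx⟩ := hx
        exact (hKe e he).1 hx
      · rw [c2_card_sup r K' hF, hKk, card_range]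
    have hsup : (K'.image g).sup id = U := by
      ext x
      rw [Finset.mem_sup]
      constructor
      · rintro ⟨e, he, hx⟩
        rw [mem_image] at he
        obtain ⟨e', he', rfl⟩ := he
        exact hgU e' hx
      · intro hx
        have h1 : c2_rk U x ∈ range (r * k) := by
          rw [← him]
          exact mem_image_of_mem _ hx
        rw [← hsupr, Finset.mem_sup] at h1
        obtain ⟨e', he', h1⟩ := h1
        exact ⟨g e', mem_image_of_mem _ he', mem_filter.2 ⟨hx, h1⟩⟩
    simp only [c2_nrm]
    rw [hsup, image_image]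
    conv_rhs => rw [← Finset.image_id (s := K')]
    apply Finset.image_congr
    intro e' he'
    exact hgi e' (hKe e' he').1

end Pool.Agent.Work.MP_7d1693_pr.FM
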