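import Pool.Agent.Work.MP_7d1693_pr.FM.Defs
import Pool.Agent.Work.MP_7d1693_pr.FM.Vert
import Pool.Agent.Work.MP_7d1693_pr.FM.ECard

/-! # Module EOne (S): zero and one edge

`ac_zero`: the only family with `0` edges is `∅`. `ac_one`: for `k = 1` the box `stdBox 1 0 lam` has vertex set `range r` (`std_vert`), the only `r`-subset is `range r`
and it satisfies the interval conditions (`stdBox` intervals are contained in it: induction with offset: for every `(s, lo, hi)` of `stdBox 1 c lam` one has
`hi = lo + s` and `c ≤ lo`, `hi ≤ c + lam.sum`). A family with one `r`-set is a clique (no pair with `e.min < f.min`). -/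

namespace Pool.Agent.Work.MP_7d1693_pr.FM

open Finset

theorem ac_zero (r : ℕ) (P : Set (List Bool)) (lam : List ℕ) : ac r P lam 0 = 1 := by
  classical
  unfold ac Cl
  rw [Finset.powersetCard_zero]
  rw [Finset.filter_true_of_mem]
  · simp
  · intro K hK
    rw [Finset.mem_singleton] at hK
    subst hK
    refine ⟨⟨?_, ?_⟩, ?_⟩
    · intro e he
      simp at he
    · intro e he
      simp at he
    · intro e he
      simp at he

theorem eOne_std1 (lam : List ℕ) (c : ℕ) : ∀ b ∈ stdBox 1 c lam,
    b.2.2 = b.2.1 + b.1 ∧ c ≤ b.2.1 ∧ b.2.2 ≤ c + lam.sum := by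
  induction lam generalizing c with
  | nil =>
    intro b hb
    simp [stdBox] at hb
  | cons s l ih =>
    intro b hb
    simp only [stdBox, List.mem_cons] at hb
    rcases hb with rfl | hb
    · simp only [List.sum_cons]
      refine ⟨by omega, by omega, by omega⟩
    · obtain ⟨h1, h2, h3⟩ := ih (c + 1 * s) b hb
      simp only [List.sum_cons]
      refine ⟨h1, by omega, by omega⟩

theorem ac_one {r : ℕ} (P : Set (List Bool)) {lam : List ℕ} (hs : lam.sum = r) :
    ac r P lam 1 = 1 := by
  classical
  have hv : vert (stdBox 1 0 lam) = range r := by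
    rw [std_vert, hs]
    ext v
    simp
  have hC : Cl r P (stdBox 1 0 lam) 1 = {{range r}} := by
    ext K
    unfold Cl Ebox
    rw [Finset.mem_filter, Finset.mem_powersetCard, Finset.mem_singleton, hv]
    constructor
    · rintro ⟨⟨h1, h2⟩, -⟩
      obtain ⟨e, rfl⟩ := Finset.card_eq_one.1 h2
      have he := h1 (Finset.mem_singleton_self e)
      rw [Finset.mem_filter, Finset.mem_powersetCard] at he
      have : e = range r := Finset.eq_of_subset_of_card_le he.1.1 (by rw [he.1.2]; simp)
      rw [this]
    · rintro rfl
      refine ⟨⟨?_, by simp⟩, ⟨?_, ?_⟩, ?_⟩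
      · intro e he
        rw [Finset.mem_singleton] at he
        subst he
        rw [Finset.mem_filter, Finset.mem_powersetCard]
        refine ⟨⟨subset_rfl, by simp⟩, ?_⟩
        intro b hb
        obtain ⟨h1, h2, h3⟩ := eOne_std1 lam 0 b hb
        have : (range r).filter (fun v => b.2.1 ≤ v ∧ v < b.2.2) = Ico b.2.1 b.2.2 := by
          ext v
          rw [Finset.mem_filter, Finset.mem_range, Finset.mem_Ico]
          constructor
          · exact fun h => h.2
          · intro h
            exact ⟨by omega, h⟩
        rw [this, Nat.card_Ico]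
        omega
      · intro e he
        rw [Finset.mem_singleton] at he
        rw [he]
        simp
      · intro e he f hf hne
        rw [Finset.mem_singleton] at he hf
        exact absurd (he.trans hf.symm) hne
      · intro e he f hf hlt
        rw [Finset.mem_singleton] at he hf
        rw [he, hf] at hlt
        exact absurd hlt (lt_irrefl _)
  unfold ac
  rw [hC]
  simp

end Pool.Agent.Work.MP_7d1693_pr.FM
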