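import Pool.Agent.Work.MP_7d1693_pr.FM.Defs
import Pool.Agent.Work.MP_7d1693_pr.FM.Vert

/-! # Module UCount (S-M): the number of typed vertex sets is the product of binomials

Induction on `B`, generalizing `c`. `B = []`: `vert [] = ∅`, `Ubox [] k = {∅}`, `chB [] k = 1`. Step `b = (s, lo, hi)`: `vert (b :: B) = Ico lo hi ∪ vert B`,
disjoint by `vert_ge`. The map `U ↦ (U ∩ Ico lo hi, U ∩ vert B)` is a bijection from `Ubox (b :: B) k` onto
`(Ico lo hi).powersetCard (k * s) ×ˢ Ubox B k` with inverse the union (the filter conditions of `b' ∈ B` only see the part in `vert B`, whose intervals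
are `≥ hi`; that of `b` only sees the part in `Ico lo hi`). Note that `b' ∈ B` are different intervals from `b` only as far as needed: the
conditions are stated for the members of the list. `(Ico lo hi).card = hi - lo`. -/

namespace Pool.Agent.Work.MP_7d1693_pr.FM

open Finset

private theorem mem_vertU {B : Box} {v : ℕ} : v ∈ vert B ↔ ∃ b ∈ B, b.2.1 ≤ v ∧ v < b.2.2 := by
  unfold vert
  rw [mem_biUnion]
  simp only [List.mem_toFinset, mem_Ico]

private theorem mem_UboxU {B : Box} {k : ℕ} {U : Finset ℕ} :
    U ∈ Ubox B k ↔ U ⊆ vert B ∧ InB B k U := by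
  simp only [Ubox, mem_filter, mem_powerset]

theorem card_Ubox {c : ℕ} {B : Box} (hB : BOrd c B) (k : ℕ) : (Ubox B k).card = chB B k := by
  induction B generalizing c with
  | nil =>
    have h1 : Ubox [] k = {∅} := by
      ext U
      rw [mem_UboxU, mem_singleton]
      constructor
      · rintro ⟨h, -⟩
        refine subset_empty.1 (fun v hv => ?_)
        obtain ⟨b, hb, -⟩ := mem_vertU.1 (h hv)
        simp at hb
      · rintro rfl
        refine ⟨empty_subset _, ?_⟩
        intro b hb
        simp at hb
    rw [h1]
    simp [chB]
  | cons b B ih =>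
    obtain ⟨h1, h2, h3⟩ := hB
    have h4 := ih h3
    have hge : ∀ v ∈ vert B, b.2.2 ≤ v := fun v hv => vert_ge h3 hv
    have h5 : (Ubox (b :: B) k).card =
        ((Ico b.2.1 b.2.2).powersetCard (k * b.1) ×ˢ Ubox B k).card := by
      refine card_nbij' (fun U => (U ∩ Ico b.2.1 b.2.2, U ∩ vert B)) (fun p => p.1 ∪ p.2) ?_ ?_ ?_ ?_
      · intro U hU
        rw [mem_coe, mem_UboxU] at hU
        obtain ⟨hU1, hU2⟩ := hU
        rw [mem_coe, mem_product, mem_powersetCard, mem_UboxU]
        refine ⟨⟨inter_subset_right, ?_⟩, inter_subset_right, ?_⟩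
        · rw [← hU2 b List.mem_cons_self]
          congr 1
          ext v
          simp only [mem_inter, mem_Ico, mem_filter]
        · intro x hx
          rw [← hU2 x (List.mem_cons_of_mem _ hx)]
          congr 1
          ext v
          simp only [mem_inter, mem_filter]
          constructor
          · rintro ⟨⟨a1, -⟩, a2⟩
            exact ⟨a1, a2⟩
          · rintro ⟨a1, a2⟩
            exact ⟨⟨a1, mem_vertU.2 ⟨x, hx, a2⟩⟩, a2⟩
      · rintro ⟨A, U⟩ hp
        rw [mem_coe, mem_product, mem_powersetCard, mem_UboxU] at hp
        obtain ⟨⟨hA1, hA2⟩, hU1, hU2⟩ := hp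
        dsimp only at hA1 hA2 hU1 hU2
        rw [mem_coe, mem_UboxU]
        dsimp only
        refine ⟨?_, ?_⟩
        · intro v hv
          rw [mem_union] at hv
          rw [mem_vertU]
          rcases hv with hv | hv
          · exact ⟨b, List.mem_cons_self, mem_Ico.1 (hA1 hv)⟩
          · obtain ⟨x, hx, hx2⟩ := mem_vertU.1 (hU1 hv)
            exact ⟨x, List.mem_cons_of_mem _ hx, hx2⟩
        · intro x hx
          rcases List.mem_cons.1 hx with rfl | hx
          · rw [← hA2]
            congr 1
            ext v
            simp only [mem_union, mem_filter]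
            constructor
            · rintro ⟨a1 | a1, a2⟩
              · exact a1
              · have := hge v (hU1 a1)
                omega
            · intro a1
              exact ⟨Or.inl a1, mem_Ico.1 (hA1 a1)⟩
          · rw [← hU2 x hx]
            congr 1
            ext v
            simp only [mem_union, mem_filter]
            constructor
            · rintro ⟨a1 | a1, a2⟩
              · have h6 := hge v (mem_vertU.2 ⟨x, hx, a2⟩)
                have h7 := mem_Ico.1 (hA1 a1)
                omega
              · exact ⟨a1, a2⟩
            · rintro ⟨a1, a2⟩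
              exact ⟨Or.inr a1, a2⟩
      · intro U hU
        rw [mem_coe, mem_UboxU] at hU
        obtain ⟨hU1, hU2⟩ := hU
        dsimp only
        ext v
        simp only [mem_union, mem_inter, mem_Ico]
        constructor
        · rintro (⟨a1, -⟩ | ⟨a1, -⟩) <;> exact a1
        · intro a1
          obtain ⟨x, hx, hx2⟩ := mem_vertU.1 (hU1 a1)
          rcases List.mem_cons.1 hx with rfl | hx
          · exact Or.inl ⟨a1, hx2⟩
          · exact Or.inr ⟨a1, mem_vertU.2 ⟨x, hx, hx2⟩⟩
      · rintro ⟨A, U⟩ hp
        rw [mem_coe, mem_product, mem_powersetCard, mem_UboxU] at hp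
        obtain ⟨⟨hA1, hA2⟩, hU1, hU2⟩ := hp
        dsimp only at hA1 hA2 hU1 hU2
        dsimp only
        refine Prod.ext ?_ ?_
        · dsimp only
          ext v
          simp only [mem_union, mem_inter, mem_Ico]
          constructor
          · rintro ⟨a1 | a1, a2⟩
            · exact a1
            · have := hge v (hU1 a1)
              omega
          · intro a1
            exact ⟨Or.inl a1, mem_Ico.1 (hA1 a1)⟩
        · dsimp only
          ext v
          simp only [mem_union, mem_inter]
          constructor
          · rintro ⟨a1 | a1, a2⟩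
            · have h6 := hge v a2
              have h7 := mem_Ico.1 (hA1 a1)
              omega
            · exact a1
          · intro a1
            exact ⟨Or.inr a1, hU1 a1⟩
    rw [h5, card_product, h4, card_powersetCard, Nat.card_Ico]
    unfold chB
    rw [List.map_cons, List.prod_cons]

end Pool.Agent.Work.MP_7d1693_pr.FM
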