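import Pool.Agent.Work.MP_7d1693_pr.FM.Defs
import Pool.Agent.Work.MP_7d1693_pr.CNT2
import Pool.Agent.Work.MP_7d1693_pr.FM.Vert
import Pool.Agent.Work.MP_7d1693_pr.FM.ECard
import Pool.Agent.Work.MP_7d1693_pr.FM.UCount

/-! # Module ETot (S): the number of cliques in a box

`K ↦ K.sup id` maps `Cl r P B k` to `Ubox B k` (the edges are disjoint, each has `s` vertices in `[lo, hi)`, so the union has `k * s`: `Finset.card_biUnion` for
the filtered edges; the union is contained in `vert B`), and every fibre has `ac r P (shape B) k` elements (`card_sup_eq`). So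
`Finset.card_eq_sum_card_fiberwise` gives `(Ubox B k).card * ac = chB B k * ac`. -/

namespace Pool.Agent.Work.MP_7d1693_pr.FM

open Finset

theorem sup_mem_Ubox {r : ℕ} {P : Set (List Bool)} {B : Box} {k : ℕ} {K : Finset (Finset ℕ)}
    (hK : K ∈ Cl r P B k) : K.sup id ∈ Ubox B k := by
  classical
  unfold Cl Ebox at hK
  rw [mem_filter, mem_powersetCard] at hK
  obtain ⟨⟨h1, h2⟩, hF, -⟩ := hK
  have h3 : ∀ e ∈ K, e ⊆ vert B ∧ InB B 1 e := by
    intro e he
    have := h1 he
    rw [mem_filter, mem_powersetCard] at this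
    exact ⟨this.1.1, this.2⟩
  unfold Ubox
  rw [mem_filter, mem_powerset]
  constructor
  · intro x hx
    rw [Finset.mem_sup] at hx
    obtain ⟨e, he, hx⟩ := hx
    exact (h3 e he).1 hx
  · intro b hb
    have h4 : (K.sup id).filter (fun v => b.2.1 ≤ v ∧ v < b.2.2) =
        K.biUnion (fun e => e.filter (fun v => b.2.1 ≤ v ∧ v < b.2.2)) := by
      ext x
      simp only [mem_filter, Finset.mem_sup, mem_biUnion, id]
      constructor
      · rintro ⟨⟨e, he, hx⟩, h⟩
        exact ⟨e, he, hx, h⟩
      · rintro ⟨e, he, hx, h⟩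
        exact ⟨⟨e, he, hx⟩, h⟩
    rw [h4, Finset.card_biUnion
      (fun e he f hf hef => Finset.disjoint_filter_filter (hF.2 e he f hf hef)),
      Finset.sum_congr rfl (fun e he => (h3 e he).2 b hb), Finset.sum_const, smul_eq_mul, h2,
      Nat.one_mul]

theorem card_Cl {r : ℕ} (hr : 1 ≤ r) (P : Set (List Bool)) {c : ℕ} {B : Box} (hB : BOrd c B)
    (hs : (shape B).sum = r) (k : ℕ) : (Cl r P B k).card = ac r P (shape B) k * chB B k := by
  classical
  have h := Finset.card_eq_sum_card_fiberwise (f := fun K : Finset (Finset ℕ) => K.sup id)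
    (s := Cl r P B k) (t := Ubox B k) (fun K hK => by
      rw [mem_coe] at hK ⊢
      exact sup_mem_Ubox hK)
  rw [h, Finset.sum_congr rfl (fun U hU => card_sup_eq hr P hB hs hU), Finset.sum_const,
    smul_eq_mul, card_Ubox hB k, mul_comm]

end Pool.Agent.Work.MP_7d1693_pr.FM
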