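import Pool.Agent.Work.MP_7d1693_pr.FM.Defs
import Pool.Agent.Work.MP_7d1693_pr.CNT2
import Pool.Agent.Work.MP_7d1693_pr.FM.Vert
import Pool.Agent.Work.MP_7d1693_pr.FM.ECard
import Pool.Agent.Work.MP_7d1693_pr.FM.UCount
import Pool.Agent.Work.MP_7d1693_pr.FM.ETot

/-! # Module ESub (M): submultiplicativity

Let `S = stdBox (j+k) 0 lam` (`std_ord`, `std_shape`). Count the pairs `(K, K')`, `K ∈ Cl r P S (j+k)`, `K' ⊆ K` with `j` edges: their number is
`ac (j+k) * (j+k).choose j`. The map `(K, K') ↦ (U', K', K \ K')` with `U' = K'.sup id` is injective into the triples with `U' ∈ Ubox S j`,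
`K' ∈ Cl r P S j` with supremum `U'`, `K \ K' ∈ Cl r P S k` with supremum `vert S \ U'`, and `vert S \ U' ∈ Ubox S k` (each interval of `S` has `(j+k) s` vertices, of which
`j s` are in `U'`; the supremum of `K` is all of `vert S`, because it has `r (j+k)` elements, `std_vert`). By `card_sup_eq` there are
`ac j` choices of `K'` and `ac k` choices of `K \ K'` for each `U'`, and by `card_Ubox` there are
`chB S j = ∏ ((j+k) s).choose (j s)` choices of `U'`. Subsets of cliques are cliques.

`chB_std`: `chB (stdBox m c lam) j = (lam.map (fun s => (m * s).choose (j * s))).prod`, induction on `lam`.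
`ac_sub2`: each binomial is at most `2 ^ ((j+k) * s)` (`Nat.choose_le_two_pow`), the product is `2 ^ ((j+k) * r)`.
`ac_dbl`: `ac_sub` with `j = k`, the binomials are `(2 k s).choose (k s) = Nat.centralBinom (k s) ≤ 4 ^ (k s)`. -/

namespace Pool.Agent.Work.MP_7d1693_pr.FM

open Finset

theorem chB_std (m j : ℕ) (lam : List ℕ) (c : ℕ) :
    chB (stdBox m c lam) j = (lam.map (fun s => (m * s).choose (j * s))).prod := by
  induction lam generalizing c with
  | nil => rfl
  | cons s l ih =>
    have h1 : chB (stdBox m c (s :: l)) j =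
        ((c + m * s) - c).choose (j * s) * chB (stdBox m (c + m * s) l) j := rfl
    rw [h1, ih, List.map_cons, List.prod_cons, Nat.add_sub_cancel_left]

private theorem std_len {m : ℕ} {lam : List ℕ} {c : ℕ} {b : ℕ × ℕ × ℕ}
    (hb : b ∈ stdBox m c lam) : b.2.2 = b.2.1 + m * b.1 := by
  induction lam generalizing c with
  | nil => cases hb
  | cons s l ih =>
    have h1 : stdBox m c (s :: l) = (s, c, c + m * s) :: stdBox m (c + m * s) l := rfl
    rw [h1, List.mem_cons] at hb
    rcases hb with rfl | hb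
    · rfl
    · exact ih hb

private theorem cl_sub {r : ℕ} {P : Set (List Bool)} {B : Box} {k j : ℕ}
    {K K' : Finset (Finset ℕ)} (hK : K ∈ Cl r P B k) (h : K' ⊆ K) (hj : K'.card = j) :
    K' ∈ Cl r P B j := by
  classical
  unfold Cl at hK ⊢
  rw [mem_filter, mem_powersetCard] at hK ⊢
  obtain ⟨⟨h1, h2⟩, h3, h4⟩ := hK
  refine ⟨⟨h.trans h1, hj⟩, ⟨fun e he => h3.1 e (h he), fun e he f hf hne => ?_⟩, ?_⟩
  · exact h3.2 e (h he) f (h hf) hne
  · intro e he f hf hlt
    exact h4 e (h he) f (h hf) hlt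

private theorem cl_card {r : ℕ} {P : Set (List Bool)} {B : Box} {k : ℕ}
    {K : Finset (Finset ℕ)} (hK : K ∈ Cl r P B k) : K.card = k := by
  classical
  unfold Cl at hK
  exact (mem_powersetCard.1 (mem_filter.1 hK).1).2

private theorem cl_fam {r : ℕ} {P : Set (List Bool)} {B : Box} {k : ℕ}
    {K : Finset (Finset ℕ)} (hK : K ∈ Cl r P B k) : Fam r K := by
  classical
  unfold Cl at hK
  exact (mem_filter.1 hK).2.1

private theorem ubox_compl {j k : ℕ} {lam : List ℕ} {U : Finset ℕ}
    (hU : U ∈ Ubox (stdBox (j + k) 0 lam) j) :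
    vert (stdBox (j + k) 0 lam) \ U ∈ Ubox (stdBox (j + k) 0 lam) k := by
  classical
  unfold Ubox at hU ⊢
  rw [mem_filter, mem_powerset] at hU ⊢
  refine ⟨sdiff_subset, fun b hb => ?_⟩
  have h1 := hU.2 b hb
  have h2 := std_len hb
  have h3 : (vert (stdBox (j + k) 0 lam)).filter (fun v => b.2.1 ≤ v ∧ v < b.2.2) =
      Ico b.2.1 b.2.2 := by
    ext v
    rw [mem_filter, mem_Ico]
    constructor
    · exact fun h => h.2
    · intro h
      refine ⟨?_, h⟩
      unfold vert
      rw [mem_biUnion]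
      exact ⟨b, List.mem_toFinset.2 hb, mem_Ico.2 h⟩
  have h4 : (vert (stdBox (j + k) 0 lam) \ U).filter (fun v => b.2.1 ≤ v ∧ v < b.2.2) =
      Ico b.2.1 b.2.2 \ U.filter (fun v => b.2.1 ≤ v ∧ v < b.2.2) := by
    rw [← h3]
    ext v
    simp only [mem_filter, mem_sdiff]
    tauto
  have h5 : U.filter (fun v => b.2.1 ≤ v ∧ v < b.2.2) ⊆ Ico b.2.1 b.2.2 := by
    intro v hv
    exact mem_Ico.2 (mem_filter.1 hv).2
  rw [h4, card_sdiff_of_subset h5, Nat.card_Ico, h1, h2, Nat.add_sub_cancel_left, add_mul,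
    Nat.add_sub_cancel_left]

private theorem sup_all {r : ℕ} {P : Set (List Bool)} {lam : List ℕ} (hs : lam.sum = r) {m : ℕ}
    {K : Finset (Finset ℕ)} (hK : K ∈ Cl r P (stdBox m 0 lam) m) :
    K.sup id = vert (stdBox m 0 lam) := by
  classical
  have h1 := sup_mem_Ubox hK
  unfold Ubox at h1
  rw [mem_filter, mem_powerset] at h1
  refine eq_of_subset_of_card_le h1.1 ?_
  rw [c2_card_sup r K (cl_fam hK), cl_card hK, std_vert, hs, Nat.card_Ico]
  simp [mul_comm]

private theorem sup_sdiff' {r : ℕ} {K K' : Finset (Finset ℕ)} (hK : Fam r K) (h : K' ⊆ K) :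
    (K \ K').sup id = K.sup id \ K'.sup id := by
  ext v
  simp only [mem_sdiff, mem_sup, id]
  constructor
  · rintro ⟨e, ⟨he, he'⟩, hv⟩
    refine ⟨⟨e, he, hv⟩, ?_⟩
    rintro ⟨f, hf, hvf⟩
    have hne : e ≠ f := fun h1 => he' (h1 ▸ hf)
    exact (disjoint_left.1 (hK.2 e he f (h hf) hne)) hv hvf
  · rintro ⟨⟨e, he, hv⟩, h2⟩
    exact ⟨e, ⟨he, fun he' => h2 ⟨e, he', hv⟩⟩, hv⟩

theorem ac_sub {r : ℕ} (hr : 1 ≤ r) (P : Set (List Bool)) {lam : List ℕ} (hs : lam.sum = r) (j k : ℕ) :
    ac r P lam (j + k) * (j + k).choose j ≤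
      ac r P lam j * ac r P lam k * (lam.map (fun s => ((j + k) * s).choose (j * s))).prod := by
  classical
  obtain ⟨S, hS⟩ : ∃ S, S = stdBox (j + k) 0 lam := ⟨_, rfl⟩
  have hord : BOrd 0 S := by rw [hS]; exact std_ord _ _ _
  have hshape : shape S = lam := by rw [hS]; exact std_shape _ _ _
  have hsum : (shape S).sum = r := by rw [hshape, hs]
  let T : Finset (Finset (Finset ℕ) × Finset (Finset ℕ)) :=
    (Cl r P S (j + k)).biUnion fun K => (K.powersetCard j).image fun K' => (K, K')
  have hT : T.card = ac r P lam (j + k) * (j + k).choose j := by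
    rw [card_biUnion]
    · have h1 : ∀ K ∈ Cl r P S (j + k),
          ((K.powersetCard j).image fun K' => (K, K')).card = (j + k).choose j := by
        intro K hK
        rw [card_image_of_injective _ (Prod.mk_right_injective K), card_powersetCard, cl_card hK]
      rw [sum_congr rfl h1, sum_const, smul_eq_mul]
      unfold ac
      rw [hS]
    · intro K _ K1 _ hne
      rw [Function.onFun, disjoint_left]
      rintro ⟨a, b⟩ h1 h2
      rw [mem_image] at h1 h2
      obtain ⟨_, _, h3⟩ := h1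
      obtain ⟨_, _, h4⟩ := h2
      exact hne ((congrArg Prod.fst h3).trans (congrArg Prod.fst h4).symm)
  let R : Finset (Finset ℕ × (Finset (Finset ℕ) × Finset (Finset ℕ))) :=
    (Ubox S j).biUnion fun U => (((Cl r P S j).filter (fun K => K.sup id = U)) ×ˢ
      ((Cl r P S k).filter (fun K => K.sup id = vert S \ U))).image fun x => (U, x)
  have hR : R.card ≤ (Ubox S j).card * (ac r P lam j * ac r P lam k) := by
    refine card_biUnion_le_card_mul _ _ _ fun U hU => ?_
    refine card_image_le.trans ?_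
    rw [card_product, card_sup_eq hr P hord hsum hU, card_sup_eq hr P hord hsum (by
      rw [hS] at hU ⊢
      exact ubox_compl hU), hshape]
  have hTR : T.card ≤ R.card := by
    refine card_le_card_of_injOn (fun x => (x.2.sup id, (x.2, x.1 \ x.2))) ?_ ?_
    · rintro ⟨K, K'⟩ hx
      rw [mem_coe, mem_biUnion] at hx
      obtain ⟨K1, hK1, h1⟩ := hx
      rw [mem_image] at h1
      obtain ⟨K2, hK2, h2⟩ := h1
      obtain ⟨rfl, rfl⟩ := Prod.mk.inj h2
      rw [mem_powersetCard] at hK2
      have h3 := cl_sub hK1 hK2.1 hK2.2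
      have hc : (K1 \ K2).card = k := by
        rw [card_sdiff_of_subset hK2.1, cl_card hK1, hK2.2, Nat.add_sub_cancel_left]
      have h4 := cl_sub hK1 sdiff_subset hc
      rw [mem_coe, mem_biUnion]
      refine ⟨K2.sup id, sup_mem_Ubox h3, ?_⟩
      rw [mem_image]
      refine ⟨(K2, K1 \ K2), ?_, rfl⟩
      rw [mem_product, mem_filter, mem_filter]
      refine ⟨⟨h3, rfl⟩, h4, ?_⟩
      change (K1 \ K2).sup id = vert S \ K2.sup id
      rw [sup_sdiff' (cl_fam hK1) hK2.1]
      rw [hS] at hK1 ⊢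
      rw [sup_all hs hK1]
    · rintro ⟨K, K'⟩ hx ⟨K1, K1'⟩ hx1 h
      have hsub : ∀ x ∈ T, x.2 ⊆ x.1 := by
        rintro ⟨a, b⟩ hx
        rw [mem_biUnion] at hx
        obtain ⟨a1, _, h1⟩ := hx
        rw [mem_image] at h1
        obtain ⟨b1, hb1, h2⟩ := h1
        obtain ⟨rfl, rfl⟩ := Prod.mk.inj h2
        exact (mem_powersetCard.1 hb1).1
      have s1 := hsub _ hx
      have s2 := hsub _ hx1
      obtain ⟨_, h2⟩ := Prod.mk.inj h
      obtain ⟨h3, h4⟩ := Prod.mk.inj h2
      simp only at s1 s2 h3 h4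
      have h5 : K = K1 := by
        rw [← sdiff_union_of_subset s1, ← sdiff_union_of_subset s2, h4, h3]
      rw [h5, h3]
  calc ac r P lam (j + k) * (j + k).choose j = T.card := hT.symm
    _ ≤ R.card := hTR
    _ ≤ (Ubox S j).card * (ac r P lam j * ac r P lam k) := hR
    _ = _ := by
      rw [card_Ubox hord, hS, chB_std, mul_comm]

theorem ac_sub2 {r : ℕ} (hr : 1 ≤ r) (P : Set (List Bool)) {lam : List ℕ} (hs : lam.sum = r) (j k : ℕ) :
    ac r P lam (j + k) ≤ ac r P lam j * ac r P lam k * 2 ^ (r * (j + k)) := by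
  have h1 := ac_sub hr P hs j k
  have h2 : (lam.map (fun s => ((j + k) * s).choose (j * s))).prod ≤ 2 ^ (lam.sum * (j + k)) := by
    clear h1 hs
    induction lam with
    | nil => simp
    | cons s l ih =>
      have e1 : 2 ^ ((s :: l).sum * (j + k)) = 2 ^ ((j + k) * s) * 2 ^ (l.sum * (j + k)) := by
        rw [List.sum_cons, ← pow_add]
        congr 1
        ring
      rw [List.map_cons, List.prod_cons, e1]
      exact Nat.mul_le_mul (Nat.choose_le_two_pow _ _) ih
  rw [hs] at h2
  calc ac r P lam (j + k) ≤ ac r P lam (j + k) * (j + k).choose j :=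
        Nat.le_mul_of_pos_right _ (Nat.choose_pos (Nat.le_add_right j k))
    _ ≤ _ := h1
    _ ≤ _ := Nat.mul_le_mul_left _ h2

theorem ac_dbl {r : ℕ} (hr : 1 ≤ r) (P : Set (List Bool)) {lam : List ℕ} (hs : lam.sum = r) (k : ℕ) :
    ac r P lam (2 * k) * (2 * k).choose k ≤ ac r P lam k ^ 2 * 4 ^ (r * k) := by
  have h1 := ac_sub hr P hs k k
  rw [← two_mul] at h1
  have h2 : (lam.map (fun s => ((2 * k) * s).choose (k * s))).prod ≤ 4 ^ (lam.sum * k) := by
    clear h1 hs
    induction lam with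
    | nil => simp
    | cons s l ih =>
      have e1 : 4 ^ ((s :: l).sum * k) = 2 ^ (2 * k * s) * 4 ^ (l.sum * k) := by
        rw [List.sum_cons, add_mul, pow_add]
        congr 1
        rw [show (4 : ℕ) = 2 ^ 2 by norm_num, ← pow_mul]
        congr 1
        ring
      rw [List.map_cons, List.prod_cons, e1]
      exact Nat.mul_le_mul (Nat.choose_le_two_pow _ _) ih
  rw [hs] at h2
  refine h1.trans ?_
  rw [sq]
  exact Nat.mul_le_mul_left _ h2

end Pool.Agent.Work.MP_7d1693_pr.FM
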