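import Pool.Agent.Work.MP_7d1693_pr.FM.Defs
import Pool.Agent.Work.MP_7d1693_pr.GREEDY
import Pool.Agent.Work.MP_7d1693_pr.CNT2
import Pool.Agent.Work.MP_7d1693_pr.FM.Vert
import Pool.Agent.Work.MP_7d1693_pr.FM.ECard
import Pool.Agent.Work.MP_7d1693_pr.FM.UCount
import Pool.Agent.Work.MP_7d1693_pr.FM.ETot

/-! # Module ESup (M): supermultiplicativity for admissible types

`Adm r P lam`: there is `w = word b ∈ P`, `b.map Prod.fst = lam`, all parts positive, first sign `true`. Let `S = stdBox (j+k) 0 lam`. Choose the vertex set `U ⊆ vert S`: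
in the interval `[c, c + (j+k) s)` of a part `(s, sign)` take the first `j s` vertices if the sign is `true`, the last `j s` vertices if it is `false`; the complement `U'` takes the other
`k s` vertices. So `U ∈ Ubox S j`, `U' ∈ Ubox S k`. By `card_sup_eq` there are `ac j` cliques `K` in `Cl r P S j` with supremum `U` and `ac k` cliques
`K'` in `Cl r P S k` with supremum `U'`. The map `(K, K') ↦ K ∪ K'` is injective (`K` = edges contained in `U`) into `Cl r P S (j+k)`: for `e ∈ K`, `f ∈ K'` the word
`pat e f` is `word b` (in each interval all vertices of `e` come before those of `f` if the sign is `true`, after them if it is `false`: induction on `b` with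
`pat_append` / `pat_union` and `gr_pat_lt`, `gr_pat_gt` of GREEDY/PAT, or the criterion `pat_word_iff` of PAT), and `e.min < f.min` because the first sign is `true` and the
first part is positive. So all pairs between `K` and `K'` are in `P`. -/

namespace Pool.Agent.Work.MP_7d1693_pr.FM

open Finset
open Pool.Agent.Work.MP_7d1693_pr.Greedy (Chn Fits fits_ge pat_append gr_pat_lt gr_pat_gt gr_pat_empty_left word_cons)

private def toBox (R : List (ℕ × Bool × ℕ × ℕ)) : Box := R.map (fun x => (x.1, x.2.2.1, x.2.2.2))

private theorem vert_cons (b : ℕ × ℕ × ℕ) (B : Box) :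
    vert (b :: B) = Ico b.2.1 b.2.2 ∪ vert B := by
  unfold vert
  rw [List.toFinset_cons, Finset.biUnion_insert]

private theorem vert_nil : vert [] = ∅ := by simp [vert]

private theorem ord_mem {c : ℕ} {B : Box} (hB : BOrd c B) : ∀ b ∈ B, c ≤ b.2.1 := by
  induction B generalizing c with
  | nil => simp
  | cons b l ih =>
    obtain ⟨h1, h2, h3⟩ := hB
    intro x hx
    rcases List.mem_cons.1 hx with rfl | hx
    · exact h1
    · have := ih h3 x hx
      omega

private theorem chn_ord {c : ℕ} {R : List (ℕ × Bool × ℕ × ℕ)} (h : Chn c R) :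
    BOrd c (toBox R) := by
  induction R generalizing c with
  | nil => trivial
  | cons x l ih =>
    obtain ⟨a, s, lo, hi⟩ := x
    exact ⟨h.1, h.2.1, ih h.2.2⟩

private theorem fits_iff {c : ℕ} {R : List (ℕ × Bool × ℕ × ℕ)} (h : Chn c R) (e : Finset ℕ) :
    Fits R e ↔ e ⊆ vert (toBox R) ∧ InB (toBox R) 1 e := by
  induction R generalizing c e with
  | nil =>
    constructor
    · intro h0
      change e = ∅ at h0
      subst h0
      exact ⟨by simp, by intro b hb; simp [toBox] at hb⟩
    · rintro ⟨h1, -⟩
      change e ⊆ vert [] at h1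
      rw [vert_nil] at h1
      exact Finset.subset_empty.1 h1
  | cons x l ih =>
    obtain ⟨a, s, lo, hi⟩ := x
    obtain ⟨h1, h2, h3⟩ := h
    have hord := ord_mem (chn_ord h3)
    constructor
    · rintro ⟨f1, f2, rfl, hf1, hc, hf2⟩
      have ge2 := fits_ge l hi f2 h3 hf2
      obtain ⟨i1, i2⟩ := (ih h3 f2).1 hf2
      refine ⟨?_, ?_⟩
      · change f1 ∪ f2 ⊆ vert ((a, lo, hi) :: toBox l)
        rw [vert_cons]
        apply Finset.union_subset_union _ i1
        intro x hx
        exact Finset.mem_Ico.2 (hf1 x hx)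
      · intro b hb
        change b ∈ (a, lo, hi) :: toBox l at hb
        rcases List.mem_cons.1 hb with rfl | hb
        · have h4 : (f1 ∪ f2).filter (fun v => lo ≤ v ∧ v < hi) = f1 := by
            ext v
            simp only [mem_filter, mem_union]
            constructor
            · rintro ⟨hv | hv, hv2⟩
              · exact hv
              · have := ge2 v hv
                omega
            · intro hv
              exact ⟨Or.inl hv, hf1 v hv⟩
          change ((f1 ∪ f2).filter (fun v => lo ≤ v ∧ v < hi)).card = 1 * a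
          rw [h4, hc, one_mul]
        · have hb1 := hord b hb
          have h4 : (f1 ∪ f2).filter (fun v => b.2.1 ≤ v ∧ v < b.2.2) =
              f2.filter (fun v => b.2.1 ≤ v ∧ v < b.2.2) := by
            ext v
            simp only [mem_filter, mem_union]
            constructor
            · rintro ⟨hv | hv, hv2⟩
              · have := hf1 v hv
                omega
              · exact ⟨hv, hv2⟩
            · rintro ⟨hv, hv2⟩
              exact ⟨Or.inr hv, hv2⟩
          rw [h4]
          exact i2 b hb
    · rintro ⟨hsub, hin⟩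
      change e ⊆ vert ((a, lo, hi) :: toBox l) at hsub
      change InB ((a, lo, hi) :: toBox l) 1 e at hin
      rw [vert_cons] at hsub
      refine ⟨e.filter (fun v => lo ≤ v ∧ v < hi), e.filter (fun v => ¬ (lo ≤ v ∧ v < hi)),
        ?_, ?_, ?_, ?_⟩
      · ext v
        simp only [mem_union, mem_filter]
        tauto
      · intro x hx
        exact (mem_filter.1 hx).2
      · have h4 := hin (a, lo, hi) List.mem_cons_self
        change (e.filter (fun v => lo ≤ v ∧ v < hi)).card = 1 * a at h4
        rw [h4, one_mul]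
      · apply (ih h3 _).2
        constructor
        · intro v hv
          rw [mem_filter] at hv
          rcases mem_union.1 (hsub hv.1) with h5 | h5
          · exact absurd (mem_Ico.1 h5) hv.2
          · exact h5
        · intro b hb
          have hb1 := hord b hb
          have h4 : (e.filter (fun v => ¬ (lo ≤ v ∧ v < hi))).filter
              (fun v => b.2.1 ≤ v ∧ v < b.2.2) = e.filter (fun v => b.2.1 ≤ v ∧ v < b.2.2) := by
            ext v
            simp only [mem_filter]
            constructor
            · rintro ⟨⟨hv, -⟩, hv2⟩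
              exact ⟨hv, hv2⟩
            · rintro ⟨hv, hv2⟩
              exact ⟨⟨hv, by omega⟩, hv2⟩
          rw [h4]
          exact hin b (List.mem_cons_of_mem _ hb)

private def RA (j k : ℕ) : ℕ → List (ℕ × Bool) → List (ℕ × Bool × ℕ × ℕ)
  | _, [] => []
  | c, (s, true) :: l => (s, true, c, c + j * s) :: RA j k (c + (j + k) * s) l
  | c, (s, false) :: l => (s, false, c + k * s, c + (j + k) * s) :: RA j k (c + (j + k) * s) l

private def RB (j k : ℕ) : ℕ → List (ℕ × Bool) → List (ℕ × Bool × ℕ × ℕ)
  | _, [] => []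
  | c, (s, true) :: l => (s, true, c + j * s, c + (j + k) * s) :: RB j k (c + (j + k) * s) l
  | c, (s, false) :: l => (s, false, c, c + k * s) :: RB j k (c + (j + k) * s) l

private def RS (m : ℕ) : ℕ → List (ℕ × Bool) → List (ℕ × Bool × ℕ × ℕ)
  | _, [] => []
  | c, (s, g) :: l => (s, g, c, c + m * s) :: RS m (c + m * s) l

private theorem chn_mono {c c' : ℕ} {R : List (ℕ × Bool × ℕ × ℕ)} (h : Chn c' R) (hc : c ≤ c') :
    Chn c R := by
  cases R with
  | nil => trivial
  | cons x l =>
    obtain ⟨a, s, lo, hi⟩ := x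
    exact ⟨hc.trans h.1, h.2.1, h.2.2⟩

private theorem chnA (j k : ℕ) (b : List (ℕ × Bool)) (c : ℕ) : Chn c (RA j k c b) := by
  induction b generalizing c with
  | nil => trivial
  | cons x l ih =>
    obtain ⟨s, g⟩ := x
    have e : (j + k) * s = j * s + k * s := add_mul j k s
    cases g with
    | true => exact ⟨le_rfl, by omega, chn_mono (ih _) (by omega)⟩
    | false => exact ⟨by omega, by omega, ih _⟩

private theorem chnB (j k : ℕ) (b : List (ℕ × Bool)) (c : ℕ) : Chn c (RB j k c b) := by
  induction b generalizing c with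
  | nil => trivial
  | cons x l ih =>
    obtain ⟨s, g⟩ := x
    have e : (j + k) * s = j * s + k * s := add_mul j k s
    cases g with
    | true => exact ⟨by omega, by omega, ih _⟩
    | false => exact ⟨le_rfl, by omega, chn_mono (ih _) (by omega)⟩

private theorem chnS (m : ℕ) (b : List (ℕ × Bool)) (c : ℕ) : Chn c (RS m c b) := by
  induction b generalizing c with
  | nil => trivial
  | cons x l ih =>
    obtain ⟨s, g⟩ := x
    exact ⟨le_rfl, by omega, ih _⟩

private theorem toBox_RS (m : ℕ) (b : List (ℕ × Bool)) (c : ℕ) :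
    toBox (RS m c b) = stdBox m c (b.map Prod.fst) := by
  induction b generalizing c with
  | nil => rfl
  | cons x l ih =>
    obtain ⟨s, g⟩ := x
    change (s, c, c + m * s) :: toBox (RS m (c + m * s) l) =
      (s, c, c + m * s) :: stdBox m (c + m * s) (l.map Prod.fst)
    rw [ih]

private theorem fitsA_S (j k : ℕ) (b : List (ℕ × Bool)) (c : ℕ) (e : Finset ℕ)
    (h : Fits (RA j k c b) e) : Fits (RS (j + k) c b) e := by
  induction b generalizing c e with
  | nil => exact h
  | cons x l ih =>
    obtain ⟨s, g⟩ := x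
    have e0 : (j + k) * s = j * s + k * s := add_mul j k s
    cases g with
    | true =>
      obtain ⟨f1, f2, rfl, h1, h2, h3⟩ := h
      exact ⟨f1, f2, rfl, fun x hx => ⟨(h1 x hx).1, by have := (h1 x hx).2; omega⟩, h2, ih _ f2 h3⟩
    | false =>
      obtain ⟨f1, f2, rfl, h1, h2, h3⟩ := h
      exact ⟨f1, f2, rfl, fun x hx => ⟨by have := (h1 x hx).1; omega, (h1 x hx).2⟩, h2, ih _ f2 h3⟩

private theorem fitsB_S (j k : ℕ) (b : List (ℕ × Bool)) (c : ℕ) (e : Finset ℕ)
    (h : Fits (RB j k c b) e) : Fits (RS (j + k) c b) e := by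
  induction b generalizing c e with
  | nil => exact h
  | cons x l ih =>
    obtain ⟨s, g⟩ := x
    have e0 : (j + k) * s = j * s + k * s := add_mul j k s
    cases g with
    | true =>
      obtain ⟨f1, f2, rfl, h1, h2, h3⟩ := h
      exact ⟨f1, f2, rfl, fun x hx => ⟨by have := (h1 x hx).1; omega, (h1 x hx).2⟩, h2, ih _ f2 h3⟩
    | false =>
      obtain ⟨f1, f2, rfl, h1, h2, h3⟩ := h
      exact ⟨f1, f2, rfl, fun x hx => ⟨(h1 x hx).1, by have := (h1 x hx).2; omega⟩, h2, ih _ f2 h3⟩

private theorem fits_pat (j k : ℕ) (b : List (ℕ × Bool)) (c : ℕ) (e f : Finset ℕ)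
    (he : Fits (RA j k c b) e) (hf : Fits (RB j k c b) f) : pat e f = word b := by
  induction b generalizing c e f with
  | nil =>
    change e = ∅ at he
    change f = ∅ at hf
    subst he hf
    rw [gr_pat_empty_left]
    rfl
  | cons x l ih =>
    obtain ⟨s, g⟩ := x
    have e0 : (j + k) * s = j * s + k * s := add_mul j k s
    cases g with
    | true =>
      obtain ⟨e1, e2, rfl, he1, hc1, he2⟩ := he
      obtain ⟨f1, f2, rfl, hf1, hd1, hf2⟩ := hf
      have ge := fits_ge _ _ e2 (chnA j k l _) he2
      have gf := fits_ge _ _ f2 (chnB j k l _) hf2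
      rw [pat_append e1 e2 f1 f2 ?_, gr_pat_lt e1 f1 ?_, ih _ e2 f2 he2 hf2, word_cons, hc1, hd1]
      · rfl
      · intro x hx y hy
        have h1 := (he1 x hx).2
        have h2 := (hf1 y hy).1
        omega
      · intro x hx y hy
        have hx' : x < c + (j + k) * s := by
          rcases mem_union.1 hx with hx | hx
          · have := (he1 x hx).2
            omega
          · exact (hf1 x hx).2
        rcases mem_union.1 hy with hy | hy
        · have := ge y hy
          omega
        · have := gf y hy
          omega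
    | false =>
      obtain ⟨e1, e2, rfl, he1, hc1, he2⟩ := he
      obtain ⟨f1, f2, rfl, hf1, hd1, hf2⟩ := hf
      have ge := fits_ge _ _ e2 (chnA j k l _) he2
      have gf := fits_ge _ _ f2 (chnB j k l _) hf2
      rw [pat_append e1 e2 f1 f2 ?_, gr_pat_gt e1 f1 ?_, ih _ e2 f2 he2 hf2, word_cons, hc1, hd1]
      · rfl
      · intro x hx y hy
        have h1 := (hf1 x hx).2
        have h2 := (he1 y hy).1
        omega
      · intro x hx y hy
        have hx' : x < c + (j + k) * s := by
          rcases mem_union.1 hx with hx | hx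
          · exact (he1 x hx).2
          · have := (hf1 x hx).2
            omega
        rcases mem_union.1 hy with hy | hy
        · have := ge y hy
          omega
        · have := gf y hy
          omega

private theorem fits_disj (j k : ℕ) (b : List (ℕ × Bool)) (c : ℕ) (e f : Finset ℕ)
    (he : Fits (RA j k c b) e) (hf : Fits (RB j k c b) f) : Disjoint e f := by
  induction b generalizing c e f with
  | nil =>
    change e = ∅ at he
    subst he
    exact Finset.disjoint_empty_left _
  | cons x l ih =>
    obtain ⟨s, g⟩ := x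
    have e0 : (j + k) * s = j * s + k * s := add_mul j k s
    cases g with
    | true =>
      obtain ⟨e1, e2, rfl, he1, hc1, he2⟩ := he
      obtain ⟨f1, f2, rfl, hf1, hd1, hf2⟩ := hf
      have ge := fits_ge _ _ e2 (chnA j k l _) he2
      have gf := fits_ge _ _ f2 (chnB j k l _) hf2
      rw [Finset.disjoint_left]
      intro x hx hx'
      rcases mem_union.1 hx with h1 | h1 <;> rcases mem_union.1 hx' with h2 | h2
      · have a1 := (he1 x h1).2
        have a2 := (hf1 x h2).1
        omega
      · have a1 := (he1 x h1).2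
        have a2 := gf x h2
        omega
      · have a1 := ge x h1
        have a2 := (hf1 x h2).2
        omega
      · exact (Finset.disjoint_left.1 (ih _ e2 f2 he2 hf2)) h1 h2
    | false =>
      obtain ⟨e1, e2, rfl, he1, hc1, he2⟩ := he
      obtain ⟨f1, f2, rfl, hf1, hd1, hf2⟩ := hf
      have ge := fits_ge _ _ e2 (chnA j k l _) he2
      have gf := fits_ge _ _ f2 (chnB j k l _) hf2
      rw [Finset.disjoint_left]
      intro x hx hx'
      rcases mem_union.1 hx with h1 | h1 <;> rcases mem_union.1 hx' with h2 | h2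
      · have a1 := (he1 x h1).1
        have a2 := (hf1 x h2).2
        omega
      · have a1 := (he1 x h1).2
        have a2 := gf x h2
        omega
      · have a1 := ge x h1
        have a2 := (hf1 x h2).2
        omega
      · exact (Finset.disjoint_left.1 (ih _ e2 f2 he2 hf2)) h1 h2

private theorem fits_min (j k s : ℕ) (hs : 0 < s) (l : List (ℕ × Bool)) (e f : Finset ℕ)
    (he : Fits (RA j k 0 ((s, true) :: l)) e) (hf : Fits (RB j k 0 ((s, true) :: l)) f) :
    e.min < f.min := by
  obtain ⟨e1, e2, rfl, he1, hc1, he2⟩ := he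
  obtain ⟨f1, f2, rfl, hf1, hd1, hf2⟩ := hf
  have e0 : (j + k) * s = j * s + k * s := add_mul j k s
  have gf := fits_ge _ _ f2 (chnB j k l _) hf2
  obtain ⟨x, hx⟩ := Finset.card_pos.1 (by omega : 0 < e1.card)
  have hx1 := (he1 x hx).2
  refine lt_of_le_of_lt (Finset.min_le (mem_union_left _ hx)) ?_
  rw [Finset.min, Finset.lt_inf_iff (WithTop.coe_lt_top x)]
  intro y hy
  have hy1 : j * s ≤ y := by
    rcases mem_union.1 hy with h1 | h1
    · have := (hf1 y h1).1
      omega
    · have := gf y h1
      omega
  exact WithTop.coe_lt_coe.2 (by omega)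

private theorem shapeA (j k : ℕ) (b : List (ℕ × Bool)) (c : ℕ) :
    shape (toBox (RA j k c b)) = b.map Prod.fst ∧ chB (toBox (RA j k c b)) j = 1 := by
  induction b generalizing c with
  | nil => exact ⟨rfl, rfl⟩
  | cons x l ih =>
    obtain ⟨s, g⟩ := x
    have e0 : (j + k) * s = j * s + k * s := add_mul j k s
    cases g with
    | true =>
      constructor
      · change s :: shape (toBox (RA j k (c + (j + k) * s) l)) = s :: l.map Prod.fst
        rw [(ih _).1]
      · change (c + j * s - c).choose (j * s) * chB (toBox (RA j k (c + (j + k) * s) l)) j = 1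
        rw [(ih _).2, Nat.add_sub_cancel_left, Nat.choose_self]
    | false =>
      constructor
      · change s :: shape (toBox (RA j k (c + (j + k) * s) l)) = s :: l.map Prod.fst
        rw [(ih _).1]
      · change (c + (j + k) * s - (c + k * s)).choose (j * s) *
          chB (toBox (RA j k (c + (j + k) * s) l)) j = 1
        have h1 : c + (j + k) * s - (c + k * s) = j * s := by omega
        rw [(ih _).2, h1, Nat.choose_self]

private theorem shapeB (j k : ℕ) (b : List (ℕ × Bool)) (c : ℕ) :
    shape (toBox (RB j k c b)) = b.map Prod.fst ∧ chB (toBox (RB j k c b)) k = 1 := by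
  induction b generalizing c with
  | nil => exact ⟨rfl, rfl⟩
  | cons x l ih =>
    obtain ⟨s, g⟩ := x
    have e0 : (j + k) * s = j * s + k * s := add_mul j k s
    cases g with
    | true =>
      constructor
      · change s :: shape (toBox (RB j k (c + (j + k) * s) l)) = s :: l.map Prod.fst
        rw [(ih _).1]
      · change (c + (j + k) * s - (c + j * s)).choose (k * s) *
          chB (toBox (RB j k (c + (j + k) * s) l)) k = 1
        have h1 : c + (j + k) * s - (c + j * s) = k * s := by omega
        rw [(ih _).2, h1, Nat.choose_self]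
    | false =>
      constructor
      · change s :: shape (toBox (RB j k (c + (j + k) * s) l)) = s :: l.map Prod.fst
        rw [(ih _).1]
      · change (c + k * s - c).choose (k * s) * chB (toBox (RB j k (c + (j + k) * s) l)) k = 1
        rw [(ih _).2, Nat.add_sub_cancel_left, Nat.choose_self]

private theorem mem_Ebox {r : ℕ} {B : Box} {e : Finset ℕ} :
    e ∈ Ebox r B ↔ (e ⊆ vert B ∧ e.card = r) ∧ InB B 1 e := by
  unfold Ebox
  simp only [mem_filter, mem_powersetCard]

private theorem mem_Cl {r : ℕ} {P : Set (List Bool)} {B : Box} {k : ℕ}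
    {K : Finset (Finset ℕ)} :
    K ∈ Cl r P B k ↔ (K ⊆ Ebox r B ∧ K.card = k) ∧ Fam r K ∧ IsClique P K := by
  unfold Cl
  simp only [mem_filter, mem_powersetCard]

theorem ac_sup {r : ℕ} (hr : 1 ≤ r) {P : Set (List Bool)} {lam : List ℕ} (h : Adm r P lam) (j k : ℕ) :
    ac r P lam j * ac r P lam k ≤ ac r P lam (j + k) := by
  classical
  obtain ⟨hsum, w, hwP, b, hb, hpos, hhead, rfl⟩ := h
  -- the first part
  obtain ⟨s, l, hbl, hs⟩ : ∃ s l, b = (s, true) :: l ∧ 0 < s := by
    cases b with
    | nil => simp at hhead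
    | cons x l =>
      obtain ⟨s, g⟩ := x
      simp only [List.head?_cons, Option.map_some, Option.some.injEq] at hhead
      subst hhead
      exact ⟨s, l, rfl, hpos (s, true) List.mem_cons_self⟩
  have cA : (Cl r P (toBox (RA j k 0 b)) j).card = ac r P lam j := by
    have h1 := card_Cl hr P (chn_ord (chnA j k b 0))
      (by rw [(shapeA j k b 0).1, hb, hsum]) j
    rw [(shapeA j k b 0).1, (shapeA j k b 0).2, hb, mul_one] at h1
    exact h1
  have cB : (Cl r P (toBox (RB j k 0 b)) k).card = ac r P lam k := by
    have h1 := card_Cl hr P (chn_ord (chnB j k b 0))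
      (by rw [(shapeB j k b 0).1, hb, hsum]) k
    rw [(shapeB j k b 0).1, (shapeB j k b 0).2, hb, mul_one] at h1
    exact h1
  have cS : ac r P lam (j + k) = (Cl r P (toBox (RS (j + k) 0 b)) (j + k)).card := by
    rw [toBox_RS, hb]
    rfl
  have fA : ∀ e ∈ Ebox r (toBox (RA j k 0 b)), Fits (RA j k 0 b) e := fun e he =>
    (fits_iff (chnA j k b 0) e).2 ⟨(mem_Ebox.1 he).1.1, (mem_Ebox.1 he).2⟩
  have fB : ∀ e ∈ Ebox r (toBox (RB j k 0 b)), Fits (RB j k 0 b) e := fun e he =>
    (fits_iff (chnB j k b 0) e).2 ⟨(mem_Ebox.1 he).1.1, (mem_Ebox.1 he).2⟩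
  have sA : ∀ e ∈ Ebox r (toBox (RA j k 0 b)), e ∈ Ebox r (toBox (RS (j + k) 0 b)) := by
    intro e he
    have h1 := (fits_iff (chnS (j + k) b 0) e).1 (fitsA_S j k b 0 e (fA e he))
    exact mem_Ebox.2 ⟨⟨h1.1, (mem_Ebox.1 he).1.2⟩, h1.2⟩
  have sB : ∀ e ∈ Ebox r (toBox (RB j k 0 b)), e ∈ Ebox r (toBox (RS (j + k) 0 b)) := by
    intro e he
    have h1 := (fits_iff (chnS (j + k) b 0) e).1 (fitsB_S j k b 0 e (fB e he))
    exact mem_Ebox.2 ⟨⟨h1.1, (mem_Ebox.1 he).1.2⟩, h1.2⟩
  have hdis : ∀ e ∈ Ebox r (toBox (RA j k 0 b)), ∀ f ∈ Ebox r (toBox (RB j k 0 b)),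
      Disjoint e f := fun e he f hf => fits_disj j k b 0 e f (fA e he) (fB f hf)
  have hmin : ∀ e ∈ Ebox r (toBox (RA j k 0 b)), ∀ f ∈ Ebox r (toBox (RB j k 0 b)),
      e.min < f.min := by
    intro e he f hf
    have h1 := fA e he
    have h2 := fB f hf
    rw [hbl] at h1 h2
    exact fits_min j k s hs l e f h1 h2
  have hnot : ∀ e, e ∈ Ebox r (toBox (RA j k 0 b)) → e ∈ Ebox r (toBox (RB j k 0 b)) → False :=
    fun e h1 h2 => lt_irrefl _ (hmin e h1 e h2)
  rw [← cA, ← cB, cS, ← Finset.card_product]
  apply Finset.card_le_card_of_injOn (fun p => p.1 ∪ p.2)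
  · rintro ⟨K, K'⟩ hp
    rw [Finset.mem_coe, Finset.mem_product] at hp
    obtain ⟨⟨h1, h2⟩, h3, h4⟩ := mem_Cl.1 hp.1
    obtain ⟨⟨g1, g2⟩, g3, g4⟩ := mem_Cl.1 hp.2
    simp only at h1 h2 h3 h4 g1 g2 g3 g4
    rw [Finset.mem_coe, mem_Cl]
    refine ⟨⟨?_, ?_⟩, ⟨?_, ?_⟩, ?_⟩
    · intro e he
      rcases mem_union.1 he with he | he
      · exact sA e (h1 he)
      · exact sB e (g1 he)
    · change (K ∪ K').card = j + k
      rw [Finset.card_union_of_disjoint, h2, g2]
      rw [Finset.disjoint_left]
      intro e he he'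
      exact hnot e (h1 he) (g1 he')
    · intro e he
      rcases mem_union.1 he with he | he
      · exact h3.1 e he
      · exact g3.1 e he
    · intro e he f hf hne
      rcases mem_union.1 he with he | he <;> rcases mem_union.1 hf with hf | hf
      · exact h3.2 e he f hf hne
      · exact hdis e (h1 he) f (g1 hf)
      · exact (hdis f (h1 hf) e (g1 he)).symm
      · exact g3.2 e he f hf hne
    · intro e he f hf hlt
      rcases mem_union.1 he with he | he <;> rcases mem_union.1 hf with hf | hf
      · exact h4 e he f hf hlt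
      · rw [fits_pat j k b 0 e f (fA e (h1 he)) (fB f (g1 hf))]
        exact hwP
      · exact absurd (hmin f (h1 hf) e (g1 he)) (lt_asymm hlt)
      · exact g4 e he f hf hlt
  · rintro ⟨K1, K1'⟩ hp1 ⟨K2, K2'⟩ hp2 heq
    rw [Finset.mem_coe, Finset.mem_product] at hp1 hp2
    have a1 := (mem_Cl.1 hp1.1).1.1
    have b1 := (mem_Cl.1 hp1.2).1.1
    have a2 := (mem_Cl.1 hp2.1).1.1
    have b2 := (mem_Cl.1 hp2.2).1.1
    simp only at a1 b1 a2 b2 heq
    have e1 : K1 = K2 := by
      apply Finset.Subset.antisymm
      · intro e he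
        have h5 : e ∈ K2 ∪ K2' := heq ▸ mem_union_left _ he
        rcases mem_union.1 h5 with h5 | h5
        · exact h5
        · exact (hnot e (a1 he) (b2 h5)).elim
      · intro e he
        have h5 : e ∈ K1 ∪ K1' := heq ▸ mem_union_left _ he
        rcases mem_union.1 h5 with h5 | h5
        · exact h5
        · exact (hnot e (a2 he) (b1 h5)).elim
    have e2 : K1' = K2' := by
      apply Finset.Subset.antisymm
      · intro e he
        have h5 : e ∈ K2 ∪ K2' := heq ▸ mem_union_right _ he
        rcases mem_union.1 h5 with h5 | h5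
        · exact (hnot e (a2 h5) (b1 he)).elim
        · exact h5
      · intro e he
        have h5 : e ∈ K1 ∪ K1' := heq ▸ mem_union_right _ he
        rcases mem_union.1 h5 with h5 | h5
        · exact (hnot e (a1 h5) (b2 he)).elim
        · exact h5
    rw [e1, e2]

end Pool.Agent.Work.MP_7d1693_pr.FM
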