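import Pool.Agent.Work.MP_7d1693_pr.FM.Defs

/-! # Module Reg (M): regularity of the growth rate

`f k = log (a k) ≥ 0`, `c = r log 2`: `f (j+k) ≥ f j + f k`, `f (j+k) ≤ f j + f k + c (j+k)`, and
`f (2k) ≤ 2 f k + 2 (r-1) k log 2 + log (2k+1)` for `k ≥ 1` (because `(2k).choose k ≥ 4^k / (2k+1)`: `Nat.four_pow_le_two_mul_self_mul_centralBinom` or
`four_pow_le_two_mul_add_one_mul_central_binom`). Let `G i = f (2^i) / 2^i`: `G i ≤ G (i+1) ≤ G i + c` and `G (i+1) ≤ G i + (r-1) log 2 + log (2^(i+1)+1) / 2^(i+1)`, and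
`∑_i log (2^(i+1)+1)/2^(i+1) ≤ ∑ (i+2)/2^(i+1) ≤ 3` (partial sums).
Claim A: for `2^i ≤ k < 2^(i+1)`: `k G i - 2 c k ≤ f k ≤ k G i + 2 c k`. Strong induction on `k`, `k = 2^i + k'`; `k' = 0` clear. Otherwise
`2^i' ≤ k' < 2^(i'+1)`, `i' < i`. Lower: `f k ≥ f (2^i) + f k' ≥ 2^i G i + k' G i' - 2 c k'`, `G i' ≥ G i - (i-i') c`, so it is enough that
`k' (i-i') ≤ 2^(i+1)`, true since `k' < 2^(i'+1)` and `i-i' ≤ 2^(i-i')`. Upper: `f k ≤ f (2^i) + f k' + c k ≤ k G i + 2 c k' + c k` (`G i' ≤ G i`) and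
`2 k' ≤ k`.
Now `j ≤ k`, `2^i ≤ j < 2^(i+1)`, `2^l ≤ k < 2^(l+1)`, `i ≤ l`. `(a j)^(1/j) = exp (f j / j) ≤ exp (G i + 2c) ≤ exp (G l + 2c) ≤ exp (f k/k + 4c)`: second inequality,
`phi_j ≤ exp(4c) (a k)^(1/k) / j^r = exp(4c) (k/j)^r phi_k`. First: `f k/k ≤ G l + 2c ≤ G i + (l-i)(r-1) log 2 + 3 + 2c ≤ f j/j + (l-i)(r-1) log 2 + 3 + 4c` and
`2^(l-i) ≤ 2k/j`, so `phi_k ≤ exp(3+4c) 2^(r-1) (k/j)^(r-1) (a j)^(1/j) / k^r = C (j/k) phi_j`. -/

namespace Pool.Agent.Work.MP_7d1693_pr.FM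

open Finset

section
variable {r : ℕ} {f : ℕ → ℝ} {c : ℝ}

/-- `f (2^i) / 2^i` -/
noncomputable def regG (f : ℕ → ℝ) (i : ℕ) : ℝ := f (2 ^ i) / 2 ^ i

theorem regG_eq (f : ℕ → ℝ) (i : ℕ) : f (2 ^ i) = 2 ^ i * regG f i := by
  unfold regG
  field_simp

theorem regG_step (hf1 : ∀ j k, f j + f k ≤ f (j + k)) (i : ℕ) : regG f i ≤ regG f (i + 1) := by
  have h := hf1 (2 ^ i) (2 ^ i)
  have e : 2 ^ i + 2 ^ i = 2 ^ (i + 1) := by ring
  rw [e, regG_eq f i, regG_eq f (i + 1), pow_succ] at h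
  have hp : (0 : ℝ) < 2 ^ i := by positivity
  nlinarith

theorem regG_mono (hf1 : ∀ j k, f j + f k ≤ f (j + k)) : Monotone (regG f) :=
  monotone_nat_of_le_succ (regG_step hf1)

theorem regG_step2 (hf2 : ∀ j k, f (j + k) ≤ f j + f k + c * ((j + k : ℕ) : ℝ)) (i : ℕ) :
    regG f (i + 1) ≤ regG f i + c := by
  have h := hf2 (2 ^ i) (2 ^ i)
  have e : 2 ^ i + 2 ^ i = 2 ^ (i + 1) := by ring
  rw [e, regG_eq f i, regG_eq f (i + 1)] at h
  push_cast at h
  rw [pow_succ] at h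
  have hp : (0 : ℝ) < 2 ^ i := by positivity
  have h' : 2 ^ i * (2 * regG f (i + 1)) ≤ (2 : ℝ) ^ i * (2 * (regG f i + c)) := by
    linarith
  have := le_of_mul_le_mul_left h' hp
  linarith

theorem regG_add (hf2 : ∀ j k, f (j + k) ≤ f j + f k + c * ((j + k : ℕ) : ℝ)) (i m : ℕ) :
    regG f (i + m) ≤ regG f i + m * c := by
  induction m with
  | zero => simp
  | succ m ih =>
    have := regG_step2 hf2 (i + m)
    have e : i + (m + 1) = i + m + 1 := by ring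
    rw [e]
    push_cast
    linarith

theorem regG_claim (hc : 0 ≤ c) (hf1 : ∀ j k, f j + f k ≤ f (j + k))
    (hf2 : ∀ j k, f (j + k) ≤ f j + f k + c * ((j + k : ℕ) : ℝ)) (k : ℕ) (hk : 1 ≤ k) :
    (k : ℝ) * regG f (Nat.log 2 k) - 2 * c * k ≤ f k ∧
      f k ≤ (k : ℝ) * regG f (Nat.log 2 k) + 2 * c * k := by
  induction k using Nat.strong_induction_on with
  | _ k ih =>
    obtain ⟨i, hi⟩ : ∃ i, Nat.log 2 k = i := ⟨_, rfl⟩
    rw [hi]
    have hlo : 2 ^ i ≤ k := by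
      rw [← hi]
      exact Nat.pow_log_le_self 2 (by omega)
    have hhi : k < 2 ^ (i + 1) := by
      rw [← hi]
      exact Nat.lt_pow_succ_log_self (by norm_num) k
    obtain ⟨k', rfl⟩ := Nat.exists_eq_add_of_le hlo
    have hk' : k' < 2 ^ i := by
      rw [pow_succ] at hhi
      omega
    rcases Nat.eq_zero_or_pos k' with h0 | hpos
    · subst h0
      rw [add_zero, regG_eq f i]
      push_cast
      have : 0 ≤ 2 * c * (2 : ℝ) ^ i := by positivity
      constructor <;> linarith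
    · have hlt : k' < 2 ^ i + k' := by
        have : 0 < 2 ^ i := by positivity
        omega
      obtain ⟨hA, hB⟩ := ih k' hlt hpos
      obtain ⟨i', hi'⟩ : ∃ i', Nat.log 2 k' = i' := ⟨_, rfl⟩
      rw [hi'] at hA hB
      have hlt' : i' < i := by
        rw [← hi']
        exact Nat.log_lt_of_lt_pow (by omega) hk'
      have hhi' : k' < 2 ^ (i' + 1) := by
        rw [← hi']
        exact Nat.lt_pow_succ_log_self (by norm_num) k'
      have hmono : regG f i' ≤ regG f i := regG_mono hf1 hlt'.le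
      obtain ⟨m, rfl⟩ := Nat.exists_eq_add_of_le hlt'.le
      have hadd := regG_add hf2 i' m
      have hk'r : (0 : ℝ) ≤ k' := Nat.cast_nonneg _
      have hF1 := hf1 (2 ^ (i' + m)) k'
      have hF2 := hf2 (2 ^ (i' + m)) k'
      rw [regG_eq f (i' + m)] at hF1 hF2
      have hnat : k' * m ≤ 2 ^ (i' + m + 1) := by
        have h1 : m ≤ 2 ^ m := (Nat.lt_two_pow_self).le
        calc k' * m ≤ 2 ^ (i' + 1) * 2 ^ m := Nat.mul_le_mul hhi'.le h1
          _ = 2 ^ (i' + m + 1) := by rw [← pow_add]; congr 1; ring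
      have hnatr : (k' : ℝ) * m ≤ 2 * 2 ^ (i' + m) := by
        have : ((k' * m : ℕ) : ℝ) ≤ ((2 ^ (i' + m + 1) : ℕ) : ℝ) := by exact_mod_cast hnat
        push_cast at this
        rw [pow_succ] at this
        linarith
      have h2k : (k' : ℝ) ≤ 2 ^ (i' + m) := by
        have : ((k' : ℕ) : ℝ) ≤ ((2 ^ (i' + m) : ℕ) : ℝ) := by exact_mod_cast hk'.le
        push_cast at this
        exact this
      push_cast at hF1 hF2 ⊢
      constructor
      · have t1 : (k' : ℝ) * regG f (i' + m) ≤ k' * (regG f i' + m * c) :=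
          mul_le_mul_of_nonneg_left hadd hk'r
        have t2 : c * ((k' : ℝ) * m) ≤ c * (2 * 2 ^ (i' + m)) := mul_le_mul_of_nonneg_left hnatr hc
        nlinarith
      · have t1 : (k' : ℝ) * regG f i' ≤ k' * regG f (i' + m) :=
          mul_le_mul_of_nonneg_left hmono hk'r
        have t2 : c * (k' : ℝ) ≤ c * 2 ^ (i' + m) := mul_le_mul_of_nonneg_left h2k hc
        nlinarith

theorem regG_dbl (_hr : 1 ≤ r)
    (hf3 : ∀ k, 1 ≤ k → f (2 * k) ≤ 2 * f k + 2 * ((r : ℝ) - 1) * k * Real.log 2 +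
      Real.log (2 * (k : ℝ) + 1)) (i : ℕ) :
    regG f (i + 1) + ((i + 1 : ℕ) + 3 : ℝ) / 2 ^ (i + 1) ≤
      regG f i + ((i : ℝ) + 3) / 2 ^ i + ((r : ℝ) - 1) * Real.log 2 := by
  have h := hf3 (2 ^ i) Nat.one_le_two_pow
  have e : 2 * 2 ^ i = 2 ^ (i + 1) := by ring
  rw [e, regG_eq f i, regG_eq f (i + 1)] at h
  push_cast at h ⊢
  have hp : (0 : ℝ) < 2 ^ i := by positivity
  have hp1 : (1 : ℝ) ≤ 2 ^ i := one_le_pow₀ (by norm_num)
  have hlog : Real.log (2 * (2 : ℝ) ^ i + 1) ≤ (i : ℝ) + 2 := by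
    have h1 : (2 : ℝ) * 2 ^ i + 1 ≤ 2 ^ (i + 2) := by
      rw [pow_add]
      linarith
    calc Real.log (2 * (2 : ℝ) ^ i + 1) ≤ Real.log (2 ^ (i + 2)) :=
          Real.log_le_log (by positivity) h1
      _ = ((i + 2 : ℕ) : ℝ) * Real.log 2 := by rw [Real.log_pow]
      _ ≤ ((i + 2 : ℕ) : ℝ) * 1 := by
          apply mul_le_mul_of_nonneg_left _ (Nat.cast_nonneg _)
          have := Real.log_two_lt_d9
          linarith
      _ = (i : ℝ) + 2 := by push_cast; ring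
  have hG : 2 ^ i * (2 * regG f (i + 1)) ≤ 2 ^ i * (2 * regG f i + 2 * (((r : ℝ) - 1) * Real.log 2)) +
      ((i : ℝ) + 2) := by
    rw [pow_succ] at h
    linarith
  have hG2 : 2 * regG f (i + 1) ≤ 2 * regG f i + 2 * (((r : ℝ) - 1) * Real.log 2) +
      ((i : ℝ) + 2) / 2 ^ i := by
    have h3 : ((i : ℝ) + 2) = 2 ^ i * (((i : ℝ) + 2) / 2 ^ i) := by field_simp
    rw [h3, ← mul_add] at hG
    exact le_of_mul_le_mul_left hG hp
  have e1 : ((i : ℝ) + 1 + 3) / 2 ^ (i + 1) = ((i : ℝ) + 3) / 2 ^ i - ((i : ℝ) + 2) / 2 ^ i / 2 := by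
    rw [pow_succ]
    field_simp
    ring
  rw [e1]
  linarith

theorem regG_dbl_add (hr : 1 ≤ r)
    (hf3 : ∀ k, 1 ≤ k → f (2 * k) ≤ 2 * f k + 2 * ((r : ℝ) - 1) * k * Real.log 2 +
      Real.log (2 * (k : ℝ) + 1)) (i m : ℕ) :
    regG f (i + m) + ((i + m : ℕ) + 3 : ℝ) / 2 ^ (i + m) ≤
      regG f i + ((i : ℝ) + 3) / 2 ^ i + m * (((r : ℝ) - 1) * Real.log 2) := by
  induction m with
  | zero => simp
  | succ m ih =>
    have := regG_dbl hr hf3 (i + m)
    have e : i + (m + 1) = i + m + 1 := by ring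
    rw [e]
    push_cast at this ih ⊢
    linarith

theorem regG_three (hr : 1 ≤ r)
    (hf3 : ∀ k, 1 ≤ k → f (2 * k) ≤ 2 * f k + 2 * ((r : ℝ) - 1) * k * Real.log 2 +
      Real.log (2 * (k : ℝ) + 1)) (i m : ℕ) :
    regG f (i + m) ≤ regG f i + 3 + m * (((r : ℝ) - 1) * Real.log 2) := by
  have h := regG_dbl_add hr hf3 i m
  have h1 : (0 : ℝ) ≤ ((i + m : ℕ) + 3 : ℝ) / 2 ^ (i + m) := by positivity
  have h2 : ((i : ℝ) + 3) / 2 ^ i ≤ 3 := by
    rw [div_le_iff₀ (by positivity)]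
    have : (i : ℝ) + 1 ≤ 2 ^ i := by
      have := Nat.lt_two_pow_self (n := i)
      have h : ((i + 1 : ℕ) : ℝ) ≤ ((2 ^ i : ℕ) : ℝ) := by exact_mod_cast this
      push_cast at h
      exact h
    have h0 : (0 : ℝ) ≤ i := Nat.cast_nonneg _
    linarith
  linarith

end

theorem reg (r : ℕ) (hr : 1 ≤ r) (a : ℕ → ℝ) (h1 : ∀ k, 1 ≤ a k)
    (hsup : ∀ j k, a j * a k ≤ a (j + k)) (hsub : ∀ j k, a (j + k) ≤ a j * a k * 2 ^ (r * (j + k)))
    (hdbl : ∀ k, a (2 * k) * ((2 * k).choose k : ℕ) ≤ a k ^ 2 * 4 ^ (r * k)) :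
    ∃ C : ℝ, 1 ≤ C ∧ ∀ j k : ℕ, 1 ≤ j → j ≤ k →
      (a k) ^ (1 / (k : ℝ)) / (k : ℝ) ^ r ≤
        C * ((j : ℝ) / k) * ((a j) ^ (1 / (j : ℝ)) / (j : ℝ) ^ r) ∧
      (a j) ^ (1 / (j : ℝ)) / (j : ℝ) ^ r ≤
        C * ((k : ℝ) / j) ^ r * ((a k) ^ (1 / (k : ℝ)) / (k : ℝ) ^ r) := by
  have hpos : ∀ k, 0 < a k := fun k => lt_of_lt_of_le one_pos (h1 k)
  have hL : 0 ≤ Real.log 2 := Real.log_nonneg (by norm_num)
  set f : ℕ → ℝ := fun k => Real.log (a k) with hf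
  set c : ℝ := (r : ℝ) * Real.log 2 with hcdef
  have hc : 0 ≤ c := by positivity
  have hf1 : ∀ j k, f j + f k ≤ f (j + k) := by
    intro j k
    simp only [hf]
    rw [← Real.log_mul (hpos j).ne' (hpos k).ne']
    exact Real.log_le_log (mul_pos (hpos j) (hpos k)) (hsup j k)
  have hf2 : ∀ j k, f (j + k) ≤ f j + f k + c * ((j + k : ℕ) : ℝ) := by
    intro j k
    simp only [hf, hcdef]
    have h := Real.log_le_log (hpos (j + k)) (hsub j k)
    rw [Real.log_mul (mul_pos (hpos j) (hpos k)).ne' (by positivity),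
      Real.log_mul (hpos j).ne' (hpos k).ne', Real.log_pow] at h
    push_cast at h ⊢
    linarith
  have hf3 : ∀ k, 1 ≤ k → f (2 * k) ≤ 2 * f k + 2 * ((r : ℝ) - 1) * k * Real.log 2 +
      Real.log (2 * (k : ℝ) + 1) := by
    intro k hk
    simp only [hf]
    have hch : (0 : ℝ) < ((2 * k).choose k : ℕ) := by
      exact_mod_cast Nat.choose_pos (by omega)
    have h := Real.log_le_log (mul_pos (hpos (2 * k)) hch) (hdbl k)
    rw [Real.log_mul (hpos (2 * k)).ne' hch.ne', Real.log_mul (pow_pos (hpos k) 2).ne' (by positivity),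
      Real.log_pow, Real.log_pow] at h
    have h4 : Real.log 4 = 2 * Real.log 2 := by
      rw [show (4 : ℝ) = 2 ^ 2 by norm_num, Real.log_pow]
      norm_num
    have hcb : (4 : ℝ) ^ k ≤ (2 * (k : ℝ) + 1) * ((2 * k).choose k : ℕ) := by
      have := Nat.four_pow_le_two_mul_add_one_mul_central_binom k
      exact_mod_cast this
    have hcb2 := Real.log_le_log (by positivity) hcb
    rw [Real.log_pow, Real.log_mul (by positivity) hch.ne', h4] at hcb2
    rw [h4] at h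
    push_cast at h
    linarith
  have hA := regG_claim hc hf1 hf2
  have hexp : ∀ k : ℕ, 1 ≤ k → (a k) ^ (1 / (k : ℝ)) = Real.exp (f k / k) := by
    intro k hk
    rw [Real.rpow_def_of_pos (hpos k)]
    congr 1
    simp only [hf]
    ring
  have hF : ∀ k : ℕ, 1 ≤ k → regG f (Nat.log 2 k) - 2 * c ≤ f k / k ∧
      f k / k ≤ regG f (Nat.log 2 k) + 2 * c := by
    intro k hk
    have hkp : (0 : ℝ) < k := by exact_mod_cast hk
    obtain ⟨hA1, hA2⟩ := hA k hk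
    constructor
    · rw [le_div_iff₀ hkp]
      linarith
    · rw [div_le_iff₀ hkp]
      linarith
  refine ⟨Real.exp (3 + 4 * c) * 2 ^ (r - 1), ?_, ?_⟩
  · have e1 : (1 : ℝ) ≤ Real.exp (3 + 4 * c) := Real.one_le_exp (by positivity)
    have e2 : (1 : ℝ) ≤ 2 ^ (r - 1) := one_le_pow₀ (by norm_num)
    nlinarith
  intro j k hj hjk
  have hk : 1 ≤ k := hj.trans hjk
  have hjp : (0 : ℝ) < j := by exact_mod_cast hj
  have hkp : (0 : ℝ) < k := by exact_mod_cast hk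
  obtain ⟨i, hi⟩ : ∃ i, Nat.log 2 j = i := ⟨_, rfl⟩
  obtain ⟨l, hl⟩ : ∃ l, Nat.log 2 k = l := ⟨_, rfl⟩
  have hil : i ≤ l := by
    rw [← hi, ← hl]
    exact Nat.log_mono_right hjk
  obtain ⟨hj1, hj2⟩ := hF j hj
  obtain ⟨hk1, hk2⟩ := hF k hk
  rw [hi] at hj1 hj2
  rw [hl] at hk1 hk2
  rw [hexp j hj, hexp k hk]
  constructor
  · obtain ⟨m, rfl⟩ := Nat.exists_eq_add_of_le hil
    have h3 := regG_three hr hf3 i m
    have hle : f k / k ≤ f j / j + (3 + 4 * c) + m * (((r : ℝ) - 1) * Real.log 2) := by linarith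
    have hr1 : ((r - 1 : ℕ) : ℝ) = (r : ℝ) - 1 := by
      push_cast [Nat.cast_sub hr]
      ring
    have hmexp : Real.exp (m * (((r : ℝ) - 1) * Real.log 2)) = ((2 : ℝ) ^ m) ^ (r - 1) := by
      rw [← Real.exp_log (show (0 : ℝ) < ((2 : ℝ) ^ m) ^ (r - 1) by positivity)]
      congr 1
      rw [Real.log_pow, Real.log_pow, hr1]
      ring
    have h2m : (2 : ℝ) ^ m ≤ 2 * k / j := by
      rw [le_div_iff₀ hjp]
      have h5 : j < 2 ^ (i + 1) := by
        rw [← hi]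
        exact Nat.lt_pow_succ_log_self (by norm_num) j
      have h6 : 2 ^ (i + m) ≤ k := by
        rw [← hl]
        exact Nat.pow_log_le_self 2 (by omega)
      have h7 : 2 ^ m * j ≤ 2 * k := by
        calc 2 ^ m * j ≤ 2 ^ m * 2 ^ (i + 1) := Nat.mul_le_mul_left _ h5.le
          _ = 2 * 2 ^ (i + m) := by ring
          _ ≤ 2 * k := Nat.mul_le_mul_left _ h6
      exact_mod_cast h7
    have hexple : Real.exp (f k / k) ≤
        Real.exp (f j / j) * Real.exp (3 + 4 * c) * (2 * k / j) ^ (r - 1) := by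
      calc Real.exp (f k / k) ≤
          Real.exp (f j / j + (3 + 4 * c) + m * (((r : ℝ) - 1) * Real.log 2)) :=
            Real.exp_le_exp.2 hle
        _ = Real.exp (f j / j) * Real.exp (3 + 4 * c) * ((2 : ℝ) ^ m) ^ (r - 1) := by
            rw [Real.exp_add, Real.exp_add, hmexp]
        _ ≤ Real.exp (f j / j) * Real.exp (3 + 4 * c) * (2 * k / j) ^ (r - 1) := by
            apply mul_le_mul_of_nonneg_left _ (by positivity)
            exact pow_le_pow_left₀ (by positivity) h2m _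
    have hrr : r = (r - 1) + 1 := by omega
    rw [div_le_iff₀ (by positivity)]
    refine hexple.trans (le_of_eq ?_)
    have e1 : ((j : ℝ)) ^ r = j ^ (r - 1) * j := by
      conv_lhs => rw [hrr, pow_succ]
    have e2 : ((k : ℝ)) ^ r = k ^ (r - 1) * k := by
      conv_lhs => rw [hrr, pow_succ]
    rw [e1, e2, div_pow, mul_pow]
    field_simp
  · have hGl : regG f i ≤ regG f l := regG_mono hf1 hil
    have hle : f j / j ≤ f k / k + 4 * c := by linarith
    have hexple : Real.exp (f j / j) ≤ Real.exp (3 + 4 * c) * 2 ^ (r - 1) * Real.exp (f k / k) := by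
      have e2 : (1 : ℝ) ≤ 2 ^ (r - 1) := one_le_pow₀ (by norm_num)
      calc Real.exp (f j / j) ≤ Real.exp ((3 + 4 * c) + f k / k) := Real.exp_le_exp.2 (by linarith)
        _ = Real.exp (3 + 4 * c) * 1 * Real.exp (f k / k) := by rw [Real.exp_add]; ring
        _ ≤ Real.exp (3 + 4 * c) * 2 ^ (r - 1) * Real.exp (f k / k) := by
            apply mul_le_mul_of_nonneg_right _ (by positivity)
            exact mul_le_mul_of_nonneg_left e2 (by positivity)
    rw [div_le_iff₀ (by positivity)]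
    refine hexple.trans (le_of_eq ?_)
    rw [div_pow]
    field_simp

end Pool.Agent.Work.MP_7d1693_pr.FM
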