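import Pool.Agent.Work.MP_7d1693_pr.FM.Defs
import Pool.Agent.Work.MP_7d1693_pr.FM.ESub
import Pool.Agent.Work.MP_7d1693_pr.FM.ESup
import Pool.Agent.Work.MP_7d1693_pr.FM.EOne
import Pool.Agent.Work.MP_7d1693_pr.FM.Reg

/-! # Module PhiReg (S): properties of `phi`

* `ac_pos`: `1 ≤ ac`: induction with `ac_sup`, `ac_zero`, `ac_one`.
* `phi_pow`: `phi k ^ k * k^(r*k) = ac k` for `k ≥ 1` (`Real.rpow_natCast`, `Real.rpow_mul`).
* `phi_lb`: `ac ≥ 1` so `ac^(1/k) ≥ 1`. `phi_pos` follows. `phi_one`: `ac_one`.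
* `phi_mul`: `ac (M*k) ≥ ac k ^ M` (induction, `ac_sup`), so `ac (M*k)^(1/(M*k)) ≥ ac k ^(1/k)`.
* `phi_reg`: `reg` with `a k = (ac r P lam k : ℝ)`; hypotheses `ac_pos`, `ac_sup`, `ac_sub2`, `ac_dbl` (cast). -/

namespace Pool.Agent.Work.MP_7d1693_pr.FM

open Finset

theorem ac_pos {r : ℕ} (hr : 1 ≤ r) {P : Set (List Bool)} {lam : List ℕ} (h : Adm r P lam) (k : ℕ) :
    1 ≤ ac r P lam k := by
  induction k with
  | zero => rw [ac_zero]
  | succ k ih =>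
    have h1 := ac_sup hr h k 1
    rw [ac_one P h.1, mul_one] at h1
    exact ih.trans h1

theorem phi_nonneg (r : ℕ) (P : Set (List Bool)) (lam : List ℕ) (k : ℕ) : 0 ≤ phi r P lam k := by
  unfold phi
  positivity

theorem phi_pow (r : ℕ) (P : Set (List Bool)) (lam : List ℕ) {k : ℕ} (hk : 1 ≤ k) :
    phi r P lam k ^ k * (k : ℝ) ^ (r * k) = ac r P lam k := by
  unfold phi
  have hkp : (0 : ℝ) < k := by exact_mod_cast hk
  rw [div_pow, ← pow_mul, div_mul_cancel₀ _ (by positivity), ← Real.rpow_natCast, ← Real.rpow_mul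
    (Nat.cast_nonneg _)]
  rw [one_div_mul_cancel hkp.ne', Real.rpow_one]

theorem phi_lb {r : ℕ} (hr : 1 ≤ r) {P : Set (List Bool)} {lam : List ℕ} (h : Adm r P lam) {k : ℕ}
    (hk : 1 ≤ k) : 1 / (k : ℝ) ^ r ≤ phi r P lam k := by
  unfold phi
  have hkp : (0 : ℝ) < k := by exact_mod_cast hk
  apply div_le_div_of_nonneg_right _ (by positivity)
  apply Real.one_le_rpow _ (by positivity)
  exact_mod_cast ac_pos hr h k

theorem phi_pos {r : ℕ} (hr : 1 ≤ r) {P : Set (List Bool)} {lam : List ℕ} (h : Adm r P lam) {k : ℕ}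
    (hk : 1 ≤ k) : 0 < phi r P lam k := by
  have hkp : (0 : ℝ) < k := by exact_mod_cast hk
  exact lt_of_lt_of_le (by positivity) (phi_lb hr h hk)

theorem phi_one {r : ℕ} (P : Set (List Bool)) {lam : List ℕ} (hs : lam.sum = r) :
    phi r P lam 1 = 1 := by
  unfold phi
  rw [ac_one P hs]
  simp

theorem ac_mul_pow {r : ℕ} (hr : 1 ≤ r) {P : Set (List Bool)} {lam : List ℕ} (h : Adm r P lam)
    (M k : ℕ) : ac r P lam k ^ M ≤ ac r P lam (M * k) := by
  induction M with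
  | zero => simp [ac_zero]
  | succ M ih =>
    rw [pow_succ, Nat.succ_mul]
    exact (Nat.mul_le_mul_right _ ih).trans (ac_sup hr h (M * k) k)

theorem phi_mul {r : ℕ} (hr : 1 ≤ r) {P : Set (List Bool)} {lam : List ℕ} (h : Adm r P lam) {M k : ℕ}
    (hM : 1 ≤ M) (hk : 1 ≤ k) : phi r P lam k ≤ (M : ℝ) ^ r * phi r P lam (M * k) := by
  have hkp : (0 : ℝ) < k := by exact_mod_cast hk
  have hMp : (0 : ℝ) < M := by exact_mod_cast hM
  unfold phi
  have h1 : (ac r P lam k : ℝ) ^ (1 / (k : ℝ)) ≤ (ac r P lam (M * k) : ℝ) ^ (1 / ((M * k : ℕ) : ℝ)) := by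
    have e : (ac r P lam k : ℝ) ^ (1 / (k : ℝ)) =
        ((ac r P lam k : ℝ) ^ M) ^ (1 / ((M * k : ℕ) : ℝ)) := by
      rw [← Real.rpow_natCast (ac r P lam k : ℝ) M, ← Real.rpow_mul (Nat.cast_nonneg _)]
      congr 1
      push_cast
      field_simp
    rw [e]
    apply Real.rpow_le_rpow (by positivity) _ (by positivity)
    exact_mod_cast ac_mul_pow hr h M k
  have e2 : (M : ℝ) ^ r * ((ac r P lam (M * k) : ℝ) ^ (1 / ((M * k : ℕ) : ℝ)) /
      ((M * k : ℕ) : ℝ) ^ r) = (ac r P lam (M * k) : ℝ) ^ (1 / ((M * k : ℕ) : ℝ)) / (k : ℝ) ^ r := by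
    push_cast
    rw [mul_pow]
    field_simp
  rw [e2]
  exact div_le_div_of_nonneg_right h1 (by positivity)

theorem phi_reg {r : ℕ} (hr : 1 ≤ r) {P : Set (List Bool)} {lam : List ℕ} (h : Adm r P lam) :
    ∃ C : ℝ, 1 ≤ C ∧ ∀ j k : ℕ, 1 ≤ j → j ≤ k →
      phi r P lam k ≤ C * ((j : ℝ) / k) * phi r P lam j ∧
      phi r P lam j ≤ C * ((k : ℝ) / j) ^ r * phi r P lam k := by
  have := reg r hr (fun k => (ac r P lam k : ℝ))
    (fun k => by exact_mod_cast ac_pos hr h k)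
    (fun j k => by exact_mod_cast ac_sup hr h j k)
    (fun j k => by exact_mod_cast ac_sub2 hr P h.1 j k)
    (fun k => by exact_mod_cast ac_dbl hr P h.1 k)
  exact this

end Pool.Agent.Work.MP_7d1693_pr.FM
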