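import Pool.Agent.Work.MP_7d1693_pr.FM.Defs
import Pool.Agent.Work.MP_7d1693_pr.FM.PhiReg

/-! # Module AlReg (S): properties of `al`

Sum of finitely many `phi lam k ≥ 0` over admissible `lam` with first part `≤ j`. `al_ge`: one term of the sum (`mem_comps`, `adm_comp`). `al_lb`: `phi_lb` for one term. `al_mul`: `phi_mul` termwise. -/

namespace Pool.Agent.Work.MP_7d1693_pr.FM

open Finset

theorem al_nonneg (r : ℕ) (P : Set (List Bool)) (j k : ℕ) : 0 ≤ al r P j k := by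
  unfold al
  exact Finset.sum_nonneg (fun lam _ => phi_nonneg r P lam k)

theorem al_ge {r : ℕ} {P : Set (List Bool)} {lam : List ℕ} (h : Adm r P lam) {j : ℕ}
    (hj : lam.headD 0 ≤ j) (k : ℕ) : phi r P lam k ≤ al r P j k := by
  classical
  unfold al
  refine Finset.single_le_sum (f := fun lam => phi r P lam k)
    (fun lam _ => phi_nonneg r P lam k) ?_
  rw [Finset.mem_filter]
  exact ⟨mem_comps.2 (adm_comp h), h, hj⟩

theorem al_lb {r : ℕ} (hr : 1 ≤ r) {P : Set (List Bool)} {j : ℕ}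
    (h : ∃ lam, Adm r P lam ∧ lam.headD 0 ≤ j) {k : ℕ} (hk : 1 ≤ k) :
    1 / (k : ℝ) ^ r ≤ al r P j k := by
  obtain ⟨lam, h1, h2⟩ := h
  exact (phi_lb hr h1 hk).trans (al_ge h1 h2 k)

theorem al_mul {r : ℕ} (hr : 1 ≤ r) {P : Set (List Bool)} {j M k : ℕ} (hM : 1 ≤ M) (hk : 1 ≤ k) :
    al r P j k ≤ (M : ℝ) ^ r * al r P j (M * k) := by
  classical
  unfold al
  rw [Finset.mul_sum]
  refine Finset.sum_le_sum ?_
  intro lam hl
  exact phi_mul hr (Finset.mem_filter.1 hl).2.1 hM hk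

end Pool.Agent.Work.MP_7d1693_pr.FM
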