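import Pool.Agent.Work.MP_7d1693_pr.FM.Defs
import Pool.Agent.Work.MP_7d1693_pr.FM.Vert

/-! # Module ChB (S-M): estimates for the product of binomials

* `chB_le`: for a box whose parts are all positive with sum `r` and `k ≥ 1`: `chB B k * k^(r*k) ≤ (exp r * volB B)^k`: each factor satisfies
  `(L).choose (k s) ≤ L^(k s)/(k s)! ≤ L^(k s) (exp 1/(k s))^(k s) ≤ L^(s k) exp (s k) / k^(s k)` (`Nat.choose_le_pow_div`, `m! ≥ (m/e)^m`:
  `Nat.factorial_lt_..`/`Real.add_pow_le_pow_mul_pow_of_add_eq_one`, or `exp m ≥ m^m/m!` = `Real.pow_div_factorial_le_exp`), `s ≥ 1`. Induction on `B`, with exponents `(shape B).sum`.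
* `le_chB`: if moreover `k * s ≤ L` for every interval: `volB B ^ k ≤ chB B k * (r^r * k^r)^k`, from `(L/(k s))^(k s) ≤ L.choose (k s)` (`Nat.pow_le_choose`-type: `Nat.pow_sub_le..`;
  Mathlib has `Nat.pow_le_choose`; or the product `∏ (L-i)/(k s-i)`), and `s ≤ r`. If `L = 0` and `s ≥ 1`, `k ≥ 1` the hypothesis fails, so `L ≥ 1`.
* `Ebox_card`: `(Ebox r B).card ≤ volB B` for an ordered box with sum `r`: it is `(Ubox B 1).card = chB B 1` up to the cardinality condition (contained in it), `L.choose s ≤ L^s`. -/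

namespace Pool.Agent.Work.MP_7d1693_pr.FM

open Finset

private theorem chB_nil (k : ℕ) : chB [] k = 1 := rfl

private theorem chB_cons (b : ℕ × ℕ × ℕ) (B : Box) (k : ℕ) :
    chB (b :: B) k = (b.2.2 - b.2.1).choose (k * b.1) * chB B k := by
  unfold chB
  rw [List.map_cons, List.prod_cons]

private theorem volB_cons (b : ℕ × ℕ × ℕ) (B : Box) :
    volB (b :: B) = (b.2.2 - b.2.1) ^ b.1 * volB B := by
  unfold volB
  rw [List.map_cons, List.prod_cons]

private theorem shape_cons (b : ℕ × ℕ × ℕ) (B : Box) :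
    shape (b :: B) = b.1 :: shape B := rfl

private theorem chB_one {L s k : ℕ} (hs : 1 ≤ s) :
    ((L.choose (k * s) : ℕ) : ℝ) * (k : ℝ) ^ (s * k) ≤ (Real.exp s * (L : ℝ) ^ s) ^ k := by
  have h1 : ((L.choose (k * s) : ℕ) : ℝ) ≤ (L : ℝ) ^ (k * s) / ((k * s).factorial : ℝ) :=
    Nat.choose_le_pow_div (α := ℝ) (k * s) L
  have h2 := Real.pow_div_factorial_le_exp ((k * s : ℕ) : ℝ) (Nat.cast_nonneg _) (k * s)
  have h3 : (k : ℝ) ^ (k * s) ≤ ((k * s : ℕ) : ℝ) ^ (k * s) := by
    apply pow_le_pow_left₀ (Nat.cast_nonneg _)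
    exact_mod_cast Nat.le_mul_of_pos_right k hs
  have h4 : (0 : ℝ) < ((k * s).factorial : ℝ) := by exact_mod_cast Nat.factorial_pos _
  rw [mul_comm s k]
  calc ((L.choose (k * s) : ℕ) : ℝ) * (k : ℝ) ^ (k * s)
      ≤ (L : ℝ) ^ (k * s) / ((k * s).factorial : ℝ) * (k : ℝ) ^ (k * s) :=
        mul_le_mul_of_nonneg_right h1 (by positivity)
    _ ≤ (L : ℝ) ^ (k * s) / ((k * s).factorial : ℝ) * ((k * s : ℕ) : ℝ) ^ (k * s) :=
        mul_le_mul_of_nonneg_left h3 (by positivity)
    _ = (L : ℝ) ^ (k * s) * (((k * s : ℕ) : ℝ) ^ (k * s) / ((k * s).factorial : ℝ)) := by ring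
    _ ≤ (L : ℝ) ^ (k * s) * Real.exp ((k * s : ℕ) : ℝ) :=
        mul_le_mul_of_nonneg_left h2 (by positivity)
    _ = (Real.exp s * (L : ℝ) ^ s) ^ k := by
        rw [mul_pow, ← pow_mul, mul_comm s k, ← Real.exp_nat_mul, mul_comm]
        push_cast
        rfl

private theorem chB_le_aux (k : ℕ) : ∀ B : Box, (∀ a ∈ shape B, 0 < a) →
    (chB B k : ℝ) * (k : ℝ) ^ ((shape B).sum * k) ≤
      (Real.exp ((shape B).sum : ℕ) * volB B) ^ k := by
  intro B
  induction B with
  | nil =>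
    intro _
    simp [chB, volB, shape]
  | cons b B ih =>
    intro h
    have h1 : 1 ≤ b.1 := h _ (by rw [shape_cons]; exact List.mem_cons_self)
    have h2 := ih fun a ha => h a (by rw [shape_cons]; exact List.mem_cons_of_mem _ ha)
    have h3 := chB_one (L := b.2.2 - b.2.1) (k := k) h1
    rw [chB_cons, volB_cons, shape_cons, List.sum_cons, add_mul, pow_add, Nat.cast_mul,
      Nat.cast_mul, Nat.cast_add, Real.exp_add, Nat.cast_pow]
    calc (((b.2.2 - b.2.1).choose (k * b.1) : ℕ) : ℝ) * (chB B k : ℝ) *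
          ((k : ℝ) ^ (b.1 * k) * (k : ℝ) ^ ((shape B).sum * k))
        = ((((b.2.2 - b.2.1).choose (k * b.1) : ℕ) : ℝ) * (k : ℝ) ^ (b.1 * k)) *
          ((chB B k : ℝ) * (k : ℝ) ^ ((shape B).sum * k)) := by ring
      _ ≤ (Real.exp b.1 * ((b.2.2 - b.2.1 : ℕ) : ℝ) ^ b.1) ^ k *
          (Real.exp ((shape B).sum : ℕ) * volB B) ^ k :=
          mul_le_mul h3 h2 (by positivity) (by positivity)
      _ = _ := by
          rw [← mul_pow]
          ring

private theorem pow_le_ch {n m : ℕ} (h : m ≤ n) : n ^ m ≤ n.choose m * m ^ m := by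
  have h1 : n ^ m * m.factorial ≤ m ^ m * n.descFactorial m := by
    rw [← Nat.descFactorial_self m, Nat.descFactorial_eq_prod_range, Nat.descFactorial_eq_prod_range]
    have e1 : n ^ m * ∏ i ∈ range m, (m - i) = ∏ i ∈ range m, (n * (m - i)) := by
      rw [Finset.prod_mul_distrib, Finset.prod_const, card_range]
    have e2 : m ^ m * ∏ i ∈ range m, (n - i) = ∏ i ∈ range m, (m * (n - i)) := by
      rw [Finset.prod_mul_distrib, Finset.prod_const, card_range]
    rw [e1, e2]
    refine Finset.prod_le_prod' fun i hi => ?_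
    have hi' := mem_range.1 hi
    rw [Nat.mul_sub, Nat.mul_sub, mul_comm m n]
    exact Nat.sub_le_sub_left (Nat.mul_le_mul_right i h) _
  rw [Nat.descFactorial_eq_factorial_mul_choose] at h1
  have h2 : 0 < m.factorial := Nat.factorial_pos m
  have h3 : n ^ m * m.factorial ≤ n.choose m * m ^ m * m.factorial := by
    calc n ^ m * m.factorial ≤ m ^ m * (m.factorial * n.choose m) := h1
      _ = n.choose m * m ^ m * m.factorial := by ring
  exact Nat.le_of_mul_le_mul_right h3 h2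

private theorem le_chB_aux (r k : ℕ) : ∀ B : Box, (∀ a ∈ shape B, a ≤ r) →
    (∀ b ∈ B, k * b.1 ≤ b.2.2 - b.2.1) →
    volB B ^ k ≤ chB B k * (r ^ (shape B).sum * k ^ (shape B).sum) ^ k := by
  intro B
  induction B with
  | nil =>
    intro _ _
    simp [chB, volB, shape]
  | cons b B ih =>
    intro h hL
    have h1 : b.1 ≤ r := h _ (by rw [shape_cons]; exact List.mem_cons_self)
    have h2 := ih (fun a ha => h a (by rw [shape_cons]; exact List.mem_cons_of_mem _ ha))
      (fun b' hb' => hL b' (List.mem_cons_of_mem _ hb'))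
    have h3 := pow_le_ch (hL b List.mem_cons_self)
    rw [chB_cons, volB_cons, shape_cons, List.sum_cons, mul_pow]
    have h4 : ((b.2.2 - b.2.1) ^ b.1) ^ k ≤
        (b.2.2 - b.2.1).choose (k * b.1) * (r ^ b.1 * k ^ b.1) ^ k := by
      rw [← pow_mul, mul_comm b.1 k]
      refine h3.trans (Nat.mul_le_mul_left _ ?_)
      rw [mul_comm k b.1, pow_mul, ← mul_pow]
      apply Nat.pow_le_pow_left
      apply Nat.pow_le_pow_left
      exact Nat.mul_le_mul_right k h1
    calc ((b.2.2 - b.2.1) ^ b.1) ^ k * volB B ^ k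
        ≤ ((b.2.2 - b.2.1).choose (k * b.1) * (r ^ b.1 * k ^ b.1) ^ k) *
          (chB B k * (r ^ (shape B).sum * k ^ (shape B).sum) ^ k) := Nat.mul_le_mul h4 h2
      _ = _ := by
          rw [pow_add, pow_add]
          ring

private theorem vert_nil' : vert [] = ∅ := by
  unfold vert
  rfl

private theorem vert_cons' (b : ℕ × ℕ × ℕ) (B : Box) :
    vert (b :: B) = Ico b.2.1 b.2.2 ∪ vert B := by
  unfold vert
  rw [List.toFinset_cons, biUnion_insert]

private theorem Ico_sub_vert {b : ℕ × ℕ × ℕ} {B : Box} (h : b ∈ B) {v : ℕ}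
    (hv : b.2.1 ≤ v ∧ v < b.2.2) : v ∈ vert B := by
  unfold vert
  rw [mem_biUnion]
  exact ⟨b, List.mem_toFinset.2 h, mem_Ico.2 hv⟩

open Classical in
private theorem mem_Ebox' {r : ℕ} {B : Box} {e : Finset ℕ} :
    e ∈ Ebox r B ↔ (e ⊆ vert B ∧ e.card = r) ∧ InB B 1 e := by
  unfold Ebox
  rw [mem_filter, mem_powersetCard]

private theorem Ebox_aux (b : ℕ × ℕ × ℕ) (B : Box) (hge : ∀ v ∈ vert B, b.2.2 ≤ v) (R : ℕ) :
    (Ebox (b.1 + R) (b :: B)).card ≤ (b.2.2 - b.2.1) ^ b.1 * (Ebox R B).card := by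
  classical
  have h1 : (b.2.2 - b.2.1).choose b.1 ≤ (b.2.2 - b.2.1) ^ b.1 := Nat.choose_le_pow _ _
  refine le_trans ?_ (Nat.mul_le_mul_right _ h1)
  have h2 : (b.2.2 - b.2.1).choose b.1 = ((Ico b.2.1 b.2.2).powersetCard b.1).card := by
    rw [card_powersetCard, Nat.card_Ico]
  rw [h2, ← card_product]
  have hsplit : ∀ e ∈ Ebox (b.1 + R) (b :: B),
      e = (e.filter fun v => b.2.1 ≤ v ∧ v < b.2.2) ∪ (e.filter fun v => v ∈ vert B) := by
    intro e he
    rw [mem_Ebox', vert_cons'] at he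
    rw [← filter_or]
    symm
    rw [filter_true_of_mem]
    intro v hv
    rcases mem_union.1 (he.1.1 hv) with h | h
    · exact Or.inl (mem_Ico.1 h)
    · exact Or.inr h
  refine card_le_card_of_injOn
    (fun e => (e.filter fun v => b.2.1 ≤ v ∧ v < b.2.2, e.filter fun v => v ∈ vert B)) ?_ ?_
  · intro e he
    have he' := he
    rw [mem_coe, mem_Ebox', vert_cons'] at he'
    have h3 : (e.filter fun v => b.2.1 ≤ v ∧ v < b.2.2).card = b.1 := by
      have := he'.2 b List.mem_cons_self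
      rw [one_mul] at this
      exact this
    have hdis : Disjoint (e.filter fun v => b.2.1 ≤ v ∧ v < b.2.2)
        (e.filter fun v => v ∈ vert B) := by
      rw [disjoint_left]
      intro v hv hv'
      have e1 := (mem_filter.1 hv).2.2
      have e2 := hge v (mem_filter.1 hv').2
      omega
    rw [mem_coe, mem_product, mem_powersetCard, mem_Ebox']
    refine ⟨⟨fun v hv => mem_Ico.2 (mem_filter.1 hv).2, h3⟩,
      ⟨fun v hv => (mem_filter.1 hv).2, ?_⟩, ?_⟩
    · have h4 := congrArg Finset.card (hsplit e he)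
      rw [card_union_of_disjoint hdis, he'.1.2, h3] at h4
      show (e.filter fun v => v ∈ vert B).card = R
      omega
    · intro b' hb'
      have h5 := he'.2 b' (List.mem_cons_of_mem _ hb')
      rw [← h5]
      congr 1
      ext v
      simp only [mem_filter]
      constructor
      · rintro ⟨⟨h6, _⟩, h7⟩
        exact ⟨h6, h7⟩
      · rintro ⟨h6, h7⟩
        exact ⟨⟨h6, Ico_sub_vert hb' h7⟩, h7⟩
  · intro e he e' he' hee
    rw [Prod.mk.injEq] at hee
    rw [hsplit e he, hsplit e' he', hee.1, hee.2]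

theorem chB_le {r : ℕ} {B : Box} (h : Comp r (shape B)) {k : ℕ} (hk : 1 ≤ k) :
    (chB B k : ℝ) * (k : ℝ) ^ (r * k) ≤ (Real.exp r * volB B) ^ k := by
  have h1 := chB_le_aux k B h.2
  rw [h.1] at h1
  exact h1

theorem le_chB {r : ℕ} {B : Box} (h : Comp r (shape B)) {k : ℕ} (hk : 1 ≤ k)
    (hL : ∀ b ∈ B, k * b.1 ≤ b.2.2 - b.2.1) :
    (volB B : ℝ) ^ k ≤ (chB B k : ℝ) * ((r : ℝ) ^ r * (k : ℝ) ^ r) ^ k := by
  have h1 := le_chB_aux r k B (fun a ha => h.1 ▸ List.le_sum_of_mem ha) hL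
  rw [h.1] at h1
  exact_mod_cast h1

theorem Ebox_card {r : ℕ} {c : ℕ} {B : Box} (hB : BOrd c B) (h : (shape B).sum = r) :
    (Ebox r B).card ≤ volB B := by
  classical
  induction B generalizing r c with
  | nil =>
    have h0 : r = 0 := by
      rw [← h]
      rfl
    subst h0
    have h1 : Ebox 0 [] ⊆ {∅} := by
      intro e he
      rw [mem_Ebox'] at he
      rw [mem_singleton]
      exact card_eq_zero.1 he.1.2
    exact (card_le_card h1).trans (by simp [volB])
  | cons b B ih =>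
    obtain ⟨-, -, h3⟩ := hB
    rw [shape_cons, List.sum_cons] at h
    rw [← h, volB_cons]
    exact (Ebox_aux b B (fun v hv => vert_ge h3 hv) _).trans
      (Nat.mul_le_mul_left _ (ih h3 rfl))

end Pool.Agent.Work.MP_7d1693_pr.FM
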