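import Pool.Agent.Work.MP_7d1693_pr.FM.Defs
import Pool.Agent.Work.MP_7d1693_pr.INCL
import Pool.Agent.Work.MP_7d1693_pr.OUT
import Pool.Agent.Work.MP_7d1693_pr.FM.ETot
import Pool.Agent.Work.MP_7d1693_pr.FM.ChB
import Pool.Agent.Work.MP_7d1693_pr.FM.PhiReg
import Pool.Agent.Work.MP_7d1693_pr.FM.Vert

/-! # Module FirstM (M): first moment bound in a box

* `inc0`: `pr (K ⊆ M) ≤ (C0/n^(r-1))^|K|`: if some edge of `K` is not contained in `range (r n)` or `K.card > n ≥ t` the event is impossible (`out_struct`, `incl_zero'`), otherwise `pr_incl` (with `N = n`) and `incl_num`;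
  `C0 = (r-1)! exp (r-1)`.
* `first_m`: `Big P B x M` on an outcome `M` gives a subset `K` of exactly `x` edges which is a clique, a family (`out_struct`), with `InB B 1`, so in `Cl r P B x` (the edges lie in `vert B` by `sub_vert`, their cardinal is
  `r = (shape B).sum`). Union bound (`pr_union` over `Cl r P B x`, after `pr_mono` on outcomes): `≤ (Cl x).card (C0/D)^x`, and `(Cl x).card = ac chB` (`card_Cl`) with `chB x^(r x) ≤ (exp r volB)^x` (`chB_le`) and
  `ac = phi^x x^(r x)` (`phi_pow`): `≤ (phi exp r volB C0/D)^x`. `C1 = C0 exp r`, `nu = volB/D`. -/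

namespace Pool.Agent.Work.MP_7d1693_pr.FM

open Finset

theorem inc0 {r : ℕ} (hr : 2 ≤ r) : ∃ C0 : ℝ, 1 ≤ C0 ∧ ∀ (n t : ℕ) (K : Finset (Finset ℕ)), 1 ≤ t →
    t ≤ n → Fam r K →
    pr r t (range (r * n)) (fun M => K ⊆ M) ≤ (C0 / (n : ℝ) ^ (r - 1)) ^ K.card := by
  refine ⟨((r - 1).factorial : ℝ) * Real.exp (r - 1), ?_, ?_⟩
  · have h1 : (1 : ℝ) ≤ ((r - 1).factorial : ℝ) := by
      exact_mod_cast Nat.factorial_pos _
    have h2 : (1 : ℝ) ≤ Real.exp ((r : ℝ) - 1) := by
      apply Real.one_le_exp
      have : (2 : ℝ) ≤ r := by exact_mod_cast hr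
      linarith
    nlinarith
  · intro n t K ht htn hK
    by_cases hall : ∀ e ∈ K, e ⊆ range (r * n)
    · have hkn : K.card ≤ n := by
        have h2 : (K.biUnion id).card = r * K.card := INCLaux.incl_card_sup r K hK
        have h3 : K.biUnion id ⊆ range (r * n) := by
          intro x hx
          rw [Finset.mem_biUnion] at hx
          obtain ⟨e, he, hxe⟩ := hx
          exact hall e he hxe
        have h4 := Finset.card_le_card h3
        rw [h2, Finset.card_range] at h4
        exact Nat.le_of_mul_le_mul_left h4 (by omega)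
      exact (pr_incl r hr n t htn (range (r * n)) (Finset.card_range _) K hK hall).trans
        (incl_num r hr n K.card hkn)
    · rw [INCLaux.incl_zero' r hr t (range (r * n)) (fun M => K ⊆ M)]
      · apply pow_nonneg
        apply div_nonneg
        · positivity
        · positivity
      · intro M hM hKM
        exact hall (fun e he => hM e (hKM he))

theorem first_m {r : ℕ} (hr : 2 ≤ r) (P : Set (List Bool)) : ∃ C1 : ℝ, 1 ≤ C1 ∧
    ∀ (n t x : ℕ) (B : Box), 1 ≤ t → t ≤ n → 1 ≤ x → BOrd 0 B → Comp r (shape B) →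
      pr r t (range (r * n)) (Big P B x) ≤ (C1 * (nu r n B * phi r P (shape B) x)) ^ x := by
  classical
  obtain ⟨C0, hC0, h0⟩ := inc0 hr
  refine ⟨C0 * Real.exp r, ?_, ?_⟩
  · have h2 : (1 : ℝ) ≤ Real.exp (r : ℝ) := Real.one_le_exp (Nat.cast_nonneg _)
    nlinarith
  · intro n t x B ht htn hx hB hs
    have hcard : r * t ≤ (range (r * n)).card := by
      rw [Finset.card_range]; exact Nat.mul_le_mul_left r htn
    have step1 : pr r t (range (r * n)) (Big P B x) ≤
        pr r t (range (r * n)) (fun M => ∃ K ∈ Cl r P B x, K ⊆ M) := by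
      apply pr_mono
      intro M hM hbig
      obtain ⟨K, hKM, hxK, hcl, hin⟩ := hbig
      obtain ⟨hMc, hFam, hsub⟩ := out_struct r t (by omega) (range (r * n)) hcard M hM
      obtain ⟨K', hK'sub, hK'c⟩ := Finset.exists_subset_card_eq hxK
      refine ⟨K', ?_, hK'sub.trans hKM⟩
      unfold Cl
      rw [Finset.mem_filter, Finset.mem_powersetCard]
      refine ⟨⟨?_, hK'c⟩, ⟨?_, ?_⟩, ?_⟩
      · intro e he
        have heM := hKM (hK'sub he)
        unfold Ebox
        rw [Finset.mem_filter, Finset.mem_powersetCard]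
        refine ⟨⟨?_, hFam.1 e heM⟩, hin e (hK'sub he)⟩
        apply sub_vert hB (hin e (hK'sub he))
        rw [one_mul, hs.1]
        exact hFam.1 e heM
      · intro e he
        exact hFam.1 e (hKM (hK'sub he))
      · intro e he f hf
        exact hFam.2 e (hKM (hK'sub he)) f (hKM (hK'sub hf))
      · intro e he f hf
        exact hcl e (hK'sub he) f (hK'sub hf)
    refine step1.trans ((pr_union r t (range (r * n)) (Cl r P B x) (fun K M => K ⊆ M)).trans ?_)
    have hq : ∀ K ∈ Cl r P B x, pr r t (range (r * n)) (fun M => K ⊆ M) ≤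
        (C0 / (n : ℝ) ^ (r - 1)) ^ x := by
      intro K hK
      unfold Cl at hK
      rw [Finset.mem_filter, Finset.mem_powersetCard] at hK
      have := h0 n t K ht htn hK.2.1
      rwa [hK.1.2] at this
    refine (Finset.sum_le_sum hq).trans ?_
    rw [Finset.sum_const, nsmul_eq_mul]
    have hcl : ((Cl r P B x).card : ℝ) ≤
        (phi r P (shape B) x * (Real.exp r * volB B)) ^ x := by
      rw [card_Cl (by omega) P hB hs.1 x]
      push_cast
      rw [← phi_pow r P (shape B) hx, mul_pow (phi r P (shape B) x)]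
      have h1 := chB_le hs hx
      have h2 : (0 : ℝ) ≤ phi r P (shape B) x ^ x := pow_nonneg (phi_nonneg _ _ _ _) _
      calc phi r P (shape B) x ^ x * (x : ℝ) ^ (r * x) * (chB B x : ℝ)
          = phi r P (shape B) x ^ x * ((chB B x : ℝ) * (x : ℝ) ^ (r * x)) := by ring
        _ ≤ _ := mul_le_mul_of_nonneg_left h1 h2
    refine (mul_le_mul_of_nonneg_right hcl (by positivity)).trans (le_of_eq ?_)
    rw [← mul_pow]
    congr 1
    unfold nu
    ring

end Pool.Agent.Work.MP_7d1693_pr.FM
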