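import Pool.Agent.Work.MP_7d1693_pr.FM.Defs
import Pool.Agent.Work.MP_7d1693_pr.FM.FirstM
import Pool.Agent.Work.MP_7d1693_pr.FM.AlReg

/-! # Module AdmCase (S): boxes of admissible shape

`first_m`: `pr ≤ (C1 nu phi)^x ≤ (C1 nu al)^x` (`al_ge`). With `y = C1 nu al ≤ 1/2`: `y^x ≤ y (1/2)^(x-1) ≤ 2 y/x` since `2^(x-1) ≥ x/2`. So `C = 2 C1`, `c = 1/(2 C1)`. -/

namespace Pool.Agent.Work.MP_7d1693_pr.FM

open Finset

theorem adm_case {r : ℕ} (hr : 2 ≤ r) (P : Set (List Bool)) (j : ℕ) : ∃ C c : ℝ, 0 < C ∧ 0 < c ∧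
    ∀ (n t x : ℕ) (B : Box), 1 ≤ t → t ≤ n → 1 ≤ x → BOrd 0 B → Adm r P (shape B) →
      (shape B).headD 0 ≤ j → nu r n B * al r P j x ≤ c →
      pr r t (range (r * n)) (Big P B x) ≤ C * (nu r n B * al r P j x) / x := by
  obtain ⟨C1, hC1, h⟩ := first_m hr P
  have hC0 : (0 : ℝ) < C1 := lt_of_lt_of_le one_pos hC1
  refine ⟨2 * C1, 1 / (2 * C1), by positivity, by positivity, ?_⟩
  intro n t x B ht htn hx hB hadm hhead hnu
  have hnu0 : 0 ≤ nu r n B := by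
    unfold nu
    positivity
  have hal : phi r P (shape B) x ≤ al r P j x := al_ge hadm hhead x
  have h1 := h n t x B ht htn hx hB (adm_comp hadm)
  have hy0 : 0 ≤ C1 * (nu r n B * al r P j x) :=
    mul_nonneg hC0.le (mul_nonneg hnu0 (al_nonneg r P j x))
  have hyle : C1 * (nu r n B * al r P j x) ≤ 1 / 2 := by
    have h2 : C1 * (nu r n B * al r P j x) ≤ C1 * (1 / (2 * C1)) :=
      mul_le_mul_of_nonneg_left hnu hC0.le
    have h3 : C1 * (1 / (2 * C1)) = 1 / 2 := by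
      field_simp
    linarith
  have h4 : (C1 * (nu r n B * phi r P (shape B) x)) ^ x ≤
      (C1 * (nu r n B * al r P j x)) ^ x := by
    refine pow_le_pow_left₀ ?_ ?_ x
    · exact mul_nonneg hC0.le (mul_nonneg hnu0 (phi_nonneg r P _ x))
    · exact mul_le_mul_of_nonneg_left (mul_le_mul_of_nonneg_left hal hnu0) hC0.le
  refine h1.trans (h4.trans ?_)
  have hx0 : (0 : ℝ) < x := by
    exact_mod_cast hx
  rw [le_div_iff₀ hx0]
  obtain ⟨m, rfl⟩ : ∃ m, x = m + 1 := ⟨x - 1, by omega⟩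
  generalize hyd : C1 * (nu r n B * al r P j (m + 1)) = y at hy0 hyle
  have h5 : y ^ m ≤ (1 / 2 : ℝ) ^ m := pow_le_pow_left₀ hy0 hyle m
  have h6 : ((m + 1 : ℕ) : ℝ) ≤ 2 ^ (m + 1) := by
    have := Nat.lt_two_pow_self (n := m + 1)
    exact_mod_cast this.le
  have h7 : (1 / 2 : ℝ) ^ m * ((m + 1 : ℕ) : ℝ) ≤ 2 := by
    have h8 : (1 / 2 : ℝ) ^ m * ((m + 1 : ℕ) : ℝ) ≤ (1 / 2 : ℝ) ^ m * 2 ^ (m + 1) :=
      mul_le_mul_of_nonneg_left h6 (by positivity)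
    have h9 : (1 / 2 : ℝ) ^ m * 2 ^ (m + 1) = 2 := by
      rw [pow_succ (2 : ℝ) m, ← mul_assoc, ← mul_pow]
      norm_num
    linarith
  calc y ^ (m + 1) * ((m + 1 : ℕ) : ℝ) = y * (y ^ m * ((m + 1 : ℕ) : ℝ)) := by
        rw [pow_succ]
        ring
    _ ≤ y * ((1 / 2 : ℝ) ^ m * ((m + 1 : ℕ) : ℝ)) := by
        refine mul_le_mul_of_nonneg_left ?_ hy0
        exact mul_le_mul_of_nonneg_right h5 (by positivity)
    _ ≤ y * 2 := mul_le_mul_of_nonneg_left h7 hy0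
    _ = 2 * C1 * (nu r n B * al r P j (m + 1)) := by
        rw [← hyd]
        ring

end Pool.Agent.Work.MP_7d1693_pr.FM
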