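import Pool.Agent.Work.MP_7d1693_pr.FM.Defs
import Pool.Agent.Work.MP_7d1693_pr.FM.Vert

/-! # Module Link (S): cliques are independent sets of the conflict relation

`r ≥ 1`. For a set `K` of `r`-sets: `Fam r K ∧ IsClique P K ↔ Ind (conf P) K`. If `Fam` and clique and `e ≠ f`: disjoint, and if `e.min < f.min` then `pat e f ∈ P`, similarly the other order, so no
conflict. Conversely independent: `e ≠ f` gives disjoint, and for `e.min < f.min` (so `e ≠ f`) not `pat e f ∉ P`. (A pair `e, f` in `K` with `e.min < f.min` is different.)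
* `Cl_eq`: `Cl r P B k = indK (conf P) (Ebox r B) k`.
* `ntBox_ord`, `ntBox_shape`: inductions (for `nBox` with offset). `ntBox_vert`: all vertices are `< r * n` if `t ≤ n`, `Comp r lam`: the number of parts is at most `r`.
* `ntBox_vol`: `volB (ntBox n t (a :: l)) = t^a * n^(l.sum)`.
* `ntBox_min`: an edge `e ∈ Ebox r (ntBox n t lam)` with positive first part has a vertex `< t`, so `mn e < t`. -/

namespace Pool.Agent.Work.MP_7d1693_pr.FM

open Finset

private theorem nBox_ord (n : ℕ) (l : List ℕ) : ∀ c : ℕ, BOrd c (nBox n c l) := by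
  induction l with
  | nil => intro c; exact trivial
  | cons s l ih =>
    intro c
    exact ⟨le_rfl, Nat.le_add_right c n, ih (c + n)⟩

private theorem nBox_shape (n : ℕ) (l : List ℕ) : ∀ c : ℕ, shape (nBox n c l) = l := by
  induction l with
  | nil => intro c; rfl
  | cons s l ih =>
    intro c
    show s :: shape (nBox n (c + n) l) = s :: l
    rw [ih (c + n)]

private theorem nBox_vol (n : ℕ) (l : List ℕ) : ∀ c : ℕ, volB (nBox n c l) = n ^ l.sum := by
  induction l with
  | nil => intro c; rfl
  | cons s l ih =>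
    intro c
    have h : volB (nBox n c (s :: l)) = (c + n - c) ^ s * volB (nBox n (c + n) l) := by
      show (List.map _ (_ :: _)).prod = _
      rw [List.map_cons, List.prod_cons]
      rfl
    rw [h, ih (c + n), Nat.add_sub_cancel_left, List.sum_cons, pow_add]

private theorem vert_cons (b : ℕ × ℕ × ℕ) (B : Box) :
    vert (b :: B) = Ico b.2.1 b.2.2 ∪ vert B := by
  unfold vert
  rw [List.toFinset_cons, Finset.biUnion_insert]

private theorem nBox_lt (n : ℕ) (l : List ℕ) : ∀ c v : ℕ, v ∈ vert (nBox n c l) →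
    v < c + l.length * n := by
  induction l with
  | nil =>
    intro c v hv
    have : v ∈ (∅ : Finset ℕ) := by simpa [vert, nBox] using hv
    exact absurd this (Finset.notMem_empty v)
  | cons s l ih =>
    intro c v hv
    have hv' : v ∈ vert ((s, c, c + n) :: nBox n (c + n) l) := hv
    rw [vert_cons, Finset.mem_union] at hv'
    rw [List.length_cons, Nat.add_mul, Nat.one_mul]
    rcases hv' with h | h
    · have h2 := (Finset.mem_Ico.1 h).2
      have h3 : v < c + n := h2
      omega
    · have h2 := ih (c + n) v h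
      omega

theorem ind_iff {r : ℕ} (hr : 1 ≤ r) (P : Set (List Bool)) {K : Finset (Finset ℕ)}
    (hK : ∀ e ∈ K, e.card = r) : Ind (conf P) K ↔ (Fam r K ∧ IsClique P K) := by
  constructor
  · intro h
    refine ⟨⟨hK, fun e he f hf hne => ?_⟩, fun e he f hf hlt => ?_⟩
    · by_contra hc
      exact h e he f hf hne (Or.inl hc)
    · by_contra hc
      have hne : e ≠ f := by
        rintro rfl
        exact lt_irrefl _ hlt
      exact h e he f hf hne (Or.inr (Or.inl ⟨hlt, hc⟩))
  · rintro ⟨hF, hC⟩ u hu v hv hne hc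
    rcases hc with h | ⟨h1, h2⟩ | ⟨h1, h2⟩
    · exact h (hF.2 u hu v hv hne)
    · exact h2 (hC u hu v hv h1)
    · exact h2 (hC v hv u hu h1)

theorem Cl_eq {r : ℕ} (hr : 1 ≤ r) (P : Set (List Bool)) (B : Box) (k : ℕ) :
    Cl r P B k = indK (conf P) (Ebox r B) k := by
  classical
  ext K
  unfold Cl indK
  rw [Finset.mem_filter, Finset.mem_filter]
  refine and_congr_right fun hK => ?_
  refine (ind_iff hr P ?_).symm
  intro e he
  have h1 := (Finset.mem_powersetCard.1 hK).1 he
  unfold Ebox at h1
  exact (Finset.mem_powersetCard.1 (Finset.mem_filter.1 h1).1).2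

theorem ntBox_ord (n t : ℕ) (lam : List ℕ) : BOrd 0 (ntBox n t lam) := by
  cases lam with
  | nil => exact trivial
  | cons a l => exact ⟨le_rfl, Nat.zero_le t, nBox_ord n l t⟩

theorem ntBox_shape (n t : ℕ) (lam : List ℕ) : shape (ntBox n t lam) = lam := by
  cases lam with
  | nil => rfl
  | cons a l =>
    show a :: shape (nBox n t l) = a :: l
    rw [nBox_shape]

theorem ntBox_vol (n t a : ℕ) (l : List ℕ) : volB (ntBox n t (a :: l)) = t ^ a * n ^ l.sum := by
  have h : volB (ntBox n t (a :: l)) = (t - 0) ^ a * volB (nBox n t l) := by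
    show (List.map _ (_ :: _)).prod = _
    rw [List.map_cons, List.prod_cons]
    rfl
  rw [h, nBox_vol, Nat.sub_zero]

private theorem length_le_sum (lam : List ℕ) (h : ∀ a ∈ lam, 0 < a) : lam.length ≤ lam.sum := by
  induction lam with
  | nil => exact le_rfl
  | cons a l ih =>
    rw [List.length_cons, List.sum_cons]
    have h1 := h a (List.mem_cons_self ..)
    have h2 := ih fun b hb => h b (List.mem_cons_of_mem _ hb)
    omega

theorem ntBox_sub {r n t : ℕ} (ht : t ≤ n) {lam : List ℕ} (h : Comp r lam) {e : Finset ℕ}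
    (he : e ∈ Ebox r (ntBox n t lam)) : e ∈ (range (r * n)).powersetCard r := by
  classical
  unfold Ebox at he
  obtain ⟨he1, he2⟩ := Finset.mem_powersetCard.1 (Finset.mem_filter.1 he).1
  refine Finset.mem_powersetCard.2 ⟨fun v hv => ?_, he2⟩
  have hv1 := he1 hv
  obtain ⟨hsum, hpos⟩ := h
  cases lam with
  | nil =>
    have : v ∈ (∅ : Finset ℕ) := by simpa [vert, ntBox] using hv1
    exact absurd this (Finset.notMem_empty v)
  | cons a l =>
    have hv' : v ∈ vert ((a, 0, t) :: nBox n t l) := hv1
    rw [vert_cons, Finset.mem_union] at hv'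
    have hlen := length_le_sum (a :: l) hpos
    rw [hsum, List.length_cons] at hlen
    have hmul : (l.length + 1) * n ≤ r * n := Nat.mul_le_mul_right n hlen
    rw [Nat.add_mul, Nat.one_mul] at hmul
    rw [Finset.mem_range]
    rcases hv' with h | h
    · have h2 := (Finset.mem_Ico.1 h).2
      have h3 : v < t := h2
      omega
    · have h2 := nBox_lt n l t v h
      omega

theorem ntBox_min {r n t : ℕ} (hr : 1 ≤ r) {lam : List ℕ} (h : Comp r lam) {e : Finset ℕ}
    (he : e ∈ Ebox r (ntBox n t lam)) : mn e < t := by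
  obtain ⟨hsum, hpos⟩ := h
  cases lam with
  | nil =>
    rw [List.sum_nil] at hsum
    omega
  | cons a l =>
    classical
    unfold Ebox at he
    have hin := (Finset.mem_filter.1 he).2
    have h1 := hin (a, 0, t) (List.mem_cons_self ..)
    have ha : 0 < a := hpos a (List.mem_cons_self ..)
    have h2 : 0 < (e.filter (fun v => (0 : ℕ) ≤ v ∧ v < t)).card := by
      have h3 : (e.filter (fun v => (0 : ℕ) ≤ v ∧ v < t)).card = 1 * a := h1
      omega
    obtain ⟨v, hv⟩ := Finset.card_pos.1 h2
    obtain ⟨hv1, hv2⟩ := Finset.mem_filter.1 hv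
    exact lt_of_le_of_lt (Nat.sInf_le (by exact_mod_cast hv1)) hv2.2

end Pool.Agent.Work.MP_7d1693_pr.FM
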