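import Pool.Agent.Work.MP_7d1693_pr.FM.Defs
import Pool.Agent.Work.MP_7d1693_pr.FM.Link

/-! # Module Alt (S): deletion

`T` a set of `r`-sets, `M` any set. Delete from `T ∩ M` the first entry of every conflicting pair (at most `cpair` many edges): the rest `K` is `conf P`-independent, so it is a `P`-clique (`ind_iff`; `z` only needs
`IsClique`), `K ⊆ M`, and `z P M ≥ K.card` (see `z_le` in LOWER or `full_le_z` in FULL for the lemma about `z`; reprove it: `Finset.le_sup`).
* `z_mono`: `M ⊆ M'` gives `z P M ≤ z P M'`. -/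

namespace Pool.Agent.Work.MP_7d1693_pr.FM

open Finset

theorem z_mono (P : Set (List Bool)) {M M' : Finset (Finset ℕ)} (h : M ⊆ M') : z P M ≤ z P M' := by
  classical
  unfold z
  apply Finset.sup_mono
  intro K hK
  rw [Finset.mem_filter, Finset.mem_powerset] at hK ⊢
  exact ⟨hK.1.trans h, hK.2⟩

theorem z_ge (P : Set (List Bool)) {K M : Finset (Finset ℕ)} (h : K ⊆ M) (hK : IsClique P K) :
    K.card ≤ z P M := by
  classical
  unfold z
  apply Finset.le_sup (f := Finset.card)
  rw [Finset.mem_filter, Finset.mem_powerset]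
  exact ⟨h, hK⟩

theorem exists_clique (P : Set (List Bool)) (M : Finset (Finset ℕ)) :
    ∃ K ⊆ M, IsClique P K ∧ K.card = z P M := by
  classical
  have hne : (M.powerset.filter fun K => IsClique P K).Nonempty :=
    ⟨∅, by simp [IsClique]⟩
  obtain ⟨K, hK, h⟩ := Finset.exists_mem_eq_sup _ hne Finset.card
  rw [Finset.mem_filter, Finset.mem_powerset] at hK
  refine ⟨K, hK.1, hK.2, ?_⟩
  rw [← h]
  unfold z
  congr!

theorem alt {r : ℕ} (hr : 1 ≤ r) (P : Set (List Bool)) {T M : Finset (Finset ℕ)}
    (hT : ∀ e ∈ T, e.card = r) : (T ∩ M).card ≤ z P M + cpair P (T ∩ M) := by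
  classical
  set S := T ∩ M with hS
  set B := (S ×ˢ S).filter (fun p => p.1 ≠ p.2 ∧ conf P p.1 p.2) with hB
  have hBc : B.card = cpair P S := by
    unfold cpair
    rw [hB]
  set D := B.image Prod.fst with hD
  have hDc : D.card ≤ cpair P S := by
    rw [← hBc]
    exact Finset.card_image_le
  have hKS : S \ D ⊆ S := Finset.sdiff_subset
  have hKc : ∀ e ∈ S \ D, e.card = r := fun e he =>
    hT e (Finset.mem_inter.1 (hKS he)).1
  have hInd : Ind (conf P) (S \ D) := by
    intro u hu v hv huv hc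
    rw [Finset.mem_sdiff] at hu hv
    apply hu.2
    rw [hD, Finset.mem_image]
    refine ⟨(u, v), ?_, rfl⟩
    rw [hB, Finset.mem_filter, Finset.mem_product]
    exact ⟨⟨hu.1, hv.1⟩, huv, hc⟩
  have hcl := ((ind_iff hr P hKc).1 hInd).2
  have h1 : (S \ D).card ≤ z P M :=
    z_ge P (hKS.trans Finset.inter_subset_right) hcl
  have h2 : S.card ≤ (S \ D).card + D.card := by
    have := Finset.le_card_sdiff D S
    omega
  omega

end Pool.Agent.Work.MP_7d1693_pr.FM
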