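import Pool.Agent.Work.MP_7d1693_pr.FM.Defs

/-! # Module Coup (S-M): the first `t` edges contain the edges of the full matching with small minimum

Induction on `t`, generalizing `V`, `N`, `E`. `t = 0`: no element of `V` is `< b`, the minimum of every edge of an outcome of the full process is an element of `V`
(`out_struct`: edges are subsets of `V`, nonempty), so the filter is empty on outcomes and the event is `E ∅` (use `pr_mono` to a constant event; `pr ≤ 1`, `pr r 0 V E = if E ∅ then 1 else 0`).
`t + 1`: `N = N' + 1`. Both sides are averages over the same `S`; for each `S` the left event is `E ((insert (insert v S) M').filter ..) ` and it implies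
`E (insert (insert v S) (M'.filter ..))` (`E` is increasing). Apply the induction hypothesis to the increasing event `fun M' => E (insert (insert v S) M')` and `V \ insert v S`:
`#{x ∈ V \ insert v S : x < b} ≤ t`: if `v < b` one element less than for `V`; if `v ≥ b` there is none (`v` is the least element of `V`). If `V` has fewer than `r` elements then `N = 0`. -/

namespace Pool.Agent.Work.MP_7d1693_pr.FM

open Finset

private theorem pr_false (r t : ℕ) (V : Finset ℕ) : pr r t V (fun _ => False) = 0 := by
  classical
  induction t generalizing V with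
  | zero =>
    rw [pr_zero, if_neg id]
  | succ t ih =>
    rw [pr_succ]
    have : ∀ S ∈ (V.erase (mn V)).powersetCard (r - 1),
        pr r t (V \ insert (mn V) S) (fun _ => False) = 0 := fun S _ => ih _
    rw [Finset.sum_eq_zero this, zero_div]

private theorem coup_aux {r : ℕ} (hr : 2 ≤ r) (t : ℕ) : ∀ (N : ℕ), t ≤ N → ∀ (V : Finset ℕ),
    V.card = r * N → ∀ (b : ℕ), (V.filter (fun x => x < b)).card ≤ t →
    ∀ (E : Finset (Finset ℕ) → Prop),
    (∀ M M' : Finset (Finset ℕ), M ⊆ M' → E M → E M') →
    pr r N V (fun M => E (M.filter (fun e => mn e < b))) ≤ pr r t V E := by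
  classical
  induction t with
  | zero =>
    intro N _ V hV b hb E hE
    have hb0 : V.filter (fun x => x < b) = ∅ := Finset.card_eq_zero.1 (Nat.le_zero.1 hb)
    by_cases h0 : E ∅
    · rw [pr_zero, if_pos h0]
      exact pr_le_one _ _ _ _
    · rw [pr_zero, if_neg h0, ← pr_false r N V]
      apply pr_mono
      intro M hM hEM
      obtain ⟨-, ⟨h2, -⟩, h4⟩ := out_struct r N (by omega) V (le_of_eq hV.symm) M hM
      have hf : M.filter (fun e => mn e < b) = ∅ := by
        apply Finset.filter_eq_empty_iff.2
        intro e he hlt
        have hne : e.Nonempty := Finset.card_pos.1 (by rw [h2 e he]; omega)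
        have h5 : mn e ∈ V.filter (fun x => x < b) :=
          Finset.mem_filter.2 ⟨(h4 e he).1 (proc_mn_mem e hne), hlt⟩
        rw [hb0] at h5
        exact absurd h5 (Finset.notMem_empty _)
      rw [hf] at hEM
      exact h0 hEM
  | succ t ih =>
    intro N hN V hV b hb E hE
    obtain ⟨N', rfl⟩ : ∃ N', N = N' + 1 := ⟨N - 1, by omega⟩
    rw [pr_succ, pr_succ]
    apply div_le_div_of_nonneg_right _ (Nat.cast_nonneg _)
    apply Finset.sum_le_sum
    intro S hS
    have hVne : V.Nonempty := by
      apply Finset.card_pos.1
      rw [hV]
      positivity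
    obtain ⟨hsub, hcr, hcard⟩ := card_sdiff_insert r (by omega) V hVne S hS
    set e0 := insert (mn V) S with he0
    have h1 : pr r N' (V \ e0) (fun M => E ((insert e0 M).filter (fun e => mn e < b))) ≤
        pr r N' (V \ e0) (fun M => E (insert e0 (M.filter (fun e => mn e < b)))) := by
      apply pr_mono
      intro M _ hEM
      refine hE _ _ ?_ hEM
      rw [Finset.filter_insert]
      split_ifs
      · exact Finset.Subset.refl _
      · exact Finset.subset_insert _ _
    refine h1.trans ?_
    apply ih N' (by omega) (V \ e0) ?_ b ?_ (fun M' => E (insert e0 M'))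
    · intro M M' hMM' h'
      exact hE _ _ (Finset.insert_subset_insert _ hMM') h'
    · rw [hV] at hcard
      have : r * (N' + 1) = r * N' + r := by ring
      omega
    · by_cases hv : mn V < b
      · have hvm : mn V ∈ V.filter (fun x => x < b) :=
          Finset.mem_filter.2 ⟨proc_mn_mem V hVne, hv⟩
        have h2 : (V \ e0).filter (fun x => x < b) ⊆
            (V.filter (fun x => x < b)).erase (mn V) := by
          intro x hx
          obtain ⟨hx1, hx2⟩ := Finset.mem_filter.1 hx
          obtain ⟨hx3, hx4⟩ := Finset.mem_sdiff.1 hx1
          refine Finset.mem_erase.2 ⟨?_, Finset.mem_filter.2 ⟨hx3, hx2⟩⟩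
          rintro rfl
          exact hx4 (Finset.mem_insert_self _ _)
        have h3 := Finset.card_le_card h2
        rw [Finset.card_erase_of_mem hvm] at h3
        omega
      · have h2 : (V \ e0).filter (fun x => x < b) = ∅ := by
          apply Finset.filter_eq_empty_iff.2
          intro x hx hlt
          have hx' := (Finset.mem_sdiff.1 hx).1
          have := proc_mn_le V x hx'
          omega
        rw [h2, Finset.card_empty]
        exact Nat.zero_le _

theorem coup {r : ℕ} (hr : 2 ≤ r) {N t : ℕ} (ht : t ≤ N) {V : Finset ℕ} (hV : V.card = r * N)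
    {b : ℕ} (hb : (V.filter (fun x => x < b)).card ≤ t) (E : Finset (Finset ℕ) → Prop)
    (hE : ∀ M M' : Finset (Finset ℕ), M ⊆ M' → E M → E M') :
    pr r N V (fun M => E (M.filter (fun e => mn e < b))) ≤ pr r t V E :=
  coup_aux hr t N ht V hV b hb E hE

end Pool.Agent.Work.MP_7d1693_pr.FM
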