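import Pool.Agent.Work.MP_7d1693_pr.PAT
import Pool.Agent.Work.MP_7d1693_pr.PROC
import Pool.Agent.Work.MP_7d1693_pr.OUT

/-! Definitions for the first moment theorem. Everything here is proved. -/

namespace Pool.Agent.Work.MP_7d1693_pr.FM

open Finset

/-- `lam` is a composition of `r` -/
def Comp (r : ℕ) (lam : List ℕ) : Prop := lam.sum = r ∧ ∀ a ∈ lam, 0 < a

/-- `lam` is the block type of a word of `P` of length `2r` -/
def Adm (r : ℕ) (P : Set (List Bool)) (lam : List ℕ) : Prop :=
  lam.sum = r ∧ ∃ w ∈ P, HasType w lam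

/-- a box: a list of triples (number of vertices, left end, right end) -/
abbrev Box := List (ℕ × ℕ × ℕ)

/-- the intervals `[lo, hi)` of the box are consecutive, starting at `c` or later -/
def BOrd : ℕ → Box → Prop
  | _, [] => True
  | c, b :: B => c ≤ b.2.1 ∧ b.2.1 ≤ b.2.2 ∧ BOrd b.2.2 B

/-- the vertices of the intervals of the box -/
def vert (B : Box) : Finset ℕ := B.toFinset.biUnion (fun b => Ico b.2.1 b.2.2)

/-- `e` has exactly `k * s` vertices in the interval `[lo, hi)` for every `(s, lo, hi)` of the box -/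
def InB (B : Box) (k : ℕ) (e : Finset ℕ) : Prop :=
  ∀ b ∈ B, (e.filter (fun v => b.2.1 ≤ v ∧ v < b.2.2)).card = k * b.1

open Classical in
/-- the `r`-sets inside the box with `s` vertices in each `[lo, hi)` -/
noncomputable def Ebox (r : ℕ) (B : Box) : Finset (Finset ℕ) :=
  ((vert B).powersetCard r).filter (fun e => InB B 1 e)

open Classical in
/-- the vertex sets with `k * s` vertices in each `[lo, hi)` -/
noncomputable def Ubox (B : Box) (k : ℕ) : Finset (Finset ℕ) :=
  (vert B).powerset.filter (fun U => InB B k U)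

open Classical in
/-- the `P`-cliques with `k` edges in the box -/
noncomputable def Cl (r : ℕ) (P : Set (List Bool)) (B : Box) (k : ℕ) :
    Finset (Finset (Finset ℕ)) :=
  ((Ebox r B).powersetCard k).filter (fun K => Fam r K ∧ IsClique P K)

/-- the box with intervals of lengths `k * s`, starting at `c` -/
def stdBox (k : ℕ) : ℕ → List ℕ → Box
  | _, [] => []
  | c, s :: l => (s, c, c + k * s) :: stdBox k (c + k * s) l

/-- the number of `P`-cliques with `k` edges on `{0, ..., rk-1}` all of whose edges have `lam_i`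
vertices in the `i`-th of the consecutive intervals of lengths `k * lam_i` -/
noncomputable def ac (r : ℕ) (P : Set (List Bool)) (lam : List ℕ) (k : ℕ) : ℕ :=
  (Cl r P (stdBox k 0 lam) k).card

/-- the normalized growth of the number of cliques -/
noncomputable def phi (r : ℕ) (P : Set (List Bool)) (lam : List ℕ) (k : ℕ) : ℝ :=
  (ac r P lam k : ℝ) ^ (1 / (k : ℝ)) / (k : ℝ) ^ r

/-- the shape of a box -/
def shape (B : Box) : List ℕ := B.map Prod.fst

/-- product of binomials -/
def chB (B : Box) (k : ℕ) : ℕ := (B.map (fun b => (b.2.2 - b.2.1).choose (k * b.1))).prod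

/-- product of the interval lengths with multiplicity -/
def volB (B : Box) : ℕ := (B.map (fun b => (b.2.2 - b.2.1) ^ b.1)).prod

/-- all intervals have length a power of two -/
def Dy (B : Box) : Prop := ∀ b ∈ B, ∃ L : ℕ, b.2.2 = b.2.1 + 2 ^ L

/-- two edges in conflict: they meet, or their word is not in `P` -/
def conf (P : Set (List Bool)) (e f : Finset ℕ) : Prop :=
  ¬ Disjoint e f ∨ (e.min < f.min ∧ pat e f ∉ P) ∨ (f.min < e.min ∧ pat f e ∉ P)

section graph
variable {α : Type*} [DecidableEq α]

open Classical in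
/-- degree of `v` inside `S` -/
noncomputable def deg (c : α → α → Prop) (S : Finset α) (v : α) : ℕ :=
  (S.filter (fun w => w ≠ v ∧ c v w)).card

/-- independent set -/
def Ind (c : α → α → Prop) (I : Finset α) : Prop := ∀ u ∈ I, ∀ v ∈ I, u ≠ v → ¬ c u v

open Classical in
/-- the independent subsets of `S` -/
noncomputable def indS (c : α → α → Prop) (S : Finset α) : Finset (Finset α) :=
  S.powerset.filter (fun I => Ind c I)

open Classical in
/-- the independent subsets of `S` with `k` elements -/
noncomputable def indK (c : α → α → Prop) (S : Finset α) (k : ℕ) : Finset (Finset α) :=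
  (S.powersetCard k).filter (fun I => Ind c I)

end graph

/-- `log(1+dx)/d`, and `x` for `d = 0` -/
noncomputable def psi (x : ℝ) (d : ℕ) : ℝ := if d = 0 then x else Real.log (1 + d * x) / d

/-- the box with first interval `[0,t)` and further intervals of length `n` -/
def nBox (n : ℕ) : ℕ → List ℕ → Box
  | _, [] => []
  | c, s :: l => (s, c, c + n) :: nBox n (c + n) l

/-- the box of type `a :: l` in `{0, ..., rn-1}`: the first interval is `[0,t)`, the others have
length `n` -/
def ntBox (n t : ℕ) : List ℕ → Box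
  | [] => []
  | a :: l => (a, 0, t) :: nBox n t l

/-- expectation of `f` for the process, by recursion on the steps -/
noncomputable def ex (r : ℕ) : ℕ → Finset ℕ → (Finset (Finset ℕ) → ℝ) → ℝ
  | 0, _, f => f ∅
  | t + 1, V, f =>
    (∑ S ∈ (V.erase (mn V)).powersetCard (r - 1),
      ex r t (V \ insert (mn V) S) (fun M => f (insert (insert (mn V) S) M))) /
      (((V.erase (mn V)).powersetCard (r - 1)).card : ℝ)

/-- the probability that `j` given disjoint edges belong to the full matching on `rn` vertices -/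
noncomputable def pj (r n j : ℕ) : ℝ :=
  ∏ i ∈ range j, (1 / (((r * (n - i) - 1).choose (r - 1) : ℕ) : ℝ))

open Classical in
/-- number of ordered pairs of conflicting edges of `T` -/
noncomputable def cpair (P : Set (List Bool)) (T : Finset (Finset ℕ)) : ℕ :=
  ((T ×ˢ T).filter (fun p => p.1 ≠ p.2 ∧ conf P p.1 p.2)).card

/-- all compositions of `r` as lists -/
def comps (r : ℕ) : Finset (List ℕ) := (Finset.univ : Finset (Composition r)).image (·.blocks)

open Classical in
/-- sum of `phi` over the admissible types with first part at most `j` -/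
noncomputable def al (r : ℕ) (P : Set (List Bool)) (j k : ℕ) : ℝ :=
  ∑ lam ∈ (comps r).filter (fun lam => Adm r P lam ∧ lam.headD 0 ≤ j), phi r P lam k

/-- `K` is a `P`-clique of at least `x` edges of `M` in the box `B` -/
def Big (P : Set (List Bool)) (B : Box) (x : ℕ) (M : Finset (Finset ℕ)) : Prop :=
  ∃ K ⊆ M, x ≤ K.card ∧ IsClique P K ∧ ∀ e ∈ K, InB B 1 e

/-- intensity of a box -/
noncomputable def nu (r n : ℕ) (B : Box) : ℝ := (volB B : ℝ) / (n : ℝ) ^ (r - 1)

/-- left end, midpoint and right end of the dyadic interval `(h, q)` of `[lo, lo + 2^L)` -/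
def dlo (lo L h q : ℕ) : ℕ := lo + q * 2 ^ (L - h)

/-- midpoint -/
def dmid (lo L h q : ℕ) : ℕ := lo + q * 2 ^ (L - h) + 2 ^ (L - h - 1)

/-- right end -/
def dhi (lo L h q : ℕ) : ℕ := lo + q * 2 ^ (L - h) + 2 ^ (L - h)

/-- the set `A` is split by the dyadic interval `(h, q)` of `[lo, lo + 2^L)` -/
def IsSpl (lo L : ℕ) (A : Finset ℕ) (h q : ℕ) : Prop :=
  h < L ∧ q < 2 ^ h ∧ (∀ v ∈ A, dlo lo L h q ≤ v ∧ v < dhi lo L h q) ∧
    (∃ v ∈ A, v < dmid lo L h q) ∧ ∃ v ∈ A, dmid lo L h q ≤ v

/-- the box obtained by splitting one interval at the midpoint of its dyadic part `(h, q)` -/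
def sub (B1 : Box) (s lo L : ℕ) (B2 : Box) (h q p : ℕ) : Box :=
  B1 ++ (p, dlo lo L h q, dmid lo L h q) :: (s - p, dmid lo L h q, dhi lo L h q) :: B2

/-- `2^(-1/(2(r+1)))` -/
noncomputable def eta (r : ℕ) : ℝ := (2 : ℝ) ^ (-(1 / (2 * ((r : ℝ) + 1))))

/-- the statement proved by recursion on the number of parts, for boxes with at least `r - m` parts -/
def Cm (r : ℕ) (P : Set (List Bool)) (j m : ℕ) (C c : ℝ) (a0 : ℕ) : Prop :=
  ∀ (n t : ℕ) (B : Box), 1 ≤ t → t ≤ n → BOrd 0 B → Dy B → Comp r (shape B) →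
    (shape B).headD 0 ≤ j → r ≤ (shape B).length + m → ∀ a, a0 ≤ a →
    nu r n B * al r P j (2 ^ a) ≤ c →
    pr r t (range (r * n)) (Big P B (2 ^ a)) ≤ C * (nu r n B * al r P j (2 ^ a)) / 2 ^ a

theorem conf_symm (P : Set (List Bool)) {e f : Finset ℕ} (h : conf P e f) : conf P f e := by
  rcases h with h | h | h
  · exact Or.inl (fun h' => h h'.symm)
  · exact Or.inr (Or.inr h)
  · exact Or.inr (Or.inl h)

theorem adm_comp {r : ℕ} {P : Set (List Bool)} {lam : List ℕ} (h : Adm r P lam) : Comp r lam := by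
  obtain ⟨h1, w, _, b, hb, hpos, _, _⟩ := h
  refine ⟨h1, ?_⟩
  intro a ha
  rw [← hb] at ha
  obtain ⟨x, hx, rfl⟩ := List.mem_map.1 ha
  exact hpos x hx

theorem mem_comps {r : ℕ} {lam : List ℕ} : lam ∈ comps r ↔ Comp r lam := by
  unfold comps Comp
  rw [Finset.mem_image]
  constructor
  · rintro ⟨c, -, rfl⟩
    exact ⟨c.blocks_sum, fun a ha => c.blocks_pos ha⟩
  · rintro ⟨h1, h2⟩
    exact ⟨⟨lam, fun {i} hi => h2 i hi, h1⟩, Finset.mem_univ _, rfl⟩

end Pool.Agent.Work.MP_7d1693_pr.FM
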