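import Pool.Agent.Work.MP_7d1693_pr.FM.Defs

/-! Definitions for a fixed number of edges. -/

namespace Pool.Agent.Work.MP_7d1693_pr.FM

open Finset

open Classical in
/-- number of vertices of `e` that are at most the least vertex of some edge of `K` -/
noncomputable def hh (K : Finset (Finset ℕ)) (e : Finset ℕ) : ℕ :=
  (e.filter (fun v => ∃ f ∈ K, v ≤ mn f)).card

open Classical in
/-- the `P`-cliques with `k` edges on the vertices `0, ..., rk-1` -/
noncomputable def CK (r : ℕ) (P : Set (List Bool)) (k : ℕ) : Finset (Finset (Finset ℕ)) :=
  (PMs r (range (r * k))).filter (fun K => IsClique P K)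

/-- the least possible value, over the `P`-cliques with `k` edges, of the largest number of vertices
that an edge has up to the last of the least vertices -/
noncomputable def rho (r : ℕ) (P : Set (List Bool)) (k : ℕ) : ℕ :=
  sInf {ρ : ℕ | ∃ K ∈ CK r P k, ∀ e ∈ K, hh K e ≤ ρ}

end Pool.Agent.Work.MP_7d1693_pr.FM
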