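import Pool.Agent.Work.MP_7d1693_pr.FM.Defs

/-! # Module Dyad (S-M): the splitting dyadic interval

* `exists_spl`: `A ⊆ [lo, lo+2^L)` with at least two elements. Induction on `L` (generalizing `lo`): `L = 0`: impossible. `L+1`: if `A` meets both halves take `h = 0, q = 0`; if it is in the left half use the
  induction hypothesis with the same `lo` (`(h, q) ↦ (h+1, q)`), if in the right half with `lo + 2^L` (`(h, q) ↦ (h+1, q + 2^h)`): `L + 1 - (h+1) = L - h`.
* `spl_cases`: for two split sets with data `(h, q)`, `(h', q')`: the dyadic intervals are nested or disjoint. With `h ≤ h'`: interval `(h', q')` lies in the interval `(h, q' / 2^(h'-h))` of level `h`; either `q = q'/2^(h'-h)` (nested) or the two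
  intervals are disjoint, and then `A`, `A'` are separated. So either `q' / 2^(h'-h) = q` or one set is entirely before the other. -/

namespace Pool.Agent.Work.MP_7d1693_pr.FM

open Finset

theorem exists_spl {lo L : ℕ} {A : Finset ℕ} (hA : ∀ v ∈ A, lo ≤ v ∧ v < lo + 2 ^ L)
    (h2 : 2 ≤ A.card) : ∃ h q, IsSpl lo L A h q := by
  induction L generalizing lo with
  | zero =>
    exfalso
    have h3 : A.card ≤ 1 := by
      rw [Finset.card_le_one]
      intro a ha b hb
      have h4 := hA a ha
      have h5 := hA b hb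
      rw [pow_zero] at h4 h5
      omega
    omega
  | succ L ih =>
    have hp : 2 ^ (L + 1) = 2 ^ L + 2 ^ L := by rw [pow_succ, mul_two]
    by_cases hl : ∀ v ∈ A, v < lo + 2 ^ L
    · obtain ⟨h, q, h4, h5, h6, h7, h8⟩ := ih (lo := lo) fun v hv => ⟨(hA v hv).1, hl v hv⟩
      have e1 : L + 1 - (h + 1) = L - h := by omega
      have e2 : L + 1 - (h + 1) - 1 = L - h - 1 := by omega
      refine ⟨h + 1, q, by omega, ?_, ?_, ?_, ?_⟩
      · rw [pow_succ]
        omega
      · unfold dlo dhi at h6 ⊢
        rw [e1]
        exact h6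
      · unfold dmid at h7 ⊢
        rw [e1]
        exact h7
      · unfold dmid at h8 ⊢
        rw [e1]
        exact h8
    · by_cases hr : ∀ v ∈ A, lo + 2 ^ L ≤ v
      · obtain ⟨h, q, h4, h5, h6, h7, h8⟩ := ih (lo := lo + 2 ^ L) fun v hv => by
          have h9 := (hA v hv).2
          rw [hp] at h9
          exact ⟨hr v hv, by omega⟩
        have e1 : L + 1 - (h + 1) = L - h := by omega
        have e3 : 2 ^ L = 2 ^ h * 2 ^ (L - h) := by
          rw [← pow_add]
          congr 1
          omega
        have e4 : lo + (q + 2 ^ h) * 2 ^ (L - h) = lo + 2 ^ L + q * 2 ^ (L - h) := by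
          rw [e3]
          ring
        refine ⟨h + 1, q + 2 ^ h, by omega, ?_, ?_, ?_, ?_⟩
        · rw [pow_succ]
          omega
        · unfold dlo dhi at h6 ⊢
          rw [e1, e4]
          exact h6
        · unfold dmid at h7 ⊢
          rw [e1, e4]
          exact h7
        · unfold dmid at h8 ⊢
          rw [e1, e4]
          exact h8
      · push Not at hl hr
        obtain ⟨v, hv, hv2⟩ := hl
        obtain ⟨w, hw, hw2⟩ := hr
        refine ⟨0, 0, by omega, by norm_num, ?_, ⟨w, hw, ?_⟩, ⟨v, hv, ?_⟩⟩
        · intro u hu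
          unfold dlo dhi
          have h9 := hA u hu
          simpa using h9
        · unfold dmid
          simpa using hw2
        · unfold dmid
          simpa using hv2

theorem spl_cases {lo L : ℕ} {A A' : Finset ℕ} {h q h' q' : ℕ} (hA : IsSpl lo L A h q)
    (hA' : IsSpl lo L A' h' q') (hh : h ≤ h') :
    q' / 2 ^ (h' - h) = q ∨ (∀ x ∈ A, ∀ y ∈ A', x < y) ∨ (∀ x ∈ A, ∀ y ∈ A', y < x) := by
  obtain ⟨h1, -, h3, -, -⟩ := hA
  obtain ⟨k1, -, k3, -, -⟩ := hA'
  unfold dlo dhi at h3 k3
  have e1 : 2 ^ (L - h) = 2 ^ (h' - h) * 2 ^ (L - h') := by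
    rw [← pow_add]
    congr 1
    omega
  set N := 2 ^ (h' - h) with hN
  set W := 2 ^ (L - h') with hW
  have hNpos : 0 < N := by positivity
  have hdm : N * (q' / N) + q' % N = q' := Nat.div_add_mod q' N
  have hmod : q' % N < N := Nat.mod_lt _ hNpos
  set u := q' / N with hu
  -- the small interval lies in the interval `u` of level `h`
  have lo1 : u * (N * W) ≤ q' * W := by
    calc u * (N * W) = (N * u) * W := by ring
      _ ≤ q' * W := Nat.mul_le_mul_right _ (by omega)
  have hi1 : q' * W + W ≤ (u + 1) * (N * W) := by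
    calc q' * W + W = (q' + 1) * W := by ring
      _ ≤ (N * u + N) * W := Nat.mul_le_mul_right _ (by omega)
      _ = (u + 1) * (N * W) := by ring
  rw [e1] at h3
  rcases lt_trichotomy u q with hlt | heq | hgt
  · right; right
    intro x hx y hy
    have h5 := h3 x hx
    have h6 := k3 y hy
    have h7 : (u + 1) * (N * W) ≤ q * (N * W) := Nat.mul_le_mul_right _ hlt
    omega
  · left
    exact heq
  · right; left
    intro x hx y hy
    have h5 := h3 x hx
    have h6 := k3 y hy
    have h7 : (q + 1) * (N * W) ≤ u * (N * W) := Nat.mul_le_mul_right _ hgt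
    have h8 : (q + 1) * (N * W) = q * (N * W) + N * W := by ring
    omega

end Pool.Agent.Work.MP_7d1693_pr.FM
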