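import Pool.Agent.Work.MP_7d1693_pr.FM.Defs

/-! # Module Ex (S-M): expectations for the process

All by induction on `t` (generalizing `V` and the function), like `pr_mono`, `pr_union` in PROC.
* `ex_add`, `ex_mul`, `ex_sum`: linearity. `ex_mono`: on the outcomes `Out`. `ex_ind`: indicator. `ex_const`: for `r * t ≤ V.card`, `0 < r`, the sets `powersetCard (r-1) (V.erase (mn V))` are nonempty
  (`powersetCard_nonempty'` in PROC) and have the right size after the step (`card_sdiff_insert`).
* `markov`: `a * indicator ≤ f` on outcomes. `chebyshev`: if `ex f = m` (the mean) and `b > 0`: `pr (|f - m| ≥ b) ≤ (ex f^2 - m^2)/b^2`, from `ex ((f-m)^2) = ex f^2 - 2 m ex f + m^2`.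
* `pr_not`: `pr E + pr (not E) = 1`. -/

namespace Pool.Agent.Work.MP_7d1693_pr.FM

open Finset

private theorem ex_zero' (r : ℕ) (V : Finset ℕ) (f : Finset (Finset ℕ) → ℝ) :
    ex r 0 V f = f ∅ := by
  rw [ex]

private theorem ex_succ' (r t : ℕ) (V : Finset ℕ) (f : Finset (Finset ℕ) → ℝ) :
    ex r (t + 1) V f = (∑ S ∈ (V.erase (mn V)).powersetCard (r - 1),
      ex r t (V \ insert (mn V) S) (fun M => f (insert (insert (mn V) S) M))) /
      (((V.erase (mn V)).powersetCard (r - 1)).card : ℝ) := by
  rw [ex]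

theorem ex_add (r t : ℕ) (V : Finset ℕ) (f g : Finset (Finset ℕ) → ℝ) :
    ex r t V (fun M => f M + g M) = ex r t V f + ex r t V g := by
  induction t generalizing V f g with
  | zero => rw [ex_zero', ex_zero', ex_zero']
  | succ t ih =>
    rw [ex_succ', ex_succ', ex_succ', ← add_div, ← Finset.sum_add_distrib]
    congr 1
    exact Finset.sum_congr rfl fun S _ => ih _ _ _

theorem ex_mul (r t : ℕ) (V : Finset ℕ) (a : ℝ) (f : Finset (Finset ℕ) → ℝ) :
    ex r t V (fun M => a * f M) = a * ex r t V f := by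
  induction t generalizing V f with
  | zero => rw [ex_zero', ex_zero']
  | succ t ih =>
    rw [ex_succ', ex_succ', ← mul_div_assoc, Finset.mul_sum]
    congr 1
    exact Finset.sum_congr rfl fun S _ => ih _ _

private theorem ex_nil (r t : ℕ) (V : Finset ℕ) : ex r t V (fun _ => 0) = 0 := by
  have h := ex_mul r t V 0 (fun _ => 0)
  simpa using h

theorem ex_sum {ι : Type*} (r t : ℕ) (V : Finset ℕ) (I : Finset ι) (f : ι → Finset (Finset ℕ) → ℝ) :
    ex r t V (fun M => ∑ i ∈ I, f i M) = ∑ i ∈ I, ex r t V (f i) := by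
  classical
  induction I using Finset.induction_on with
  | empty => simpa using ex_nil r t V
  | insert i I hi ih =>
    rw [Finset.sum_insert hi, ← ih, ← ex_add]
    congr 1
    funext M
    rw [Finset.sum_insert hi]

theorem ex_mono (r t : ℕ) (V : Finset ℕ) (f g : Finset (Finset ℕ) → ℝ)
    (h : ∀ M, Out r t V M → f M ≤ g M) : ex r t V f ≤ ex r t V g := by
  induction t generalizing V f g with
  | zero => rw [ex_zero', ex_zero']; exact h ∅ rfl
  | succ t ih =>
    rw [ex_succ', ex_succ']
    apply div_le_div_of_nonneg_right _ (Nat.cast_nonneg _)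
    apply Finset.sum_le_sum
    intro S hS
    apply ih
    intro M hM
    exact h _ ⟨S, hS, M, hM, rfl⟩

open Classical in
theorem ex_ind (r t : ℕ) (V : Finset ℕ) (E : Finset (Finset ℕ) → Prop) :
    ex r t V (fun M => if E M then 1 else 0) = pr r t V E := by
  induction t generalizing V E with
  | zero => rw [ex_zero', pr_zero]
  | succ t ih =>
    rw [ex_succ', pr_succ]
    congr 1
    exact Finset.sum_congr rfl fun S _ => ih _ _

theorem ex_const {r t : ℕ} (hr : 0 < r) {V : Finset ℕ} (h : r * t ≤ V.card) (a : ℝ) :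
    ex r t V (fun _ => a) = a := by
  induction t generalizing V with
  | zero => rw [ex_zero']
  | succ t ih =>
    have hrV : r ≤ V.card := le_trans (by nlinarith) h
    have hne := powersetCard_nonempty' r hr V hrV
    have hVne : V.Nonempty := Finset.card_pos.1 (by omega)
    have hpos : (0 : ℝ) < (((V.erase (mn V)).powersetCard (r - 1)).card : ℝ) := by
      exact_mod_cast hne.card_pos
    rw [ex_succ', Finset.sum_congr rfl (g := fun _ => a), Finset.sum_const, nsmul_eq_mul,
      mul_div_cancel_left₀ _ hpos.ne']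
    intro S hS
    have hc := (card_sdiff_insert r hr V hVne S hS).2.2
    exact ih (by nlinarith)

theorem pr_not {r t : ℕ} (hr : 0 < r) {V : Finset ℕ} (h : r * t ≤ V.card)
    (E : Finset (Finset ℕ) → Prop) : pr r t V E + pr r t V (fun M => ¬ E M) = 1 := by
  classical
  rw [← ex_ind, ← ex_ind, ← ex_add]
  refine Eq.trans ?_ (ex_const hr h 1)
  congr 1
  funext M
  by_cases hE : E M
  · rw [if_pos hE, if_neg (not_not.2 hE), add_zero]
  · rw [if_neg hE, if_pos hE, zero_add]

theorem markov (r t : ℕ) (V : Finset ℕ) (f : Finset (Finset ℕ) → ℝ) (hf : ∀ M, 0 ≤ f M) {a : ℝ}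
    (ha : 0 < a) : pr r t V (fun M => a ≤ f M) ≤ ex r t V f / a := by
  classical
  rw [le_div_iff₀ ha, mul_comm, ← ex_ind, ← ex_mul]
  apply ex_mono
  intro M _
  by_cases h : a ≤ f M
  · rw [if_pos h, mul_one]
    exact h
  · rw [if_neg h, mul_zero]
    exact hf M

theorem chebyshev {r t : ℕ} (hr : 0 < r) {V : Finset ℕ} (h : r * t ≤ V.card)
    (f : Finset (Finset ℕ) → ℝ) {b : ℝ} (hb : 0 < b) :
    pr r t V (fun M => b ≤ |f M - ex r t V f|) ≤
      (ex r t V (fun M => f M ^ 2) - (ex r t V f) ^ 2) / b ^ 2 := by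
  classical
  set m := ex r t V f with hm
  have h1 : ex r t V (fun M => (f M - m) ^ 2) = ex r t V (fun M => f M ^ 2) - m ^ 2 := by
    have e1 : (fun M => (f M - m) ^ 2) = fun M => (f M ^ 2 + ((-2 * m) * f M + m ^ 2)) := by
      funext M
      ring
    rw [e1, ex_add, ex_add, ex_mul, ex_const hr h, ← hm]
    ring
  have h2 := markov r t V (fun M => (f M - m) ^ 2) (fun M => sq_nonneg _) (pow_pos hb 2)
  rw [h1] at h2
  refine le_trans (pr_mono r t V _ _ ?_) h2
  intro M _ hM
  have := pow_le_pow_left₀ hb.le hM 2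
  rwa [sq_abs] at this

end Pool.Agent.Work.MP_7d1693_pr.FM
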