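import Pool.Agent.Work.MP_7d1693_pr.FM.Defs
import Pool.Agent.Work.MP_7d1693_pr.INCL

/-! # Module Full (M): exact inclusion probabilities in the full matching

Like `pr_incl` in INCL (copy its proof, with equalities). Induction on `N`, generalizing `V`, `K`. `K = ∅`: probability `1` (`pr` of the true event; the sets are nonempty). `N + 1`,
`K ≠ ∅`, `v = mn V`, `k = K.card`. (a) `v ∈ e ∈ K`: only the choice `S = e.erase v` contributes (if `e ⊆ insert v S ∪ ⋃ M'`, i.e. `K ⊆ insert (insert v S) M'` forces `insert v S = e`
because the edge of `v` is unique: on the outcomes), and then `K.erase e ⊆ M'`, `K.erase e` is a family in `V \ e`; use `Out`/`out_struct` (edges of `M'` are contained in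
`V \ insert v S`, so do not contain `v`). So the probability is `(1/(r(N+1)-1).choose (r-1)) * pj r N (k-1)`, which is `pj r (N+1) k` (`prod_range_succ'`).
(b) `v` in no edge of `K`: `K ⊆ insert (insert v S) M'` iff `K ⊆ M'`, and it is impossible unless `S` is disjoint from all edges of `K`; there are
`(r(N+1) - 1 - r k).choose (r-1)` such `S`, each with probability `pj r N k`. With `q i = (r(N+1-i)-1).choose (r-1)`: `q k / q 0 * ∏_{i<k} 1/q (i+1) = ∏_{i<k} 1/q i`.
(`r k ≤ r (N+1) - 1` because `K` is a family in `V.erase v`.) -/

namespace Pool.Agent.Work.MP_7d1693_pr.FM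

open Finset

private theorem pr_congr_full (r : ℕ) (hr : 2 ≤ r) (t : ℕ) (W : Finset ℕ)
    (E E' : Finset (Finset ℕ) → Prop)
    (h : ∀ M : Finset (Finset ℕ), (∀ e ∈ M, e ⊆ W) → (E M ↔ E' M)) :
    pr r t W E = pr r t W E' :=
  le_antisymm (INCLaux.incl_mono' r hr t W E E' (fun M hM hE => (h M hM).1 hE))
    (INCLaux.incl_mono' r hr t W E' E (fun M hM hE => (h M hM).2 hE))

theorem pr_full {r : ℕ} (hr : 2 ≤ r) (N : ℕ) (V : Finset ℕ) (hV : V.card = r * N)
    (K : Finset (Finset ℕ)) (hK : Fam r K) (hKV : ∀ e ∈ K, e ⊆ V) :
    pr r N V (fun M => K ⊆ M) = pj r N K.card := by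
  change pr r N V (fun M => K ⊆ M) = INCLaux.PP r N K.card
  induction N generalizing V K with
  | zero =>
    have hV0 : V = ∅ := by
      rw [← Finset.card_eq_zero]; simpa using hV
    have hK0 : K = ∅ := by
      rw [Finset.eq_empty_iff_forall_notMem]
      intro e he
      have h1 := hKV e he
      rw [hV0, Finset.subset_empty] at h1
      have h2 := hK.1 e he
      rw [h1] at h2
      simp at h2
      omega
    subst hK0
    unfold pr
    simp [INCLaux.PP]
  | succ t ih =>
    have hVcard : r ≤ V.card := by rw [hV]; nlinarith
    have hVne : V.Nonempty := by
      rw [← Finset.card_pos]; omega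
    have hvV : mn V ∈ V := INCLaux.incl_mn_mem V hVne
    set v := mn V with hv
    have hcardE : (V.erase v).card = r * (t + 1) - 1 := by
      rw [Finset.card_erase_of_mem hvV, hV]
    have hcard : ((V.erase v).powersetCard (r - 1)).card = (r * (t + 1) - 1).choose (r - 1) := by
      rw [Finset.card_powersetCard, hcardE]
    have hsub : ∀ S ∈ (V.erase v).powersetCard (r - 1), insert v S ⊆ V := by
      intro S hS x hx
      have hS' := Finset.mem_powersetCard.1 hS
      rw [Finset.mem_insert] at hx
      rcases hx with rfl | hx
      · exact hvV
      · exact Finset.mem_of_mem_erase (hS'.1 hx)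
    have hcardS : ∀ S ∈ (V.erase v).powersetCard (r - 1), (V \ insert v S).card = r * t := by
      intro S hS
      have hS' := Finset.mem_powersetCard.1 hS
      have hvS : v ∉ S := fun h => by
        have := hS'.1 h
        simp at this
      rw [Finset.card_sdiff_of_subset (hsub S hS), Finset.card_insert_of_notMem hvS, hS'.2, hV]
      have : r - 1 + 1 = r := by omega
      rw [this, Nat.mul_succ]
      omega
    unfold pr
    rw [← hv, hcard]
    by_cases hcase : ∃ e ∈ K, v ∈ e
    · obtain ⟨e, heK, hve⟩ := hcase
      have hecard : e.card = r := hK.1 e heK
      have hSe : e.erase v ∈ (V.erase v).powersetCard (r - 1) := by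
        rw [Finset.mem_powersetCard]
        refine ⟨Finset.erase_subset_erase v (hKV e heK), ?_⟩
        rw [Finset.card_erase_of_mem hve, hecard]
      have hine : insert v (e.erase v) = e := Finset.insert_erase hve
      have hsum : ∑ S ∈ (V.erase v).powersetCard (r - 1),
          pr r t (V \ insert v S) (fun M => K ⊆ insert (insert v S) M) =
          pr r t (V \ insert v (e.erase v)) (fun M => K ⊆ insert (insert v (e.erase v)) M) := by
        apply Finset.sum_eq_single_of_mem _ hSe
        intro S hS hne
        apply INCLaux.incl_zero' r hr
        intro M hM hKM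
        have h1 := hKM heK
        rw [Finset.mem_insert] at h1
        rcases h1 with h1 | h1
        · apply hne
          rw [h1]
          have hS' := Finset.mem_powersetCard.1 hS
          have hvS : v ∉ S := fun h => by
            have := hS'.1 h
            simp at this
          rw [Finset.erase_insert hvS]
        · have := hM e h1 hve
          simp at this
      rw [hsum, hine]
      have hkpos : 0 < K.card := Finset.card_pos.2 ⟨e, heK⟩
      have hcardEe : (V \ e).card = r * t := by
        have := hcardS _ hSe
        rwa [hine] at this
      have hle : pr r t (V \ e) (fun M => K ⊆ insert e M) = INCLaux.PP r t (K.erase e).card := by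
        rw [← ih (V \ e) hcardEe (K.erase e) ?_ ?_]
        · apply pr_congr_full r hr
          intro M _
          exact Finset.subset_insert_iff
        · exact ⟨fun x hx => hK.1 x (Finset.mem_of_mem_erase hx),
            fun x hx y hy => hK.2 x (Finset.mem_of_mem_erase hx) y (Finset.mem_of_mem_erase hy)⟩
        · intro x hx y hy
          have hx' := Finset.mem_erase.1 hx
          rw [Finset.mem_sdiff]
          refine ⟨hKV x hx'.2 hy, fun hye => ?_⟩
          exact (Finset.disjoint_left.1 (hK.2 x hx'.2 e heK hx'.1)) hy hye
      rw [Finset.card_erase_of_mem heK] at hle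
      obtain ⟨k, hk⟩ : ∃ k, K.card = k + 1 := ⟨K.card - 1, by omega⟩
      rw [hk] at hle ⊢
      rw [INCLaux.PP_succ', div_eq_mul_one_div]
      simp only [Nat.add_sub_cancel] at hle ⊢
      rw [hle]
    · push Not at hcase
      set U := K.biUnion id with hU
      have hUcard : U.card = r * K.card := INCLaux.incl_card_sup r K hK
      have hUV : U ⊆ V.erase v := by
        intro x hx
        rw [hU, Finset.mem_biUnion] at hx
        obtain ⟨e, he, hxe⟩ := hx
        rw [Finset.mem_erase]
        exact ⟨fun h => hcase e he (h ▸ hxe), hKV e he hxe⟩
      have hk1 : r * K.card ≤ r * (t + 1) - 1 := by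
        rw [← hUcard, ← hcardE]; exact Finset.card_le_card hUV
      have hk : K.card < t + 1 := by
        by_contra hcon
        push Not at hcon
        have : r * (t + 1) ≤ r * K.card := Nat.mul_le_mul_left r hcon
        have : 0 < r * (t + 1) := by positivity
        omega
      have hterm : ∀ S ∈ (V.erase v).powersetCard (r - 1),
          pr r t (V \ insert v S) (fun M => K ⊆ insert (insert v S) M) =
            if Disjoint S U then INCLaux.PP r t K.card else 0 := by
        intro S hS
        split_ifs with hd
        · rw [← ih (V \ insert v S) (hcardS S hS) K hK ?_]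
          · apply pr_congr_full r hr
            intro M _
            constructor
            · intro hKM x hx
              have := hKM hx
              rw [Finset.mem_insert] at this
              rcases this with h | h
              · exfalso
                apply hcase x hx
                rw [h]; exact Finset.mem_insert_self _ _
              · exact h
            · intro hKM
              exact hKM.trans (Finset.subset_insert _ _)
          · intro x hx y hy
            rw [Finset.mem_sdiff]
            refine ⟨hKV x hx hy, fun hyS => ?_⟩
            rw [Finset.mem_insert] at hyS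
            rcases hyS with h | h
            · exact hcase x hx (h ▸ hy)
            · apply Finset.disjoint_left.1 hd h
              rw [hU, Finset.mem_biUnion]
              exact ⟨x, hx, hy⟩
        · apply INCLaux.incl_zero' r hr
          intro M hM hKM
          apply hd
          rw [Finset.disjoint_left]
          intro y hyS hyU
          rw [hU, Finset.mem_biUnion] at hyU
          obtain ⟨e, he, hye⟩ := hyU
          have := hKM he
          rw [Finset.mem_insert] at this
          rcases this with h | h
          · apply hcase e he
            rw [h]; exact Finset.mem_insert_self _ _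
          · have := hM e h hye
            rw [Finset.mem_sdiff] at this
            exact this.2 (Finset.mem_insert_of_mem hyS)
      have hcnt : ∑ S ∈ (V.erase v).powersetCard (r - 1),
          (if Disjoint S U then INCLaux.PP r t K.card else 0) =
          (((r * (t + 1 - K.card) - 1).choose (r - 1) : ℕ) : ℝ) * INCLaux.PP r t K.card := by
        rw [← Finset.sum_filter, Finset.sum_const, nsmul_eq_mul]
        congr 2
        have : ((V.erase v).powersetCard (r - 1)).filter (fun S => Disjoint S U) =
            ((V.erase v) \ U).powersetCard (r - 1) := by
          ext S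
          simp only [Finset.mem_filter, Finset.mem_powersetCard, Finset.subset_sdiff]
          tauto
        rw [this, Finset.card_powersetCard, Finset.card_sdiff_of_subset hUV, hUcard, hcardE]
        congr 1
        rw [Nat.mul_sub]
        omega
      rw [Finset.sum_congr rfl hterm, hcnt]
      have hpos : (0 : ℝ) < (((r * (t + 1 - K.card) - 1).choose (r - 1) : ℕ) : ℝ) := by
        have : 0 < (r * (t + 1 - K.card) - 1).choose (r - 1) := by
          apply Nat.choose_pos
          have : 1 ≤ t + 1 - K.card := by omega
          have : r * 1 ≤ r * (t + 1 - K.card) := Nat.mul_le_mul_left r this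
          omega
        exact_mod_cast this
      have h1 := INCLaux.PP_succ r (t + 1) K.card
      have h2 := INCLaux.PP_succ' r (t + 1) K.card
      rw [h1] at h2
      simp only [Nat.add_sub_cancel] at h2
      have h3 : INCLaux.PP r (t + 1) K.card = INCLaux.PP r (t + 1) K.card *
          (1 / (((r * (t + 1 - K.card) - 1).choose (r - 1) : ℕ) : ℝ)) *
          (((r * (t + 1 - K.card) - 1).choose (r - 1) : ℕ) : ℝ) := by
        field_simp
      rw [h3, h2]
      ring

end Pool.Agent.Work.MP_7d1693_pr.FM
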