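import Pool.Agent.Work.MP_7d1693_pr.FM.Defs
import Pool.Agent.Work.MP_7d1693_pr.FM.Ex
import Pool.Agent.Work.MP_7d1693_pr.FM.Full

/-! # Module Mom (M): moments of the number of edges and of conflicts

`V = range (r * n)`, `T ⊆ V.powersetCard r`, `X M = (T ∩ M).card = ∑_{e ∈ T} 1[e ∈ M]`. On outcomes `M` is a family of disjoint `r`-sets (`out_struct`), and `pr (K ⊆ M) = pj r n K.card` for
families (`pr_full`), `pr (K ⊆ M) = 0` if `K` contains two different intersecting sets.
* `mom1`: linearity (`ex_sum`, `ex_ind`), `{e} ⊆ M`.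
* `mom2`: `X^2 = ∑_{e,f ∈ T} 1[e, f ∈ M]`: the `T.card` pairs `e = f` give `pj 1`, the others at most `pj 2`.
* `mom3`: on outcomes `cpair P (T ∩ M)` is the number of `(e,f)` in `Q` with `e, f ∈ M`, `Q` = ordered conflicting disjoint different pairs in `T × T` (conflicting pairs that meet are never both in
  `M`). So the expectation is `Q.card * pj 2`, and `Q.card ≤ T.card * d`. The theorem states it with a number `q` (the cardinal of `Q`), together with
* `mom4`: `cpair^2 = ∑_{(e,f),(e',f') ∈ Q} 1[all in M]`. According to the number of different sets among `e, f, e', f'`: two (then `(e',f') = (e,f)` or `(f,e)`): at most `2 q` with `pj 2`; three: `(e',f')` shares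
  exactly one of its entries with `{e, f}`: at most `4 q d` (choose which entry of `(e',f')` equals which of `e, f`, the other entry is a neighbour of it, at most `d`), each at most `pj 3`; four: at most
  `q^2`, each at most `pj 4` (equal to it if they form a family, else `0`). -/

namespace Pool.Agent.Work.MP_7d1693_pr.FM

open Finset

private theorem mom_pj_nonneg (r n j : ℕ) : 0 ≤ pj r n j := by
  unfold pj
  exact Finset.prod_nonneg fun i _ => by positivity

private theorem mom_hV (r n : ℕ) : r * n ≤ (range (r * n)).card := by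
  rw [card_range]

private theorem mom_mem {r n : ℕ} {T : Finset (Finset ℕ)}
    (hT : T ⊆ (range (r * n)).powersetCard r) {e : Finset ℕ} (he : e ∈ T) :
    e ⊆ range (r * n) ∧ e.card = r :=
  mem_powersetCard.1 (hT he)

private theorem mom_ind (r t : ℕ) (V : Finset ℕ) (E : Finset (Finset ℕ) → Prop)
    [∀ M, Decidable (E M)] :
    ex r t V (fun M => if E M then 1 else 0) = pr r t V E := by
  classical
  rw [← ex_ind]
  congr 1
  funext M
  congr

private theorem mom_eq {r n : ℕ} (hr : 2 ≤ r) {K : Finset (Finset ℕ)}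
    (hK : K ⊆ (range (r * n)).powersetCard r) (hF : ∀ e ∈ K, ∀ f ∈ K, e ≠ f → Disjoint e f) :
    pr r n (range (r * n)) (fun M => K ⊆ M) = pj r n K.card :=
  pr_full hr n _ (card_range _) K ⟨fun _ he => (mom_mem hK he).2, hF⟩
    fun _ he => (mom_mem hK he).1

private theorem mom_le {r n : ℕ} (hr : 2 ≤ r) {K : Finset (Finset ℕ)}
    (hK : K ⊆ (range (r * n)).powersetCard r) :
    pr r n (range (r * n)) (fun M => K ⊆ M) ≤ pj r n K.card := by
  by_cases hF : ∀ e ∈ K, ∀ f ∈ K, e ≠ f → Disjoint e f
  · exact (mom_eq hr hK hF).le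
  · refine le_trans ?_ (mom_pj_nonneg r n K.card)
    have h1 : pr r n (range (r * n)) (fun M => K ⊆ M) ≤ ex r n (range (r * n)) (fun _ => 0) := by
      classical
      rw [← mom_ind]
      apply ex_mono
      intro M hM
      have h2 := (out_struct r n (by omega) _ (mom_hV r n) M hM).2.1
      rw [if_neg]
      intro hKM
      exact hF fun e he f hf hef => h2.2 e (hKM he) f (hKM hf) hef
    rwa [ex_const (by omega) (mom_hV r n)] at h1

open Classical in
private theorem mom_ex {r n : ℕ} {f g : Finset (Finset ℕ) → ℝ}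
    (h : ∀ M, Out r n (range (r * n)) M → f M = g M) :
    ex r n (range (r * n)) f = ex r n (range (r * n)) g :=
  le_antisymm (ex_mono _ _ _ _ _ fun M hM => (h M hM).le)
    (ex_mono _ _ _ _ _ fun M hM => (h M hM).ge)

open Classical in
private theorem mom_card (T M : Finset (Finset ℕ)) :
    ((T ∩ M).card : ℝ) = ∑ e ∈ T, if ({e} : Finset (Finset ℕ)) ⊆ M then (1 : ℝ) else 0 := by
  rw [Finset.sum_boole, ← Finset.filter_mem_eq_inter]
  simp only [singleton_subset_iff]

theorem mom1 {r n : ℕ} (hr : 2 ≤ r) {T : Finset (Finset ℕ)} (hT : T ⊆ (range (r * n)).powersetCard r) :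
    ex r n (range (r * n)) (fun M => ((T ∩ M).card : ℝ)) = T.card * pj r n 1 := by
  classical
  have h1 : (fun M => ((T ∩ M).card : ℝ)) =
      fun M => ∑ e ∈ T, if ({e} : Finset (Finset ℕ)) ⊆ M then (1 : ℝ) else 0 :=
    funext fun M => mom_card T M
  rw [h1, ex_sum]
  have h2 : ∀ e ∈ T, ex r n (range (r * n))
      (fun M => if ({e} : Finset (Finset ℕ)) ⊆ M then (1 : ℝ) else 0) = pj r n 1 := by
    intro e he
    rw [mom_ind, mom_eq hr (singleton_subset_iff.2 (hT he)), card_singleton]
    intro a ha b hb hab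
    rw [mem_singleton] at ha hb
    exact absurd (ha.trans hb.symm) hab
  rw [Finset.sum_congr rfl h2, Finset.sum_const, nsmul_eq_mul]

theorem mom2 {r n : ℕ} (hr : 2 ≤ r) {T : Finset (Finset ℕ)} (hT : T ⊆ (range (r * n)).powersetCard r) :
    ex r n (range (r * n)) (fun M => ((T ∩ M).card : ℝ) ^ 2) ≤
      T.card * pj r n 1 + (T.card : ℝ) ^ 2 * pj r n 2 := by
  classical
  have h1 : (fun M => ((T ∩ M).card : ℝ) ^ 2) =
      fun M => ∑ p ∈ T ×ˢ T, if ({p.1, p.2} : Finset (Finset ℕ)) ⊆ M then (1 : ℝ) else 0 := by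
    funext M
    rw [mom_card, sq, Finset.sum_mul_sum, ← Finset.sum_product']
    refine Finset.sum_congr rfl fun p _ => ?_
    rw [ite_zero_mul_ite_zero, mul_one]
    refine if_congr ?_ rfl rfl
    simp only [insert_subset_iff, singleton_subset_iff]
  rw [h1, ex_sum]
  have h2 : ∀ p ∈ T ×ˢ T, ex r n (range (r * n))
      (fun M => if ({p.1, p.2} : Finset (Finset ℕ)) ⊆ M then (1 : ℝ) else 0) ≤
      (if p.1 = p.2 then pj r n 1 else 0) + pj r n 2 := by
    intro p hp
    rw [mem_product] at hp
    rw [mom_ind]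
    have hsub : ({p.1, p.2} : Finset (Finset ℕ)) ⊆ (range (r * n)).powersetCard r :=
      insert_subset_iff.2 ⟨hT hp.1, singleton_subset_iff.2 (hT hp.2)⟩
    have h3 := mom_le hr hsub
    have h4 := mom_pj_nonneg r n 2
    split_ifs with h
    · have h5 : ({p.1, p.2} : Finset (Finset ℕ)).card = 1 := by
        rw [h, pair_eq_singleton, card_singleton]
      rw [h5] at h3
      linarith
    · rw [card_pair h] at h3
      linarith
  refine (Finset.sum_le_sum h2).trans ?_
  rw [Finset.sum_add_distrib, Finset.sum_const, card_product, nsmul_eq_mul]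
  have h6 : ∑ p ∈ T ×ˢ T, (if p.1 = p.2 then pj r n 1 else 0) = T.card * pj r n 1 := by
    rw [Finset.sum_product]
    have h7 : ∀ x ∈ T, ∑ y ∈ T, (if (x, y).1 = (x, y).2 then pj r n 1 else 0) = pj r n 1 := by
      intro x hx
      rw [Finset.sum_ite_eq, if_pos hx]
    rw [Finset.sum_congr rfl h7, Finset.sum_const, nsmul_eq_mul]
  rw [h6]
  push_cast
  nlinarith [mom_pj_nonneg r n 2]

open Classical in
private noncomputable def momQ (P : Set (List Bool)) (T : Finset (Finset ℕ)) :
    Finset (Finset ℕ × Finset ℕ) :=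
  (T ×ˢ T).filter (fun p => p.1 ≠ p.2 ∧ conf P p.1 p.2 ∧ Disjoint p.1 p.2)

open Classical in
private noncomputable def momN (P : Set (List Bool)) (T : Finset (Finset ℕ)) (v : Finset ℕ) :
    Finset (Finset ℕ) := T.filter (fun w => w ≠ v ∧ conf P v w)

private def momS (p : Finset ℕ × Finset ℕ) : Finset (Finset ℕ) := {p.1, p.2}

open Classical in
private theorem mem_momQ {P : Set (List Bool)} {T : Finset (Finset ℕ)}
    {p : Finset ℕ × Finset ℕ} : p ∈ momQ P T ↔
      (p.1 ∈ T ∧ p.2 ∈ T) ∧ p.1 ≠ p.2 ∧ conf P p.1 p.2 ∧ Disjoint p.1 p.2 := by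
  unfold momQ
  rw [mem_filter, mem_product]

private theorem momN_card {P : Set (List Bool)} {T : Finset (Finset ℕ)} {d : ℕ}
    (hd : ∀ v ∈ T, deg (conf P) T v ≤ d) {v : Finset ℕ} (hv : v ∈ T) : (momN P T v).card ≤ d := by
  have h := hd v hv
  unfold deg at h
  unfold momN
  exact h

open Classical in
private theorem mem_momN {P : Set (List Bool)} {T : Finset (Finset ℕ)} {v w : Finset ℕ} :
    w ∈ momN P T v ↔ w ∈ T ∧ w ≠ v ∧ conf P v w := by
  unfold momN
  rw [mem_filter]

private theorem momQ_card {P : Set (List Bool)} {T : Finset (Finset ℕ)} {d : ℕ}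
    (hd : ∀ v ∈ T, deg (conf P) T v ≤ d) : (momQ P T).card ≤ T.card * d := by
  classical
  have h1 : momQ P T ⊆ T.biUnion fun v => (momN P T v).image fun w => (v, w) := by
    intro p hp
    rw [mem_momQ] at hp
    rw [mem_biUnion]
    refine ⟨p.1, hp.1.1, mem_image.2 ⟨p.2, mem_momN.2 ⟨hp.1.2, hp.2.1.symm, hp.2.2.1⟩, rfl⟩⟩
  refine (card_le_card h1).trans (card_biUnion_le.trans ?_)
  rw [← smul_eq_mul, ← Finset.sum_const]
  exact Finset.sum_le_sum fun v hv => card_image_le.trans (momN_card hd hv)

private theorem momS_card {p : Finset ℕ × Finset ℕ} (h : p.1 ≠ p.2) : (momS p).card = 2 :=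
  card_pair h

open Classical in
private theorem mom_cpair {r n : ℕ} (hr : 2 ≤ r) (P : Set (List Bool)) (T : Finset (Finset ℕ))
    (M : Finset (Finset ℕ)) (hM : Out r n (range (r * n)) M) :
    (cpair P (T ∩ M) : ℝ) = ∑ p ∈ momQ P T, if momS p ⊆ M then (1 : ℝ) else 0 := by
  have h2 := (out_struct r n (by omega) _ (mom_hV r n) M hM).2.1
  rw [Finset.sum_boole]
  unfold cpair
  congr 2
  ext p
  simp only [mem_filter, mem_product, mem_inter, mem_momQ, momS, insert_subset_iff,
    singleton_subset_iff]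
  constructor
  · rintro ⟨⟨⟨h3, h4⟩, h5, h6⟩, h7, h8⟩
    exact ⟨⟨⟨h3, h5⟩, h7, h8, h2.2 _ h4 _ h6 h7⟩, h4, h6⟩
  · rintro ⟨⟨⟨h3, h5⟩, h7, h8, _⟩, h4, h6⟩
    exact ⟨⟨⟨h3, h4⟩, h5, h6⟩, h7, h8⟩

private theorem momS_sub {r n : ℕ} {P : Set (List Bool)} {T : Finset (Finset ℕ)}
    (hT : T ⊆ (range (r * n)).powersetCard r) {p : Finset ℕ × Finset ℕ} (hp : p ∈ momQ P T) :
    momS p ⊆ (range (r * n)).powersetCard r := by
  rw [mem_momQ] at hp
  exact insert_subset_iff.2 ⟨hT hp.1.1, singleton_subset_iff.2 (hT hp.1.2)⟩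

/-- the bound for a pair of conflicting pairs -/
private theorem mom_pair {r n : ℕ} (hr : 2 ≤ r) (P : Set (List Bool)) {T : Finset (Finset ℕ)}
    (hT : T ⊆ (range (r * n)).powersetCard r) {p p' : Finset ℕ × Finset ℕ}
    (hp : p ∈ momQ P T) (hp' : p' ∈ momQ P T) :
    pr r n (range (r * n)) (fun M => momS p ∪ momS p' ⊆ M) ≤
      if momS p' = momS p then pj r n 2 else
      if Disjoint (momS p) (momS p') then pj r n 4 else pj r n 3 := by
  classical
  have h1 := mom_le hr (union_subset (momS_sub hT hp) (momS_sub hT hp'))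
  have h2 := momS_card (mem_momQ.1 hp).2.1
  have h3 := momS_card (mem_momQ.1 hp').2.1
  split_ifs with h4 h5
  · rw [h4, union_self, h2] at h1
    rwa [h4, union_self]
  · rw [card_union_of_disjoint h5, h2, h3] at h1
    exact h1
  · have h6 : (momS p ∪ momS p').card = 3 := by
      have h7 := card_union_add_card_inter (momS p) (momS p')
      have h8 : (momS p ∩ momS p').Nonempty := not_disjoint_iff_nonempty_inter.1 h5
      have h9 := card_pos.2 h8
      have h10 : (momS p ∩ momS p').card < 2 := by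
        by_contra hge
        apply h4
        have e1 : momS p ∩ momS p' = momS p :=
          eq_of_subset_of_card_le inter_subset_left (by omega)
        have e2 : momS p ∩ momS p' = momS p' :=
          eq_of_subset_of_card_le inter_subset_right (by omega)
        rw [← e2, e1]
      omega
    rw [h6] at h1
    exact h1

private theorem mom_same {P : Set (List Bool)} {T : Finset (Finset ℕ)}
    {p : Finset ℕ × Finset ℕ} :
    ((momQ P T).filter fun p' => momS p' = momS p).card ≤ 2 := by
  classical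
  have h1 : ((momQ P T).filter fun p' => momS p' = momS p) ⊆ {p, (p.2, p.1)} := by
    intro p' hp'
    rw [mem_filter] at hp'
    obtain ⟨h2, h3⟩ := hp'
    have hne := (mem_momQ.1 h2).2.1
    have h4 : p'.1 ∈ momS p := by
      rw [← h3]
      exact mem_insert_self _ _
    have h5 : p'.2 ∈ momS p := by
      rw [← h3]
      exact mem_insert_of_mem (mem_singleton_self _)
    simp only [momS, mem_insert, mem_singleton] at h4 h5
    rw [mem_insert, mem_singleton]
    rcases h4 with h4 | h4 <;> rcases h5 with h5 | h5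
    · exact absurd (h4.trans h5.symm) hne
    · exact Or.inl (Prod.ext h4 h5)
    · exact Or.inr (Prod.ext h4 h5)
    · exact absurd (h4.trans h5.symm) hne
  exact (card_le_card h1).trans card_le_two

private theorem mom_share {P : Set (List Bool)} {T : Finset (Finset ℕ)} {d : ℕ}
    (hd : ∀ v ∈ T, deg (conf P) T v ≤ d) {p : Finset ℕ × Finset ℕ} (hp : p ∈ momQ P T) :
    ((momQ P T).filter fun p' => ¬ Disjoint (momS p) (momS p')).card ≤ 4 * d := by
  classical
  have hp1 := (mem_momQ.1 hp).1
  have h1 : ((momQ P T).filter fun p' => ¬ Disjoint (momS p) (momS p')) ⊆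
      (((momN P T p.1).image fun w => (p.1, w)) ∪ ((momN P T p.2).image fun w => (p.2, w))) ∪
      (((momN P T p.1).image fun w => (w, p.1)) ∪ ((momN P T p.2).image fun w => (w, p.2))) := by
    intro p' hp'
    rw [mem_filter, not_disjoint_iff] at hp'
    obtain ⟨h2, a, h3, h4⟩ := hp'
    obtain ⟨⟨g1, g2⟩, g3, g4, -⟩ := mem_momQ.1 h2
    simp only [momS, mem_insert, mem_singleton] at h3 h4
    rw [mem_union, mem_union, mem_union, mem_image, mem_image, mem_image, mem_image]
    rcases h4 with h4 | h4 <;> rcases h3 with h3 | h3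
    · refine Or.inl (Or.inl ⟨p'.2, mem_momN.2 ⟨g2, ?_, ?_⟩, Prod.ext ?_ rfl⟩)
      · rw [← h3, h4]
        exact g3.symm
      · rw [← h3, h4]
        exact g4
      · exact h3.symm.trans h4
    · refine Or.inl (Or.inr ⟨p'.2, mem_momN.2 ⟨g2, ?_, ?_⟩, Prod.ext ?_ rfl⟩)
      · rw [← h3, h4]
        exact g3.symm
      · rw [← h3, h4]
        exact g4
      · exact h3.symm.trans h4
    · refine Or.inr (Or.inl ⟨p'.1, mem_momN.2 ⟨g1, ?_, ?_⟩, Prod.ext rfl ?_⟩)
      · rw [← h3, h4]
        exact g3
      · rw [← h3, h4]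
        exact conf_symm P g4
      · exact h3.symm.trans h4
    · refine Or.inr (Or.inr ⟨p'.1, mem_momN.2 ⟨g1, ?_, ?_⟩, Prod.ext rfl ?_⟩)
      · rw [← h3, h4]
        exact g3
      · rw [← h3, h4]
        exact conf_symm P g4
      · exact h3.symm.trans h4
  refine (card_le_card h1).trans ?_
  have e1 := card_union_le
    (((momN P T p.1).image fun w => (p.1, w)) ∪ ((momN P T p.2).image fun w => (p.2, w)))
    (((momN P T p.1).image fun w => (w, p.1)) ∪ ((momN P T p.2).image fun w => (w, p.2)))
  have e2 := card_union_le ((momN P T p.1).image fun w => (p.1, w))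
    ((momN P T p.2).image fun w => (p.2, w))
  have e3 := card_union_le ((momN P T p.1).image fun w => (w, p.1))
    ((momN P T p.2).image fun w => (w, p.2))
  have k1 := momN_card hd hp1.1
  have k2 := momN_card hd hp1.2
  have f1 : ((momN P T p.1).image fun w => (p.1, w)).card ≤ (momN P T p.1).card := card_image_le
  have f2 : ((momN P T p.2).image fun w => (p.2, w)).card ≤ (momN P T p.2).card := card_image_le
  have f3 : ((momN P T p.1).image fun w => (w, p.1)).card ≤ (momN P T p.1).card := card_image_le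
  have f4 : ((momN P T p.2).image fun w => (w, p.2)).card ≤ (momN P T p.2).card := card_image_le
  omega

private theorem mom_row {r n : ℕ} (hr : 2 ≤ r) (P : Set (List Bool)) {T : Finset (Finset ℕ)}
    (hT : T ⊆ (range (r * n)).powersetCard r) {d : ℕ} (hd : ∀ v ∈ T, deg (conf P) T v ≤ d)
    {p : Finset ℕ × Finset ℕ} (hp : p ∈ momQ P T) :
    ∑ p' ∈ momQ P T, pr r n (range (r * n)) (fun M => momS p ∪ momS p' ⊆ M) ≤
      2 * pj r n 2 + 4 * d * pj r n 3 + (momQ P T).card * pj r n 4 := by
  classical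
  have h1 : ∀ p' ∈ momQ P T, pr r n (range (r * n)) (fun M => momS p ∪ momS p' ⊆ M) ≤
      (if momS p' = momS p then pj r n 2 else 0) +
      (if ¬ Disjoint (momS p) (momS p') then pj r n 3 else 0) + pj r n 4 := by
    intro p' hp'
    refine (mom_pair hr P hT hp hp').trans ?_
    have n2 := mom_pj_nonneg r n 2
    have n3 := mom_pj_nonneg r n 3
    have n4 := mom_pj_nonneg r n 4
    split_ifs <;> linarith
  refine (Finset.sum_le_sum h1).trans ?_
  rw [Finset.sum_add_distrib, Finset.sum_add_distrib, ← Finset.sum_filter, ← Finset.sum_filter,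
    Finset.sum_const, Finset.sum_const, Finset.sum_const, nsmul_eq_mul, nsmul_eq_mul, nsmul_eq_mul]
  have h2 : (((momQ P T).filter fun p' => momS p' = momS p).card : ℝ) ≤ 2 := by
    exact_mod_cast mom_same
  have h3 : (((momQ P T).filter fun p' => ¬ Disjoint (momS p) (momS p')).card : ℝ) ≤ 4 * d := by
    exact_mod_cast mom_share hd hp
  exact add_le_add (add_le_add (mul_le_mul_of_nonneg_right h2 (mom_pj_nonneg _ _ _))
    (mul_le_mul_of_nonneg_right h3 (mom_pj_nonneg _ _ _))) le_rfl

theorem mom34 {r n : ℕ} (hr : 2 ≤ r) (P : Set (List Bool)) {T : Finset (Finset ℕ)}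
    (hT : T ⊆ (range (r * n)).powersetCard r) {d : ℕ} (hd : ∀ v ∈ T, deg (conf P) T v ≤ d) :
    ∃ q : ℕ, q ≤ T.card * d ∧
      ex r n (range (r * n)) (fun M => (cpair P (T ∩ M) : ℝ)) = q * pj r n 2 ∧
      ex r n (range (r * n)) (fun M => (cpair P (T ∩ M) : ℝ) ^ 2) ≤
        2 * q * pj r n 2 + 4 * q * d * pj r n 3 + (q : ℝ) ^ 2 * pj r n 4 := by
  classical
  refine ⟨(momQ P T).card, momQ_card hd, ?_, ?_⟩
  · rw [mom_ex (mom_cpair hr P T), ex_sum]
    have h2 : ∀ p ∈ momQ P T, ex r n (range (r * n))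
        (fun M => if momS p ⊆ M then (1 : ℝ) else 0) = pj r n 2 := by
      intro p hp
      have h3 := (mem_momQ.1 hp).2
      rw [mom_ind, mom_eq hr (momS_sub hT hp), momS_card h3.1]
      intro a ha b hb hab
      simp only [momS, mem_insert, mem_singleton] at ha hb
      rcases ha with ha | ha <;> rcases hb with hb | hb
      · exact absurd (ha.trans hb.symm) hab
      · rw [ha, hb]
        exact h3.2.2
      · rw [ha, hb]
        exact h3.2.2.symm
      · exact absurd (ha.trans hb.symm) hab
    rw [Finset.sum_congr rfl h2, Finset.sum_const, nsmul_eq_mul]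
  · have h1 : ex r n (range (r * n)) (fun M => (cpair P (T ∩ M) : ℝ) ^ 2) =
        ex r n (range (r * n)) (fun M => ∑ p ∈ momQ P T, ∑ p' ∈ momQ P T,
          if momS p ∪ momS p' ⊆ M then (1 : ℝ) else 0) := by
      apply mom_ex
      intro M hM
      rw [mom_cpair hr P T M hM, sq, Finset.sum_mul_sum]
      refine Finset.sum_congr rfl fun p _ => Finset.sum_congr rfl fun p' _ => ?_
      rw [ite_zero_mul_ite_zero, mul_one]
      exact if_congr union_subset_iff.symm rfl rfl
    rw [h1, ex_sum]
    have h2 : ∀ p ∈ momQ P T, ex r n (range (r * n)) (fun M => ∑ p' ∈ momQ P T,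
          if momS p ∪ momS p' ⊆ M then (1 : ℝ) else 0) ≤
        2 * pj r n 2 + 4 * d * pj r n 3 + (momQ P T).card * pj r n 4 := by
      intro p hp
      rw [ex_sum]
      refine le_trans (le_of_eq ?_) (mom_row hr P hT hd hp)
      refine Finset.sum_congr rfl fun p' _ => ?_
      rw [mom_ind]
    refine (Finset.sum_le_sum h2).trans (le_of_eq ?_)
    rw [Finset.sum_const, nsmul_eq_mul]
    ring

end Pool.Agent.Work.MP_7d1693_pr.FM
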