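import Pool.Agent.Work.MP_7d1693_pr.FM.Defs

/-! # Module Part (S-M): Lovasz partition (Mathlib only)

Colour `S` with `q` colours so that the number of ordered conflicting pairs of the same colour is minimal (`Finset.exists_min_image` over functions
`S → Fin q`, or over `Finset` of functions `Fintype.piFinset`). For `v ∈ S` with colour `i` and any colour `j`, the number of neighbours of `v` of colour `i` is at most that of colour `j`
(otherwise recolour `v`, `c` is symmetric). Summing over `j`: `q * (inner degree) ≤ deg c S v ≤ q * D`. Let `T` be a largest colour class: `S.card ≤ q * T.card`.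
(Alternative: induction is not needed.) -/

namespace Pool.Agent.Work.MP_7d1693_pr.FM

open Finset

theorem part {α : Type} [DecidableEq α] (c : α → α → Prop) (hc : ∀ u v, c u v → c v u) (S : Finset α)
    {q : ℕ} (hq : 1 ≤ q) {D : ℕ} (h : ∀ v ∈ S, deg c S v ≤ q * D) :
    ∃ T ⊆ S, S.card ≤ q * T.card ∧ ∀ v ∈ T, deg c T v ≤ D := by
  classical
  haveI : Nonempty (Fin q) := ⟨⟨0, hq⟩⟩
  let e : (α → Fin q) → α → α → ℕ := fun f u w => if (c u w ∧ f w = f u) then 1 else 0
  let E : (α → Fin q) → ℕ := fun f => ∑ u ∈ S, ∑ w ∈ S.erase u, e f u w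
  obtain ⟨f, _, hf⟩ := WellFounded.has_min (measure E).wf (Set.univ : Set (α → Fin q))
    ⟨fun _ => Classical.arbitrary _, trivial⟩
  have hmin : ∀ g, E f ≤ E g := fun g => not_lt.1 (hf g trivial)
  have hesymm : ∀ (g : α → Fin q) u w, e g u w = e g w u := by
    intro g u w
    have : (c u w ∧ g w = g u) ↔ (c w u ∧ g u = g w) :=
      ⟨fun h => ⟨hc _ _ h.1, h.2.symm⟩, fun h => ⟨hc _ _ h.1, h.2.symm⟩⟩
    simp only [e, this]
  have hsplit : ∀ (g : α → Fin q) (v : α), v ∈ S →
      E g = 2 * (∑ w ∈ S.erase v, e g v w) +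
        ∑ u ∈ S.erase v, ∑ w ∈ (S.erase v).erase u, e g u w := by
    intro g v hv
    have h1 : E g = (∑ w ∈ S.erase v, e g v w) + ∑ u ∈ S.erase v, ∑ w ∈ S.erase u, e g u w :=
      (Finset.add_sum_erase S (fun u => ∑ w ∈ S.erase u, e g u w) hv).symm
    have h2 : ∀ u ∈ S.erase v, (∑ w ∈ S.erase u, e g u w) =
        e g v u + ∑ w ∈ (S.erase v).erase u, e g u w := by
      intro u hu
      have hvu : v ∈ S.erase u := Finset.mem_erase.2 ⟨(Finset.ne_of_mem_erase hu).symm, hv⟩
      rw [← Finset.add_sum_erase (S.erase u) (fun w => e g u w) hvu, Finset.erase_right_comm,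
        hesymm g u v]
    rw [h1, Finset.sum_congr rfl h2, Finset.sum_add_distrib]
    ring
  have hN : ∀ v ∈ S, ∀ j : Fin q, (∑ w ∈ S.erase v, e f v w) ≤
      ∑ w ∈ S.erase v, (if (c v w ∧ f w = j) then 1 else 0) := by
    intro v hv j
    have h1 := hmin (Function.update f v j)
    rw [hsplit f v hv, hsplit (Function.update f v j) v hv] at h1
    have h2 : (∑ w ∈ S.erase v, e (Function.update f v j) v w) =
        ∑ w ∈ S.erase v, (if (c v w ∧ f w = j) then 1 else 0) := by
      refine Finset.sum_congr rfl fun w hw => ?_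
      simp only [e, Function.update_self, Function.update_of_ne (Finset.ne_of_mem_erase hw)]
    have h3 : (∑ u ∈ S.erase v, ∑ w ∈ (S.erase v).erase u, e (Function.update f v j) u w) =
        ∑ u ∈ S.erase v, ∑ w ∈ (S.erase v).erase u, e f u w := by
      refine Finset.sum_congr rfl fun u hu => Finset.sum_congr rfl fun w hw => ?_
      have hw' := Finset.ne_of_mem_erase (Finset.mem_of_mem_erase hw)
      simp only [e, Function.update_of_ne (Finset.ne_of_mem_erase hu), Function.update_of_ne hw']
    rw [h2, h3] at h1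
    omega
  have hdeg : ∀ v, deg c S v = ∑ j : Fin q, ∑ w ∈ S.erase v,
      (if (c v w ∧ f w = j) then 1 else 0) := by
    intro v
    rw [Finset.sum_comm]
    have h1 : ∀ w ∈ S.erase v, (∑ j : Fin q, (if (c v w ∧ f w = j) then 1 else 0)) =
        if c v w then 1 else 0 := by
      intro w _
      by_cases h : c v w
      · simp [h]
      · simp [h]
    rw [Finset.sum_congr rfl h1, Finset.sum_boole, deg]
    simp only [Nat.cast_id]
    congr 1
    ext w
    simp only [Finset.mem_filter, Finset.mem_erase]
    tauto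
  have hin : ∀ v ∈ S, (∑ w ∈ S.erase v, e f v w) ≤ D := by
    intro v hv
    have h1 : q * (∑ w ∈ S.erase v, e f v w) ≤ q * D := by
      refine le_trans ?_ (h v hv)
      rw [hdeg v]
      have h2 := Finset.card_nsmul_le_sum (Finset.univ : Finset (Fin q))
        (fun j => ∑ w ∈ S.erase v, (if (c v w ∧ f w = j) then 1 else 0))
        (∑ w ∈ S.erase v, e f v w) (fun j _ => hN v hv j)
      simpa using h2
    exact Nat.le_of_mul_le_mul_left h1 hq
  obtain ⟨i, _, hi⟩ := Finset.exists_max_image (Finset.univ : Finset (Fin q))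
    (fun i => (S.filter (fun w => f w = i)).card) Finset.univ_nonempty
  refine ⟨S.filter (fun w => f w = i), Finset.filter_subset _ _, ?_, ?_⟩
  · have h1 : S.card = ∑ i : Fin q, (S.filter (fun w => f w = i)).card :=
      Finset.card_eq_sum_card_fiberwise (fun _ _ => Finset.mem_coe.2 (Finset.mem_univ _))
    have h2 := Finset.sum_le_card_nsmul (Finset.univ : Finset (Fin q))
      (fun i => (S.filter (fun w => f w = i)).card) _ hi
    rw [← h1] at h2
    simpa using h2
  · intro v hv
    rw [Finset.mem_filter] at hv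
    refine le_trans ?_ (hin v hv.1)
    simp only [e]
    rw [Finset.sum_boole, deg]
    simp only [Nat.cast_id]
    refine Finset.card_le_card ?_
    intro w hw
    simp only [Finset.mem_filter, Finset.mem_erase] at hw ⊢
    exact ⟨⟨hw.2.1, hw.1.1⟩, hw.2.2, hw.1.2.trans hv.2.symm⟩

end Pool.Agent.Work.MP_7d1693_pr.FM
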