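import Pool.Agent.Work.MP_7d1693_pr.FM.Defs

/-! # Module PjNum (S-M): numerical bounds (Mathlib only)

`q i = (r(n-i)-1).choose (r-1)`, `i ≤ 3`, `n ≥ 4`, so `r(n-i)-1 ≥ r-1` and `q i > 0`. `(r-1)! q i = ∏_{l<r-1} (r(n-i)-1-l)`, all factors are between `1` and `r n`, and
`≥ r(n-i-1)+1 ≥ n/4` (for `n ≥ 4`, `i ≤ 3`: `r(n-4)+1 ≥ n/4`: if `n ≥ 6` `2(n-4) ≥ n/4`..., `n = 4, 5`: `1 ≥ 1`, `r+1 ≥ 5/4`), so `(n/4)^(r-1) ≤ (r-1)! q i ≤ (r n)^(r-1)`:
upper and lower bound for `pj r n 1 = 1/q 0`. `q 0/q i = ∏_l (1 + r i/(r(n-i)-1-l)) ≤ (1 + 3 r * 4/n)^(r-1) ≤ 1 + C/n` (for `y = 12 r/n ≤ 3 r`: `(1+y)^(r-1) ≤ 1 + y ((1+3r)^(r-1) )`...: `(1+y)^m ≤ 1 + m y (1+y)^(m-1)`).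
`pj 2 = pj 1^2 * (q 0/q 1)`, `pj 3 = pj 1^3 (q 0/q 1)(q 0/q 2)`, `pj 4 = pj 2^2 * (q 0/q 2)(q 1/q 3)` with `q 1/q 3 ≤ q 0/q 3`. `q` is decreasing in `i`, so `pj 1^2 ≤ pj 2`. -/

namespace Pool.Agent.Work.MP_7d1693_pr.FM

open Finset

/-- one step of the growth of the binomial coefficient -/
private theorem pjn_step {m N : ℕ} {x : ℝ} (hx : 0 < x) (h : x ≤ (N : ℝ) + 1 - m) :
    ((N + 1).choose m : ℝ) ≤ (N.choose m : ℝ) * (1 + m / x) := by
  have hmN : m ≤ N + 1 := by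
    have : (m : ℝ) ≤ ((N + 1 : ℕ) : ℝ) := by push_cast; linarith
    exact_mod_cast this
  have h1 : (N.choose m : ℝ) * ((N : ℝ) + 1) = ((N + 1).choose m : ℝ) * ((N : ℝ) + 1 - m) := by
    have := Nat.choose_mul_succ_eq N m
    have h2 : ((N.choose m * (N + 1) : ℕ) : ℝ) = (((N + 1).choose m * (N + 1 - m) : ℕ) : ℝ) := by
      rw [this]
    push_cast [Nat.cast_sub hmN] at h2
    exact h2
  have hpos : (0 : ℝ) < (N : ℝ) + 1 - m := lt_of_lt_of_le hx h
  have h3 : ((N + 1).choose m : ℝ) = (N.choose m : ℝ) * (((N : ℝ) + 1) / ((N : ℝ) + 1 - m)) := by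
    rw [← mul_div_assoc, h1, mul_div_cancel_right₀ _ hpos.ne']
  rw [h3]
  apply mul_le_mul_of_nonneg_left _ (Nat.cast_nonneg _)
  have h4 : ((N : ℝ) + 1) / ((N : ℝ) + 1 - m) = 1 + m / ((N : ℝ) + 1 - m) := by
    field_simp
    ring
  rw [h4]
  have h5 : (m : ℝ) / ((N : ℝ) + 1 - m) ≤ m / x :=
    div_le_div_of_nonneg_left (Nat.cast_nonneg _) hx h
  linarith

private theorem pjn_steps {m N : ℕ} {x : ℝ} (hx : 0 < x) (h : x ≤ (N : ℝ) + 1 - m) (a : ℕ) :
    ((N + a).choose m : ℝ) ≤ (N.choose m : ℝ) * (1 + m / x) ^ a := by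
  induction a with
  | zero => simp
  | succ a ih =>
    have h1 : ((N + a + 1).choose m : ℝ) ≤ ((N + a).choose m : ℝ) * (1 + m / x) := by
      apply pjn_step hx
      push_cast
      have : (0 : ℝ) ≤ a := Nat.cast_nonneg a
      linarith
    have h2 : (0 : ℝ) ≤ 1 + m / x := by positivity
    calc ((N + (a + 1)).choose m : ℝ) = ((N + a + 1).choose m : ℝ) := by rw [add_assoc]
      _ ≤ ((N + a).choose m : ℝ) * (1 + m / x) := h1
      _ ≤ ((N.choose m : ℝ) * (1 + m / x) ^ a) * (1 + m / x) := mul_le_mul_of_nonneg_right ih h2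
      _ = (N.choose m : ℝ) * (1 + m / x) ^ (a + 1) := by rw [pow_succ]; ring

private theorem pjn_conv {y n : ℝ} (hy : 0 ≤ y) (hn : 1 ≤ n) (M : ℕ) :
    (1 + y / n) ^ M ≤ 1 + ((1 + y) ^ M - 1) / n := by
  have hn0 : 0 < n := by linarith
  induction M with
  | zero => simp
  | succ M ih =>
    have hA : 1 ≤ (1 + y) ^ M := one_le_pow₀ (by linarith)
    have h1 : 0 ≤ 1 + y / n := by positivity
    calc (1 + y / n) ^ (M + 1) = (1 + y / n) ^ M * (1 + y / n) := pow_succ _ _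
      _ ≤ (1 + ((1 + y) ^ M - 1) / n) * (1 + y / n) := mul_le_mul_of_nonneg_right ih h1
      _ ≤ 1 + ((1 + y) ^ (M + 1) - 1) / n := by
        have h2 : ((1 + y) ^ M - 1) / n * (y / n) ≤ ((1 + y) ^ M - 1) * y / n := by
          have h3 : y / n ≤ y := div_le_self hy hn
          have h4 : 0 ≤ ((1 + y) ^ M - 1) / n := div_nonneg (by linarith) hn0.le
          calc ((1 + y) ^ M - 1) / n * (y / n) ≤ ((1 + y) ^ M - 1) / n * y :=
                mul_le_mul_of_nonneg_left h3 h4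
            _ = ((1 + y) ^ M - 1) * y / n := by ring
        have h5 : (1 + ((1 + y) ^ M - 1) / n) * (1 + y / n) =
            1 + ((1 + y) ^ M - 1) / n + y / n + ((1 + y) ^ M - 1) / n * (y / n) := by ring
        have h6 : 1 + ((1 + y) ^ (M + 1) - 1) / n =
            1 + ((1 + y) ^ M - 1) / n + y / n + ((1 + y) ^ M - 1) * y / n := by
          rw [pow_succ]; ring
        rw [h5, h6]
        linarith

/-- the comparison of `q 0` and `q i` -/
private theorem pjn_key {r n i : ℕ} (hr : 2 ≤ r) (hn : 4 ≤ n) (hi : i ≤ 3) :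
    ((r * n - 1).choose (r - 1) : ℝ) ≤
      ((r * (n - i) - 1).choose (r - 1) : ℝ) * (1 + ((1 + 4 * ((r - 1 : ℕ) : ℝ)) ^ (3 * r)) / n) := by
  have hn0 : (0 : ℝ) < n := by positivity
  have hx : (0 : ℝ) < (n : ℝ) / 4 := by positivity
  have hri : r * (n - i) - 1 + r * i = r * n - 1 := by
    have h1 : 1 ≤ r * (n - i) := Nat.mul_pos (by omega) (by omega)
    have h2 : r * (n - i) + r * i = r * n := by
      rw [← mul_add]; congr 1; omega
    omega
  have hle : (n : ℝ) / 4 ≤ ((r * (n - i) - 1 : ℕ) : ℝ) + 1 - ((r - 1 : ℕ) : ℝ) := by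
    have h1 : 1 ≤ r * (n - i) := Nat.mul_pos (by omega) (by omega)
    rw [Nat.cast_sub h1, Nat.cast_sub (by omega : 1 ≤ r), Nat.cast_mul, Nat.cast_sub (by omega : i ≤ n)]
    push_cast
    have hr' : (2 : ℝ) ≤ r := by exact_mod_cast hr
    have hn' : (4 : ℝ) ≤ n := by exact_mod_cast hn
    have hi' : (i : ℝ) ≤ 3 := by exact_mod_cast hi
    have h3 : (r : ℝ) * (n - 4) ≤ r * (n - i - 1) := by
      apply mul_le_mul_of_nonneg_left _ (by linarith)
      linarith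
    have h4 : 2 * ((n : ℝ) - 4) ≤ r * (n - 4) := mul_le_mul_of_nonneg_right hr' (by linarith)
    have h5 : (r : ℝ) * (n - i) - 1 + 1 - (r - 1) = r * (n - i - 1) + 1 := by ring
    rw [h5]
    linarith
  have h1 := pjn_steps hx hle (r * i)
  rw [hri] at h1
  refine h1.trans ?_
  apply mul_le_mul_of_nonneg_left _ (Nat.cast_nonneg _)
  have h2 : ((r - 1 : ℕ) : ℝ) / ((n : ℝ) / 4) = (4 * ((r - 1 : ℕ) : ℝ)) / n := by
    field_simp
  rw [h2]
  have hy : (0 : ℝ) ≤ 4 * ((r - 1 : ℕ) : ℝ) := by positivity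
  have h3 : (1 + 4 * ((r - 1 : ℕ) : ℝ) / n) ^ (r * i) ≤ (1 + 4 * ((r - 1 : ℕ) : ℝ) / n) ^ (3 * r) := by
    apply pow_le_pow_right₀
    · have : (0 : ℝ) ≤ 4 * ((r - 1 : ℕ) : ℝ) / n := by positivity
      linarith
    · rw [mul_comm]; exact Nat.mul_le_mul_right _ hi
  refine h3.trans ((pjn_conv hy (by have : (4 : ℝ) ≤ n := by exact_mod_cast hn
                                    linarith) (3 * r)).trans ?_)
  have h4 : ((1 + 4 * ((r - 1 : ℕ) : ℝ)) ^ (3 * r) - 1) / n ≤ ((1 + 4 * ((r - 1 : ℕ) : ℝ)) ^ (3 * r)) / n := by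
    apply div_le_div_of_nonneg_right _ hn0.le
    linarith
  linarith

theorem pj_num {r : ℕ} (hr : 2 ≤ r) : ∃ C c : ℝ, 1 ≤ C ∧ 0 < c ∧ ∀ n : ℕ, 4 ≤ n →
    0 < pj r n 1 ∧ pj r n 1 * (n : ℝ) ^ (r - 1) ≤ C ∧ c ≤ pj r n 1 * (n : ℝ) ^ (r - 1) ∧
    pj r n 1 ^ 2 ≤ pj r n 2 ∧ pj r n 2 ≤ pj r n 1 ^ 2 * (1 + C / n) ∧
    0 ≤ pj r n 3 ∧ pj r n 3 ≤ C * pj r n 1 ^ 3 ∧
    0 ≤ pj r n 4 ∧ pj r n 4 ≤ pj r n 2 ^ 2 * (1 + C / n) := by
  set A : ℝ := (1 + 4 * ((r - 1 : ℕ) : ℝ)) ^ (3 * r) with hA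
  have hA1 : 1 ≤ A := by
    rw [hA]
    apply one_le_pow₀
    have : (0 : ℝ) ≤ 4 * ((r - 1 : ℕ) : ℝ) := by positivity
    linarith
  set F : ℝ := ((r - 1).factorial : ℝ) with hF
  have hF1 : 1 ≤ F := by
    rw [hF]; exact_mod_cast Nat.succ_le_of_lt (Nat.factorial_pos _)
  refine ⟨F + (1 + A) ^ 2, 1 / (r : ℝ) ^ (r - 1), by nlinarith, by positivity, ?_⟩
  intro n hn
  have hn0 : (0 : ℝ) < n := by positivity
  have hn1 : (1 : ℝ) ≤ n := by
    have : (4 : ℝ) ≤ n := by exact_mod_cast hn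
    linarith
  have hqpos : ∀ i ≤ 3, 0 < (r * (n - i) - 1).choose (r - 1) := by
    intro i hi
    apply Nat.choose_pos
    have : r * 1 ≤ r * (n - i) := Nat.mul_le_mul_left _ (by omega)
    omega
  obtain ⟨q, hq⟩ : ∃ q : ℕ → ℝ, ∀ i, q i = ((r * (n - i) - 1).choose (r - 1) : ℝ) := ⟨_, fun i => rfl⟩
  have hq0 : 0 < q 0 := by rw [hq]; exact_mod_cast hqpos 0 (by norm_num)
  have hq1 : 0 < q 1 := by rw [hq]; exact_mod_cast hqpos 1 (by norm_num)
  have hq2 : 0 < q 2 := by rw [hq]; exact_mod_cast hqpos 2 (by norm_num)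
  have hq3 : 0 < q 3 := by rw [hq]; exact_mod_cast hqpos 3 (by norm_num)
  have hp1 : pj r n 1 = 1 / q 0 := by
    rw [hq]; simp [pj]
  have hp2 : pj r n 2 = 1 / q 0 * (1 / q 1) := by
    rw [hq, hq]; simp only [pj, Finset.prod_range_succ, Finset.prod_range_zero, one_mul]
  have hp3 : pj r n 3 = 1 / q 0 * (1 / q 1) * (1 / q 2) := by
    rw [hq, hq, hq]; simp only [pj, Finset.prod_range_succ, Finset.prod_range_zero, one_mul]
  have hp4 : pj r n 4 = 1 / q 0 * (1 / q 1) * (1 / q 2) * (1 / q 3) := by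
    rw [hq, hq, hq, hq]; simp only [pj, Finset.prod_range_succ, Finset.prod_range_zero, one_mul]
  have hkey : ∀ i ≤ 3, q 0 ≤ q i * (1 + A / n) := by
    intro i hi
    have := pjn_key (i := i) hr hn hi
    rw [hq, hq]
    simpa using this
  have hk1 := hkey 1 (by norm_num)
  have hk2 := hkey 2 (by norm_num)
  have hk3 := hkey 3 (by norm_num)
  have hAn : 0 ≤ A / n := by positivity
  have hAn1 : A / n ≤ A := div_le_self (by linarith) hn1
  have hmono : q 1 ≤ q 0 := by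
    rw [hq, hq]
    exact_mod_cast Nat.choose_le_choose (r - 1) (by
      have : r * (n - 1) ≤ r * (n - 0) := Nat.mul_le_mul_left _ (by omega)
      omega)
  -- bounds for `q 0`
  have hlow : (n : ℝ) ^ (r - 1) ≤ F * q 0 := by
    have h1 := Nat.pow_le_choose (α := ℝ) (r - 1) (r * n - 1)
    rw [hq, Nat.sub_zero, hF]
    have h2 : n ≤ r * n - 1 + 1 - (r - 1) := by
      have h3 : n + (r - 1) ≤ r * n := by
        obtain ⟨s, rfl⟩ : ∃ s, r = s + 1 := ⟨r - 1, by omega⟩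
        have : s ≤ s * n := Nat.le_mul_of_pos_right _ (by omega)
        simp only [Nat.add_sub_cancel]
        nlinarith
      omega
    have h4 : (n : ℝ) ^ (r - 1) ≤ ((r * n - 1 + 1 - (r - 1) : ℕ) : ℝ) ^ (r - 1) :=
      pow_le_pow_left₀ (Nat.cast_nonneg _) (by exact_mod_cast h2) _
    have h5 : (((r * n - 1 + 1 - (r - 1) : ℕ) : ℝ) ^ (r - 1)) / ((r - 1).factorial : ℝ) ≤
        ((r * n - 1).choose (r - 1) : ℝ) := by
      have := h1
      simpa using this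
    have hfp : (0 : ℝ) < ((r - 1).factorial : ℝ) := by exact_mod_cast Nat.factorial_pos _
    rw [div_le_iff₀ hfp] at h5
    calc (n : ℝ) ^ (r - 1) ≤ _ := h4
      _ ≤ _ := h5
      _ = _ := mul_comm _ _
  have hup : q 0 ≤ (r : ℝ) ^ (r - 1) * (n : ℝ) ^ (r - 1) := by
    rw [hq, Nat.sub_zero]
    have h1 : (r * n - 1).choose (r - 1) ≤ (r * n - 1) ^ (r - 1) := Nat.choose_le_pow _ _
    have h2 : (r * n - 1) ^ (r - 1) ≤ (r * n) ^ (r - 1) := Nat.pow_le_pow_left (by omega) _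
    have h3 : ((r * n - 1).choose (r - 1) : ℝ) ≤ (((r * n) ^ (r - 1) : ℕ) : ℝ) := by
      exact_mod_cast h1.trans h2
    refine h3.trans (le_of_eq ?_)
    push_cast
    rw [mul_pow]
  have hr0 : (0 : ℝ) < (r : ℝ) ^ (r - 1) := by positivity
  refine ⟨?_, ?_, ?_, ?_, ?_, ?_, ?_, ?_, ?_⟩
  · rw [hp1]; positivity
  · rw [hp1, one_div_mul_eq_div, div_le_iff₀ hq0]
    have : F * q 0 ≤ (F + (1 + A) ^ 2) * q 0 := by
      apply mul_le_mul_of_nonneg_right _ hq0.le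
      nlinarith
    linarith
  · rw [hp1, one_div_mul_eq_div, le_div_iff₀ hq0, one_div_mul_eq_div, div_le_iff₀ hr0]
    linarith
  · rw [hp1, hp2, sq]
    apply mul_le_mul_of_nonneg_left _ (by positivity)
    exact one_div_le_one_div_of_le hq1 hmono
  · rw [hp1, hp2, sq, mul_assoc]
    apply mul_le_mul_of_nonneg_left _ (by positivity)
    rw [one_div_mul_eq_div, div_le_div_iff₀ hq1 hq0, one_mul]
    refine hk1.trans ?_
    rw [mul_comm (1 + _) (q 1)]
    apply mul_le_mul_of_nonneg_left _ hq1.le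
    have : A / n ≤ (F + (1 + A) ^ 2) / n := by
      apply div_le_div_of_nonneg_right _ hn0.le
      nlinarith
    linarith
  · rw [hp3]; positivity
  · rw [hp1, hp3]
    have h1 : 1 / q 1 ≤ (1 + A) * (1 / q 0) := by
      rw [mul_one_div, div_le_div_iff₀ hq1 hq0, one_mul]
      refine hk1.trans ?_
      rw [mul_comm (1 + A) (q 1)]
      apply mul_le_mul_of_nonneg_left _ hq1.le
      linarith
    have h2 : 1 / q 2 ≤ (1 + A) * (1 / q 0) := by
      rw [mul_one_div, div_le_div_iff₀ hq2 hq0, one_mul]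
      refine hk2.trans ?_
      rw [mul_comm (1 + A) (q 2)]
      apply mul_le_mul_of_nonneg_left _ hq2.le
      linarith
    have h0 : 0 ≤ 1 / q 0 := by positivity
    calc 1 / q 0 * (1 / q 1) * (1 / q 2)
        ≤ 1 / q 0 * ((1 + A) * (1 / q 0)) * ((1 + A) * (1 / q 0)) := by
          apply mul_le_mul _ h2 (by positivity) (by positivity)
          exact mul_le_mul_of_nonneg_left h1 h0
      _ = (1 + A) ^ 2 * (1 / q 0) ^ 3 := by ring
      _ ≤ (F + (1 + A) ^ 2) * (1 / q 0) ^ 3 := by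
          apply mul_le_mul_of_nonneg_right _ (by positivity)
          linarith
  · rw [hp4]; positivity
  · rw [hp2, hp4]
    have h2 : 1 / q 2 ≤ (1 + A / n) * (1 / q 0) := by
      rw [mul_one_div, div_le_div_iff₀ hq2 hq0, one_mul]
      refine hk2.trans ?_
      rw [mul_comm (1 + A / n) (q 2)]
    have h3 : 1 / q 3 ≤ (1 + A / n) * (1 / q 1) := by
      rw [mul_one_div, div_le_div_iff₀ hq3 hq1, one_mul]
      refine hmono.trans (hk3.trans ?_)
      rw [mul_comm (1 + A / n) (q 3)]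
    have h0 : 0 ≤ 1 / q 0 * (1 / q 1) := by positivity
    calc 1 / q 0 * (1 / q 1) * (1 / q 2) * (1 / q 3)
        ≤ 1 / q 0 * (1 / q 1) * ((1 + A / n) * (1 / q 0)) * ((1 + A / n) * (1 / q 1)) := by
          apply mul_le_mul _ h3 (by positivity) (by positivity)
          exact mul_le_mul_of_nonneg_left h2 h0
      _ = (1 / q 0 * (1 / q 1)) ^ 2 * (1 + A / n) ^ 2 := by ring
      _ ≤ (1 / q 0 * (1 / q 1)) ^ 2 * (1 + (F + (1 + A) ^ 2) / n) := by
          apply mul_le_mul_of_nonneg_left _ (by positivity)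
          have h5 : (1 + A / n) ^ 2 = 1 + (2 * A + A * (A / n)) / n := by
            field_simp
            ring
          rw [h5]
          have h6 : (2 * A + A * (A / n)) / n ≤ (F + (1 + A) ^ 2) / n := by
            apply div_le_div_of_nonneg_right _ hn0.le
            have : A * (A / n) ≤ A * A := mul_le_mul_of_nonneg_left hAn1 (by linarith)
            nlinarith
          linarith

end Pool.Agent.Work.MP_7d1693_pr.FM
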