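import Pool.Agent.Work.MP_7d1693_pr.FM.Defs
import Pool.Agent.Work.MP_7d1693_pr.FM.Ex
import Pool.Agent.Work.MP_7d1693_pr.FM.Mom
import Pool.Agent.Work.MP_7d1693_pr.FM.PjNum
import Pool.Agent.Work.MP_7d1693_pr.FM.Alt
import Pool.Agent.Work.MP_7d1693_pr.FM.Part
import Pool.Agent.Work.MP_7d1693_pr.FM.Coup

/-! # Module Low (M): from a region to a clique

`D = n^(r-1)`, `C1, c1` the constants of `pj_num`; `n ≥ n0` with `n0` such that everything below holds (`n0 ≥ 4`, `n0 ≥ M0`); for `n < n0` the claim is trivial: the probability is `≤ 1` and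
`S.card ≤ (r n).choose r ≤ (r n)^r`, so `C n^(r-1)/S.card ≥ 1` for `C ≥ r^r n0`. Let `M0 = ⌈256 C1^2⌉`, `d = ⌈D/M0⌉`, so `D ≤ M0 d` and `d ≤ 2 D/M0` (`D ≥ n ≥ M0`).
`part`: `T ⊆ S`, `S.card ≤ M0 * T.card`, degrees `≤ d` in `T`. `m = T.card * pj 1` (mean of `X`, `mom1`), `X M = (T ∩ M).card`, `Y M = cpair P (T ∩ M)`.
Chebyshev: `pr (X ≤ m/2) ≤ 4 (m + m^2 C1/n)/m^2 = 4/m + 4 C1/n` (`mom2`, `pj 2 ≤ pj 1^2 (1+C1/n)`).
`mom34`: mean of `Y` is `q pj 2 ≤ T.card d * 2 C1 pj 1^2 ≤ m * 2 C1 * d * pj 1 ≤ m * 2 C1 * (2/M0) C1 ≤ m/16` (`1 + C1/n ≤ 2 C1`). Variance of `Y`: `≤ 2 q pj 2 + 4 q d pj 3 + q^2 (pj 4 - pj 2^2)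
≤ 2 m + 4 (q pj 2)(d pj 3/pj 2) + (C1/n) (q pj 2)^2 ≤ C2 m + C1 m^2/n` (`pj 3/pj 2 ≤ C1 pj 1`, `d pj 1 ≤ 2 C1`). Chebyshev: `pr (Y ≥ m/4) ≤ 64 Var/m^2 ≤ C3/m + C3/n`.
Outside these two events `z (S ∩ M-part)`: `alt` gives `z P M ≥ X - Y ≥ m/4` for every `M`; apply it to `M.filter (mn e < t)`: all edges of `T` have `mn e < t`, so `T ∩ M = T ∩ M.filter`. So in the full process
`pr r n V (z P (M.filter (mn < t)) < m/4) ≤ C4/m + C4/n`; the event `x ≤ z P M` is increasing (`z_mono`) and `#{x ∈ range (r n) : x < t} = t`, so by `coup` and `pr_not`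
`pr r t V (z P M < m/4) ≤ C4/m + C4/n`. Finally `m ≥ c1 T.card/D ≥ (c1/M0) S.card/D` and `1/n ≤ C5 D/S.card` since `S.card ≤ (r n)^r`. Take `c = c1/(4 M0)`. -/

namespace Pool.Agent.Work.MP_7d1693_pr.FM

open Finset

private theorem low_card {r n : ℕ} (hr : 2 ≤ r) (hn : 1 ≤ n) {S : Finset (Finset ℕ)}
    (hS : S ⊆ (range (r * n)).powersetCard r) :
    (S.card : ℝ) ≤ (r : ℝ) ^ r * ((n : ℝ) * (n : ℝ) ^ (r - 1)) := by
  have h1 : S.card ≤ (r * n) ^ r := by
    refine (Finset.card_le_card hS).trans ?_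
    rw [Finset.card_powersetCard, Finset.card_range]
    exact Nat.choose_le_pow (r * n) r
  have h2 : ((r * n : ℕ) : ℝ) ^ r = (r : ℝ) ^ r * ((n : ℝ) * (n : ℝ) ^ (r - 1)) := by
    push_cast
    rw [mul_pow, ← pow_succ']
    congr 2
    omega
  rw [← h2]
  exact_mod_cast h1

private theorem low_two (r t : ℕ) (V : Finset ℕ) (E E1 E2 : Finset (Finset ℕ) → Prop)
    (h : ∀ M, E M → E1 M ∨ E2 M) :
    pr r t V E ≤ pr r t V E1 + pr r t V E2 := by
  have h1 : pr r t V E ≤ pr r t V (fun M => ∃ i ∈ (Finset.univ : Finset Bool),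
      (fun (b : Bool) (M : Finset (Finset ℕ)) => if b then E1 M else E2 M) i M) := by
    apply pr_mono
    intro M _ hM
    rcases h M hM with h | h
    · exact ⟨true, Finset.mem_univ _, by simpa using h⟩
    · exact ⟨false, Finset.mem_univ _, by simpa using h⟩
  refine h1.trans ((pr_union r t V _ _).trans (le_of_eq ?_))
  simp

/-- the numerical part: the bound of the two Chebyshev terms -/
private theorem low_core {r n t : ℕ} (hr : 2 ≤ r) (P : Set (List Bool)) (ht : 1 ≤ t) (htn : t ≤ n)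
    {T : Finset (Finset ℕ)} (hT : T ⊆ (range (r * n)).powersetCard r) (hTn : 0 < T.card)
    (hmn : ∀ e ∈ T, mn e < t) {d : ℕ} (hd : ∀ v ∈ T, deg (conf P) T v ≤ d)
    {C1 p1 p2 p3 p4 : ℝ} (hp1 : pj r n 1 = p1) (hp2 : pj r n 2 = p2) (hp3 : pj r n 3 = p3)
    (hp4 : pj r n 4 = p4) (hC1 : 1 ≤ C1) (hpos : 0 < p1) (h12 : p1 ^ 2 ≤ p2)
    (h21 : p2 ≤ p1 ^ 2 * (1 + C1 / n)) (h3 : 0 ≤ p3) (h31 : p3 ≤ C1 * p1 ^ 3)
    (h4 : 0 ≤ p4) (h42 : p4 ≤ p2 ^ 2 * (1 + C1 / n)) (hdp : 128 * C1 * (d * p1) ≤ 1) :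
    pr r t (range (r * n)) (fun M => (z P M : ℝ) < T.card * p1 / 4) ≤
      (4 / (T.card * p1) + 4 * C1 / n) + (64 * (2 + 4 * C1) / (T.card * p1) + 64 * C1 / n) := by
  classical
  have hn : 1 ≤ n := ht.trans htn
  have hn0 : (0 : ℝ) < n := by exact_mod_cast hn
  have hV : r * n ≤ (range (r * n)).card := by rw [Finset.card_range]
  set m : ℝ := T.card * p1 with hm
  have hTp : (0 : ℝ) < T.card := by exact_mod_cast hTn
  have hm0 : 0 < m := by positivity
  -- moments of X
  have hX1 := mom1 (r := r) (n := n) hr hT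
  have hX2 := mom2 (r := r) (n := n) hr hT
  obtain ⟨q, hq, hY1, hY2⟩ := mom34 (r := r) (n := n) hr P hT hd
  rw [hp1] at hX1 hX2
  rw [hp2] at hX2 hY1 hY2
  rw [hp3, hp4] at hY2
  rw [← hm] at hX1 hX2
  set X : Finset (Finset ℕ) → ℝ := fun M => ((T ∩ M).card : ℝ) with hX
  set Y : Finset (Finset ℕ) → ℝ := fun M => (cpair P (T ∩ M) : ℝ) with hY
  set μ : ℝ := q * p2 with hμ
  have hCn : C1 / n ≤ C1 := by
    apply div_le_self (by linarith)
    exact_mod_cast hn
  have hCn0 : 0 ≤ C1 / n := by positivity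
  have hchX := chebyshev (r := r) (t := n) (by omega) hV X (b := m / 2) (by positivity)
  rw [hX1] at hchX
  have hX3 : pr r n (range (r * n)) (fun M => m / 2 ≤ |X M - m|) ≤ 4 / m + 4 * C1 / n := by
    refine hchX.trans ?_
    have e1 : 4 / m + 4 * C1 / n = (m + m ^ 2 * (C1 / n)) / (m / 2) ^ 2 := by
      field_simp
      ring
    rw [e1]
    apply div_le_div_of_nonneg_right _ (by positivity)
    have e2 : (T.card : ℝ) ^ 2 * p2 ≤ m ^ 2 * (1 + C1 / n) := by
      rw [hm, mul_pow, mul_assoc]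
      exact mul_le_mul_of_nonneg_left h21 (by positivity)
    have e3 : ex r n (range (r * n)) (fun M => X M ^ 2) ≤ m + (T.card : ℝ) ^ 2 * p2 := hX2
    nlinarith
  -- mean of Y
  have hq' : (q : ℝ) ≤ T.card * d := by exact_mod_cast hq
  have hq0 : (0 : ℝ) ≤ q := Nat.cast_nonneg _
  have hd0 : (0 : ℝ) ≤ d := Nat.cast_nonneg _
  have hp20 : 0 ≤ p2 := (by positivity : (0 : ℝ) ≤ p1 ^ 2).trans h12
  have hμ0 : 0 ≤ μ := by positivity
  have hp22 : p2 ≤ 2 * C1 * p1 ^ 2 := by
    refine h21.trans ?_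
    have : (1 : ℝ) + C1 / n ≤ 2 * C1 := by linarith
    calc p1 ^ 2 * (1 + C1 / n) ≤ p1 ^ 2 * (2 * C1) := mul_le_mul_of_nonneg_left this (by positivity)
      _ = _ := by ring
  have hμm : μ ≤ m / 64 := by
    calc μ ≤ (T.card * d) * (2 * C1 * p1 ^ 2) := by
          rw [hμ]; exact mul_le_mul hq' hp22 hp20 (by positivity)
      _ = m * (2 * C1 * (d * p1)) := by rw [hm]; ring
      _ ≤ m * (1 / 64) := by
          apply mul_le_mul_of_nonneg_left _ hm0.le
          linarith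
      _ = m / 64 := by ring
  -- variance of Y
  have hvar : ex r n (range (r * n)) (fun M => Y M ^ 2) - μ ^ 2 ≤
      (2 + 4 * C1) * m + (C1 / n) * m ^ 2 := by
    have e1 : ex r n (range (r * n)) (fun M => Y M ^ 2) ≤
        2 * q * p2 + 4 * q * d * p3 + (q : ℝ) ^ 2 * p4 := hY2
    have e2 : 4 * (q : ℝ) * d * p3 ≤ 4 * C1 * μ := by
      calc 4 * (q : ℝ) * d * p3 ≤ 4 * (q : ℝ) * d * (C1 * p1 ^ 3) :=
            mul_le_mul_of_nonneg_left h31 (by positivity)
        _ = 4 * C1 * (q * p1 ^ 2) * (d * p1) := by ring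
        _ ≤ 4 * C1 * (q * p2) * 1 := by
            apply mul_le_mul
            · apply mul_le_mul_of_nonneg_left _ (by positivity)
              exact mul_le_mul_of_nonneg_left h12 hq0
            · have h5 : (d : ℝ) * p1 ≤ 128 * C1 * (d * p1) := by
                have : (0 : ℝ) ≤ d * p1 := by positivity
                nlinarith
              linarith
            · positivity
            · positivity
        _ = 4 * C1 * μ := by rw [hμ]; ring
    have e3 : (q : ℝ) ^ 2 * p4 ≤ μ ^ 2 * (1 + C1 / n) := by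
      rw [hμ, mul_pow, mul_assoc]
      exact mul_le_mul_of_nonneg_left h42 (by positivity)
    have e4 : 2 * (q : ℝ) * p2 = 2 * μ := by rw [hμ]; ring
    have e5 : μ ^ 2 ≤ m ^ 2 := by
      apply pow_le_pow_left₀ hμ0
      linarith
    have e6 : (C1 / n) * μ ^ 2 ≤ (C1 / n) * m ^ 2 := mul_le_mul_of_nonneg_left e5 hCn0
    have e7 : (2 + 4 * C1) * μ ≤ (2 + 4 * C1) * m := by
      apply mul_le_mul_of_nonneg_left _ (by positivity)
      linarith
    nlinarith
  have hchY := chebyshev (r := r) (t := n) (by omega) hV Y (b := m / 8) (by positivity)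
  rw [hY1] at hchY
  have hY3 : pr r n (range (r * n)) (fun M => m / 8 ≤ |Y M - μ|) ≤
      64 * (2 + 4 * C1) / m + 64 * C1 / n := by
    refine hchY.trans ?_
    have e1 : 64 * (2 + 4 * C1) / m + 64 * C1 / n =
        ((2 + 4 * C1) * m + (C1 / n) * m ^ 2) / (m / 8) ^ 2 := by
      field_simp
      ring
    rw [e1]
    exact div_le_div_of_nonneg_right hvar (by positivity)
  -- the full process
  have hfull : pr r n (range (r * n))
      (fun M => ¬ (m / 4 ≤ (z P (M.filter (fun e => mn e < t)) : ℝ))) ≤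
      (4 / m + 4 * C1 / n) + (64 * (2 + 4 * C1) / m + 64 * C1 / n) := by
    refine (low_two r n (range (r * n)) _ (fun M => m / 2 ≤ |X M - m|)
      (fun M => m / 8 ≤ |Y M - μ|) ?_).trans (add_le_add hX3 hY3)
    intro M hM
    by_contra hcon
    push Not at hcon hM
    obtain ⟨hc1, hc2⟩ := hcon
    rw [abs_lt] at hc1 hc2
    have hTM : T ∩ M.filter (fun e => mn e < t) = T ∩ M := by
      ext e
      simp only [Finset.mem_inter, Finset.mem_filter]
      constructor
      · rintro ⟨a, b, -⟩; exact ⟨a, b⟩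
      · rintro ⟨a, b⟩; exact ⟨a, b, hmn e a⟩
    have halt := alt (r := r) (by omega) P (T := T) (M := M.filter (fun e => mn e < t))
      (fun e he => (Finset.mem_powersetCard.1 (hT he)).2)
    rw [hTM] at halt
    have halt' : X M ≤ (z P (M.filter (fun e => mn e < t)) : ℝ) + Y M := by
      simp only [hX, hY]
      exact_mod_cast halt
    linarith
  -- coupling
  have hb : ((range (r * n)).filter (fun x => x < t)).card ≤ t := by
    have : (range (r * n)).filter (fun x => x < t) ⊆ range t := by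
      intro x hx
      rw [Finset.mem_filter] at hx
      exact Finset.mem_range.2 hx.2
    simpa using Finset.card_le_card this
  have hcoup := coup hr htn (Finset.card_range (r * n)) hb (fun M => m / 4 ≤ (z P M : ℝ))
    (fun M M' hMM' h => h.trans (by exact_mod_cast z_mono P hMM'))
  have hn1 := pr_not (r := r) (t := n) (by omega) hV
    (fun M => m / 4 ≤ (z P (M.filter (fun e => mn e < t)) : ℝ))
  have hn2 := pr_not (r := r) (t := t) (V := range (r * n)) (by omega)
    (by rw [Finset.card_range]; exact Nat.mul_le_mul_left r htn)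
    (fun M => m / 4 ≤ (z P M : ℝ))
  have hconv : pr r t (range (r * n)) (fun M => (z P M : ℝ) < m / 4) ≤
      pr r t (range (r * n)) (fun M => ¬ (m / 4 ≤ (z P M : ℝ))) :=
    pr_mono _ _ _ _ _ (fun M _ h => not_le.2 h)
  linarith

theorem low {r : ℕ} (hr : 2 ≤ r) (P : Set (List Bool)) : ∃ c C : ℝ, 0 < c ∧ 0 < C ∧
    ∀ (n t : ℕ) (S : Finset (Finset ℕ)), 1 ≤ t → t ≤ n → S ⊆ (range (r * n)).powersetCard r →
      S.Nonempty → (∀ e ∈ S, mn e < t) → (∀ v ∈ S, deg (conf P) S v ≤ n ^ (r - 1)) →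
      pr r t (range (r * n)) (fun M => (z P M : ℝ) < c * S.card / (n : ℝ) ^ (r - 1)) ≤
        C * (n : ℝ) ^ (r - 1) / S.card := by
  classical
  obtain ⟨C1, c1, hC1, hc1, hpj⟩ := pj_num hr
  set M0 : ℕ := ⌈256 * C1 ^ 2⌉₊ with hM0
  have hM0r : 256 * C1 ^ 2 ≤ (M0 : ℝ) := Nat.le_ceil _
  have hM0pos : (0 : ℝ) < M0 := by
    have : (0 : ℝ) < 256 * C1 ^ 2 := by positivity
    linarith
  have hM01 : 1 ≤ M0 := by
    have : 0 < M0 := by exact_mod_cast hM0pos
    omega
  set n0 : ℕ := max 4 M0 with hn0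
  set A : ℝ := (4 + 64 * (2 + 4 * C1)) * M0 / c1 with hA
  set Bc : ℝ := 68 * C1 * (r : ℝ) ^ r with hBc
  have hrr : (0 : ℝ) < (r : ℝ) ^ r := by
    have : (0 : ℝ) < r := by exact_mod_cast (by omega : 0 < r)
    positivity
  have hA0 : 0 < A := by positivity
  have hB0 : 0 < Bc := by positivity
  refine ⟨c1 / (4 * M0), (r : ℝ) ^ r * n0 + A + Bc, by positivity, by positivity, ?_⟩
  intro n t S ht htn hS hSne hmn hdeg
  have hn : 1 ≤ n := ht.trans htn
  have hnpos : (0 : ℝ) < n := by exact_mod_cast hn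
  set D : ℝ := (n : ℝ) ^ (r - 1) with hD
  have hD0 : 0 < D := by positivity
  have hSpos : (0 : ℝ) < S.card := by exact_mod_cast hSne.card_pos
  have hScard := low_card hr hn hS
  rw [← hD] at hScard
  have hDS : 1 / (n : ℝ) ≤ (r : ℝ) ^ r * D / S.card := by
    rw [div_le_div_iff₀ hnpos hSpos]
    nlinarith
  rcases Nat.lt_or_ge n n0 with hlt | hge
  · -- trivial case
    refine (pr_le_one _ _ _ _).trans ?_
    rw [le_div_iff₀ hSpos, one_mul]
    have h1 : (n : ℝ) ≤ n0 := by exact_mod_cast hlt.le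
    calc (S.card : ℝ) ≤ (r : ℝ) ^ r * (n * D) := hScard
      _ ≤ (r : ℝ) ^ r * (n0 * D) := by
          apply mul_le_mul_of_nonneg_left _ hrr.le
          exact mul_le_mul_of_nonneg_right h1 hD0.le
      _ = ((r : ℝ) ^ r * n0) * D := by ring
      _ ≤ ((r : ℝ) ^ r * n0 + A + Bc) * D := by
          apply mul_le_mul_of_nonneg_right _ hD0.le
          linarith
  · have hn4 : 4 ≤ n := (le_max_left _ _).trans hge
    have hnM : M0 ≤ n := (le_max_right _ _).trans hge
    obtain ⟨hp1, hp1u, hp1l, h12, h21, h3, h31, h4, h42⟩ := hpj n hn4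
    have hDn : (n : ℝ) ≤ D := by
      have h1 : n ^ 1 ≤ n ^ (r - 1) := Nat.pow_le_pow_right hn (by omega)
      have h2 : ((n ^ 1 : ℕ) : ℝ) ≤ ((n ^ (r - 1) : ℕ) : ℝ) := by exact_mod_cast h1
      push_cast at h2
      simpa using h2
    have hMD : (M0 : ℝ) ≤ D := le_trans (by exact_mod_cast hnM) hDn
    set d : ℕ := ⌈D / M0⌉₊ with hd
    have hd1 : D ≤ M0 * d := by
      have := Nat.le_ceil (D / M0)
      rw [div_le_iff₀ hM0pos] at this
      rw [← hd] at this
      linarith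
    have hd2 : (d : ℝ) ≤ 2 * D / M0 := by
      have h1 : (d : ℝ) < D / M0 + 1 := Nat.ceil_lt_add_one (by positivity)
      have h2 : 1 ≤ D / M0 := by rw [le_div_iff₀ hM0pos]; linarith
      have h3 : 2 * D / M0 = D / M0 + D / M0 := by ring
      linarith
    have hdeg' : ∀ v ∈ S, deg (conf P) S v ≤ M0 * d := by
      intro v hv
      refine (hdeg v hv).trans ?_
      have : ((n ^ (r - 1) : ℕ) : ℝ) ≤ ((M0 * d : ℕ) : ℝ) := by
        push_cast
        exact hd1
      exact_mod_cast this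
    obtain ⟨T, hTS, hTc, hTd⟩ := part (conf P) (fun u v h => conf_symm P h) S hM01 hdeg'
    have hTpos : 0 < T.card := by
      rcases Nat.eq_zero_or_pos T.card with h | h
      · rw [h, Nat.mul_zero] at hTc
        have := hSne.card_pos
        omega
      · exact h
    have hTp : (0 : ℝ) < T.card := by exact_mod_cast hTpos
    have hdp : 128 * C1 * ((d : ℝ) * pj r n 1) ≤ 1 := by
      have h1 : (d : ℝ) * pj r n 1 ≤ 2 * C1 / M0 := by
        calc (d : ℝ) * pj r n 1 ≤ (2 * D / M0) * pj r n 1 :=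
              mul_le_mul_of_nonneg_right hd2 hp1.le
          _ = 2 * (pj r n 1 * D) / M0 := by ring
          _ ≤ 2 * C1 / M0 := by
              apply div_le_div_of_nonneg_right _ hM0pos.le
              linarith
      calc 128 * C1 * ((d : ℝ) * pj r n 1) ≤ 128 * C1 * (2 * C1 / M0) :=
            mul_le_mul_of_nonneg_left h1 (by positivity)
        _ = 256 * C1 ^ 2 / M0 := by ring
        _ ≤ 1 := by rw [div_le_one hM0pos]; exact hM0r
    have hcore := low_core hr P ht htn (hTS.trans hS) hTpos (fun e he => hmn e (hTS he)) hTd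
      rfl rfl rfl rfl hC1 hp1 h12 h21 h3 h31 h4 h42 hdp
    set p1 : ℝ := pj r n 1 with hp1d
    have hST : (S.card : ℝ) ≤ M0 * T.card := by exact_mod_cast hTc
    have hmlow : c1 * S.card / (M0 * D) ≤ T.card * p1 := by
      have h1 : c1 / D ≤ p1 := by rw [div_le_iff₀ hD0]; exact hp1l
      have h2 : (S.card : ℝ) / M0 ≤ T.card := by rw [div_le_iff₀ hM0pos]; linarith
      calc c1 * S.card / (M0 * D) = (S.card / M0) * (c1 / D) := by field_simp
        _ ≤ T.card * p1 := mul_le_mul h2 h1 (by positivity) hTp.le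
    have hm0 : 0 < T.card * p1 := by positivity
    refine (pr_mono _ _ _ _ (fun M => (z P M : ℝ) < T.card * p1 / 4) ?_).trans (hcore.trans ?_)
    · intro M _ hM
      refine lt_of_lt_of_le hM ?_
      have e1 : c1 / (4 * M0) * S.card / D = (c1 * S.card / (M0 * D)) / 4 := by field_simp
      rw [e1]
      linarith
    · have e1 : 1 / (T.card * p1) ≤ M0 * D / (c1 * S.card) := by
        rw [div_le_div_iff₀ hm0 (by positivity)]
        rw [div_le_iff₀ (by positivity)] at hmlow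
        linarith
      have e2 : (4 / (T.card * p1) + 4 * C1 / n) + (64 * (2 + 4 * C1) / (T.card * p1) + 64 * C1 / n)
          = (4 + 64 * (2 + 4 * C1)) * (1 / (T.card * p1)) + 68 * C1 * (1 / n) := by ring
      rw [e2]
      have e3 : (4 + 64 * (2 + 4 * C1)) * (1 / (T.card * p1)) ≤ A * D / S.card := by
        calc (4 + 64 * (2 + 4 * C1)) * (1 / (T.card * p1))
            ≤ (4 + 64 * (2 + 4 * C1)) * (M0 * D / (c1 * S.card)) :=
              mul_le_mul_of_nonneg_left e1 (by positivity)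
          _ = A * D / S.card := by rw [hA]; field_simp
      have e4 : 68 * C1 * (1 / (n : ℝ)) ≤ Bc * D / S.card := by
        calc 68 * C1 * (1 / (n : ℝ)) ≤ 68 * C1 * ((r : ℝ) ^ r * D / S.card) :=
              mul_le_mul_of_nonneg_left hDS (by positivity)
          _ = Bc * D / S.card := by rw [hBc]; ring
      have e5 : 0 ≤ (r : ℝ) ^ r * n0 * D / S.card := by positivity
      have e6 : ((r : ℝ) ^ r * n0 + A + Bc) * D / S.card =
          (r : ℝ) ^ r * n0 * D / S.card + A * D / S.card + Bc * D / S.card := by ring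
      rw [e6]
      linarith

end Pool.Agent.Work.MP_7d1693_pr.FM
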