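import Pool.Agent.Work.MP_7d1693_pr.FM.Defs

/-! # Module Gre (S-M): many independent sets of size j (Mathlib only)

Let `N i = (indK c S i).card`. For `i < j`: `N i * (S.card - i (Δ+1)) ≤ (i+1) * N (i+1)`: double count the pairs `(I, v)` with `I` independent of size `i`,
`v ∈ S \ I` in conflict with no element of `I` (given `I` there are at least `S.card - i (Δ+1)` of them: each `u ∈ I` excludes itself and its at most `Δ` neighbours);
`(I, v) ↦ insert v I` hits every set at most `i+1` times. For `i < j` the factor is at least `S.card / 2`. Induction: `(S.card/2)^i ≤ i! * N i` for `i ≤ j`, start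
`N 0 = 1`. -/

namespace Pool.Agent.Work.MP_7d1693_pr.FM

open Finset

open Classical in
private theorem gre_above {α : Type} [DecidableEq α] (c : α → α → Prop) (hc : ∀ u v, c u v → c v u)
    (S : Finset α) {Δ : ℕ} (h : ∀ v ∈ S, deg c S v ≤ Δ) (i : ℕ) (I : Finset α)
    (hI : I ∈ indK c S i) :
    S.card - i * (Δ + 1) ≤ ((indK c S (i + 1)).filter (fun J => I ⊆ J)).card := by
  classical
  unfold indK at hI
  rw [mem_filter, mem_powersetCard] at hI
  obtain ⟨⟨hIS, hIc⟩, hInd⟩ := hI
  set V : Finset α := S.filter (fun v => v ∉ I ∧ ∀ u ∈ I, ¬ c v u) with hV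
  have h1 : S \ V ⊆ I.biUnion (fun u => insert u (S.filter (fun w => w ≠ u ∧ c u w))) := by
    intro v hv
    rw [mem_sdiff, hV, mem_filter] at hv
    obtain ⟨hvS, hv2⟩ := hv
    rw [mem_biUnion]
    by_cases hvI : v ∈ I
    · exact ⟨v, hvI, mem_insert_self _ _⟩
    · have h3 : ¬ ∀ u ∈ I, ¬ c v u := fun h4 => hv2 ⟨hvS, hvI, h4⟩
      push_neg at h3
      obtain ⟨u, hu, hcu⟩ := h3
      refine ⟨u, hu, mem_insert_of_mem ?_⟩
      rw [mem_filter]
      exact ⟨hvS, fun hvu => hvI (hvu ▸ hu), hc _ _ hcu⟩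
  have h2 : (S \ V).card ≤ i * (Δ + 1) := by
    refine (card_le_card h1).trans ?_
    rw [← hIc]
    refine card_biUnion_le_card_mul _ _ _ ?_
    intro u hu
    refine (card_insert_le _ _).trans ?_
    have h5 := h u (hIS hu)
    unfold deg at h5
    refine Nat.add_le_add_right ?_ 1
    refine le_trans (le_of_eq ?_) h5
    congr 1
  have h3 : S.card - i * (Δ + 1) ≤ V.card := by
    have hVS : V ⊆ S := filter_subset _ _
    have h6 := card_sdiff_add_card_eq_card hVS
    omega
  refine h3.trans ?_
  have h4 : V.image (fun v => insert v I) ⊆ (indK c S (i + 1)).filter (fun J => I ⊆ J) := by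
    intro J hJ
    rw [mem_image] at hJ
    obtain ⟨v, hv, rfl⟩ := hJ
    rw [hV, mem_filter] at hv
    obtain ⟨hvS, hvI, hvc⟩ := hv
    rw [mem_filter]
    refine ⟨?_, subset_insert _ _⟩
    unfold indK
    rw [mem_filter, mem_powersetCard]
    refine ⟨⟨insert_subset hvS hIS, by rw [card_insert_of_notMem hvI, hIc]⟩, ?_⟩
    intro a ha b hb hab
    rw [mem_insert] at ha hb
    rcases ha with rfl | ha
    · rcases hb with rfl | hb
      · exact absurd rfl hab
      · exact hvc b hb
    · rcases hb with rfl | hb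
      · exact fun h7 => hvc a ha (hc _ _ h7)
      · exact hInd a ha b hb hab
  refine le_trans (le_of_eq ?_) (card_le_card h4)
  rw [card_image_of_injOn]
  intro v hv w hw hvw
  simp only at hvw
  have hv' := (mem_filter.1 (mem_coe.1 hv)).2.1
  have hmem : v ∈ insert w I := by rw [← hvw]; exact mem_insert_self _ _
  rcases mem_insert.1 hmem with h8 | h8
  · exact h8
  · exact absurd h8 hv'

open Classical in
private theorem gre_step {α : Type} [DecidableEq α] (c : α → α → Prop) (hc : ∀ u v, c u v → c v u)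
    (S : Finset α) {Δ : ℕ} (h : ∀ v ∈ S, deg c S v ≤ Δ) (i : ℕ) :
    (indK c S i).card * (S.card - i * (Δ + 1)) ≤ (indK c S (i + 1)).card * (i + 1) := by
  classical
  refine card_mul_le_card_mul (fun (I J : Finset α) => I ⊆ J) ?_ ?_
  · intro I hI
    have := gre_above c hc S h i I hI
    unfold bipartiteAbove
    convert this using 2
  · intro J hJ
    unfold indK at hJ
    rw [mem_filter, mem_powersetCard] at hJ
    have h1 : (indK c S i).bipartiteBelow (fun (I J : Finset α) => I ⊆ J) J ⊆ J.powersetCard i := by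
      intro I hI
      unfold bipartiteBelow at hI
      rw [mem_filter] at hI
      obtain ⟨h2, h3⟩ := hI
      unfold indK at h2
      rw [mem_filter, mem_powersetCard] at h2
      exact mem_powersetCard.2 ⟨h3, h2.1.2⟩
    refine (card_le_card h1).trans ?_
    rw [card_powersetCard, hJ.1.2, Nat.choose_succ_self_right]

theorem gre {α : Type} [DecidableEq α] (c : α → α → Prop) (hc : ∀ u v, c u v → c v u) (S : Finset α)
    {Δ j : ℕ} (h : ∀ v ∈ S, deg c S v ≤ Δ) (hj : 2 * j * (Δ + 1) ≤ S.card) :
    ((S.card : ℝ) / 2) ^ j ≤ (j.factorial : ℝ) * ((indK c S j).card : ℝ) := by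
  classical
  have key : ∀ i : ℕ, i ≤ j →
      ((S.card : ℝ) / 2) ^ i ≤ (i.factorial : ℝ) * ((indK c S i).card : ℝ) := by
    intro i
    induction i with
    | zero =>
      intro _
      have h0 : (∅ : Finset α) ∈ indK c S 0 := by
        unfold indK
        rw [mem_filter, mem_powersetCard]
        refine ⟨⟨empty_subset _, rfl⟩, ?_⟩
        intro u hu
        exact absurd hu (notMem_empty _)
      have h1 : 1 ≤ (indK c S 0).card := Finset.card_pos.2 ⟨∅, h0⟩
      have h2 : (1 : ℝ) ≤ ((indK c S 0).card : ℝ) := by exact_mod_cast h1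
      simpa using h2
    | succ i ih =>
      intro hi
      have h1 := ih (by omega)
      have h2 := gre_step c hc S h i
      have h3 : 2 * (i * (Δ + 1)) ≤ S.card := by
        have h4 : 2 * (i * (Δ + 1)) ≤ 2 * j * (Δ + 1) := by
          have : i ≤ j := by omega
          calc 2 * (i * (Δ + 1)) = 2 * i * (Δ + 1) := by ring
            _ ≤ 2 * j * (Δ + 1) := by gcongr
        exact h4.trans hj
      have h5 : (S.card : ℝ) / 2 ≤ ((S.card - i * (Δ + 1) : ℕ) : ℝ) := by
        have h6 : i * (Δ + 1) ≤ S.card := by omega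
        rw [Nat.cast_sub h6]
        have h7 : (2 : ℝ) * ((i * (Δ + 1) : ℕ) : ℝ) ≤ (S.card : ℝ) := by exact_mod_cast h3
        linarith
      have h8 : ((indK c S i).card : ℝ) * ((S.card - i * (Δ + 1) : ℕ) : ℝ)
          ≤ ((indK c S (i + 1)).card : ℝ) * ((i : ℝ) + 1) := by exact_mod_cast h2
      have h9 : (0 : ℝ) ≤ (S.card : ℝ) / 2 := by positivity
      calc ((S.card : ℝ) / 2) ^ (i + 1) = ((S.card : ℝ) / 2) ^ i * ((S.card : ℝ) / 2) := pow_succ _ _
        _ ≤ ((i.factorial : ℝ) * ((indK c S i).card : ℝ)) * ((S.card : ℝ) / 2) :=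
            mul_le_mul_of_nonneg_right h1 h9
        _ ≤ ((i.factorial : ℝ) * ((indK c S i).card : ℝ)) * ((S.card - i * (Δ + 1) : ℕ) : ℝ) :=
            mul_le_mul_of_nonneg_left h5 (by positivity)
        _ = (i.factorial : ℝ) * (((indK c S i).card : ℝ) * ((S.card - i * (Δ + 1) : ℕ) : ℝ)) := by ring
        _ ≤ (i.factorial : ℝ) * (((indK c S (i + 1)).card : ℝ) * ((i : ℝ) + 1)) :=
            mul_le_mul_of_nonneg_left h8 (by positivity)
        _ = (((i + 1).factorial : ℕ) : ℝ) * ((indK c S (i + 1)).card : ℝ) := by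
            rw [Nat.factorial_succ]; push_cast; ring
  exact key j le_rfl

end Pool.Agent.Work.MP_7d1693_pr.FM
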