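import Pool.Agent.Work.MP_7d1693_pr.FM.Defs
import Pool.Agent.Work.MP_7d1693_pr.FM.PhiReg
import Pool.Agent.Work.MP_7d1693_pr.FM.Gre
import Pool.Agent.Work.MP_7d1693_pr.FM.Link
import Pool.Agent.Work.MP_7d1693_pr.FM.ChB
import Pool.Agent.Work.MP_7d1693_pr.FM.ETot

/-! # Module H1 (M): supersaturation from the enumeration

Let `D = n^(r-1)`, `ν = n (t/n)^(λ_1)`; by `ntBox_vol` (and `λ_1 + rest = r`) `volB (ntBox n t lam) = ν D`. `θ = 2^(-1/r)`, `(2θ)^i = μ^(1-1/r)` with `μ = 2^i`.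
(0) `ν ≤ c0 (2k)^r`: if `ν ≥ c0` let `k' = ⌊(ν/c0)^(1/r)⌋ ≥ 1`; `ν phi k' ≥ ν/k'^r ≥ c0` (`phi_lb`), so `k' ≤ k` by `hmax` and `(ν/c0)^(1/r) < k+1 ≤ 2k`.
(1) Let `T ⊆ Ebox` have degrees `≤ μ D`, `N = T.card`, `μ` arbitrary with `2 μ ≥ c0 exp r`. Then `N ≤ B0 μ^(1-1/r) k D`, `B0 = 16 c0 exp r`.
  If `N < 8 μ D`: if `μ ≤ ν` then `8 μ^(1/r) ≤ 8 ν^(1/r) ≤ 16 c0^(1/r) k`, so `8 μ D ≤ B0 μ^(1-1/r) k D`; if `μ > ν` then `N ≤ volB = ν D = ν^(1/r) ν^(1-1/r) D ≤ 2 c0^(1/r) k μ^(1-1/r) D` (`Ebox_card`).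
  If `N ≥ 8 μ D`: `j = ⌊N/(4 μ D)⌋`, so `N/(8 μ D) ≤ j` and `4 j μ D ≤ N`, hence `2 j (μ D + 1) ≤ N`. By `gre`, `Cl_eq`, `card_Cl`, `chB_le`, `phi_pow` (and monotonicity of `indK` in the set):
  `(N/2)^j ≤ j! (Cl j).card ≤ j^j ac_j chB_j ≤ (j exp r ν D phi_j)^j`, so `N ≤ 2 j exp r ν D phi_j`, and with `N ≥ 4 j μ D`: `ν phi_j ≥ 2 μ exp(-r)`.
  `M = ⌊(2 μ exp(-r)/c0)^(1/r)⌋ ≥ 1`; by `phi_mul`, `ν phi (M j) ≥ M^(-r) ν phi_j ≥ c0`, so `M j ≤ k`. `N ≤ 8 μ D j ≤ 8 μ D k/M` and `M ≥ (1/2)(2 μ exp(-r)/c0)^(1/r)`, so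
  `N ≤ 16 μ^(1-1/r) (c0 exp r/2)^(1/r) k D ≤ B0 μ^(1-1/r) k D`.
(2) In general let `μ0 = 2^i0` be a fixed power of two with `2 μ0 ≥ c0 exp r`. For `i ≥ i0` use (1) with `μ = 2^i`; for `i < i0` the degrees are `≤ μ0 D`, so
  `N ≤ B0 μ0^(1-1/r) k D ≤ B0 μ0 (2θ)^i k D` as `2θ ≥ 1`. Take `B = B0 μ0`. -/

namespace Pool.Agent.Work.MP_7d1693_pr.FM

open Finset

private theorem h1_vol {r n t a : ℕ} {l : List ℕ} (hr : 1 ≤ r) (hs : (a :: l).sum = r)
    (ht : 1 ≤ t) (htn : t ≤ n) :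
    (volB (ntBox n t (a :: l)) : ℝ) =
      ((n : ℝ) * ((t : ℝ) / n) ^ a) * ((n ^ (r - 1) : ℕ) : ℝ) := by
  have hn : (0 : ℝ) < n := by
    have : 0 < n := by omega
    exact_mod_cast this
  rw [ntBox_vol]
  have h1 : a + l.sum = r := by
    rw [← hs, List.sum_cons]
  have h2 : (n : ℝ) * (n : ℝ) ^ (r - 1) = (n : ℝ) ^ a * (n : ℝ) ^ l.sum := by
    rw [← pow_succ', ← pow_add]
    congr 1
    omega
  push_cast
  rw [div_pow]
  calc (t : ℝ) ^ a * (n : ℝ) ^ l.sum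
      = (t : ℝ) ^ a / (n : ℝ) ^ a * ((n : ℝ) ^ a * (n : ℝ) ^ l.sum) := by
        field_simp
    _ = (n : ℝ) * ((t : ℝ) ^ a / (n : ℝ) ^ a) * (n : ℝ) ^ (r - 1) := by
        rw [← h2]
        ring

private theorem h1_floor {y : ℝ} (hy : 1 ≤ y) : y / 2 ≤ (⌊y⌋₊ : ℝ) := by
  have h1 : (1 : ℝ) ≤ (⌊y⌋₊ : ℝ) := by
    exact_mod_cast (Nat.one_le_floor_iff y).2 hy
  have h2 := Nat.lt_floor_add_one y
  linarith

private theorem h1_root {r : ℕ} (hr : 2 ≤ r) {x y : ℝ} (hx : 0 ≤ x) (hy : 0 ≤ y)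
    (h : x ≤ y ^ r) : x ^ (1 / (r : ℝ)) ≤ y := by
  have hr0 : (r : ℝ) ≠ 0 := by
    have : r ≠ 0 := by omega
    exact_mod_cast this
  calc x ^ (1 / (r : ℝ)) ≤ (y ^ r) ^ (1 / (r : ℝ)) :=
        Real.rpow_le_rpow hx h (by positivity)
    _ = y := by
        rw [← Real.rpow_natCast, ← Real.rpow_mul hy, mul_one_div_cancel hr0, Real.rpow_one]

private theorem h1_core {r : ℕ} (hr : 2 ≤ r) {P : Set (List Bool)} {a : ℕ} {l : List ℕ}
    (h : Adm r P (a :: l)) {c0 : ℝ} (hc0 : 1 ≤ c0) {n t k : ℕ} (ht : 1 ≤ t) (htn : t ≤ n)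
    (hk : 1 ≤ k)
    (hmax : ∀ k' : ℕ, 1 ≤ k' →
      c0 ≤ (n : ℝ) * ((t : ℝ) / n) ^ a * phi r P (a :: l) k' → k' ≤ k)
    {i : ℕ} (hi : c0 * Real.exp r ≤ 2 * 2 ^ i) {T : Finset (Finset ℕ)}
    (hT : T ⊆ Ebox r (ntBox n t (a :: l)))
    (hdeg : ∀ v ∈ T, deg (conf P) T v ≤ 2 ^ i * n ^ (r - 1)) :
    (T.card : ℝ) ≤ 16 * c0 * Real.exp r * ((2 : ℝ) ^ i) ^ (1 - 1 / (r : ℝ)) * k *
      ((n ^ (r - 1) : ℕ) : ℝ) := by
  have hr1 : 1 ≤ r := by omega
  have hc := adm_comp h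
  have hn1 : 1 ≤ n := by omega
  have hn : (0 : ℝ) < n := by exact_mod_cast hn1
  have htR : (0 : ℝ) < t := by exact_mod_cast ht
  have hkR : (1 : ℝ) ≤ k := by exact_mod_cast hk
  have hrR : (2 : ℝ) ≤ r := by exact_mod_cast hr
  set s : ℝ := 1 / (r : ℝ) with hs
  have hs0 : 0 < s := by positivity
  have hs1 : s ≤ 1 := by
    rw [hs, div_le_one (by linarith)]
    linarith
  set ν : ℝ := (n : ℝ) * ((t : ℝ) / n) ^ a with hν
  set D : ℝ := ((n ^ (r - 1) : ℕ) : ℝ) with hD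
  have hν0 : 0 < ν := by positivity
  have hD1 : 1 ≤ D := by
    rw [hD]
    exact_mod_cast Nat.one_le_pow _ _ hn1
  have hvol : (volB (ntBox n t (a :: l)) : ℝ) = ν * D := h1_vol hr1 hc.1 ht htn
  have he1 : 1 ≤ Real.exp r := Real.one_le_exp (by linarith)
  -- (0)
  have h0 : ν ≤ (c0 * (2 * k)) ^ r := by
    have hcr : c0 ≤ c0 ^ r := le_self_pow₀ hc0 (by omega)
    have h2k : (1 : ℝ) ≤ 2 * k := by linarith
    rcases le_or_gt c0 ν with h1 | h1
    · have h2 : 1 ≤ ν / c0 := by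
        rw [le_div_iff₀ (by linarith)]
        linarith
      have h3 : 1 ≤ (ν / c0) ^ s := Real.one_le_rpow h2 hs0.le
      set k' := ⌊(ν / c0) ^ s⌋₊ with hk'
      have h4 : 1 ≤ k' := (Nat.one_le_floor_iff _).2 h3
      have h4R : (1 : ℝ) ≤ k' := by exact_mod_cast h4
      have h5 : (k' : ℝ) ^ r ≤ ν / c0 := by
        have h6 : (k' : ℝ) ≤ (ν / c0) ^ s := Nat.floor_le (by positivity)
        calc (k' : ℝ) ^ r ≤ ((ν / c0) ^ s) ^ r := pow_le_pow_left₀ (by positivity) h6 r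
          _ = ν / c0 := by
            rw [← Real.rpow_natCast, ← Real.rpow_mul (by positivity), hs,
              one_div_mul_cancel (by positivity), Real.rpow_one]
      have h6 : c0 ≤ ν * phi r P (a :: l) k' := by
        have h7 := phi_lb hr1 h h4
        have h8 : c0 ≤ ν * (1 / (k' : ℝ) ^ r) := by
          rw [mul_one_div, le_div_iff₀ (by positivity)]
          rw [le_div_iff₀ (by linarith)] at h5
          linarith
        exact h8.trans (mul_le_mul_of_nonneg_left h7 hν0.le)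
      have h9 := hmax k' h4 h6
      have h9R : (k' : ℝ) ≤ k := by exact_mod_cast h9
      have h10 : (ν / c0) ^ s ≤ 2 * k := by
        have := Nat.lt_floor_add_one ((ν / c0) ^ s)
        rw [← hk'] at this
        linarith
      have h11 : ν / c0 ≤ (2 * k) ^ r := by
        calc ν / c0 = ((ν / c0) ^ s) ^ r := by
              rw [← Real.rpow_natCast, ← Real.rpow_mul (by positivity), hs,
                one_div_mul_cancel (by positivity), Real.rpow_one]
          _ ≤ (2 * k) ^ r := pow_le_pow_left₀ (by positivity) h10 r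
      rw [div_le_iff₀ (by linarith)] at h11
      calc ν ≤ (2 * k) ^ r * c0 := h11
        _ ≤ (2 * k) ^ r * c0 ^ r := mul_le_mul_of_nonneg_left hcr (by positivity)
        _ = (c0 * (2 * k)) ^ r := by
          rw [mul_pow c0]
          ring
    · calc ν ≤ c0 := h1.le
        _ ≤ c0 * (2 * k) := by nlinarith
        _ ≤ (c0 * (2 * k)) ^ r := le_self_pow₀ (by nlinarith) (by omega)
  have h0' : ν ^ s ≤ c0 * (2 * k) := h1_root hr hν0.le (by positivity) h0
  set μ : ℝ := (2 : ℝ) ^ i with hμ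
  have hμ1 : 1 ≤ μ := one_le_pow₀ (by norm_num)
  have hμ0 : 0 < μ := by linarith
  have hsplit : ∀ x : ℝ, 0 < x → x ^ s * x ^ (1 - s) = x := by
    intro x hx
    rw [← Real.rpow_add hx, add_sub_cancel, Real.rpow_one]
  have hX0 : 0 < μ ^ (1 - s) := Real.rpow_pos_of_pos hμ0 _
  have hcard : (T.card : ℝ) ≤ ν * D := by
    rw [← hvol]
    have h1 := Finset.card_le_card hT
    have h2 := Ebox_card (ntBox_ord n t (a :: l)) (r := r)
      (by rw [ntBox_shape]; exact hc.1)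
    exact_mod_cast h1.trans h2
  have hB : c0 ≤ c0 * Real.exp r := by nlinarith
  rcases lt_or_ge (T.card : ℝ) (8 * μ * D) with hN | hN
  · rcases le_or_gt μ ν with h1 | h1
    · have h2 : μ ^ s ≤ ν ^ s := Real.rpow_le_rpow hμ0.le h1 hs0.le
      have h3 : μ ≤ c0 * (2 * k) * μ ^ (1 - s) := by
        calc μ = μ ^ s * μ ^ (1 - s) := (hsplit μ hμ0).symm
          _ ≤ c0 * (2 * k) * μ ^ (1 - s) :=
            mul_le_mul_of_nonneg_right (h2.trans h0') hX0.le
      calc (T.card : ℝ) ≤ 8 * μ * D := hN.le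
        _ ≤ 8 * (c0 * (2 * k) * μ ^ (1 - s)) * D := by gcongr
        _ = 16 * c0 * μ ^ (1 - s) * k * D := by ring
        _ ≤ 16 * (c0 * Real.exp r) * μ ^ (1 - s) * k * D := by gcongr
        _ = _ := by ring
    · have h2 : ν ^ (1 - s) ≤ μ ^ (1 - s) :=
        Real.rpow_le_rpow hν0.le h1.le (by linarith)
      have h3 : ν ≤ c0 * (2 * k) * μ ^ (1 - s) := by
        calc ν = ν ^ s * ν ^ (1 - s) := (hsplit ν hν0).symm
          _ ≤ c0 * (2 * k) * μ ^ (1 - s) := by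
            apply mul_le_mul h0' h2 (Real.rpow_nonneg hν0.le _) (by positivity)
      calc (T.card : ℝ) ≤ ν * D := hcard
        _ ≤ (c0 * (2 * k) * μ ^ (1 - s)) * D := by gcongr
        _ = 2 * c0 * μ ^ (1 - s) * k * D := by ring
        _ ≤ 16 * (c0 * Real.exp r) * μ ^ (1 - s) * k * D := by
          have : 2 * c0 ≤ 16 * (c0 * Real.exp r) := by nlinarith
          gcongr
        _ = _ := by ring
  · have hμD : 0 < μ * D := by positivity
    have hx2 : 2 ≤ (T.card : ℝ) / (4 * μ * D) := by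
      rw [le_div_iff₀ (by positivity)]
      linarith
    set j := ⌊(T.card : ℝ) / (4 * μ * D)⌋₊ with hj
    have hj1 : 1 ≤ j := (Nat.one_le_floor_iff _).2 (by linarith)
    have hj1R : (1 : ℝ) ≤ j := by exact_mod_cast hj1
    have hj2 : (T.card : ℝ) / (4 * μ * D) / 2 ≤ j := h1_floor (by linarith)
    have hj3 : (j : ℝ) ≤ (T.card : ℝ) / (4 * μ * D) := Nat.floor_le (by positivity)
    have hj4 : 4 * j * (μ * D) ≤ T.card := by
      rw [le_div_iff₀ (by positivity)] at hj3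
      linarith
    have hj5 : (T.card : ℝ) ≤ 8 * (μ * D) * j := by
      rw [div_div, div_le_iff₀ (by positivity)] at hj2
      linarith
    have hDel : ((2 ^ i * n ^ (r - 1) : ℕ) : ℝ) = μ * D := by
      rw [hμ, hD]
      push_cast
      ring
    have hgre := gre (conf P) (fun u v => conf_symm P) T hdeg (j := j) (by
      have h1 : ((2 * j * (2 ^ i * n ^ (r - 1) + 1) : ℕ) : ℝ) ≤ (T.card : ℝ) := by
        have h2 : ((2 * j * (2 ^ i * n ^ (r - 1) + 1) : ℕ) : ℝ) = 2 * j * (μ * D + 1) := by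
          rw [← hDel]
          push_cast
          ring
        rw [h2]
        have h3 : 1 ≤ μ * D := by nlinarith
        nlinarith
      exact_mod_cast h1)
    have hind : ((indK (conf P) T j).card : ℝ) ≤
        (ac r P (a :: l) j : ℝ) * (chB (ntBox n t (a :: l)) j : ℝ) := by
      have h1 : indK (conf P) T j ⊆ indK (conf P) (Ebox r (ntBox n t (a :: l))) j := by
        intro I hI
        classical
        unfold indK at hI ⊢
        rw [Finset.mem_filter] at hI ⊢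
        exact ⟨Finset.powersetCard_mono hT hI.1, hI.2⟩
      have h2 := Finset.card_le_card h1
      rw [← Cl_eq hr1, card_Cl hr1 P (ntBox_ord n t (a :: l))
        (by rw [ntBox_shape]; exact hc.1), ntBox_shape] at h2
      exact_mod_cast h2
    have hchB := chB_le (r := r) (B := ntBox n t (a :: l)) (by rw [ntBox_shape]; exact hc) hj1
    rw [hvol] at hchB
    have hpp := phi_pow r P (a :: l) hj1
    have hφ0 := phi_nonneg r P (a :: l) j
    have hfac : (j.factorial : ℝ) ≤ (j : ℝ) ^ j := by exact_mod_cast Nat.factorial_le_pow j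
    have key : ((T.card : ℝ) / 2) ^ j ≤
        (j * (phi r P (a :: l) j * (Real.exp r * (ν * D)))) ^ j := by
      calc ((T.card : ℝ) / 2) ^ j ≤ (j.factorial : ℝ) * ((indK (conf P) T j).card : ℝ) := hgre
        _ ≤ (j : ℝ) ^ j * ((ac r P (a :: l) j : ℝ) * (chB (ntBox n t (a :: l)) j : ℝ)) := by
          gcongr
        _ = (j : ℝ) ^ j * (phi r P (a :: l) j ^ j *
              ((chB (ntBox n t (a :: l)) j : ℝ) * (j : ℝ) ^ (r * j))) := by
          rw [← hpp]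
          ring
        _ ≤ (j : ℝ) ^ j * (phi r P (a :: l) j ^ j * (Real.exp r * (ν * D)) ^ j) := by
          gcongr
        _ = _ := by
          rw [← mul_pow, ← mul_pow]
    have key2 : (T.card : ℝ) / 2 ≤ j * (phi r P (a :: l) j * (Real.exp r * (ν * D))) :=
      le_of_pow_le_pow_left₀ (by omega) (by positivity) key
    have key3 : 2 * μ ≤ Real.exp r * (ν * phi r P (a :: l) j) := by
      have h1 : 2 * j * (μ * D) ≤ j * (phi r P (a :: l) j * (Real.exp r * (ν * D))) := by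
        linarith
      have h2 : (j * D) * (2 * μ) ≤ (j * D) * (Real.exp r * (ν * phi r P (a :: l) j)) := by
        linarith
      exact le_of_mul_le_mul_left h2 (by positivity)
    set z : ℝ := 2 * μ / (c0 * Real.exp r) with hz
    have hz1 : 1 ≤ z := by
      rw [hz, le_div_iff₀ (by positivity)]
      linarith
    have hy1 : 1 ≤ z ^ s := Real.one_le_rpow hz1 hs0.le
    set M := ⌊z ^ s⌋₊ with hM
    have hM1 : 1 ≤ M := (Nat.one_le_floor_iff _).2 hy1
    have hM1R : (1 : ℝ) ≤ M := by exact_mod_cast hM1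
    have hM2 : (M : ℝ) ^ r ≤ z := by
      have h6 : (M : ℝ) ≤ z ^ s := Nat.floor_le (by positivity)
      calc (M : ℝ) ^ r ≤ (z ^ s) ^ r := pow_le_pow_left₀ (by positivity) h6 r
        _ = z := by
          rw [← Real.rpow_natCast, ← Real.rpow_mul (by positivity), hs,
            one_div_mul_cancel (by positivity), Real.rpow_one]
    have hM3 : z ^ s / 2 ≤ M := h1_floor hy1
    have hMj : c0 ≤ ν * phi r P (a :: l) (M * j) := by
      have h1 := phi_mul hr1 h hM1 hj1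
      have h2 : ν * phi r P (a :: l) j ≤ (M : ℝ) ^ r * (ν * phi r P (a :: l) (M * j)) := by
        calc ν * phi r P (a :: l) j ≤ ν * ((M : ℝ) ^ r * phi r P (a :: l) (M * j)) :=
              mul_le_mul_of_nonneg_left h1 hν0.le
          _ = _ := by ring
      have h3 : c0 * z ≤ ν * phi r P (a :: l) j := by
        have h4 : c0 * z * Real.exp r = 2 * μ := by
          rw [hz]
          field_simp
        have h5 : (c0 * z) * Real.exp r ≤ (ν * phi r P (a :: l) j) * Real.exp r := by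
          rw [h4]
          linarith
        exact le_of_mul_le_mul_right h5 (by positivity)
      have h6 : z * c0 ≤ z * (ν * phi r P (a :: l) (M * j)) := by
        have h7 : 0 ≤ ν * phi r P (a :: l) (M * j) :=
          mul_nonneg hν0.le (phi_nonneg r P (a :: l) (M * j))
        calc z * c0 = c0 * z := by ring
          _ ≤ (M : ℝ) ^ r * (ν * phi r P (a :: l) (M * j)) := h3.trans h2
          _ ≤ z * (ν * phi r P (a :: l) (M * j)) := mul_le_mul_of_nonneg_right hM2 h7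
      exact le_of_mul_le_mul_left h6 (by linarith)
    have hMk := hmax (M * j) (Nat.one_le_iff_ne_zero.2 (by positivity)) hMj
    have hMkR : (M : ℝ) * j ≤ k := by exact_mod_cast hMk
    -- `z ^ s * (c0 exp r) ≥ μ ^ s`
    have hzs : μ ^ s ≤ z ^ s * (c0 * Real.exp r) := by
      have hce : 1 ≤ c0 * Real.exp r := by nlinarith
      have h1 : μ ≤ z * (c0 * Real.exp r) := by
        have h2 : z * (c0 * Real.exp r) = 2 * μ := by
          rw [hz]
          field_simp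
        rw [h2]
        linarith
      calc μ ^ s ≤ (z * (c0 * Real.exp r)) ^ s := Real.rpow_le_rpow hμ0.le h1 hs0.le
        _ = z ^ s * (c0 * Real.exp r) ^ s :=
          Real.mul_rpow (by linarith) (by linarith)
        _ ≤ z ^ s * (c0 * Real.exp r) := by
          have h3 : (c0 * Real.exp r) ^ s ≤ (c0 * Real.exp r) ^ (1 : ℝ) :=
            Real.rpow_le_rpow_of_exponent_le hce hs1
          rw [Real.rpow_one] at h3
          gcongr
    -- `μ * j ≤ 2 c0 exp r μ^(1-s) k`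
    have hfin : μ * j ≤ 2 * (c0 * Real.exp r) * μ ^ (1 - s) * k := by
      have h1 : μ ^ s * j ≤ 2 * (c0 * Real.exp r) * k := by
        calc μ ^ s * j ≤ z ^ s * (c0 * Real.exp r) * j := by gcongr
          _ ≤ (2 * M) * (c0 * Real.exp r) * j := by
            have : z ^ s ≤ 2 * M := by linarith
            gcongr
          _ = 2 * (c0 * Real.exp r) * (M * j) := by ring
          _ ≤ 2 * (c0 * Real.exp r) * k := by gcongr
      calc μ * j = (μ ^ s * μ ^ (1 - s)) * j := by rw [hsplit μ hμ0]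
        _ = (μ ^ s * j) * μ ^ (1 - s) := by ring
        _ ≤ (2 * (c0 * Real.exp r) * k) * μ ^ (1 - s) :=
          mul_le_mul_of_nonneg_right h1 hX0.le
        _ = _ := by ring
    calc (T.card : ℝ) ≤ 8 * (μ * D) * j := hj5
      _ = 8 * D * (μ * j) := by ring
      _ ≤ 8 * D * (2 * (c0 * Real.exp r) * μ ^ (1 - s) * k) := by gcongr
      _ = _ := by ring

theorem h1 {r : ℕ} (hr : 2 ≤ r) {P : Set (List Bool)} {lam : List ℕ} (h : Adm r P lam) {c0 : ℝ}
    (hc0 : 1 ≤ c0) :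
    ∃ B : ℝ, 0 < B ∧ ∀ n t k : ℕ, 1 ≤ t → t ≤ n → 1 ≤ k →
      (∀ k' : ℕ, 1 ≤ k' → c0 ≤ (n : ℝ) * ((t : ℝ) / n) ^ (lam.headD 0) * phi r P lam k' → k' ≤ k) →
      ∀ i : ℕ, ∀ T ⊆ Ebox r (ntBox n t lam), (∀ v ∈ T, deg (conf P) T v ≤ 2 ^ i * n ^ (r - 1)) →
        (T.card : ℝ) ≤ B * (2 * (2 : ℝ) ^ (-(1 / (r : ℝ)))) ^ i * k * ((n ^ (r - 1) : ℕ) : ℝ) := by
  have hr1 : 1 ≤ r := by omega
  have hrR : (2 : ℝ) ≤ r := by exact_mod_cast hr
  obtain ⟨a, l, rfl⟩ : ∃ a l, lam = a :: l := by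
    cases lam with
    | nil =>
      have h1 := h.1
      simp at h1
      omega
    | cons a l => exact ⟨a, l, rfl⟩
  obtain ⟨i0, hi0⟩ := pow_unbounded_of_one_lt (c0 * Real.exp r) (one_lt_two : (1 : ℝ) < 2)
  have he1 : 1 ≤ Real.exp r := Real.one_le_exp (by linarith)
  have hpos : ∀ i : ℕ, (2 * (2 : ℝ) ^ (-(1 / (r : ℝ)))) ^ i = ((2 : ℝ) ^ i) ^ (1 - 1 / (r : ℝ)) := by
    intro i
    have h1 : 2 * (2 : ℝ) ^ (-(1 / (r : ℝ))) = (2 : ℝ) ^ (1 - 1 / (r : ℝ)) := by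
      rw [sub_eq_add_neg, Real.rpow_add (by norm_num), Real.rpow_one]
    rw [h1, ← Real.rpow_natCast, ← Real.rpow_natCast, ← Real.rpow_mul (by norm_num),
      ← Real.rpow_mul (by norm_num), mul_comm]
  have hs1 : 0 ≤ 1 - 1 / (r : ℝ) := by
    have : 1 / (r : ℝ) ≤ 1 := by
      rw [div_le_one (by linarith)]
      linarith
    linarith
  have hge1 : ∀ i : ℕ, 1 ≤ (2 * (2 : ℝ) ^ (-(1 / (r : ℝ)))) ^ i := by
    intro i
    rw [hpos]
    exact Real.one_le_rpow (one_le_pow₀ (by norm_num)) hs1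
  refine ⟨16 * c0 * Real.exp r * 2 ^ i0, by positivity, ?_⟩
  intro n t k ht htn hk hmax i T hT hdeg
  have hkR : (1 : ℝ) ≤ k := by exact_mod_cast hk
  have h2i : (1 : ℝ) ≤ 2 ^ i0 := one_le_pow₀ (by norm_num)
  rcases le_or_gt i0 i with hi | hi
  · have h1 : c0 * Real.exp r ≤ 2 * 2 ^ i := by
      have h2 : (2 : ℝ) ^ i0 ≤ 2 ^ i := pow_le_pow_right₀ (by norm_num) hi
      have h3 : (0 : ℝ) < 2 ^ i := by positivity
      linarith
    have h2 := h1_core hr h hc0 ht htn hk hmax h1 hT hdeg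
    rw [hpos]
    refine h2.trans ?_
    have h3 : 16 * c0 * Real.exp r ≤ 16 * c0 * Real.exp r * 2 ^ i0 := by
      have : 0 < 16 * c0 * Real.exp r := by positivity
      nlinarith
    gcongr
  · have h1 : c0 * Real.exp r ≤ 2 * 2 ^ i0 := by linarith
    have h2 := h1_core hr h hc0 ht htn hk hmax h1 hT (fun v hv => (hdeg v hv).trans (by
      have : 2 ^ i ≤ 2 ^ i0 := Nat.pow_le_pow_right (by norm_num) hi.le
      exact Nat.mul_le_mul_right _ this))
    have h3 : ((2 : ℝ) ^ i0) ^ (1 - 1 / (r : ℝ)) ≤ 2 ^ i0 := by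
      have h4 : ((2 : ℝ) ^ i0) ^ (1 - 1 / (r : ℝ)) ≤ ((2 : ℝ) ^ i0) ^ (1 : ℝ) := by
        apply Real.rpow_le_rpow_of_exponent_le h2i
        have : 0 ≤ 1 / (r : ℝ) := by positivity
        linarith
      rwa [Real.rpow_one] at h4
    refine h2.trans ?_
    have h5 := hge1 i
    calc 16 * c0 * Real.exp r * ((2 : ℝ) ^ i0) ^ (1 - 1 / (r : ℝ)) * k * ((n ^ (r - 1) : ℕ) : ℝ)
        ≤ 16 * c0 * Real.exp r * (2 : ℝ) ^ i0 * k * ((n ^ (r - 1) : ℕ) : ℝ) := by gcongr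
      _ = (16 * c0 * Real.exp r * (2 : ℝ) ^ i0) * 1 * k * ((n ^ (r - 1) : ℕ) : ℝ) := by ring
      _ ≤ (16 * c0 * Real.exp r * (2 : ℝ) ^ i0) * (2 * (2 : ℝ) ^ (-(1 / (r : ℝ)))) ^ i * k *
          ((n ^ (r - 1) : ℕ) : ℝ) := by gcongr

end Pool.Agent.Work.MP_7d1693_pr.FM
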