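import Pool.Agent.Work.MP_7d1693_pr.FM.Defs
import Pool.Agent.Work.MP_7d1693_pr.FM.PhiReg
import Pool.Agent.Work.MP_7d1693_pr.FM.Link
import Pool.Agent.Work.MP_7d1693_pr.FM.ChB
import Pool.Agent.Work.MP_7d1693_pr.FM.ETot

/-! # Module H2 (S-M): many cliques in the box

`C` from `phi_reg`: `phi k ≤ C/k` (`j = 1`, `phi_one`). `c0 = r C ≥ 1`, `β = r^(-r)`. `ν = n (t/n)^(λ_1) ≤ t` (`λ_1 ≥ 1`, `t ≤ n`), so `c0 ≤ ν phi k ≤ t C/k` gives
`r k ≤ t ≤ n`, hence `k s ≤ L` for every interval of `ntBox n t lam` (first length `t`, others `n`; prove it by induction on the list for `nBox`). By `card_Cl`, `le_chB`, `phi_pow`: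
`(Cl k).card * (r^r)^k * k^(r k) ≥ ac_k volB^k`, so `(Cl k).card ≥ (r^(-r) phi_k volB)^k = (r^(-r) ν phi_k D)^k ≥ (β D)^k` where `volB = ν D`, `D = n^(r-1)` (`ntBox_vol`). -/

namespace Pool.Agent.Work.MP_7d1693_pr.FM

open Finset

private theorem h2_lenN (n : ℕ) : ∀ (l : List ℕ) (c : ℕ), ∀ b ∈ nBox n c l,
    n ≤ b.2.2 - b.2.1 := by
  intro l
  induction l with
  | nil =>
    intro c b hb
    simp [nBox] at hb
  | cons s l ih =>
    intro c b hb
    rw [nBox, List.mem_cons] at hb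
    rcases hb with rfl | hb
    · simp
    · exact ih (c + n) b hb

private theorem h2_len {n t : ℕ} (ht : t ≤ n) (lam : List ℕ) : ∀ b ∈ ntBox n t lam,
    t ≤ b.2.2 - b.2.1 := by
  intro b hb
  cases lam with
  | nil => simp [ntBox] at hb
  | cons a l =>
    rw [ntBox, List.mem_cons] at hb
    rcases hb with rfl | hb
    · simp
    · exact ht.trans (h2_lenN n l t b hb)

theorem h2 {r : ℕ} (hr : 2 ≤ r) {P : Set (List Bool)} {lam : List ℕ} (h : Adm r P lam) :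
    ∃ c0 β : ℝ, 1 ≤ c0 ∧ 0 < β ∧ ∀ n t k : ℕ, 1 ≤ t → t ≤ n → 1 ≤ k →
      c0 ≤ (n : ℝ) * ((t : ℝ) / n) ^ (lam.headD 0) * phi r P lam k →
      (β * ((n ^ (r - 1) : ℕ) : ℝ)) ^ k ≤ ((Cl r P (ntBox n t lam) k).card : ℝ) := by
  have hr1 : 1 ≤ r := by omega
  have hcomp := adm_comp h
  obtain ⟨C, hC, hreg⟩ := phi_reg hr1 h
  have hr0 : (0 : ℝ) < r := by exact_mod_cast (by omega : 0 < r)
  have hrr : (1 : ℝ) ≤ r := by exact_mod_cast hr1
  have hrpow : (0 : ℝ) < (r : ℝ) ^ r := pow_pos hr0 r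
  refine ⟨r * C, 1 / (r : ℝ) ^ r, by nlinarith, by positivity, ?_⟩
  intro n t k ht htn hk hc
  obtain ⟨a, l, rfl⟩ : ∃ a l, lam = a :: l := by
    cases lam with
    | nil =>
      exfalso
      have := hcomp.1
      simp at this
      omega
    | cons a l => exact ⟨a, l, rfl⟩
  have ha : 0 < a := hcomp.2 a (by simp)
  have hsum : a + l.sum = r := by
    have := hcomp.1
    simpa using this
  have hn0 : (0 : ℝ) < n := by exact_mod_cast (by omega : 0 < n)
  have ht0 : (0 : ℝ) < t := by exact_mod_cast (by omega : 0 < t)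
  have hk0 : (0 : ℝ) < k := by exact_mod_cast (by omega : 0 < k)
  have htn' : (t : ℝ) ≤ n := by exact_mod_cast htn
  rw [List.headD_cons] at hc
  have hq0 : (0 : ℝ) ≤ (t : ℝ) / n := by positivity
  have hq1 : (t : ℝ) / n ≤ 1 := (div_le_one hn0).2 htn'
  have hqa : ((t : ℝ) / n) ^ a ≤ (t : ℝ) / n := pow_le_of_le_one hq0 hq1 ha.ne'
  have hnu : (n : ℝ) * ((t : ℝ) / n) ^ a ≤ t := by
    calc (n : ℝ) * ((t : ℝ) / n) ^ a ≤ n * ((t : ℝ) / n) := mul_le_mul_of_nonneg_left hqa hn0.le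
      _ = t := by field_simp
  have hphi0 := phi_nonneg r P (a :: l) k
  have hphi1 : phi r P (a :: l) k ≤ C / k := by
    have h1 := (hreg 1 k le_rfl hk).1
    rw [phi_one P hcomp.1] at h1
    calc phi r P (a :: l) k ≤ C * (((1 : ℕ) : ℝ) / k) * 1 := h1
      _ = C / k := by
        push_cast
        ring
  have hrk : r * k ≤ t := by
    have h1 : (r : ℝ) * C ≤ t * (C / k) := hc.trans (mul_le_mul hnu hphi1 hphi0 ht0.le)
    have h2 : (r : ℝ) * k * C ≤ t * C := by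
      have h3 := mul_le_mul_of_nonneg_right h1 hk0.le
      have h4 : (t : ℝ) * (C / k) * k = t * C := by field_simp
      rw [h4] at h3
      linarith
    have hC0 : (0 : ℝ) < C := by linarith
    have h5 := le_of_mul_le_mul_right h2 hC0
    exact_mod_cast h5
  have hshape := ntBox_shape n t (a :: l)
  have hcompB : Comp r (shape (ntBox n t (a :: l))) := by rw [hshape]; exact hcomp
  have hlen := h2_len htn (a :: l)
  have hL : ∀ b ∈ ntBox n t (a :: l), k * b.1 ≤ b.2.2 - b.2.1 := by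
    intro b hb
    have h1 : b.1 ∈ shape (ntBox n t (a :: l)) := List.mem_map.2 ⟨b, hb, rfl⟩
    have h2 : b.1 ≤ r := by
      have h3 := List.single_le_sum (fun _ _ => Nat.zero_le _) _ h1
      rw [hcompB.1] at h3
      exact h3
    calc k * b.1 ≤ k * r := Nat.mul_le_mul_left k h2
      _ = r * k := Nat.mul_comm _ _
      _ ≤ t := hrk
      _ ≤ _ := hlen b hb
  have hch := le_chB hcompB hk hL
  have hcard := card_Cl hr1 P (ntBox_ord n t (a :: l)) hcompB.1 k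
  rw [hshape] at hcard
  have hpow := phi_pow r P (a :: l) hk
  have hvol : (volB (ntBox n t (a :: l)) : ℝ) =
      (n : ℝ) * ((t : ℝ) / n) ^ a * ((n ^ (r - 1) : ℕ) : ℝ) := by
    rw [ntBox_vol]
    push_cast
    rw [div_pow]
    have h1 : (n : ℝ) * (n : ℝ) ^ (r - 1) = (n : ℝ) ^ a * (n : ℝ) ^ l.sum := by
      rw [← pow_succ', ← pow_add]
      congr 1
      omega
    have h2 : (n : ℝ) ^ a ≠ 0 := (pow_pos hn0 a).ne'
    have h3 : (n : ℝ) * ((t : ℝ) ^ a / (n : ℝ) ^ a) * (n : ℝ) ^ (r - 1) =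
        (t : ℝ) ^ a * ((n : ℝ) * (n : ℝ) ^ (r - 1)) / (n : ℝ) ^ a := by ring
    rw [h3, h1, mul_left_comm, mul_div_cancel_left₀ _ h2]
  set D : ℝ := ((n ^ (r - 1) : ℕ) : ℝ) with hD
  have hD0 : 0 ≤ D := by rw [hD]; positivity
  have hcardR : ((Cl r P (ntBox n t (a :: l)) k).card : ℝ) =
      (ac r P (a :: l) k : ℝ) * (chB (ntBox n t (a :: l)) k : ℝ) := by
    rw [hcard]
    push_cast
    ring
  have hmain : D ^ k ≤ ((Cl r P (ntBox n t (a :: l)) k).card : ℝ) * ((r : ℝ) ^ r) ^ k := by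
    have h1 : (phi r P (a :: l) k) ^ k * (volB (ntBox n t (a :: l)) : ℝ) ^ k ≤
        ((Cl r P (ntBox n t (a :: l)) k).card : ℝ) * ((r : ℝ) ^ r) ^ k := by
      rw [hcardR, ← hpow]
      have h2 := mul_le_mul_of_nonneg_left hch (pow_nonneg hphi0 k)
      have h3 : phi r P (a :: l) k ^ k * ((chB (ntBox n t (a :: l)) k : ℝ) *
          ((r : ℝ) ^ r * (k : ℝ) ^ r) ^ k) =
          phi r P (a :: l) k ^ k * (k : ℝ) ^ (r * k) * (chB (ntBox n t (a :: l)) k : ℝ) *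
          ((r : ℝ) ^ r) ^ k := by
        rw [mul_pow, ← pow_mul (k : ℝ) r k]
        ring
      rw [h3] at h2
      exact h2
    refine le_trans ?_ h1
    rw [← mul_pow]
    apply pow_le_pow_left₀ hD0
    rw [hvol]
    have h4 : 1 ≤ (n : ℝ) * ((t : ℝ) / n) ^ a * phi r P (a :: l) k := le_trans (by nlinarith) hc
    have h5 := mul_le_mul_of_nonneg_right h4 hD0
    rw [one_mul] at h5
    calc D ≤ (n : ℝ) * ((t : ℝ) / n) ^ a * phi r P (a :: l) k * D := h5
      _ = phi r P (a :: l) k * ((n : ℝ) * ((t : ℝ) / n) ^ a * D) := by ring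
  have hfin : (1 / (r : ℝ) ^ r * D) ^ k = D ^ k / ((r : ℝ) ^ r) ^ k := by
    rw [one_div, inv_mul_eq_div, div_pow]
  rw [hfin, div_le_iff₀ (pow_pos hrpow k)]
  exact hmain

end Pool.Agent.Work.MP_7d1693_pr.FM
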