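import Pool.Agent.Work.MP_7d1693_pr.FM.Defs

/-! # Module Num (S-M): choice of delta (Mathlib only)

The series `∑ 2 B θ^(i+1) log (1 + 2^i X)` converges: `log (1 + 2^i X) ≤ log (1+X) + i log 2 ≤ K (i+1)` and `∑ (i+1) θ^i` converges. Take `i0` with
`∑_{i0 ≤ i < N} ≤ 1/4` for all `N`, and then `δ > 0` with `δ X + 2 δ ∑_{i < i0} log (1 + 2^i X) ≤ 1/4`. In the partial sum bound the terms `i < i0` by
`2 δ log` and the others by `2 B θ^(i+1) log`. -/

namespace Pool.Agent.Work.MP_7d1693_pr.FM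

open Finset

private theorem num_log {X : ℝ} (hX : 0 < X) (i : ℕ) :
    Real.log (1 + 2 ^ i * X) ≤ (Real.log (1 + X) + Real.log 2) * ((i : ℝ) + 1) := by
  have h2 : (1 : ℝ) ≤ 2 ^ i := one_le_pow₀ (by norm_num)
  have h1 : 1 + 2 ^ i * X ≤ 2 ^ i * (1 + X) := by nlinarith
  have hpos : 0 < 1 + 2 ^ i * X := by positivity
  have ha : Real.log (1 + 2 ^ i * X) ≤ Real.log (2 ^ i * (1 + X)) :=
    Real.log_le_log hpos h1
  have hb : Real.log (2 ^ i * (1 + X)) = (i : ℝ) * Real.log 2 + Real.log (1 + X) := by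
    rw [Real.log_mul (by positivity) (by positivity), Real.log_pow]
  have hc : 0 ≤ Real.log (1 + X) := Real.log_nonneg (by linarith)
  have hd : 0 ≤ Real.log 2 := Real.log_nonneg (by norm_num)
  have hi : (0 : ℝ) ≤ i := Nat.cast_nonneg i
  nlinarith [mul_nonneg hc hi]

private theorem num_lognn {X : ℝ} (hX : 0 < X) (i : ℕ) : 0 ≤ Real.log (1 + 2 ^ i * X) := by
  apply Real.log_nonneg
  have : 0 ≤ 2 ^ i * X := by positivity
  linarith

private theorem num_summable {θ B X : ℝ} (h1 : 0 < θ) (h2 : θ < 1) (hB : 0 < B) (hX : 0 < X) :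
    Summable (fun i : ℕ => 2 * B * θ ^ (i + 1) * Real.log (1 + 2 ^ i * X)) := by
  have hn : ‖θ‖ < 1 := by rw [Real.norm_eq_abs, abs_of_pos h1]; exact h2
  have s1 : Summable (fun n : ℕ => ((n : ℝ) ^ 1 * θ ^ n : ℝ)) :=
    summable_pow_mul_geometric_of_norm_lt_one 1 hn
  have s2 : Summable (fun n : ℕ => (((n + 1 : ℕ) : ℝ) ^ 1 * θ ^ (n + 1) : ℝ)) :=
    (summable_nat_add_iff 1).mpr s1
  have s3 := s2.mul_left (2 * B * (Real.log (1 + X) + Real.log 2))
  refine Summable.of_nonneg_of_le (fun i => ?_) (fun i => ?_) s3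
  · exact mul_nonneg (by positivity) (num_lognn hX i)
  · have h := num_log hX i
    have hp : 0 ≤ 2 * B * θ ^ (i + 1) := by positivity
    have := mul_le_mul_of_nonneg_left h hp
    refine this.trans (le_of_eq ?_)
    push_cast
    ring

theorem num {θ B X : ℝ} (h1 : 0 < θ) (h2 : θ < 1) (hB : 0 < B) (hX : 0 < X) :
    ∃ δ : ℝ, 0 < δ ∧ ∀ N : ℕ, δ * X + ∑ i ∈ range N, min (2 * δ) (2 * B * θ ^ (i + 1)) *
      Real.log (1 + 2 ^ i * X) ≤ 1 / 2 := by
  classical
  set f : ℕ → ℝ := fun i => 2 * B * θ ^ (i + 1) * Real.log (1 + 2 ^ i * X) with hf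
  have hs : Summable f := num_summable h1 h2 hB hX
  have hfn : ∀ i, 0 ≤ f i := fun i => mul_nonneg (by positivity) (num_lognn hX i)
  have ht : Filter.Tendsto (fun i => ∑' k, f (k + i)) Filter.atTop (nhds 0) :=
    tendsto_sum_nat_add f
  obtain ⟨i0, hi0⟩ : ∃ i0 : ℕ, ∑' k, f (k + i0) < 1 / 4 := by
    have := (ht.eventually (gt_mem_nhds (show (0 : ℝ) < 1 / 4 by norm_num)))
    exact this.exists
  set S : ℝ := ∑ i ∈ range i0, Real.log (1 + 2 ^ i * X) with hS
  have hSn : 0 ≤ S := Finset.sum_nonneg (fun i _ => num_lognn hX i)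
  have hden : 0 < X + 2 * S + 1 := by linarith
  refine ⟨1 / (4 * (X + 2 * S + 1)), by positivity, fun N => ?_⟩
  set δ : ℝ := 1 / (4 * (X + 2 * S + 1)) with hδ
  have hδp : 0 < δ := by positivity
  have hδb : δ * (X + 2 * S) ≤ 1 / 4 := by
    have h4 : δ * (X + 2 * S + 1) = 1 / 4 := by
      rw [hδ]; field_simp
    nlinarith
  have hmn : ∀ i, 0 ≤ min (2 * δ) (2 * B * θ ^ (i + 1)) := fun i =>
    le_min (by positivity) (by positivity)
  have htn : ∀ i, 0 ≤ min (2 * δ) (2 * B * θ ^ (i + 1)) * Real.log (1 + 2 ^ i * X) := fun i =>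
    mul_nonneg (hmn i) (num_lognn hX i)
  have hA : ∑ i ∈ range N, min (2 * δ) (2 * B * θ ^ (i + 1)) * Real.log (1 + 2 ^ i * X) ≤
      ∑ i ∈ range (i0 + N), min (2 * δ) (2 * B * θ ^ (i + 1)) * Real.log (1 + 2 ^ i * X) := by
    apply Finset.sum_le_sum_of_subset_of_nonneg
    · intro i hi
      simp only [Finset.mem_range] at hi ⊢
      omega
    · intro i _ _
      exact htn i
  rw [Finset.sum_range_add] at hA
  have hB1 : ∑ i ∈ range i0, min (2 * δ) (2 * B * θ ^ (i + 1)) * Real.log (1 + 2 ^ i * X) ≤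
      2 * δ * S := by
    rw [hS, Finset.mul_sum]
    exact Finset.sum_le_sum fun i _ =>
      mul_le_mul_of_nonneg_right (min_le_left _ _) (num_lognn hX i)
  have hB2 : ∑ i ∈ range N, min (2 * δ) (2 * B * θ ^ (i0 + i + 1)) *
      Real.log (1 + 2 ^ (i0 + i) * X) ≤ ∑' k, f (k + i0) := by
    have hs' : Summable (fun k => f (k + i0)) := (summable_nat_add_iff i0).mpr hs
    refine le_trans ?_ (hs'.sum_le_tsum (range N) (fun i _ => hfn _))
    refine Finset.sum_le_sum fun i _ => ?_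
    rw [hf]
    simp only
    rw [add_comm i i0]
    exact mul_le_mul_of_nonneg_right (min_le_right _ _) (num_lognn hX _)
  nlinarith

end Pool.Agent.Work.MP_7d1693_pr.FM
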