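import Pool.Agent.Work.MP_7d1693_pr.FM.Defs

/-! # Module Poly (M): the independence polynomial bound (Mathlib only)

Every nonempty `T ⊆ S` has a vertex of degree at least `d T.card` inside `T`, `d` monotone. Then
`Z T = ∑_{I ∈ indS c T} x^|I| ≤ exp (F T.card)`, `F m = ∑_{i ∈ Icc 1 m} psi x (d i)`, for every `T ⊆ S`. Induction on `T.card`.
`T = ∅`: `Z = 1`. Step, `m = T.card`, `v` the vertex with `deg ≥ d m`, `N = {w ∈ T : w ≠ v, c v w}`: the independent sets without `v` are those of `T.erase v`; those
with `v` are `insert v I'` with `I' ∈ indS c ((T.erase v) \ N)`. So `Z T = Z (T.erase v) + x Z ((T.erase v) \ N)` (`≤` suffices) and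
`((T.erase v) \ N).card ≤ m - 1 - d m`. `F` is monotone (`psi ≥ 0`), so
`Z T ≤ exp (F (m-1)) (1 + x exp (-(F (m-1) - F (m-1-d m))))`. As `psi x` is decreasing in `d` (`log (1+dx)/d` is decreasing, and `≤ x`: value at `0`), `psi x (d i) ≥ psi x (d m)` for
`i ≤ m`, so the difference of the `F` is at least `d m * psi x (d m)` (if `d m ≤ m - 1`, which holds since the degree is at most `m - 1`). For `d = d m > 0`:
`exp (-d psi) = 1/(1+dx)`, and `1 + x/(1+dx) ≤ exp (log (1+dx)/d)` because `log (1 + x/(1+dx)) ≤ x/(1+dx)` and `x/(1+dx) ≤ log (1+dx)/d`
(`y/(1+y) ≤ log (1+y)`, `y = dx`). For `d = 0`: `1 + x ≤ exp x`.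
* `psi_anti`: `psi x` is antitone for `x > 0`: for `0 < d ≤ e`: `log (1+ex)/e ≤ log (1+dx)/d` by concavity of `log` (Bernoulli: `(1+dx)^(e/d) ≥ 1+ex`:
  `one_add_mul_self_le_rpow_one_add`), and `log (1+dx)/d ≤ x`. -/

namespace Pool.Agent.Work.MP_7d1693_pr.FM

open Finset

theorem psi_nonneg {x : ℝ} (hx : 0 < x) (d : ℕ) : 0 ≤ psi x d := by
  unfold psi
  split_ifs with h
  · exact hx.le
  · apply div_nonneg _ (Nat.cast_nonneg _)
    apply Real.log_nonneg
    have : (0 : ℝ) ≤ d * x := by positivity
    linarith

private theorem psi_le {x : ℝ} (hx : 0 < x) (d : ℕ) : psi x d ≤ x := by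
  unfold psi
  split_ifs with h
  · exact le_rfl
  · have hd : (0 : ℝ) < d := by exact_mod_cast Nat.pos_of_ne_zero h
    rw [div_le_iff₀ hd]
    have h1 := Real.log_le_sub_one_of_pos (x := 1 + d * x) (by positivity)
    linarith

theorem psi_anti {x : ℝ} (hx : 0 < x) {d e : ℕ} (h : d ≤ e) : psi x e ≤ psi x d := by
  rcases Nat.eq_zero_or_pos d with rfl | hd
  · have : psi x 0 = x := by unfold psi; simp
    rw [this]
    exact psi_le hx e
  · have he : 0 < e := lt_of_lt_of_le hd h
    have hd' : (0 : ℝ) < d := by exact_mod_cast hd
    have he' : (0 : ℝ) < e := by exact_mod_cast he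
    have hde : (d : ℝ) ≤ e := by exact_mod_cast h
    unfold psi
    rw [if_neg (by omega), if_neg (by omega), div_le_div_iff₀ he' hd']
    have h1 : (1 : ℝ) ≤ (e : ℝ) / d := by
      rw [le_div_iff₀ hd']; linarith
    have h2 := one_add_mul_self_le_rpow_one_add (s := (d : ℝ) * x)
      (by have : (0 : ℝ) ≤ d * x := by positivity
          linarith) h1
    have h3 : (e : ℝ) / d * (d * x) = e * x := by
      field_simp
    rw [h3] at h2
    have h4 := Real.log_le_log (by positivity : (0 : ℝ) < 1 + e * x) h2
    rw [Real.log_rpow (by positivity)] at h4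
    have h5 : Real.log (1 + e * x) * d ≤ ((e : ℝ) / d * Real.log (1 + d * x)) * d :=
      mul_le_mul_of_nonneg_right h4 hd'.le
    calc Real.log (1 + e * x) * d ≤ ((e : ℝ) / d * Real.log (1 + d * x)) * d := h5
      _ = Real.log (1 + d * x) * e := by field_simp

private theorem psi_step {x : ℝ} (hx : 0 < x) (d : ℕ) :
    1 + x * Real.exp (-(d * psi x d)) ≤ Real.exp (psi x d) := by
  rcases Nat.eq_zero_or_pos d with rfl | hd
  · have : psi x 0 = x := by unfold psi; simp
    rw [this]
    simp only [Nat.cast_zero, zero_mul, neg_zero, Real.exp_zero, mul_one]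
    have := Real.add_one_le_exp x
    linarith
  · have hd' : (0 : ℝ) < d := by exact_mod_cast hd
    have hpos : (0 : ℝ) < 1 + d * x := by positivity
    have hp : psi x d = Real.log (1 + d * x) / d := by
      unfold psi; rw [if_neg (by omega)]
    have h1 : (d : ℝ) * psi x d = Real.log (1 + d * x) := by
      rw [hp]; field_simp
    rw [h1, Real.exp_neg, Real.exp_log hpos]
    have h2 : x * (1 + d * x)⁻¹ ≤ psi x d := by
      rw [hp, le_div_iff₀ hd']
      have h3 := Real.one_sub_inv_le_log_of_pos hpos
      have h4 : x * (1 + d * x)⁻¹ * d = 1 - (1 + d * x)⁻¹ := by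
        field_simp
        ring
      rw [h4]
      exact h3
    have h5 := Real.add_one_le_exp (psi x d)
    linarith

theorem poly {α : Type} [DecidableEq α] (c : α → α → Prop) (hc : ∀ u v, c u v → c v u) (S : Finset α)
    (d : ℕ → ℕ) (hd : Monotone d) (h : ∀ T ⊆ S, T.Nonempty → ∃ v ∈ T, d T.card ≤ deg c T v)
    {x : ℝ} (hx : 0 < x) :
    ∑ I ∈ indS c S, x ^ I.card ≤ Real.exp (∑ m ∈ Icc 1 S.card, psi x (d m)) := by
  classical
  set F : ℕ → ℝ := fun m => ∑ i ∈ Icc 1 m, psi x (d i) with hF
  have hFmono : Monotone F := by
    intro a b hab
    apply Finset.sum_le_sum_of_subset_of_nonneg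
    · exact Finset.Icc_subset_Icc le_rfl hab
    · intro i _ _
      exact psi_nonneg hx _
  have hFs : ∀ m, F (m + 1) = F m + psi x (d (m + 1)) := by
    intro m
    rw [hF]
    simp only
    rw [Finset.sum_Icc_succ_top (by omega)]
  have hFd : ∀ m e, e ≤ m → e * psi x (d (m + 1)) ≤ F m - F (m - e) := by
    intro m e
    induction e with
    | zero => intro _; simp
    | succ e ih =>
      intro he
      have h1 := ih (by omega)
      have h2 : m - e = (m - (e + 1)) + 1 := by omega
      have h3 := hFs (m - (e + 1))
      rw [← h2] at h3
      have h4 : psi x (d (m + 1)) ≤ psi x (d (m - e)) := psi_anti hx (hd (by omega))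
      push_cast
      nlinarith
  have key : ∀ m, ∀ T ⊆ S, T.card = m → ∑ I ∈ indS c T, x ^ I.card ≤ Real.exp (F m) := by
    intro m
    induction m using Nat.strong_induction_on with
    | _ m ih =>
      intro T hT hTm
      rcases T.eq_empty_or_nonempty with rfl | hne
      · have h0 : m = 0 := by rw [← hTm]; rfl
        subst h0
        have h1 : indS c (∅ : Finset α) = {∅} := by
          unfold indS
          ext I
          simp only [Finset.powerset_empty, Finset.mem_filter, Finset.mem_singleton]
          constructor
          · exact fun h => h.1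
          · intro h
            refine ⟨h, ?_⟩
            subst h
            intro u hu
            exact absurd hu (Finset.notMem_empty _)
        rw [h1]
        simp [hF]
      · obtain ⟨v, hv, hdv⟩ := h T hT hne
        set N := T.filter (fun w => w ≠ v ∧ c v w) with hN
        have hdeg : deg c T v = N.card := by
          unfold deg
          rw [hN]
        have hNT : N ⊆ T.erase v := by
          intro w hw
          rw [hN, Finset.mem_filter] at hw
          exact Finset.mem_erase.2 ⟨hw.2.1, hw.1⟩
        have hm0 : 0 < m := by rw [← hTm]; exact Finset.card_pos.2 hne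
        have hcE : (T.erase v).card = m - 1 := by rw [Finset.card_erase_of_mem hv, hTm]
        have hcN : ((T.erase v) \ N).card = m - 1 - N.card := by
          rw [Finset.card_sdiff_of_subset hNT, hcE]
        have hNle : N.card ≤ m - 1 := by rw [← hcE]; exact Finset.card_le_card hNT
        have h1 := ih (m - 1) (by omega) (T.erase v) ((Finset.erase_subset _ _).trans hT) hcE
        have h2 := ih (m - 1 - N.card) (by omega) ((T.erase v) \ N)
          (Finset.sdiff_subset.trans ((Finset.erase_subset _ _).trans hT)) hcN
        have hsplit : ∑ I ∈ indS c T, x ^ I.card ≤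
            ∑ I ∈ indS c (T.erase v), x ^ I.card + x * ∑ I ∈ indS c ((T.erase v) \ N), x ^ I.card := by
          have hsub : indS c T ⊆ indS c (T.erase v) ∪
              (indS c ((T.erase v) \ N)).image (fun I => insert v I) := by
            intro I hI
            unfold indS at hI
            rw [Finset.mem_filter, Finset.mem_powerset] at hI
            rw [Finset.mem_union]
            by_cases hvI : v ∈ I
            · right
              rw [Finset.mem_image]
              refine ⟨I.erase v, ?_, Finset.insert_erase hvI⟩
              unfold indS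
              rw [Finset.mem_filter, Finset.mem_powerset]
              constructor
              · intro w hw
                rw [Finset.mem_erase] at hw
                rw [Finset.mem_sdiff, Finset.mem_erase]
                refine ⟨⟨hw.1, hI.1 hw.2⟩, ?_⟩
                intro hwN
                rw [hN, Finset.mem_filter] at hwN
                exact hI.2 v hvI w hw.2 hw.1.symm hwN.2.2
              · intro u hu w hw huw
                exact hI.2 u (Finset.mem_of_mem_erase hu) w (Finset.mem_of_mem_erase hw) huw
            · left
              unfold indS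
              rw [Finset.mem_filter, Finset.mem_powerset]
              exact ⟨fun w hw => Finset.mem_erase.2 ⟨fun h' => hvI (h' ▸ hw), hI.1 hw⟩, hI.2⟩
          refine (Finset.sum_le_sum_of_subset_of_nonneg hsub (fun I _ _ => by positivity)).trans ?_
          have h7 := Finset.sum_union_inter (s₁ := indS c (T.erase v))
            (s₂ := (indS c ((T.erase v) \ N)).image (fun I => insert v I))
            (f := fun I => x ^ I.card)
          have h8 : (0 : ℝ) ≤ ∑ I ∈ indS c (T.erase v) ∩
              (indS c ((T.erase v) \ N)).image (fun I => insert v I), x ^ I.card :=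
            Finset.sum_nonneg (fun I _ => by positivity)
          have hvn : ∀ I ∈ indS c ((T.erase v) \ N), v ∉ I := by
            intro I hI hvI
            unfold indS at hI
            rw [Finset.mem_filter, Finset.mem_powerset] at hI
            have := hI.1 hvI
            rw [Finset.mem_sdiff, Finset.mem_erase] at this
            exact this.1.1 rfl
          have h9 : ∑ I ∈ (indS c ((T.erase v) \ N)).image (fun I => insert v I), x ^ I.card =
              x * ∑ I ∈ indS c ((T.erase v) \ N), x ^ I.card := by
            rw [Finset.sum_image, Finset.mul_sum]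
            · apply Finset.sum_congr rfl
              intro I hI
              rw [Finset.card_insert_of_notMem (hvn I hI), pow_succ]
              ring
            · intro I hI J hJ hIJ
              have e1 := Finset.erase_insert (hvn I hI)
              have e2 := Finset.erase_insert (hvn J hJ)
              simp only at hIJ
              rw [← e1, ← e2, hIJ]
          linarith
        have h3 : F (m - 1) - F (m - 1 - d m) ≥ d m * psi x (d m) := by
          have h4 := hFd (m - 1) (d m) (by rw [hTm, hdeg] at hdv; omega)
          rw [show m - 1 + 1 = m by omega] at h4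
          exact h4
        have h5 : F (m - 1 - N.card) ≤ F (m - 1 - d m) := by
          apply hFmono
          rw [hTm, hdeg] at hdv
          omega
        have h6 : F m = F (m - 1) + psi x (d m) := by
          have := hFs (m - 1)
          rwa [show m - 1 + 1 = m by omega] at this
        calc ∑ I ∈ indS c T, x ^ I.card ≤ _ := hsplit
          _ ≤ Real.exp (F (m - 1)) + x * Real.exp (F (m - 1 - N.card)) := by
            gcongr
          _ ≤ Real.exp (F (m - 1)) + x * Real.exp (F (m - 1) - d m * psi x (d m)) := by
            gcongr
            linarith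
          _ = Real.exp (F (m - 1)) * (1 + x * Real.exp (-(d m * psi x (d m)))) := by
            rw [sub_eq_add_neg, Real.exp_add]
            ring
          _ ≤ Real.exp (F (m - 1)) * Real.exp (psi x (d m)) := by
            gcongr
            exact psi_step hx (d m)
          _ = Real.exp (F m) := by rw [h6, Real.exp_add]
  exact key S.card S (Finset.Subset.refl _) rfl

end Pool.Agent.Work.MP_7d1693_pr.FM
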