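import Pool.Agent.Work.MP_7d1693_pr.FM.Defs
import Pool.Agent.Work.MP_7d1693_pr.FM.Poly
import Pool.Agent.Work.MP_7d1693_pr.FM.Part
import Pool.Agent.Work.MP_7d1693_pr.FM.Num

/-! # Module Region (M): a region with small degrees

`X = 3/β`, `δ` from `num` (with `θ, B, X`). Suppose no such `T` exists, i.e. every `T ⊆ S` with `δ k D ≤ T.card` has a vertex of degree `> D`.
(1) For every `i` and `T ⊆ S` with `2^i δ k D ≤ T.card` there is `v ∈ T` with `deg > 2^i D`: otherwise `part` with `q = 2^i` gives `T' ⊆ T` with all degrees `≤ D` and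
`T'.card ≥ T.card / 2^i ≥ δ k D`, contradiction (`T'` nonempty).
(2) For every `i` and `T ⊆ S` with `B (2θ)^i k D < T.card` there is `v ∈ T` with `deg > 2^i D` (this is `h1`).
For `m ∈ ℕ` let `A m = {i : 2^i δ k D ≤ m ∨ B (2θ)^i k D < m}`, a finite set of naturals (`2θ > 1`), and `d m = 2^(max A m) * D` if `A m` is nonempty, `0` otherwise. It is
monotone in `m` and every nonempty `T ⊆ S` has a vertex of degree `≥ d T.card` by (1), (2).
`poly` with `x = X/D`: `∑_{I} x^|I| ≤ exp (∑_{m=1}^{S.card} psi x (d m))`. The `m ≥ 1` with `A m = ∅` satisfy `m < δ k D`, so they contribute at most `δ k D * X/D = δ X k`.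
Those with `max A m = i` satisfy `m < 2^(i+1) δ k D` and `m ≤ B (2θ)^(i+1) k D`, so there are at most `min (2^(i+1) δ) (B (2θ)^(i+1)) * k D` of them, and
`psi x (2^i D) = log (1 + 2^i X)/(2^i D)`; contribution at most `k * min (2δ) (2 B θ^(i+1)) * log (1 + 2^i X)`. Only finitely many `i` occur; sum `≤ k/2` by `num`.
So `(indK c S k).card * (X/D)^k ≤ exp (k/2)`. With `h2`: `(β D)^k (X/D)^k = 3^k ≤ exp (k/2)`, contradiction (`k ≥ 1`, `exp (1/2) < 3`). -/

namespace Pool.Agent.Work.MP_7d1693_pr.FM

open Finset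

private theorem reg_cnt (n : ℕ) (y : ℝ) (hy : 0 ≤ y) (p : ℕ → Prop) [DecidablePred p]
    (hp : ∀ m, p m → (m : ℝ) ≤ y) : (((Icc 1 n).filter p).card : ℝ) ≤ y := by
  have h1 : (Icc 1 n).filter p ⊆ Icc 1 ⌊y⌋₊ := by
    intro m hm
    rw [mem_filter, mem_Icc] at hm
    rw [mem_Icc]
    exact ⟨hm.1.1, Nat.le_floor (hp m hm.2)⟩
  have h2 := card_le_card h1
  rw [Nat.card_Icc, Nat.add_sub_cancel] at h2
  calc (((Icc 1 n).filter p).card : ℝ) ≤ (⌊y⌋₊ : ℝ) := by exact_mod_cast h2
    _ ≤ y := Nat.floor_le hy

private theorem reg_psi {X : ℝ} (hX : 0 < X) {D : ℕ} (hD : 1 ≤ D) (i : ℕ) :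
    psi (X / D) (2 ^ i * D) = Real.log (1 + 2 ^ i * X) / (2 ^ i * D) := by
  have hD0 : (D : ℝ) ≠ 0 := by
    have : (0 : ℝ) < D := by exact_mod_cast hD
    exact this.ne'
  unfold psi
  have h1 : 2 ^ i * D ≠ 0 := by positivity
  rw [if_neg h1]
  have h2 : ((2 ^ i * D : ℕ) : ℝ) * (X / D) = 2 ^ i * X := by
    push_cast
    field_simp
  rw [h2]
  push_cast
  rfl

theorem region {θ B β : ℝ} (h1 : 1 / 2 < θ) (h2 : θ < 1) (hB : 0 < B) (hβ : 0 < β) :
    ∃ δ : ℝ, 0 < δ ∧ ∀ (α : Type) [DecidableEq α] (c : α → α → Prop), (∀ u v, c u v → c v u) →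
      ∀ (S : Finset α) (k D : ℕ), 1 ≤ k → 1 ≤ D →
      (∀ i : ℕ, ∀ T ⊆ S, (∀ v ∈ T, deg c T v ≤ 2 ^ i * D) →
        (T.card : ℝ) ≤ B * (2 * θ) ^ i * k * D) →
      (β * D) ^ k ≤ ((indK c S k).card : ℝ) →
      ∃ T ⊆ S, (∀ v ∈ T, deg c T v ≤ D) ∧ δ * k * D ≤ T.card := by
  classical
  have hθ : 0 < θ := by linarith
  set X : ℝ := 3 / β with hXdef
  have hX : 0 < X := by positivity
  obtain ⟨δ, hδ, hnum⟩ := num hθ h2 hB hX
  refine ⟨δ, hδ, ?_⟩
  intro α _ c hc S k D hk hD hdeg hind
  by_contra hno
  push Not at hno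
  have hk0 : (0 : ℝ) < k := by exact_mod_cast hk
  have hD0 : (0 : ℝ) < D := by exact_mod_cast hD
  have hkD : (0 : ℝ) < δ * k * D := by positivity
  -- the condition
  let C : ℕ → ℕ → Prop := fun i m =>
    2 ^ i * (δ * k * D) ≤ (m : ℝ) ∨ B * (2 * θ) ^ i * k * D < (m : ℝ)
  have hCmono : ∀ i m m', m ≤ m' → C i m → C i m' := by
    intro i m m' hm h
    have hm' : (m : ℝ) ≤ m' := by exact_mod_cast hm
    rcases h with h | h
    · exact Or.inl (h.trans hm')
    · exact Or.inr (h.trans_le hm')
  have hCdeg : ∀ i, ∀ T ⊆ S, C i T.card → ∃ v ∈ T, 2 ^ i * D < deg c T v := by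
    intro i T hT h
    by_contra hcon
    push Not at hcon
    rcases h with h | h
    · obtain ⟨T', hT', h3, h4⟩ := part c hc T (q := 2 ^ i) Nat.one_le_two_pow hcon
      have h5 := hno T' (hT'.trans hT) h4
      have h6 : (T.card : ℝ) ≤ 2 ^ i * T'.card := by exact_mod_cast h3
      have h7 : (2 : ℝ) ^ i * T'.card < 2 ^ i * (δ * k * D) :=
        mul_lt_mul_of_pos_left h5 (by positivity)
      linarith
    · exact absurd (hdeg i T hT hcon) (not_le.2 h)
  -- the bound for the indices
  obtain ⟨M, hM⟩ : ∃ M : ℕ, ∀ m ≤ S.card, ¬ C M m := by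
    have t1 := tendsto_pow_atTop_atTop_of_one_lt (r := (2 : ℝ)) (by norm_num)
    have t2 := tendsto_pow_atTop_atTop_of_one_lt (r := 2 * θ) (by linarith)
    have e1 := t1.eventually_gt_atTop ((S.card : ℝ) / (δ * k * D))
    have e2 := t2.eventually_gt_atTop ((S.card : ℝ) / (B * k * D))
    obtain ⟨M, hM1, hM2⟩ := (e1.and e2).exists
    refine ⟨M, fun m hm hCm => ?_⟩
    have hm' : (m : ℝ) ≤ S.card := by exact_mod_cast hm
    rw [div_lt_iff₀ hkD] at hM1
    rw [div_lt_iff₀ (by positivity)] at hM2
    rcases hCm with h | h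
    · linarith
    · have : B * (2 * θ) ^ M * k * D = (2 * θ) ^ M * (B * k * D) := by ring
      linarith
  let d : ℕ → ℕ := fun m => (range M).sup (fun i => if C i m then 2 ^ i * D else 0)
  have hdmono : Monotone d := by
    intro m m' hm
    apply Finset.sup_mono_fun
    intro i _
    by_cases h : C i m
    · rw [if_pos h, if_pos (hCmono i m m' hm h)]
    · rw [if_neg h]
      exact Nat.zero_le _
  -- the value of `d m`
  have hdval : ∀ m ≤ S.card, (¬ C 0 m ∧ d m = 0) ∨
      (∃ i < M, C i m ∧ ¬ C (i + 1) m ∧ d m = 2 ^ i * D) ∨ (d m ≠ 0 ∧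
        ∃ i < M, ¬ C (i + 1) m ∧ C i m ∧ 2 ^ i * D ≤ d m) := by
    intro m hm
    by_cases hex : ∃ i < M, C i m
    · -- the largest index
      obtain ⟨i, hi, himax⟩ := Finset.exists_max_image ((range M).filter (fun i => C i m))
        (fun i => i) (by
          obtain ⟨i, hi, hCi⟩ := hex
          exact ⟨i, mem_filter.2 ⟨mem_range.2 hi, hCi⟩⟩)
      rw [mem_filter, mem_range] at hi
      refine Or.inr (Or.inl ⟨i, hi.1, hi.2, ?_, ?_⟩)
      · intro hCi
        by_cases hiM : i + 1 < M
        · have := himax (i + 1) (mem_filter.2 ⟨mem_range.2 hiM, hCi⟩)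
          omega
        · have : i + 1 = M := by omega
          rw [this] at hCi
          exact hM m hm hCi
      · apply le_antisymm
        · apply Finset.sup_le
          intro i' hi'
          by_cases h : C i' m
          · rw [if_pos h]
            have := himax i' (mem_filter.2 ⟨hi', h⟩)
            exact Nat.mul_le_mul_right _ (Nat.pow_le_pow_right (by norm_num) this)
          · rw [if_neg h]
            exact Nat.zero_le _
        · have := Finset.le_sup (f := fun i => if C i m then 2 ^ i * D else 0)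
            (mem_range.2 hi.1)
          simp only [if_pos hi.2] at this
          exact this
    · push Not at hex
      left
      constructor
      · intro hC0
        by_cases hM0 : 0 < M
        · exact hex 0 hM0 hC0
        · have : M = 0 := by omega
          rw [← this] at hC0
          exact hM m hm hC0
      · apply le_antisymm _ (Nat.zero_le _)
        apply Finset.sup_le
        intro i hi
        rw [if_neg (hex i (mem_range.1 hi))]
  have hdvert : ∀ T ⊆ S, T.Nonempty → ∃ v ∈ T, d T.card ≤ deg c T v := by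
    intro T hT hne
    rcases hdval T.card (card_le_card hT) with h | ⟨i, hi, hCi, _, hdi⟩ | ⟨_, i, hi, h3, h4, h5⟩
    · obtain ⟨v, hv⟩ := hne
      exact ⟨v, hv, by rw [h.2]; exact Nat.zero_le _⟩
    · obtain ⟨v, hv, hvd⟩ := hCdeg i T hT hCi
      exact ⟨v, hv, by rw [hdi]; exact hvd.le⟩
    · -- the largest index again
      by_cases h0 : d T.card = 0
      · obtain ⟨v, hv⟩ := hne
        exact ⟨v, hv, by rw [h0]; exact Nat.zero_le _⟩
      · obtain ⟨j, hj, hje⟩ := Finset.exists_mem_eq_sup (range M)
          (by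
            rw [nonempty_iff_ne_empty]
            intro he
            apply h0
            show (range M).sup _ = 0
            rw [he]
            rfl) (fun i => if C i T.card then 2 ^ i * D else 0)
        have hCj : C j T.card := by
          by_contra hn
          apply h0
          show (range M).sup _ = 0
          rw [hje, if_neg hn]
        obtain ⟨v, hv, hvd⟩ := hCdeg j T hT hCj
        refine ⟨v, hv, ?_⟩
        show (range M).sup _ ≤ _
        rw [hje, if_pos hCj]
        exact hvd.le
  have hx : 0 < X / D := by positivity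
  have hpoly := poly c hc S d hdmono hdvert hx
  -- the pointwise bound
  let a : ℕ → ℝ := fun i => Real.log (1 + 2 ^ i * X) / (2 ^ i * D)
  have ha : ∀ i, 0 ≤ a i := by
    intro i
    apply div_nonneg
    · apply Real.log_nonneg
      have : (0 : ℝ) ≤ 2 ^ i * X := by positivity
      linarith
    · positivity
  have hpt : ∀ m ∈ Icc 1 S.card, psi (X / D) (d m) ≤
      (if ¬ C 0 m then X / D else 0) +
        ∑ i ∈ range M, (if ¬ C (i + 1) m then a i else 0) := by
    intro m hm
    rw [mem_Icc] at hm
    have hsum0 : (0 : ℝ) ≤ ∑ i ∈ range M, (if ¬ C (i + 1) m then a i else 0) := by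
      apply sum_nonneg
      intro i _
      split_ifs
      · exact le_rfl
      · exact ha i
    have hterm : ∀ i < M, ¬ C (i + 1) m →
        a i ≤ ∑ i ∈ range M, (if ¬ C (i + 1) m then a i else 0) := by
      intro i hi hCi
      have h3 := Finset.single_le_sum (f := fun i => if ¬ C (i + 1) m then a i else 0)
        (s := range M) (fun i _ => by
          split_ifs
          · exact le_rfl
          · exact ha i) (mem_range.2 hi)
      simp only [if_pos hCi] at h3
      exact h3
    have hfirst : (0 : ℝ) ≤ (if ¬ C 0 m then X / D else 0) := by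
      split_ifs
      · exact le_rfl
      · exact hx.le
    rcases hdval m hm.2 with h | ⟨i, hi, hCi, hCi', hdi⟩ | ⟨_, i, hi, h3, h4, h5⟩
    · rw [h.2, if_pos h.1]
      have : psi (X / D) 0 = X / D := by
        unfold psi
        rw [if_pos rfl]
      rw [this]
      linarith
    · rw [hdi, reg_psi hX hD]
      have h3 := hterm i hi hCi'
      simp only [a] at h3 hfirst ⊢
      linarith
    · have h6 := psi_anti hx h5
      rw [reg_psi hX hD] at h6
      have h7 := hterm i hi h3
      simp only [a] at h6 h7 hfirst ⊢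
      linarith
  have hbound : ∑ m ∈ Icc 1 S.card, psi (X / D) (d m) ≤ k / 2 := by
    refine (sum_le_sum hpt).trans ?_
    rw [sum_add_distrib, sum_comm]
    have h3 : ∑ m ∈ Icc 1 S.card, (if ¬ C 0 m then X / D else 0) ≤ k * (δ * X) := by
      rw [← sum_filter, sum_const, nsmul_eq_mul]
      have h4 := reg_cnt S.card (δ * k * D) hkD.le (fun m => ¬ C 0 m) (by
        intro m hm
        by_contra hcon
        push Not at hcon
        apply hm
        left
        rw [pow_zero, one_mul]
        exact hcon.le)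
      calc (((Icc 1 S.card).filter (fun m => ¬ C 0 m)).card : ℝ) * (X / D)
          ≤ (δ * k * D) * (X / D) := mul_le_mul_of_nonneg_right h4 hx.le
        _ = k * (δ * X) := by field_simp
    have h4 : ∀ i ∈ range M, ∑ m ∈ Icc 1 S.card, (if ¬ C (i + 1) m then a i else 0) ≤
        k * (min (2 * δ) (2 * B * θ ^ (i + 1)) * Real.log (1 + 2 ^ i * X)) := by
      intro i _
      rw [← sum_filter, sum_const, nsmul_eq_mul]
      have hlog : 0 ≤ Real.log (1 + 2 ^ i * X) := by
        apply Real.log_nonneg
        have : (0 : ℝ) ≤ 2 ^ i * X := by positivity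
        linarith
      have h5 := reg_cnt S.card (2 ^ (i + 1) * (δ * k * D)) (by positivity)
        (fun m => ¬ C (i + 1) m) (by
          intro m hm
          by_contra hcon
          push Not at hcon
          exact hm (Or.inl hcon.le))
      have h6 := reg_cnt S.card (B * (2 * θ) ^ (i + 1) * k * D) (by positivity)
        (fun m => ¬ C (i + 1) m) (by
          intro m hm
          by_contra hcon
          push Not at hcon
          exact hm (Or.inr hcon))
      have h7 : (((Icc 1 S.card).filter (fun m => ¬ C (i + 1) m)).card : ℝ) * a i ≤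
          k * (2 * δ * Real.log (1 + 2 ^ i * X)) := by
        calc (((Icc 1 S.card).filter (fun m => ¬ C (i + 1) m)).card : ℝ) * a i
            ≤ (2 ^ (i + 1) * (δ * k * D)) * a i := mul_le_mul_of_nonneg_right h5 (ha i)
          _ = k * (2 * δ * Real.log (1 + 2 ^ i * X)) := by
            simp only [a]
            rw [pow_succ]
            field_simp
      have h8 : (((Icc 1 S.card).filter (fun m => ¬ C (i + 1) m)).card : ℝ) * a i ≤
          k * (2 * B * θ ^ (i + 1) * Real.log (1 + 2 ^ i * X)) := by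
        calc (((Icc 1 S.card).filter (fun m => ¬ C (i + 1) m)).card : ℝ) * a i
            ≤ (B * (2 * θ) ^ (i + 1) * k * D) * a i := mul_le_mul_of_nonneg_right h6 (ha i)
          _ = k * (2 * B * θ ^ (i + 1) * Real.log (1 + 2 ^ i * X)) := by
            simp only [a]
            rw [mul_pow, pow_succ (2 : ℝ)]
            field_simp
      rcases min_choice (2 * δ) (2 * B * θ ^ (i + 1)) with h9 | h9
      · rw [h9]; exact h7
      · rw [h9]; exact h8
    have h5 := sum_le_sum h4
    rw [← mul_sum] at h5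
    have h6 := hnum M
    calc _ ≤ k * (δ * X) + k * ∑ i ∈ range M, min (2 * δ) (2 * B * θ ^ (i + 1)) *
          Real.log (1 + 2 ^ i * X) := add_le_add h3 h5
      _ = k * (δ * X + ∑ i ∈ range M, min (2 * δ) (2 * B * θ ^ (i + 1)) *
          Real.log (1 + 2 ^ i * X)) := by ring
      _ ≤ k * (1 / 2) := mul_le_mul_of_nonneg_left h6 hk0.le
      _ = k / 2 := by ring
  -- conclusion
  have h3 : ((indK c S k).card : ℝ) * (X / D) ^ k ≤ ∑ I ∈ indS c S, (X / D) ^ I.card := by
    have hsub : indK c S k ⊆ indS c S := by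
      intro I hI
      unfold indK at hI
      unfold indS
      rw [mem_filter, mem_powersetCard] at hI
      rw [mem_filter, mem_powerset]
      exact ⟨hI.1.1, hI.2⟩
    calc ((indK c S k).card : ℝ) * (X / D) ^ k = ∑ I ∈ indK c S k, (X / D) ^ I.card := by
          rw [← nsmul_eq_mul, ← sum_const]
          apply sum_congr rfl
          intro I hI
          unfold indK at hI
          rw [mem_filter, mem_powersetCard] at hI
          rw [hI.1.2]
      _ ≤ _ := sum_le_sum_of_subset_of_nonneg hsub (fun I _ _ => by positivity)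
  have h4 : (3 : ℝ) ^ k ≤ Real.exp (k / 2) := by
    calc (3 : ℝ) ^ k = (β * D) ^ k * (X / D) ^ k := by
          rw [← mul_pow]
          congr 1
          rw [hXdef]
          field_simp
      _ ≤ ((indK c S k).card : ℝ) * (X / D) ^ k :=
          mul_le_mul_of_nonneg_right hind (by positivity)
      _ ≤ _ := h3
      _ ≤ _ := hpoly
      _ ≤ Real.exp (k / 2) := Real.exp_le_exp.2 hbound
  have h5 : Real.exp (k / 2) = Real.exp (1 / 2) ^ k := by
    rw [← Real.exp_nat_mul]
    congr 1
    ring
  rw [h5] at h4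
  have h6 : Real.exp (1 / 2) < 3 := by
    have h7 : Real.exp (1 / 2) < Real.exp 1 := Real.exp_lt_exp.2 (by norm_num)
    have h8 := Real.exp_one_lt_d9
    linarith
  have h7 : Real.exp (1 / 2) ^ k < 3 ^ k :=
    pow_lt_pow_left₀ h6 (Real.exp_pos _).le (by omega)
  linarith

end Pool.Agent.Work.MP_7d1693_pr.FM
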