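import Pool.Agent.Work.MP_7d1693_pr.FM.Defs
import Pool.Agent.Work.MP_7d1693_pr.FM.H1
import Pool.Agent.Work.MP_7d1693_pr.FM.H2
import Pool.Agent.Work.MP_7d1693_pr.FM.Region

/-! # Module RegBox (S): the region in the box

`c0, β` from `h2`, `B` from `h1`, `δ` from `region` with `θ = 2^(-1/r)` (`1/2 < θ < 1` as `r ≥ 2`). Given `n t k` with `c0 ≤ ν phi k`. The set of `k'` with `c0 ≤ ν phi k'` is bounded
(`phi k' ≤ C/k'`, `phi_reg`), let `k0` be its maximum, `k0 ≥ k`. `h1` and `h2` for `k0` give the hypotheses of `region` (with `S = Ebox`, `c = conf P`, `Cl_eq`, `conf_symm`,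
`D = n^(r-1) ≥ 1`); result `T` with degrees `≤ D` and `δ k D ≤ δ k0 D ≤ T.card`. `C = c0`. -/

namespace Pool.Agent.Work.MP_7d1693_pr.FM

open Finset

theorem reg_box {r : ℕ} (hr : 2 ≤ r) {P : Set (List Bool)} {lam : List ℕ} (h : Adm r P lam) :
    ∃ δ C : ℝ, 0 < δ ∧ 1 ≤ C ∧ ∀ n t k : ℕ, 1 ≤ t → t ≤ n → 1 ≤ k →
      C ≤ (n : ℝ) * ((t : ℝ) / n) ^ (lam.headD 0) * phi r P lam k →
      ∃ T ⊆ Ebox r (ntBox n t lam), (∀ v ∈ T, deg (conf P) T v ≤ n ^ (r - 1)) ∧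
        δ * k * ((n ^ (r - 1) : ℕ) : ℝ) ≤ T.card := by
  classical
  have hr1 : 1 ≤ r := by omega
  have hr0 : (0 : ℝ) < r := by exact_mod_cast (by omega : 0 < r)
  have hr2 : (1 : ℝ) < r := by exact_mod_cast (by omega : 1 < r)
  obtain ⟨c0, β, hc0, hβ, hcl⟩ := h2 hr h
  obtain ⟨B, hB, hsup⟩ := h1 hr h hc0
  obtain ⟨C, hC, hreg⟩ := phi_reg hr1 h
  have hθ1 : (1 : ℝ) / 2 < (2 : ℝ) ^ (-(1 / (r : ℝ))) := by
    have e : (1 : ℝ) / 2 = (2 : ℝ) ^ (-(1 : ℝ)) := by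
      rw [Real.rpow_neg (by norm_num), Real.rpow_one]; norm_num
    rw [e]
    apply Real.rpow_lt_rpow_of_exponent_lt (by norm_num)
    have : 1 / (r : ℝ) < 1 := (div_lt_one hr0).2 hr2
    linarith
  have hθ2 : (2 : ℝ) ^ (-(1 / (r : ℝ))) < 1 := by
    apply Real.rpow_lt_one_of_one_lt_of_neg (by norm_num)
    have : 0 < 1 / (r : ℝ) := by positivity
    linarith
  obtain ⟨δ, hδ, hmain⟩ := region hθ1 hθ2 hB hβ
  refine ⟨δ, c0, hδ, hc0, ?_⟩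
  intro n t k ht htn hk hc
  set ν : ℝ := (n : ℝ) * ((t : ℝ) / n) ^ (lam.headD 0) with hν
  have hν0 : 0 ≤ ν := by rw [hν]; positivity
  have hbd : ∀ k' : ℕ, 1 ≤ k' → c0 ≤ ν * phi r P lam k' → k' ≤ ⌈ν * C⌉₊ := by
    intro k' hk' hck
    have hk0 : (0 : ℝ) < k' := by exact_mod_cast (by omega : 0 < k')
    have e1 : phi r P lam k' ≤ C / k' := by
      have h3 := (hreg 1 k' le_rfl hk').1
      rw [phi_one P h.1] at h3
      calc phi r P lam k' ≤ C * (((1 : ℕ) : ℝ) / k') * 1 := h3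
        _ = C / k' := by push_cast; ring
    have e2 : (1 : ℝ) ≤ ν * (C / k') := hc0.trans (hck.trans (mul_le_mul_of_nonneg_left e1 hν0))
    have e3 : (k' : ℝ) ≤ ν * C := by
      have e4 := mul_le_mul_of_nonneg_right e2 hk0.le
      have e5 : ν * (C / k') * k' = ν * C := by field_simp
      rw [e5, one_mul] at e4
      exact e4
    have e6 : (k' : ℝ) ≤ (⌈ν * C⌉₊ : ℝ) := e3.trans (Nat.le_ceil _)
    exact_mod_cast e6
  let Q : ℕ → Prop := fun k' => 1 ≤ k' ∧ c0 ≤ ν * phi r P lam k'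
  have hQk : Q k := ⟨hk, hc⟩
  have hspec : Q (Nat.findGreatest Q ⌈ν * C⌉₊) := Nat.findGreatest_spec (hbd k hk hc) hQk
  set k0 := Nat.findGreatest Q ⌈ν * C⌉₊ with hk0
  have hkk0 : k ≤ k0 := Nat.le_findGreatest (hbd k hk hc) hQk
  have hmax : ∀ k' : ℕ, 1 ≤ k' → c0 ≤ ν * phi r P lam k' → k' ≤ k0 := fun k' a b =>
    Nat.le_findGreatest (hbd k' a b) ⟨a, b⟩
  have hD : 1 ≤ n ^ (r - 1) := Nat.one_le_pow _ _ (by omega)
  obtain ⟨T, hT, hdeg, hcard⟩ := hmain (Finset ℕ) (conf P) (fun u v => conf_symm P)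
    (Ebox r (ntBox n t lam)) k0 (n ^ (r - 1)) hspec.1 hD
    (hsup n t k0 ht htn hspec.1 hmax)
    (by
      have h3 := hcl n t k0 ht htn hspec.1 hspec.2
      rwa [Cl_eq hr1] at h3)
  refine ⟨T, hT, hdeg, le_trans ?_ hcard⟩
  have hk' : (k : ℝ) ≤ k0 := by exact_mod_cast hkk0
  exact mul_le_mul_of_nonneg_right (mul_le_mul_of_nonneg_left hk' hδ.le) (by positivity)

end Pool.Agent.Work.MP_7d1693_pr.FM
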