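import Pool.Agent.Work.MP_7d1693_pr.FM.Defs
import Pool.Agent.Work.MP_7d1693_pr.FM.RegBox
import Pool.Agent.Work.MP_7d1693_pr.FM.Low
import Pool.Agent.Work.MP_7d1693_pr.FM.Link
import Pool.Agent.Work.MP_7d1693_pr.FM.PhiReg

/-! # Module LowMain (S): the lower bound

`δ, C1` from `reg_box` (for each of the finitely many admissible `lam`: `comps r`, `adm_comp`, `mem_comps`; take the least `δ` and largest `C1`), `c, C2` from `low`. `M = ⌈1/(c δ)⌉`. If
`C ≤ ν phi k` with `C = M^r C1` then `ν phi (M k) ≥ C1` (`phi_mul`), so `reg_box` for `M k` gives `T` with `T.card ≥ δ M k D`, nonempty, contained in `powersetCard` (`ntBox_sub`), minima `< t` (`ntBox_min`).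
`low`: with probability `≥ 1 - C2 D/T.card ≥ 1 - C2/(δ M k)`, `z ≥ c T.card/D ≥ c δ M k ≥ k`. -/

namespace Pool.Agent.Work.MP_7d1693_pr.FM

open Finset

private theorem low_main_one {r : ℕ} (hr : 2 ≤ r) (P : Set (List Bool)) {lam : List ℕ}
    (h : Adm r P lam) : ∃ C : ℝ, 1 ≤ C ∧
    ∀ n t k : ℕ, 1 ≤ t → t ≤ n → 1 ≤ k →
      C ≤ (n : ℝ) * ((t : ℝ) / n) ^ (lam.headD 0) * phi r P lam k →
      pr r t (range (r * n)) (fun M => z P M < k) ≤ C / k := by
  obtain ⟨δ, C1, hδ, hC1, hreg⟩ := reg_box hr h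
  obtain ⟨c, C2, hc, hC2, hlow⟩ := low hr P
  set M : ℕ := ⌈1 / (c * δ)⌉₊ with hM
  have hcd : 0 < c * δ := mul_pos hc hδ
  have hM1 : 1 ≤ M := Nat.one_le_iff_ne_zero.2 (by
    rw [hM]
    exact (Nat.ceil_pos.2 (by positivity)).ne')
  have hMc : 1 / (c * δ) ≤ (M : ℝ) := Nat.le_ceil _
  have hMc' : 1 ≤ c * δ * M := by
    rw [div_le_iff₀ hcd] at hMc
    linarith
  have hMpos : (0 : ℝ) < M := by exact_mod_cast hM1
  refine ⟨(M : ℝ) ^ r * C1 + C2 / (δ * M), ?_, ?_⟩
  · have h1 : (1 : ℝ) ≤ (M : ℝ) ^ r := one_le_pow₀ (by exact_mod_cast hM1)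
    have h2 : 0 < C2 / (δ * M) := by positivity
    nlinarith
  · intro n t k ht htn hk hC
    have hn : 1 ≤ n := ht.trans htn
    have hnpos : (0 : ℝ) < n := by exact_mod_cast hn
    have hkpos : (0 : ℝ) < k := by exact_mod_cast hk
    have hν : 0 ≤ (n : ℝ) * ((t : ℝ) / n) ^ (lam.headD 0) := by positivity
    have hphi := phi_mul (by omega : 1 ≤ r) h hM1 hk
    have h1 : (M : ℝ) ^ r * C1 ≤ (M : ℝ) ^ r *
        ((n : ℝ) * ((t : ℝ) / n) ^ (lam.headD 0) * phi r P lam (M * k)) := by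
      have h2 : 0 < C2 / (δ * M) := by positivity
      have h3 := mul_le_mul_of_nonneg_left hphi hν
      calc (M : ℝ) ^ r * C1 ≤ (n : ℝ) * ((t : ℝ) / n) ^ (lam.headD 0) * phi r P lam k := by
            linarith
        _ ≤ (n : ℝ) * ((t : ℝ) / n) ^ (lam.headD 0) * ((M : ℝ) ^ r * phi r P lam (M * k)) := h3
        _ = _ := by ring
    have h2 : C1 ≤ (n : ℝ) * ((t : ℝ) / n) ^ (lam.headD 0) * phi r P lam (M * k) :=
      le_of_mul_le_mul_left h1 (by positivity)
    obtain ⟨T, hT, hdeg, hcard⟩ := hreg n t (M * k) ht htn (Nat.mul_pos hM1 hk) h2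
    have hDpos : (0 : ℝ) < ((n ^ (r - 1) : ℕ) : ℝ) := by
      push_cast
      positivity
    have hDeq : ((n ^ (r - 1) : ℕ) : ℝ) = (n : ℝ) ^ (r - 1) := by push_cast; rfl
    have hTpos : (0 : ℝ) < T.card := by
      refine lt_of_lt_of_le ?_ hcard
      have : (0 : ℝ) < ((M * k : ℕ) : ℝ) := by
        push_cast
        positivity
      positivity
    have hTne : T.Nonempty := Finset.card_pos.1 (by exact_mod_cast hTpos)
    have hcomp := adm_comp h
    have hl := hlow n t T ht htn (fun e he => ntBox_sub htn hcomp (hT he)) hTne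
      (fun e he => ntBox_min (by omega) hcomp (hT he)) hdeg
    have hcard' : δ * (M * k) * (n : ℝ) ^ (r - 1) ≤ T.card := by
      have := hcard
      push_cast at this
      exact this
    have hD' : (0 : ℝ) < (n : ℝ) ^ (r - 1) := by positivity
    calc pr r t (range (r * n)) (fun M => z P M < k)
        ≤ pr r t (range (r * n)) (fun M => (z P M : ℝ) < c * T.card / (n : ℝ) ^ (r - 1)) := by
          apply pr_mono
          intro M' _ hz
          have h3 : (z P M' : ℝ) < k := by exact_mod_cast hz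
          refine lt_of_lt_of_le h3 ?_
          rw [le_div_iff₀ hD']
          have h4 : (k : ℝ) * (n : ℝ) ^ (r - 1) ≤ (c * δ * M) * (k * (n : ℝ) ^ (r - 1)) := by
            have : 0 ≤ (k : ℝ) * (n : ℝ) ^ (r - 1) := by positivity
            nlinarith
          have h5 : c * (δ * (M * k) * (n : ℝ) ^ (r - 1)) ≤ c * T.card :=
            mul_le_mul_of_nonneg_left hcard' hc.le
          nlinarith
      _ ≤ C2 * (n : ℝ) ^ (r - 1) / T.card := hl
      _ ≤ C2 / (δ * M) / k := by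
          rw [div_div, div_le_div_iff₀ hTpos (by positivity)]
          have := mul_le_mul_of_nonneg_left hcard' hC2.le
          nlinarith
      _ ≤ ((M : ℝ) ^ r * C1 + C2 / (δ * M)) / k := by
          apply div_le_div_of_nonneg_right _ hkpos.le
          have : 0 ≤ (M : ℝ) ^ r * C1 := by positivity
          linarith

theorem low_main {r : ℕ} (hr : 2 ≤ r) (P : Set (List Bool)) : ∃ C : ℝ, 1 ≤ C ∧
    ∀ n t k : ℕ, 1 ≤ t → t ≤ n → 1 ≤ k →
      (∃ lam, Adm r P lam ∧ C ≤ (n : ℝ) * ((t : ℝ) / n) ^ (lam.headD 0) * phi r P lam k) →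
      pr r t (range (r * n)) (fun M => z P M < k) ≤ C / k := by
  classical
  have hall : ∀ lam : List ℕ, ∃ C : ℝ, 1 ≤ C ∧ (Adm r P lam →
    ∀ n t k : ℕ, 1 ≤ t → t ≤ n → 1 ≤ k →
      C ≤ (n : ℝ) * ((t : ℝ) / n) ^ (lam.headD 0) * phi r P lam k →
      pr r t (range (r * n)) (fun M => z P M < k) ≤ C / k) := by
    intro lam
    by_cases h : Adm r P lam
    · obtain ⟨C, hC, hh⟩ := low_main_one hr P h
      exact ⟨C, hC, fun _ => hh⟩
    · exact ⟨1, le_refl _, fun h' => absurd h' h⟩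
  choose f hf1 hf2 using hall
  refine ⟨1 + ∑ lam ∈ comps r, f lam, ?_, ?_⟩
  · have : 0 ≤ ∑ lam ∈ comps r, f lam := Finset.sum_nonneg (fun l _ => by linarith [hf1 l])
    linarith
  · rintro n t k ht htn hk ⟨lam, hlam, hC⟩
    have hle : f lam ≤ 1 + ∑ lam ∈ comps r, f lam := by
      have := Finset.single_le_sum (f := f) (fun l _ => by linarith [hf1 l])
        (mem_comps.2 (adm_comp hlam))
      linarith
    refine (hf2 lam hlam n t k ht htn hk (hle.trans hC)).trans ?_
    exact div_le_div_of_nonneg_right hle (Nat.cast_nonneg _)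

end Pool.Agent.Work.MP_7d1693_pr.FM
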