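import Pool.Agent.Work.MP_7d1693_pr.FM.Defs
import Pool.Agent.Work.MP_7d1693_pr.GREEDY
import Pool.Agent.Work.MP_7d1693_pr.FM.Vert

/-! # Module Word (S-M): separated parts give a block word

`e`, `f` disjoint with `s` vertices in each interval `(s, lo, hi)` of the ordered box `B`, nothing outside, parts positive, and in every interval all vertices of `e` are before all vertices of `f`, or all after; `mn e < mn f`. Then
`pat e f = word b` with `b` = list of `(s, sign)`, so `HasType (pat e f) (shape B)`. Induction on `B` (generalizing `c`): `e = e1 ∪ e2` with `e1` the part in the first interval, `pat_append`/`pat_union`: `pat e f = pat e1 f1 ++ pat e2 f2`,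
`pat e1 f1 = A^s B^s` or `B^s A^s` (`gr_pat_lt`, `gr_pat_gt`/`pat_lt`, `pat_gt`). The statement for the induction has no condition on the minimum and only gives `∃ b, b.map fst = shape B ∧ all positive ∧ pat e f = word b` and that
the first sign is `true` iff the first part of `e` is before that of `f`; with `mn e < mn f` the first sign is `true` (`B ≠ []` as `r ≥ 1`).
`word_P`: hence if `pat e f ∈ P` then `Adm r P (shape B)`. -/

namespace Pool.Agent.Work.MP_7d1693_pr.FM

open Finset

private theorem bord_le : ∀ (B : Box) (c : ℕ), BOrd c B → ∀ b ∈ B, c ≤ b.2.1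
  | [], _, _, b, hb => by simp at hb
  | b0 :: B, c, h, b, hb => by
    obtain ⟨h1, h2, h3⟩ := h
    rcases List.mem_cons.1 hb with rfl | hb
    · exact h1
    · exact (h1.trans h2).trans (bord_le B _ h3 b hb)

private theorem vert_cons (b : ℕ × ℕ × ℕ) (B : Box) :
    vert (b :: B) = Ico b.2.1 b.2.2 ∪ vert B := by
  unfold vert
  rw [List.toFinset_cons, Finset.biUnion_insert]

/-- the part of a set of vertices of the box beyond the first interval -/
private theorem tail_InB {s lo hi c : ℕ} {B : Box} (hB : BOrd c ((s, lo, hi) :: B))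
    {e : Finset ℕ} (heB : InB ((s, lo, hi) :: B) 1 e) :
    InB B 1 (e.filter (fun v => ¬ (lo ≤ v ∧ v < hi))) := by
  obtain ⟨_, _, h3⟩ := hB
  intro b hb
  have h4 := bord_le B hi h3 b hb
  rw [← heB b (List.mem_cons_of_mem _ hb), Finset.filter_filter]
  congr 1
  apply Finset.filter_congr
  intro v _
  constructor
  · rintro ⟨_, h⟩; exact h
  · intro h
    exact ⟨fun h' => by omega, h⟩

private theorem tail_vert {s lo hi : ℕ} {B : Box}
    {e : Finset ℕ} (he : e ⊆ vert ((s, lo, hi) :: B)) :
    e.filter (fun v => ¬ (lo ≤ v ∧ v < hi)) ⊆ vert B := by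
  intro v hv
  rw [Finset.mem_filter] at hv
  have := he hv.1
  rw [vert_cons, Finset.mem_union, Finset.mem_Ico] at this
  rcases this with h | h
  · exact absurd h hv.2
  · exact h

private theorem word_aux : ∀ (B : Box) (c : ℕ) (e f : Finset ℕ), BOrd c B →
    (∀ b ∈ B, 0 < b.1) → InB B 1 e → InB B 1 f → e ⊆ vert B → f ⊆ vert B →
    (∀ b ∈ B,
      (∀ x ∈ e, ∀ y ∈ f, b.2.1 ≤ x → x < b.2.2 → b.2.1 ≤ y → y < b.2.2 → x < y) ∨
      (∀ x ∈ e, ∀ y ∈ f, b.2.1 ≤ x → x < b.2.2 → b.2.1 ≤ y → y < b.2.2 → y < x)) →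
    ∃ b : List (ℕ × Bool), b.map Prod.fst = shape B ∧ pat e f = word b ∧
      (∀ x, b.head? = some x → x.2 = true ∨ ∃ u ∈ f, ∀ v ∈ e, u < v)
  | [], c, e, f, _, _, _, _, he, hf, _ => by
    have he0 : e = ∅ := by simpa [vert] using he
    have hf0 : f = ∅ := by simpa [vert] using hf
    subst he0 hf0
    exact ⟨[], rfl, by simp [pat, word], by simp⟩
  | (s, lo, hi) :: B, c, e, f, hB, hpos, heB, hfB, he, hf, hsep => by
    have hB' := hB
    obtain ⟨_, hlh, hB3⟩ := hB'
    simp only at hlh hB3
    have hs : 0 < s := hpos _ (List.mem_cons_self ..)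
    have hle := bord_le B hi hB3
    obtain ⟨b, hb1, hb2, _⟩ := word_aux B hi (e.filter (fun v => ¬ (lo ≤ v ∧ v < hi)))
      (f.filter (fun v => ¬ (lo ≤ v ∧ v < hi))) hB3
      (fun b hb => hpos b (List.mem_cons_of_mem _ hb)) (tail_InB hB heB) (tail_InB hB hfB)
      (tail_vert he) (tail_vert hf)
      (fun b hb => by
        rcases hsep b (List.mem_cons_of_mem _ hb) with h | h
        · left
          intro x hx y hy
          exact h x (Finset.mem_of_mem_filter _ hx) y (Finset.mem_of_mem_filter _ hy)
        · right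
          intro x hx y hy
          exact h x (Finset.mem_of_mem_filter _ hx) y (Finset.mem_of_mem_filter _ hy))
    have hce : (e.filter (fun v => lo ≤ v ∧ v < hi)).card = s := by
      have := heB (s, lo, hi) (List.mem_cons_self ..)
      simpa using this
    have hcf : (f.filter (fun v => lo ≤ v ∧ v < hi)).card = s := by
      have := hfB (s, lo, hi) (List.mem_cons_self ..)
      simpa using this
    have hge : ∀ v ∈ e.filter (fun v => ¬ (lo ≤ v ∧ v < hi)), hi ≤ v :=
      fun v hv => vert_ge hB3 (tail_vert he hv)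
    have hgf : ∀ v ∈ f.filter (fun v => ¬ (lo ≤ v ∧ v < hi)), hi ≤ v :=
      fun v hv => vert_ge hB3 (tail_vert hf hv)
    have hpat : pat e f =
        pat (e.filter (fun v => lo ≤ v ∧ v < hi)) (f.filter (fun v => lo ≤ v ∧ v < hi)) ++
          pat (e.filter (fun v => ¬ (lo ≤ v ∧ v < hi)))
            (f.filter (fun v => ¬ (lo ≤ v ∧ v < hi))) := by
      rw [← Greedy.pat_append, Finset.filter_union_filter_not_eq,
        Finset.filter_union_filter_not_eq]
      intro x hx y hy
      have hx' : x < hi := by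
        rcases Finset.mem_union.1 hx with h | h
        · exact (Finset.mem_filter.1 h).2.2
        · exact (Finset.mem_filter.1 h).2.2
      have hy' : hi ≤ y := by
        rcases Finset.mem_union.1 hy with h | h
        · exact hge y h
        · exact hgf y h
      omega
    rcases hsep (s, lo, hi) (List.mem_cons_self ..) with h | h
    · refine ⟨(s, true) :: b, by simp [shape, hb1], ?_, ?_⟩
      · rw [hpat, hb2, Greedy.word_cons, Greedy.gr_pat_lt _ _ (fun x hx y hy => by
          rw [Finset.mem_filter] at hx hy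
          exact h x hx.1 y hy.1 hx.2.1 hx.2.2 hy.2.1 hy.2.2), hce, hcf]
        simp
      · intro x hx
        simp only [List.head?_cons, Option.some.injEq] at hx
        subst hx
        exact Or.inl rfl
    · refine ⟨(s, false) :: b, by simp [shape, hb1], ?_, ?_⟩
      · rw [hpat, hb2, Greedy.word_cons, Greedy.gr_pat_gt _ _ (fun y hy x hx => by
          rw [Finset.mem_filter] at hx hy
          exact h x hx.1 y hy.1 hx.2.1 hx.2.2 hy.2.1 hy.2.2), hce, hcf]
        simp
      · intro x hx
        right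
        have hne : (f.filter (fun v => lo ≤ v ∧ v < hi)).Nonempty := by
          rw [← Finset.card_pos, hcf]; exact hs
        obtain ⟨u, hu⟩ := hne
        rw [Finset.mem_filter] at hu
        refine ⟨u, hu.1, ?_⟩
        intro v hv
        by_cases hv1 : lo ≤ v ∧ v < hi
        · exact h v hv u hu.1 hv1.1 hv1.2 hu.2.1 hu.2.2
        · exact lt_of_lt_of_le hu.2.2 (hge v (Finset.mem_filter.2 ⟨hv, hv1⟩))

theorem word_type {r c : ℕ} (hr : 1 ≤ r) {B : Box} (hB : BOrd c B) (hC : Comp r (shape B))
    {e f : Finset ℕ} (he : e.card = r) (hf : f.card = r) (heB : InB B 1 e) (hfB : InB B 1 f)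
    (hd : Disjoint e f) (hm : mn e < mn f)
    (hsep : ∀ b ∈ B,
      (∀ x ∈ e, ∀ y ∈ f, b.2.1 ≤ x → x < b.2.2 → b.2.1 ≤ y → y < b.2.2 → x < y) ∨
      (∀ x ∈ e, ∀ y ∈ f, b.2.1 ≤ x → x < b.2.2 → b.2.1 ≤ y → y < b.2.2 → y < x)) :
    HasType (pat e f) (shape B) := by
  have hpos : ∀ b ∈ B, 0 < b.1 := fun b hb => hC.2 b.1 (List.mem_map.2 ⟨b, hb, rfl⟩)
  have heV : e ⊆ vert B := sub_vert hB heB (by rw [he, hC.1, one_mul])
  have hfV : f ⊆ vert B := sub_vert hB hfB (by rw [hf, hC.1, one_mul])
  obtain ⟨b, hb1, hb2, hb3⟩ := word_aux B c e f hB hpos heB hfB heV hfV hsep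
  refine ⟨b, hb1, ?_, ?_, hb2⟩
  · intro x hx
    have : x.1 ∈ shape B := by
      rw [← hb1]
      exact List.mem_map.2 ⟨x, hx, rfl⟩
    exact hC.2 _ this
  · cases hb : b with
    | nil =>
      exfalso
      rw [hb] at hb1
      have h1 := hC.1
      rw [← hb1] at h1
      simp at h1
      omega
    | cons x l =>
      have hx := hb3 x (by rw [hb]; rfl)
      rcases hx with hx | ⟨u, hu, hlt⟩
      · simp [hx]
      · exfalso
        have hne : e.Nonempty := by
          rw [← Finset.card_pos, he]; omega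
        have h1 := hlt _ (Greedy.gr_mn_mem e hne)
        have h2 := Greedy.gr_mn_le f u hu
        omega

end Pool.Agent.Work.MP_7d1693_pr.FM
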