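import Pool.Agent.Work.MP_7d1693_pr.FM.Defs
import Pool.Agent.Work.MP_7d1693_pr.FM.Word
import Pool.Agent.Work.MP_7d1693_pr.FM.Dyad
import Pool.Agent.Work.MP_7d1693_pr.FM.Vert

/-! # Module Split (M): a clique in a box of non admissible shape concentrates in a split box

`η = eta r`, `c0 = (1-η)/(2 r^2)`... (any positive constant). `K` a clique of `k ≥ 2` edges in the box. For `e ∈ K` and a triple `b = (s, lo, lo+2^L) ∈ B` with `s ≥ 2` let
`(h_b(e), q_b(e))` be splitting data of the part of `e` in `b` (`exists_spl`, choice). Say `e`, `f` are `b`-close if the smaller level `h` and the data satisfy `q' / 2^(h'-h) = q` (for `h ≤ h'`, or symmetrically).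
(1) Any `e, f ∈ K` are `b`-close for some `b` with `s ≥ 2`: for `e = f` take any `b` with `s ≥ 2` (exists: if all parts were `1` and `e ≠ f` in `K`, `word_type` with the trivial separation of one-element
parts (disjoint) shows the shape is admissible). For `e ≠ f`: if not close for any `b` then by `spl_cases` the parts are separated for all `s ≥ 2`, and for `s = 1` trivially, so `word_type` (`e, f` ordered by the minimum) and `pat e f ∈ P` give
`Adm r P (shape B)`, contradiction.
(2) Of the `k^2` ordered pairs, at least `k^2/r` are `b`-close for the same `b` (at most `r` triples, pigeonhole), at least half of these with `h_b(e) ≤ h_b(f)` (or symmetric), so some `f ∈ K` has at least `k/(2r)` elements `e ∈ K` with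
`h_b(e) ≤ h_b(f)` and `q_b(e) = q_b(f) / 2^(h_b(f) - h_b(e))`. So for each level `h` all these `e` with `h_b(e) = h` have the same `q`.
(3) Partition them by `(h, p)`, `p` = number of vertices of the part below the midpoint, `0 < p < s ≤ r`. If all classes had fewer than `c0 η^h k` elements the sum would be less than `r c0 k/(1-η) ≤ k/(2r)`. So one class `(h, p)` has at least
`c0 η^h k` elements; each of its `e` satisfies `InB (sub ..) 1 e`: the other intervals are unchanged, the part in `[lo, lo+2^L)` lies in `[dlo, dhi)`, `p` vertices below `dmid` and `s-p` above. -/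

namespace Pool.Agent.Work.MP_7d1693_pr.FM

open Finset

private noncomputable def part (b : ℕ × ℕ × ℕ) (e : Finset ℕ) : Finset ℕ :=
  e.filter (fun v => b.2.1 ≤ v ∧ v < b.2.2)

private theorem mem_part {b : ℕ × ℕ × ℕ} {e : Finset ℕ} {v : ℕ} :
    v ∈ part b e ↔ v ∈ e ∧ b.2.1 ≤ v ∧ v < b.2.2 := by
  unfold part
  rw [Finset.mem_filter]

theorem eta_pos (r : ℕ) : 0 < eta r := by
  unfold eta
  positivity

theorem eta_lt (r : ℕ) : eta r < 1 := by
  unfold eta
  apply Real.rpow_lt_one_of_one_lt_of_neg (by norm_num)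
  have : 0 < 1 / (2 * ((r : ℝ) + 1)) := by positivity
  linarith

private theorem sep1 {r c : ℕ} (hr : 1 ≤ r) {P : Set (List Bool)} {B : Box} (hB : BOrd c B)
    (hC : Comp r (shape B)) (hA : ¬ Adm r P (shape B)) {K : Finset (Finset ℕ)} (hF : Fam r K)
    (hK : IsClique P K) (hI : ∀ e ∈ K, InB B 1 e) {e f : Finset ℕ} (he : e ∈ K) (hf : f ∈ K)
    (hne : e ≠ f) (hlt : mn e < mn f) : ∃ b ∈ B,
      ¬ (∀ x ∈ part b e, ∀ y ∈ part b f, x < y) ∧ ¬ (∀ x ∈ part b e, ∀ y ∈ part b f, y < x) := by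
  by_contra hcon
  apply hA
  refine ⟨hC.1, pat e f, ?_, ?_⟩
  · apply hK e he f hf
    have h1 : e.Nonempty := Finset.card_pos.1 (by rw [hF.1 e he]; omega)
    have h2 : f.Nonempty := Finset.card_pos.1 (by rw [hF.1 f hf]; omega)
    rw [(mn_eq e h1).2, (mn_eq f h2).2]
    exact_mod_cast hlt
  · refine word_type hr hB hC (hF.1 e he) (hF.1 f hf) (hI e he) (hI f hf)
      (hF.2 e he f hf hne) hlt ?_
    intro b hb
    by_contra h3
    apply hcon
    refine ⟨b, hb, ?_, ?_⟩
    · intro h4
      apply h3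
      left
      intro x hx y hy a1 a2 a3 a4
      exact h4 x (mem_part.2 ⟨hx, a1, a2⟩) y (mem_part.2 ⟨hy, a3, a4⟩)
    · intro h4
      apply h3
      right
      intro x hx y hy a1 a2 a3 a4
      exact h4 x (mem_part.2 ⟨hx, a1, a2⟩) y (mem_part.2 ⟨hy, a3, a4⟩)

private theorem sep2 {r c : ℕ} (hr : 1 ≤ r) {P : Set (List Bool)} {B : Box} (hB : BOrd c B)
    (hC : Comp r (shape B)) (hA : ¬ Adm r P (shape B)) {K : Finset (Finset ℕ)} (hF : Fam r K)
    (hK : IsClique P K) (hI : ∀ e ∈ K, InB B 1 e) {e f : Finset ℕ} (he : e ∈ K) (hf : f ∈ K)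
    (hne : e ≠ f) : ∃ b ∈ B, 2 ≤ b.1 ∧
      ¬ (∀ x ∈ part b e, ∀ y ∈ part b f, x < y) ∧ ¬ (∀ x ∈ part b e, ∀ y ∈ part b f, y < x) := by
  have hdis := hF.2 e he f hf hne
  have h1 : e.Nonempty := Finset.card_pos.1 (by rw [hF.1 e he]; omega)
  have h2 : f.Nonempty := Finset.card_pos.1 (by rw [hF.1 f hf]; omega)
  have hmn : mn e ≠ mn f := by
    intro h
    have a1 := mn_mem e h1
    have a2 := mn_mem f h2
    rw [h] at a1
    exact Finset.disjoint_left.1 hdis a1 a2
  have key : ∃ b ∈ B,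
      ¬ (∀ x ∈ part b e, ∀ y ∈ part b f, x < y) ∧ ¬ (∀ x ∈ part b e, ∀ y ∈ part b f, y < x) := by
    rcases lt_or_gt_of_ne hmn with h | h
    · exact sep1 hr hB hC hA hF hK hI he hf hne h
    · obtain ⟨b, hb, h3, h4⟩ := sep1 hr hB hC hA hF hK hI hf he hne.symm h
      exact ⟨b, hb, fun h5 => h4 (fun x hx y hy => h5 y hy x hx),
        fun h5 => h3 (fun x hx y hy => h5 y hy x hx)⟩
  obtain ⟨b, hb, h3, h4⟩ := key
  refine ⟨b, hb, ?_, h3, h4⟩
  by_contra h5
  have hpos : 0 < b.1 := hC.2 b.1 (List.mem_map.2 ⟨b, hb, rfl⟩)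
  have hb1 : b.1 = 1 := by omega
  have c1 : (part b e).card = 1 := by
    have := hI e he b hb
    unfold part
    rw [this, hb1]
  have c2 : (part b f).card = 1 := by
    have := hI f hf b hb
    unfold part
    rw [this, hb1]
  obtain ⟨x, hx⟩ := Finset.card_eq_one.1 c1
  obtain ⟨y, hy⟩ := Finset.card_eq_one.1 c2
  have hxe : x ∈ e := (mem_part.1 (by rw [hx]; exact Finset.mem_singleton_self x : x ∈ part b e)).1
  have hyf : y ∈ f := (mem_part.1 (by rw [hy]; exact Finset.mem_singleton_self y : y ∈ part b f)).1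
  have hxy : x ≠ y := fun h => Finset.disjoint_left.1 hdis hxe (h ▸ hyf)
  rw [hx, hy] at h3 h4
  simp only [Finset.mem_singleton, forall_eq] at h3 h4
  omega

private theorem dm_le {lo L h q : ℕ} (hh : h < L) (hq : q < 2 ^ h) :
    dhi lo L h q ≤ lo + 2 ^ L ∧ dmid lo L h q ≤ dhi lo L h q ∧ dlo lo L h q ≤ dmid lo L h q := by
  unfold dhi dmid dlo
  have e1 : 2 ^ (L - h - 1) ≤ 2 ^ (L - h) := Nat.pow_le_pow_right (by norm_num) (by omega)
  have e2 : (q + 1) * 2 ^ (L - h) ≤ 2 ^ L := by
    calc (q + 1) * 2 ^ (L - h) ≤ 2 ^ h * 2 ^ (L - h) := Nat.mul_le_mul_right _ hq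
      _ = 2 ^ L := by rw [← pow_add]; congr 1; omega
  have e3 : (q + 1) * 2 ^ (L - h) = q * 2 ^ (L - h) + 2 ^ (L - h) := by ring
  rw [e3] at e2
  generalize 2 ^ (L - h - 1) = x at *
  generalize 2 ^ (L - h) = y at *
  generalize q * y = z at *
  refine ⟨by omega, by omega, by omega⟩

theorem split {r : ℕ} (hr : 2 ≤ r) (P : Set (List Bool)) : ∃ c0 : ℝ, 0 < c0 ∧ c0 ≤ 1 ∧
    ∀ (c : ℕ) (B : Box), BOrd c B → Dy B → Comp r (shape B) → ¬ Adm r P (shape B) →
    ∀ K : Finset (Finset ℕ), Fam r K → IsClique P K → (∀ e ∈ K, InB B 1 e) → 2 ≤ K.card →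
    ∃ (B1 B2 : Box) (s lo L h q p : ℕ), B = B1 ++ (s, lo, lo + 2 ^ L) :: B2 ∧ h < L ∧ q < 2 ^ h ∧
      0 < p ∧ p < s ∧ ∃ K' ⊆ K, c0 * eta r ^ h * K.card ≤ K'.card ∧
        ∀ e ∈ K', InB (sub B1 s lo L B2 h q p) 1 e := by
  classical
  have hη0 := eta_pos r
  have hη1 := eta_lt r
  have hr' : (2 : ℝ) ≤ r := by exact_mod_cast hr
  have hc0 : 0 < (1 - eta r) / (4 * (r : ℝ) ^ 2) := div_pos (by linarith) (by positivity)
  refine ⟨(1 - eta r) / (4 * (r : ℝ) ^ 2), hc0, ?_, ?_⟩
  · rw [div_le_one (by positivity)]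
    nlinarith
  intro c B hB hD hC hA K hF hK hI hk2
  have hD' : ∀ b ∈ B, ∃ L : ℕ, b.2.2 = b.2.1 + 2 ^ L := hD
  choose! LL hLL using hD'
  have hpart : ∀ b ∈ B, ∀ e ∈ K, (part b e).card = b.1 := by
    intro b hb e he
    have := hI e he b hb
    unfold part
    rw [this, one_mul]
  have hspl : ∀ b ∈ B, 2 ≤ b.1 → ∀ e ∈ K, ∃ h q, IsSpl b.2.1 (LL b) (part b e) h q := by
    intro b hb h2 e he
    apply exists_spl
    · intro v hv
      have := (mem_part.1 hv).2
      rw [← hLL b hb]
      exact this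
    · rw [hpart b hb e he]
      exact h2
  choose! hh qq hs using hspl
  let clo : ℕ × ℕ × ℕ → Finset ℕ → Finset ℕ → Prop := fun b e f =>
    hh b e ≤ hh b f ∧ qq b f / 2 ^ (hh b f - hh b e) = qq b e
  have hclose : ∀ e ∈ K, ∀ f ∈ K, e ≠ f → ∃ b ∈ B, 2 ≤ b.1 ∧ (clo b e f ∨ clo b f e) := by
    intro e he f hf hne
    obtain ⟨b, hb, h2, h3, h4⟩ := sep2 (by omega) hB hC hA hF hK hI he hf hne
    refine ⟨b, hb, h2, ?_⟩
    rcases le_total (hh b e) (hh b f) with h | h
    · left
      refine ⟨h, ?_⟩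
      rcases spl_cases (hs b hb h2 e he) (hs b hb h2 f hf) h with h5 | h5 | h5
      · exact h5
      · exact absurd h5 h3
      · exact absurd h5 h4
    · right
      refine ⟨h, ?_⟩
      rcases spl_cases (hs b hb h2 f hf) (hs b hb h2 e he) h with h5 | h5 | h5
      · exact h5
      · exact absurd (fun x hx y hy => h5 y hy x hx) h4
      · exact absurd (fun x hx y hy => h5 y hy x hx) h3
  obtain ⟨a1, ha1, a2, ha2, ha12⟩ := Finset.one_lt_card.1 (show 1 < K.card by omega)
  obtain ⟨b0, hb0, hb02, -⟩ := hclose a1 ha1 a2 ha2 ha12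
  have hclose' : ∀ e ∈ K, ∀ f ∈ K, ∃ b ∈ B, 2 ≤ b.1 ∧ (clo b e f ∨ clo b f e) := by
    intro e he f hf
    by_cases hef : e = f
    · subst hef
      exact ⟨b0, hb0, hb02, Or.inl ⟨le_rfl, by simp⟩⟩
    · exact hclose e he f hf hef
  set BB := B.toFinset.filter (fun b => 2 ≤ b.1) with hBB
  have hBBc : BB.card ≤ r := by
    calc BB.card ≤ B.toFinset.card := Finset.card_filter_le _ _
      _ ≤ B.length := List.toFinset_card_le B
      _ = (shape B).length := by simp [shape]
      _ ≤ (shape B).sum := List.length_le_sum_of_one_le _ (fun i hi => hC.2 i hi)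
      _ = r := hC.1
  have hcount : K.card * K.card ≤ 2 * ∑ f ∈ K, ∑ b ∈ BB, (K.filter (fun e => clo b e f)).card := by
    have s1 : K.card * K.card ≤ ∑ e ∈ K, ∑ f ∈ K, ∑ b ∈ BB,
        ((if clo b e f then 1 else 0) + (if clo b f e then 1 else 0)) := by
      rw [← smul_eq_mul, ← Finset.sum_const]
      refine Finset.sum_le_sum fun e he => ?_
      rw [Finset.card_eq_sum_ones]
      refine Finset.sum_le_sum fun f hf => ?_
      obtain ⟨b, hb, h2, h3⟩ := hclose' e he f hf
      have hbB : b ∈ BB := Finset.mem_filter.2 ⟨List.mem_toFinset.2 hb, h2⟩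
      refine le_trans ?_ (Finset.single_le_sum (f := fun b =>
        ((if clo b e f then 1 else 0) + (if clo b f e then 1 else 0))) (fun _ _ => Nat.zero_le _) hbB)
      rcases h3 with h3 | h3
      · simp [h3]
      · simp [h3]
    have s2 : ∑ e ∈ K, ∑ f ∈ K, ∑ b ∈ BB,
        ((if clo b e f then 1 else 0) + (if clo b f e then 1 else 0)) =
        2 * ∑ f ∈ K, ∑ b ∈ BB, (K.filter (fun e => clo b e f)).card := by
      simp only [Finset.sum_add_distrib, Finset.card_filter]
      have t1 : ∑ e ∈ K, ∑ f ∈ K, ∑ b ∈ BB, (if clo b e f then 1 else 0) =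
          ∑ f ∈ K, ∑ b ∈ BB, ∑ e ∈ K, (if clo b e f then 1 else 0) := by
        rw [Finset.sum_comm]
        refine Finset.sum_congr rfl fun f _ => ?_
        rw [Finset.sum_comm]
      have t2 : ∑ e ∈ K, ∑ f ∈ K, ∑ b ∈ BB, (if clo b f e then 1 else 0) =
          ∑ f ∈ K, ∑ b ∈ BB, ∑ e ∈ K, (if clo b e f then 1 else 0) := by
        refine Finset.sum_congr rfl fun f _ => ?_
        rw [Finset.sum_comm]
      rw [t1, t2]
      ring
    rw [← s2]
    exact s1
  have hkpos : 0 < K.card := by omega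
  obtain ⟨f, hf, b, hb, hM⟩ : ∃ f ∈ K, ∃ b ∈ BB,
      K.card ≤ 2 * r * (K.filter (fun e => clo b e f)).card := by
    by_contra hcon
    push Not at hcon
    have u1 : r * (K.card * K.card) ≤ ∑ f ∈ K, ∑ b ∈ BB, (K.card - 1) := by
      calc r * (K.card * K.card) ≤ r * (2 * ∑ f ∈ K, ∑ b ∈ BB,
            (K.filter (fun e => clo b e f)).card) := Nat.mul_le_mul_left _ hcount
        _ = ∑ f ∈ K, ∑ b ∈ BB, 2 * r * (K.filter (fun e => clo b e f)).card := by
            rw [← mul_assoc, mul_comm r 2, Finset.mul_sum]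
            refine Finset.sum_congr rfl fun f _ => ?_
            rw [Finset.mul_sum]
        _ ≤ _ := by
            refine Finset.sum_le_sum fun f hf => Finset.sum_le_sum fun b hb => ?_
            have := hcon f hf b hb
            omega
    rw [Finset.sum_const, Finset.sum_const, smul_eq_mul, smul_eq_mul] at u1
    have u2 : K.card * (BB.card * (K.card - 1)) ≤ K.card * (r * (K.card - 1)) := by gcongr
    have u3 : K.card * (r * (K.card - 1)) < r * (K.card * K.card) := by
      have : K.card * (r * (K.card - 1)) = r * (K.card * (K.card - 1)) := by ring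
      rw [this]
      have h1 : K.card * (K.card - 1) < K.card * K.card :=
        Nat.mul_lt_mul_of_pos_left (by omega) hkpos
      exact Nat.mul_lt_mul_of_pos_left h1 (by omega)
    omega
  have hbB : b ∈ B := List.mem_toFinset.1 (Finset.mem_filter.1 hb).1
  have hb2 : 2 ≤ b.1 := (Finset.mem_filter.1 hb).2
  have hbr : b.1 ≤ r := by
    rw [← hC.1]
    exact List.le_sum_of_mem (List.mem_map.2 ⟨b, hbB, rfl⟩)
  set E := K.filter (fun e => clo b e f) with hE
  have hEK : ∀ e ∈ E, e ∈ K := fun e he => (Finset.mem_filter.1 he).1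
  let g : Finset ℕ → ℕ × ℕ := fun e => (hh b e,
    ((part b e).filter (fun v => v < dmid b.2.1 (LL b) (hh b e) (qq b e))).card)
  have hgp : ∀ e ∈ K, 0 < (g e).2 ∧ (g e).2 < b.1 := by
    intro e he
    obtain ⟨h1, h2, h3, ⟨v, hv, hv2⟩, ⟨w, hw, hw2⟩⟩ := hs b hbB hb2 e he
    constructor
    · exact Finset.card_pos.2 ⟨v, Finset.mem_filter.2 ⟨hv, hv2⟩⟩
    · rw [← hpart b hbB e he]
      apply Finset.card_lt_card
      rw [Finset.ssubset_iff_of_subset (Finset.filter_subset _ _)]
      exact ⟨w, hw, fun h => absurd (Finset.mem_filter.1 h).2 (by omega)⟩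
  have hmaps : ∀ e ∈ E, g e ∈ range (LL b) ×ˢ range r := by
    intro e he
    rw [Finset.mem_product]
    refine ⟨Finset.mem_range.2 (hs b hbB hb2 e (hEK e he)).1, Finset.mem_range.2 ?_⟩
    have := (hgp e (hEK e he)).2
    omega
  have hcard := Finset.card_eq_sum_card_fiberwise hmaps
  obtain ⟨i, hi, hbig⟩ : ∃ i ∈ range (LL b) ×ˢ range r,
      (1 - eta r) / (4 * (r : ℝ) ^ 2) * eta r ^ i.1 * K.card ≤
        ((E.filter (fun e => g e = i)).card : ℝ) := by
    by_contra hcon
    push Not at hcon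
    have v1 : (E.card : ℝ) ≤ ∑ i ∈ range (LL b) ×ˢ range r,
        (1 - eta r) / (4 * (r : ℝ) ^ 2) * eta r ^ i.1 * K.card := by
      rw [hcard]
      push_cast
      exact Finset.sum_le_sum fun i hi => (hcon i hi).le
    have v2 : ∑ i ∈ range (LL b) ×ˢ range r,
        (1 - eta r) / (4 * (r : ℝ) ^ 2) * eta r ^ i.1 * K.card =
        (∑ h ∈ range (LL b), eta r ^ h) * (1 - eta r) * (K.card / (4 * r)) := by
      rw [Finset.sum_product]
      simp only [Finset.sum_const, Finset.card_range, nsmul_eq_mul]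
      rw [Finset.sum_mul, Finset.sum_mul]
      refine Finset.sum_congr rfl fun h _ => ?_
      have : (r : ℝ) ≠ 0 := by linarith
      field_simp
    have v3 : (∑ h ∈ range (LL b), eta r ^ h) * (1 - eta r) ≤ 1 := by
      rw [geom_sum_mul_neg]
      have : 0 < eta r ^ (LL b) := by positivity
      linarith
    have v4 : (K.card : ℝ) ≤ 2 * r * E.card := by exact_mod_cast hM
    have hkpos' : (0 : ℝ) < K.card := by exact_mod_cast hkpos
    have v5 : (∑ h ∈ range (LL b), eta r ^ h) * (1 - eta r) * (K.card / (4 * r)) ≤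
        K.card / (4 * r) := by
      have : (0 : ℝ) ≤ K.card / (4 * r) := by positivity
      nlinarith
    have v6 : (E.card : ℝ) ≤ K.card / (4 * r) := by
      rw [v2] at v1
      exact v1.trans v5
    rw [le_div_iff₀ (by positivity)] at v6
    nlinarith
  have hcp : 0 < (1 - eta r) / (4 * (r : ℝ) ^ 2) * eta r ^ i.1 * K.card := by
    have : (0 : ℝ) < K.card := by exact_mod_cast hkpos
    positivity
  have hne : (E.filter (fun e => g e = i)).Nonempty := by
    apply Finset.card_pos.1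
    have : (0 : ℝ) < ((E.filter (fun e => g e = i)).card : ℝ) := lt_of_lt_of_le hcp hbig
    exact_mod_cast this
  have hK' : ∀ e ∈ E.filter (fun e => g e = i), e ∈ K ∧ hh b e = i.1 ∧
      qq b e = qq b f / 2 ^ (hh b f - i.1) ∧ (g e).2 = i.2 := by
    intro e he
    obtain ⟨h1, h2⟩ := Finset.mem_filter.1 he
    have h3 := (Finset.mem_filter.1 h1).2
    have h4 : hh b e = i.1 := congrArg Prod.fst h2
    refine ⟨hEK e h1, h4, ?_, congrArg Prod.snd h2⟩
    rw [← h4]
    exact h3.2.symm
  obtain ⟨e0, he0⟩ := hne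
  obtain ⟨x1, x2, x3, x4⟩ := hK' e0 he0
  have y1 := hs b hbB hb2 e0 x1
  obtain ⟨B1, B2, hB12⟩ := List.append_of_mem hbB
  refine ⟨B1, B2, b.1, b.2.1, LL b, i.1, qq b f / 2 ^ (hh b f - i.1), i.2, ?_, ?_, ?_, ?_, ?_,
    E.filter (fun e => g e = i), ?_, hbig, ?_⟩
  · rw [← hLL b hbB]
    exact hB12
  · rw [← x2]
    exact y1.1
  · rw [← x3, ← x2]
    exact y1.2.1
  · rw [← x4]
    exact (hgp e0 x1).1
  · rw [← x4]
    exact (hgp e0 x1).2
  · exact (Finset.filter_subset _ _).trans (Finset.filter_subset _ _)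
  · intro e he b' hb'
    obtain ⟨z1, z2, z3, z4⟩ := hK' e he
    obtain ⟨w1, w2, w3, -, -⟩ := hs b hbB hb2 e z1
    rw [← z3, ← z2] at hb'
    unfold sub at hb'
    obtain ⟨d1, d2, d3⟩ := dm_le (lo := b.2.1) w1 w2
    have hpc := hpart b hbB e z1
    have hend := hLL b hbB
    rcases List.mem_append.1 hb' with h5 | h5
    · exact hI e z1 b' (by rw [hB12]; exact List.mem_append.2 (Or.inl h5))
    · rcases List.mem_cons.1 h5 with h6 | h6
      · rw [h6]
        change (e.filter (fun v => dlo b.2.1 (LL b) (hh b e) (qq b e) ≤ v ∧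
          v < dmid b.2.1 (LL b) (hh b e) (qq b e))).card = 1 * i.2
        rw [one_mul, ← z4]
        change _ = ((part b e).filter (fun v => v < dmid b.2.1 (LL b) (hh b e) (qq b e))).card
        congr 1
        ext v
        simp only [Finset.mem_filter, mem_part]
        constructor
        · rintro ⟨k1, k2, k3⟩
          have k4 : b.2.1 ≤ dlo b.2.1 (LL b) (hh b e) (qq b e) := by
            unfold dlo
            omega
          exact ⟨⟨k1, by omega, by omega⟩, k3⟩
        · rintro ⟨⟨k1, k2, k3⟩, k4⟩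
          exact ⟨k1, (w3 v (mem_part.2 ⟨k1, k2, k3⟩)).1, k4⟩
      · rcases List.mem_cons.1 h6 with h7 | h7
        · rw [h7]
          change (e.filter (fun v => dmid b.2.1 (LL b) (hh b e) (qq b e) ≤ v ∧
            v < dhi b.2.1 (LL b) (hh b e) (qq b e))).card = 1 * (b.1 - i.2)
          rw [one_mul]
          have k5 : (part b e).filter (fun v => ¬ v < dmid b.2.1 (LL b) (hh b e) (qq b e)) =
              e.filter (fun v => dmid b.2.1 (LL b) (hh b e) (qq b e) ≤ v ∧
                v < dhi b.2.1 (LL b) (hh b e) (qq b e)) := by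
            ext v
            simp only [Finset.mem_filter, mem_part]
            constructor
            · rintro ⟨⟨k1, k2, k3⟩, k4⟩
              exact ⟨k1, by omega, (w3 v (mem_part.2 ⟨k1, k2, k3⟩)).2⟩
            · rintro ⟨k1, k2, k3⟩
              have k4 : b.2.1 ≤ dlo b.2.1 (LL b) (hh b e) (qq b e) := by
                unfold dlo
                omega
              exact ⟨⟨k1, by omega, by omega⟩, by omega⟩
          rw [← k5]
          have k6 := Finset.card_filter_add_card_filter_not (s := part b e)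
            (fun v => v < dmid b.2.1 (LL b) (hh b e) (qq b e))
          have k7 : ((part b e).filter
            (fun v => v < dmid b.2.1 (LL b) (hh b e) (qq b e))).card = i.2 := z4
          omega
        · exact hI e z1 b' (by rw [hB12]; exact List.mem_append.2 (Or.inr (List.mem_cons_of_mem _ h7)))

end Pool.Agent.Work.MP_7d1693_pr.FM
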