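import Pool.Agent.Work.MP_7d1693_pr.FM.Defs

/-! # Module SubBox (S-M): the split box

`B = B1 ++ (s, lo, lo+2^L) :: B2`, `h < L`, `q < 2^h`, `0 < p < s`. `dlo ≤ dmid ≤ dhi ≤ lo + 2^L`, `dmid - dlo = dhi - dmid = 2^(L-h-1)` (`2^(L-h) = 2 * 2^(L-h-1)`), `(q+1) 2^(L-h) ≤ 2^L`.
* order: induction on `B1`. * dyadic: lengths `2^(L-h-1)`. * composition: sum and positivity; length one more. * head: if `B1 = []` it is `p < s`, else unchanged.
* `nu`: `volB (sub ..) * (2^((h+1)))^s = volB B`, because `(2^(L-h-1))^p (2^(L-h-1))^(s-p) = (2^L)^s / (2^(h+1))^s`; as `s ≥ 2`: `nu (sub) ≤ nu B / 4^(h+1)`. -/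

namespace Pool.Agent.Work.MP_7d1693_pr.FM

open Finset

private theorem bord_mono : ∀ (B : Box) {c c' : ℕ}, c' ≤ c → BOrd c B → BOrd c' B
  | [], _, _, _, _ => trivial
  | _ :: _, _, _, h, hB => ⟨le_trans h hB.1, hB.2.1, hB.2.2⟩

private theorem two_pow_half {L h : ℕ} (hh : h < L) : 2 ^ (L - h) = 2 ^ (L - h - 1) + 2 ^ (L - h - 1) := by
  have h1 : L - h = (L - h - 1) + 1 := by omega
  conv_lhs => rw [h1, pow_succ]
  ring

private theorem dhi_le {lo L h q : ℕ} (hh : h < L) (hq : q < 2 ^ h) : dhi lo L h q ≤ lo + 2 ^ L := by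
  unfold dhi
  have h1 : (q + 1) * 2 ^ (L - h) ≤ 2 ^ h * 2 ^ (L - h) := Nat.mul_le_mul_right _ hq
  have h2 : 2 ^ h * 2 ^ (L - h) = 2 ^ L := by
    rw [← pow_add]
    congr 1
    omega
  nlinarith [h1, h2]

private theorem dmid_eq {lo L h q : ℕ} : dmid lo L h q = dlo lo L h q + 2 ^ (L - h - 1) := rfl

private theorem dhi_eq {lo L h q : ℕ} (hh : h < L) :
    dhi lo L h q = dmid lo L h q + 2 ^ (L - h - 1) := by
  unfold dhi dmid
  rw [two_pow_half hh]
  ring

theorem sub_ord {c : ℕ} {B1 B2 : Box} {s lo L h q p : ℕ}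
    (hB : BOrd c (B1 ++ (s, lo, lo + 2 ^ L) :: B2)) (hh : h < L) (hq : q < 2 ^ h) :
    BOrd c (sub B1 s lo L B2 h q p) := by
  unfold sub
  induction B1 generalizing c with
  | nil =>
    simp only [List.nil_append] at hB ⊢
    obtain ⟨h1, h2, h3⟩ := hB
    simp only at h1 h2 h3
    refine ⟨?_, ?_, ?_, ?_, ?_⟩
    · show c ≤ dlo lo L h q
      unfold dlo
      exact le_trans h1 (Nat.le_add_right _ _)
    · show dlo lo L h q ≤ dmid lo L h q
      rw [dmid_eq]
      exact Nat.le_add_right _ _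
    · exact le_refl _
    · show dmid lo L h q ≤ dhi lo L h q
      rw [dhi_eq hh]
      exact Nat.le_add_right _ _
    · exact bord_mono B2 (dhi_le hh hq) h3
  | cons b B1 ih =>
    simp only [List.cons_append] at hB ⊢
    exact ⟨hB.1, hB.2.1, ih hB.2.2⟩

theorem sub_dy {B1 B2 : Box} {s lo L h q p : ℕ} (hB : Dy (B1 ++ (s, lo, lo + 2 ^ L) :: B2))
    (hh : h < L) : Dy (sub B1 s lo L B2 h q p) := by
  intro b hb
  unfold sub at hb
  rw [List.mem_append, List.mem_cons, List.mem_cons] at hb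
  rcases hb with hb | rfl | rfl | hb
  · exact hB b (List.mem_append_left _ hb)
  · exact ⟨L - h - 1, rfl⟩
  · exact ⟨L - h - 1, dhi_eq hh⟩
  · exact hB b (List.mem_append_right _ (List.mem_cons_of_mem _ hb))

private theorem shape_sub (B1 B2 : Box) (s lo L h q p : ℕ) :
    shape (sub B1 s lo L B2 h q p) = shape B1 ++ p :: (s - p) :: shape B2 := by
  simp [shape, sub]

private theorem shape_big (B1 B2 : Box) (s lo L : ℕ) :
    shape (B1 ++ (s, lo, lo + 2 ^ L) :: B2) = shape B1 ++ s :: shape B2 := by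
  simp [shape]

theorem sub_comp {r : ℕ} {B1 B2 : Box} {s lo L h q p : ℕ}
    (hB : Comp r (shape (B1 ++ (s, lo, lo + 2 ^ L) :: B2))) (hp : 0 < p) (hs : p < s) :
    Comp r (shape (sub B1 s lo L B2 h q p)) := by
  rw [shape_big] at hB
  rw [shape_sub]
  obtain ⟨h1, h2⟩ := hB
  refine ⟨?_, ?_⟩
  · rw [List.sum_append, List.sum_cons] at h1
    rw [List.sum_append, List.sum_cons, List.sum_cons]
    omega
  · intro a ha
    rw [List.mem_append, List.mem_cons, List.mem_cons] at ha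
    rcases ha with ha | rfl | rfl | ha
    · exact h2 a (List.mem_append_left _ ha)
    · exact hp
    · omega
    · exact h2 a (List.mem_append_right _ (List.mem_cons_of_mem _ ha))

theorem sub_len {B1 B2 : Box} {s lo L h q p : ℕ} :
    (shape (sub B1 s lo L B2 h q p)).length =
      (shape (B1 ++ (s, lo, lo + 2 ^ L) :: B2)).length + 1 := by
  rw [shape_sub, shape_big]
  simp only [List.length_append, List.length_cons]
  omega

theorem sub_head {B1 B2 : Box} {s lo L h q p j : ℕ} (hs : p < s)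
    (hj : (shape (B1 ++ (s, lo, lo + 2 ^ L) :: B2)).headD 0 ≤ j) :
    (shape (sub B1 s lo L B2 h q p)).headD 0 ≤ j := by
  rw [shape_big] at hj
  rw [shape_sub]
  cases hB : shape B1 with
  | nil =>
    rw [hB] at hj
    simp only [List.nil_append, List.headD_cons] at hj ⊢
    omega
  | cons b l =>
    rw [hB] at hj
    simpa using hj

theorem sub_nu {r n : ℕ} {B1 B2 : Box} {s lo L h q p : ℕ} (hh : h < L) (hp : 0 < p) (hs : p < s) :
    nu r n (sub B1 s lo L B2 h q p) ≤ nu r n (B1 ++ (s, lo, lo + 2 ^ L) :: B2) / 4 ^ (h + 1) := by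
  have key : volB (sub B1 s lo L B2 h q p) * 4 ^ (h + 1) ≤
      volB (B1 ++ (s, lo, lo + 2 ^ L) :: B2) := by
    unfold volB sub
    simp only [List.map_append, List.map_cons, List.prod_append, List.prod_cons]
    have e1 : dmid lo L h q - dlo lo L h q = 2 ^ (L - h - 1) := by
      rw [dmid_eq]
      exact Nat.add_sub_cancel_left _ _
    have e2 : dhi lo L h q - dmid lo L h q = 2 ^ (L - h - 1) := by
      rw [dhi_eq hh]
      exact Nat.add_sub_cancel_left _ _
    have e3 : lo + 2 ^ L - lo = 2 ^ L := Nat.add_sub_cancel_left _ _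
    rw [e1, e2, e3]
    have h4 : (2 ^ (L - h - 1)) ^ p * (2 ^ (L - h - 1)) ^ (s - p) * 4 ^ (h + 1) ≤ (2 ^ L) ^ s := by
      rw [← pow_add, ← pow_mul, ← pow_mul, show (4 : ℕ) = 2 ^ 2 by norm_num, ← pow_mul, ← pow_add]
      apply Nat.pow_le_pow_right (by norm_num)
      have hps : p + (s - p) = s := by omega
      rw [hps]
      obtain ⟨u, hu⟩ : ∃ u, L = u + (h + 1) := ⟨L - (h + 1), by omega⟩
      have hu' : L - h - 1 = u := by omega
      rw [hu', hu]
      have hs2 : 2 ≤ s := by omega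
      nlinarith [Nat.mul_le_mul_left (h + 1) hs2]
    calc (B1.map (fun b => (b.2.2 - b.2.1) ^ b.1)).prod *
          ((2 ^ (L - h - 1)) ^ p * ((2 ^ (L - h - 1)) ^ (s - p) *
            (B2.map (fun b => (b.2.2 - b.2.1) ^ b.1)).prod)) * 4 ^ (h + 1)
        = (B1.map (fun b => (b.2.2 - b.2.1) ^ b.1)).prod *
          (((2 ^ (L - h - 1)) ^ p * (2 ^ (L - h - 1)) ^ (s - p) * 4 ^ (h + 1)) *
            (B2.map (fun b => (b.2.2 - b.2.1) ^ b.1)).prod) := by ring
      _ ≤ (B1.map (fun b => (b.2.2 - b.2.1) ^ b.1)).prod *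
          ((2 ^ L) ^ s * (B2.map (fun b => (b.2.2 - b.2.1) ^ b.1)).prod) := by
        exact Nat.mul_le_mul_left _ (Nat.mul_le_mul_right _ h4)
  have key' : (volB (sub B1 s lo L B2 h q p) : ℝ) * 4 ^ (h + 1) ≤
      (volB (B1 ++ (s, lo, lo + 2 ^ L) :: B2) : ℝ) := by
    exact_mod_cast key
  unfold nu
  rw [div_div, mul_comm ((n : ℝ) ^ (r - 1)) _, ← div_div]
  apply div_le_div_of_nonneg_right _ (by positivity)
  rw [le_div_iff₀ (by positivity)]
  exact key'

end Pool.Agent.Work.MP_7d1693_pr.FM
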