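import Pool.Agent.Work.MP_7d1693_pr.FM.Defs
import Pool.Agent.Work.MP_7d1693_pr.FM.FirstM
import Pool.Agent.Work.MP_7d1693_pr.FM.PhiReg
import Pool.Agent.Work.MP_7d1693_pr.FM.SubBox
import Pool.Agent.Work.MP_7d1693_pr.FM.AlReg
import Pool.Agent.Work.MP_7d1693_pr.FM.Split

/-! # Module Term (M): one term of the recursion

`C1` from `first_m`, `η = eta r`, `x = 2^a`, `ρ = 2^(-3/2)`, `A = nu B * al (2^a)`, `B' = sub ..`. `η^(2(r+1)) = 1/2`, so `η^(-(r+1)) = 2^(1/2)` and `η^(-r) ≤ 2^(1/2)`.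
Let `y = 2^a'` be the largest power of two with `a' ≤ a` and `y ≤ max 1 (c0 η^h x)` (`c0 ≤ 1`, so `c0 η^h x ≤ x`). The event implies `Big P B' y` (`K'` nonempty and `K'.card ≥ c0 η^h x`, so `≥ y`). Also `x/y ≤ 2/(c0 η^h)` (if `c0 η^h x ≥ 1` then
`2y > c0 η^h x`; otherwise `y = 1`, `x < 1/(c0 η^h)`).
Case `a' ≥ a0`: `nu B' al y ≤ nu B 4^(-(h+1)) (x/y)^r al x ≤ A (2/c0)^r (η^(-r)/4)^h ≤ A (2/c0)^r ≤ c` if `A ≤ c' = c (c0/2)^r` (`sub_nu`, `al_mul` with `M = x/y`). The hypothesis `Cm` for `B'` (`sub_ord`, `sub_dy`, `sub_comp`, `sub_head`, `sub_len`) gives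
`pr ≤ C nu B' al y / y ≤ C 4^(-(h+1)) (x/y)^(r+1) A/x ≤ C (2/c0)^(r+1) (η^(-(r+1))/4)^h A/x = C (2/c0)^(r+1) ρ^h A/x`.
Case `a' < a0`: then `c0 η^h x < 2^a0`, so `2^(-h/2) = η^((r+1)h) ≤ (2^a0/(c0 x))^(r+1)`. `first_m` with `x = 1` (`phi_one`): `pr ≤ C1 nu B' ≤ C1 nu B 4^(-h) = C1 nu B ρ^h 2^(-h/2) ≤ C1 (2^a0/c0)^(r+1) ρ^h nu B x^(-(r+1))` and
`x^(-r) ≤ al x` (`al_lb`), so `≤ C1 (2^a0/c0)^(r+1) ρ^h A/x`. `E` = maximum of the two constants. -/

namespace Pool.Agent.Work.MP_7d1693_pr.FM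

open Finset

private theorem w_sq (r : ℕ) : (eta r ^ (r + 1)) ^ 2 = 1 / 2 := by
  unfold eta
  rw [← pow_mul, ← Real.rpow_natCast, ← Real.rpow_mul (by norm_num)]
  have h : (-(1 / (2 * ((r : ℝ) + 1)))) * (((r + 1) * 2 : ℕ) : ℝ) = -1 := by
    push_cast
    have : (r : ℝ) + 1 ≠ 0 := by positivity
    field_simp
  rw [h, Real.rpow_neg_one]
  norm_num

private theorem rho_eq (r : ℕ) : (2 : ℝ) ^ (-(3 / 2 : ℝ)) = eta r ^ (r + 1) / 2 := by
  have h1 : eta r ^ (r + 1) = (2 : ℝ) ^ (-(1 / 2 : ℝ)) := by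
    unfold eta
    rw [← Real.rpow_natCast, ← Real.rpow_mul (by norm_num)]
    congr 1
    push_cast
    have : (r : ℝ) + 1 ≠ 0 := by positivity
    field_simp
  rw [h1]
  have h2 : (-(3 / 2 : ℝ)) = -(1 / 2) + (-1) := by norm_num
  rw [h2, Real.rpow_add (by norm_num), Real.rpow_neg_one]
  ring

private theorem nu_nonneg (r n : ℕ) (B : Box) : 0 ≤ nu r n B := by
  unfold nu
  positivity

theorem term {r : ℕ} (hr : 2 ≤ r) (P : Set (List Bool)) {j m : ℕ} {C c : ℝ} {a0 : ℕ} (hC : 0 < C)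
    (hc : 0 < c) (hj : ∃ lam, Adm r P lam ∧ lam.headD 0 ≤ j) (hCm : Cm r P j m C c a0) {c0 : ℝ}
    (hc0 : 0 < c0) (hc1 : c0 ≤ 1) :
    ∃ E c' : ℝ, 0 < E ∧ 0 < c' ∧ ∀ (n t : ℕ) (B1 B2 : Box) (s lo L h q p a : ℕ), 1 ≤ t → t ≤ n →
      BOrd 0 (B1 ++ (s, lo, lo + 2 ^ L) :: B2) → Dy (B1 ++ (s, lo, lo + 2 ^ L) :: B2) →
      Comp r (shape (B1 ++ (s, lo, lo + 2 ^ L) :: B2)) →
      (shape (B1 ++ (s, lo, lo + 2 ^ L) :: B2)).headD 0 ≤ j →
      r ≤ (shape (B1 ++ (s, lo, lo + 2 ^ L) :: B2)).length + (m + 1) → h < L → q < 2 ^ h → 0 < p →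
      p < s → nu r n (B1 ++ (s, lo, lo + 2 ^ L) :: B2) * al r P j (2 ^ a) ≤ c' →
      pr r t (range (r * n)) (fun M => ∃ K ⊆ M, c0 * eta r ^ h * (2 : ℝ) ^ a ≤ K.card ∧ IsClique P K ∧
        ∀ e ∈ K, InB (sub B1 s lo L B2 h q p) 1 e) ≤
        E * (nu r n (B1 ++ (s, lo, lo + 2 ^ L) :: B2) * al r P j (2 ^ a)) / 2 ^ a *
          ((2 : ℝ) ^ (-(3 / 2 : ℝ))) ^ h := by
  obtain ⟨C1, hC1, hfm⟩ := first_m hr P
  set η := eta r with hη
  have hη0 : 0 < η := eta_pos r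
  have hη1 : η < 1 := eta_lt r
  set w := η ^ (r + 1) with hw
  have hw0 : 0 < w := pow_pos hη0 _
  have hw2 : w ^ 2 = 1 / 2 := w_sq r
  have hw12 : 1 / 2 ≤ w := by
    by_contra hcon
    push Not at hcon
    have h1 : w ^ 2 < (1 / 2) ^ 2 := pow_lt_pow_left₀ hcon hw0.le two_ne_zero
    norm_num at h1
    linarith
  have hρ : (2 : ℝ) ^ (-(3 / 2 : ℝ)) = w / 2 := rho_eq r
  have hC1pos : 0 < C1 := lt_of_lt_of_le one_pos hC1
  have hE1 : 0 < C * (2 / c0) ^ (r + 1) := mul_pos hC (pow_pos (div_pos two_pos hc0) _)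
  have hE2 : 0 < C1 * (2 ^ a0 / c0) ^ (r + 1) :=
    mul_pos hC1pos (pow_pos (div_pos (pow_pos two_pos _) hc0) _)
  refine ⟨C * (2 / c0) ^ (r + 1) + C1 * (2 ^ a0 / c0) ^ (r + 1), c * (c0 / 2) ^ r,
    add_pos hE1 hE2, mul_pos hc (pow_pos (div_pos hc0 two_pos) _), ?_⟩
  intro n t B1 B2 s lo L h q p a ht htn hord hdy hcomp hhead hlen hh hq hp hps hA
  set B := B1 ++ (s, lo, lo + 2 ^ L) :: B2 with hB
  set B' := sub B1 s lo L B2 h q p with hB'
  have hord' : BOrd 0 B' := sub_ord hord hh hq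
  have hdy' : Dy B' := sub_dy hdy hh
  have hcomp' : Comp r (shape B') := sub_comp hcomp hp hps
  have hhead' : (shape B').headD 0 ≤ j := sub_head hps hhead
  have hlen' : r ≤ (shape B').length + m := by
    have : (shape B').length = (shape B).length + 1 := sub_len
    omega
  have hnu' : nu r n B' ≤ nu r n B / 4 ^ (h + 1) := sub_nu hh hp hps
  have hnu0 : 0 ≤ nu r n B := nu_nonneg _ _ _
  have hnu0' : 0 ≤ nu r n B' := nu_nonneg _ _ _
  have hnu4 : nu r n B' ≤ nu r n B / 4 ^ h := by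
    refine hnu'.trans ?_
    apply div_le_div_of_nonneg_left hnu0 (by positivity)
    exact pow_le_pow_right₀ (by norm_num) (Nat.le_succ h)
  have hal0 : ∀ k, 0 ≤ al r P j k := al_nonneg r P j
  have hηh : 0 < η ^ h := pow_pos hη0 _
  have hηh1 : η ^ h ≤ 1 := pow_le_one₀ hη0.le hη1.le
  have hx0 : (0 : ℝ) < 2 ^ a := by positivity
  set z : ℝ := c0 * η ^ h * 2 ^ a with hz
  have hz0 : 0 < z := by positivity
  -- the power of two
  classical
  set a' : ℕ := Nat.findGreatest (fun b => (2 : ℝ) ^ b ≤ max 1 z) a with ha'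
  have hP0 : (2 : ℝ) ^ 0 ≤ max 1 z := by rw [pow_zero]; exact le_max_left _ _
  have ha'P : (2 : ℝ) ^ a' ≤ max 1 z :=
    Nat.findGreatest_spec (P := fun b => (2 : ℝ) ^ b ≤ max 1 z) (Nat.zero_le a) hP0
  have ha'a : a' ≤ a := Nat.findGreatest_le a
  have hz2 : z < 2 * 2 ^ a' := by
    rcases eq_or_lt_of_le ha'a with h1 | h1
    · rw [h1]
      have : z ≤ 1 * 2 ^ a := by
        rw [hz]
        apply mul_le_mul_of_nonneg_right _ hx0.le
        calc c0 * η ^ h ≤ 1 * 1 := mul_le_mul hc1 hηh1 hηh.le zero_le_one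
          _ = 1 := one_mul 1
      linarith
    · have h2 := Nat.findGreatest_is_greatest (P := fun b => (2 : ℝ) ^ b ≤ max 1 z)
        (n := a) (k := a' + 1) (Nat.lt_succ_self _) h1
      simp only [not_le] at h2
      have h3 := (le_max_right 1 z).trans_lt h2
      rw [pow_succ] at h3
      linarith
  -- the event
  have hev : ∀ y : ℕ, (y : ℝ) ≤ max 1 z →
      pr r t (range (r * n)) (fun M => ∃ K ⊆ M, z ≤ K.card ∧ IsClique P K ∧
        ∀ e ∈ K, InB B' 1 e) ≤ pr r t (range (r * n)) (Big P B' y) := by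
    intro y hy
    apply pr_mono
    rintro M - ⟨K, hKM, hKz, hKc, hKB⟩
    refine ⟨K, hKM, ?_, hKc, hKB⟩
    have h1 : (1 : ℝ) ≤ K.card := by
      have : 0 < K.card := by
        have : (0 : ℝ) < K.card := lt_of_lt_of_le hz0 hKz
        exact_mod_cast this
      exact_mod_cast this
    have h2 : (y : ℝ) ≤ K.card := hy.trans (max_le h1 hKz)
    exact_mod_cast h2
  have hgoal0 : 0 ≤ nu r n B * al r P j (2 ^ a) / 2 ^ a * (w / 2) ^ h := by
    have := hal0 (2 ^ a)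
    exact mul_nonneg (div_nonneg (mul_nonneg hnu0 this) hx0.le) (pow_nonneg (half_pos hw0).le _)
  rw [hρ]
  by_cases hcase : a0 ≤ a'
  · -- large case
    set M : ℕ := 2 ^ (a - a') with hM
    have hM1 : 1 ≤ M := Nat.one_le_two_pow
    have hMy : M * 2 ^ a' = 2 ^ a := by
      rw [hM, ← pow_add]; congr 1; omega
    have hMyR : (M : ℝ) * 2 ^ a' = 2 ^ a := by exact_mod_cast hMy
    have hMη : (M : ℝ) ≤ 2 / (c0 * η ^ h) := by
      rw [le_div_iff₀ (by positivity)]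
      have hy0 : (0 : ℝ) < 2 ^ a' := by positivity
      have h1 : (M : ℝ) * (c0 * η ^ h) * 2 ^ a' < 2 * 2 ^ a' := by
        have : (M : ℝ) * (c0 * η ^ h) * 2 ^ a' = z := by rw [hz, ← hMyR]; ring
        rw [this]; exact hz2
      exact (lt_of_mul_lt_mul_right h1 hy0.le).le
    have hM0 : (0 : ℝ) < M := by exact_mod_cast hM1
    have hal : al r P j (2 ^ a') ≤ (M : ℝ) ^ r * al r P j (2 ^ a) := by
      have := al_mul (P := P) (j := j) (show 1 ≤ r by omega) hM1 (k := 2 ^ a') Nat.one_le_two_pow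
      rwa [hMy] at this
    -- M^(r+1) bound
    have hMr1 : (M : ℝ) ^ (r + 1) ≤ (2 / c0) ^ (r + 1) * (1 / w) ^ h := by
      calc (M : ℝ) ^ (r + 1) ≤ (2 / (c0 * η ^ h)) ^ (r + 1) := pow_le_pow_left₀ hM0.le hMη _
        _ = (2 / c0) ^ (r + 1) * (1 / w) ^ h := by
          rw [hw]
          rw [div_pow, div_pow, div_pow, mul_pow, ← pow_mul, ← pow_mul, mul_comm h (r + 1)]
          field_simp
          simp
    have hMr : (M : ℝ) ^ r ≤ (2 / c0) ^ r * (1 / w) ^ h := by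
      calc (M : ℝ) ^ r ≤ (2 / (c0 * η ^ h)) ^ r := pow_le_pow_left₀ hM0.le hMη _
        _ = (2 / c0) ^ r * (1 / η ^ r) ^ h := by
          rw [div_pow, div_pow, div_pow, mul_pow, ← pow_mul, ← pow_mul, mul_comm h r]
          field_simp
          simp
        _ ≤ (2 / c0) ^ r * (1 / w) ^ h := by
          apply mul_le_mul_of_nonneg_left _ (by positivity)
          apply pow_le_pow_left₀ (by positivity)
          apply one_div_le_one_div_of_le hw0
          rw [hw]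
          exact pow_le_pow_of_le_one hη0.le hη1.le (Nat.le_succ r)
    have hquart : (1 / w) ^ h / 4 ^ h = (w / 2) ^ h := by
      rw [← div_pow]
      congr 1
      have h1 : w * 4 * w = 4 * w ^ 2 := by ring
      rw [div_div, div_eq_div_iff (mul_pos hw0 (by norm_num)).ne' two_ne_zero, mul_comm w (w * 4), h1, hw2]
      norm_num
    have hw2le : (w / 2) ^ h ≤ 1 := by
      have hw1 : w ≤ 1 := pow_le_one₀ hη0.le hη1.le
      apply pow_le_one₀ (half_pos hw0).le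
      linarith
    have hbound : nu r n B' * al r P j (2 ^ a') ≤
        nu r n B * al r P j (2 ^ a) * ((M : ℝ) ^ r / 4 ^ h) := by
      calc nu r n B' * al r P j (2 ^ a') ≤
          (nu r n B / 4 ^ h) * ((M : ℝ) ^ r * al r P j (2 ^ a)) :=
            mul_le_mul hnu4 hal (hal0 _) (div_nonneg hnu0 (pow_nonneg (by norm_num) _))
        _ = _ := by ring
    have hA0 : 0 ≤ nu r n B * al r P j (2 ^ a) := mul_nonneg hnu0 (hal0 _)
    have hsmall : nu r n B' * al r P j (2 ^ a') ≤ c := by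
      refine hbound.trans ?_
      have h1 : (M : ℝ) ^ r / 4 ^ h ≤ (2 / c0) ^ r := by
        calc (M : ℝ) ^ r / 4 ^ h ≤ (2 / c0) ^ r * (1 / w) ^ h / 4 ^ h := by
              apply div_le_div_of_nonneg_right hMr (by positivity)
          _ = (2 / c0) ^ r * (w / 2) ^ h := by rw [← hquart]; ring
          _ ≤ (2 / c0) ^ r * 1 := mul_le_mul_of_nonneg_left hw2le (by positivity)
          _ = _ := mul_one _
      calc nu r n B * al r P j (2 ^ a) * ((M : ℝ) ^ r / 4 ^ h) ≤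
          (c * (c0 / 2) ^ r) * (2 / c0) ^ r := mul_le_mul hA h1 (div_nonneg (pow_nonneg hM0.le _) (pow_nonneg (by norm_num) _))
              (mul_nonneg hc.le (pow_nonneg (div_pos hc0 two_pos).le _))
        _ = c := by
          rw [mul_assoc, ← mul_pow]
          have : c0 / 2 * (2 / c0) = 1 := by field_simp
          rw [this, one_pow, mul_one]
    have hmain := hCm n t B' ht htn hord' hdy' hcomp' hhead' hlen' a' hcase hsmall
    refine (hev (2 ^ a') (by push_cast; exact ha'P)).trans (hmain.trans ?_)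
    have hy0 : (0 : ℝ) < 2 ^ a' := by positivity
    have h1 : C * (nu r n B' * al r P j (2 ^ a')) / 2 ^ a' ≤
        C * (2 / c0) ^ (r + 1) * (nu r n B * al r P j (2 ^ a) / 2 ^ a * (w / 2) ^ h) := by
      have h2 : (1 : ℝ) / 2 ^ a' = M / 2 ^ a := by
        rw [← hMyR]; field_simp
      calc C * (nu r n B' * al r P j (2 ^ a')) / 2 ^ a' =
          C * (nu r n B' * al r P j (2 ^ a')) * (1 / 2 ^ a') := by ring
        _ = C * (nu r n B' * al r P j (2 ^ a')) * (M / 2 ^ a) := by rw [h2]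
        _ ≤ C * (nu r n B * al r P j (2 ^ a) * ((M : ℝ) ^ r / 4 ^ h)) * (M / 2 ^ a) := by
            apply mul_le_mul_of_nonneg_right _ (div_nonneg hM0.le hx0.le)
            exact mul_le_mul_of_nonneg_left hbound hC.le
        _ = C * (nu r n B * al r P j (2 ^ a)) / 2 ^ a * ((M : ℝ) ^ (r + 1) / 4 ^ h) := by ring
        _ ≤ C * (nu r n B * al r P j (2 ^ a)) / 2 ^ a * ((2 / c0) ^ (r + 1) * (w / 2) ^ h) := by
            apply mul_le_mul_of_nonneg_left _ (div_nonneg (mul_nonneg hC.le hA0) hx0.le)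
            rw [← hquart, ← mul_div_assoc]
            exact div_le_div_of_nonneg_right hMr1 (by positivity)
        _ = _ := by ring
    refine h1.trans ?_
    have h3 : (C * (2 / c0) ^ (r + 1) + C1 * (2 ^ a0 / c0) ^ (r + 1)) *
        (nu r n B * al r P j (2 ^ a)) / 2 ^ a * (w / 2) ^ h =
        C * (2 / c0) ^ (r + 1) * (nu r n B * al r P j (2 ^ a) / 2 ^ a * (w / 2) ^ h) +
        C1 * (2 ^ a0 / c0) ^ (r + 1) * (nu r n B * al r P j (2 ^ a) / 2 ^ a * (w / 2) ^ h) := by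
      ring
    rw [h3]
    have h4 : 0 ≤ C1 * (2 ^ a0 / c0) ^ (r + 1) *
        (nu r n B * al r P j (2 ^ a) / 2 ^ a * (w / 2) ^ h) := by
      exact mul_nonneg (by first | exact hE2.le | exact hE1.le) hgoal0
    linarith
  · -- small case
    push Not at hcase
    have hz0' : z < 2 ^ a0 := by
      refine hz2.trans_le ?_
      rw [← pow_succ']
      exact pow_le_pow_right₀ (by norm_num) hcase
    have hmain := hfm n t 1 B' ht htn le_rfl hord' hcomp'
    rw [pow_one, phi_one P hcomp'.1, mul_one] at hmain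
    refine (hev 1 (by push_cast; exact le_max_left _ _)).trans (hmain.trans ?_)
    have hallb : 1 / ((2 : ℝ) ^ a) ^ r ≤ al r P j (2 ^ a) := by
      have := al_lb (show 1 ≤ r by omega) hj (k := 2 ^ a) Nat.one_le_two_pow
      push_cast at this
      exact this
    have hzr : z ^ (r + 1) ≤ (2 ^ a0) ^ (r + 1) := pow_le_pow_left₀ hz0.le hz0'.le _
    have hzr' : (c0 : ℝ) ^ (r + 1) * w ^ h * (2 ^ a) ^ (r + 1) ≤ (2 ^ a0) ^ (r + 1) := by
      have : z ^ (r + 1) = c0 ^ (r + 1) * w ^ h * (2 ^ a) ^ (r + 1) := by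
        rw [hz, hw, mul_pow, mul_pow, ← pow_mul η h (r + 1), ← pow_mul η (r + 1) h, mul_comm h (r + 1)]
      rwa [this] at hzr
    have hkey : (1 : ℝ) / 4 ^ h ≤ (2 ^ a0 / c0) ^ (r + 1) * (1 / (2 ^ a) ^ (r + 1)) * (w / 2) ^ h := by
      have h1 : (w : ℝ) ^ h * (w / 2) ^ h = 1 / 4 ^ h := by
        rw [← mul_pow]
        have : w * (w / 2) = 1 / 4 := by
          have h5 : w * (w / 2) = w ^ 2 / 2 := by ring
          rw [h5, hw2]
          norm_num
        rw [this, div_pow, one_pow]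
      rw [← h1, div_pow]
      apply mul_le_mul_of_nonneg_right _ (by positivity)
      rw [← mul_div_assoc, mul_one, le_div_iff₀ (by positivity), div_pow, le_div_iff₀ (by positivity)]
      linarith [hzr']
    have h2 : C1 * nu r n B' ≤ C1 * (2 ^ a0 / c0) ^ (r + 1) *
        (nu r n B * al r P j (2 ^ a) / 2 ^ a * (w / 2) ^ h) := by
      calc C1 * nu r n B' ≤ C1 * (nu r n B / 4 ^ h) :=
            mul_le_mul_of_nonneg_left hnu4 (by linarith)
        _ = C1 * nu r n B * (1 / 4 ^ h) := by ring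
        _ ≤ C1 * nu r n B * ((2 ^ a0 / c0) ^ (r + 1) * (1 / (2 ^ a) ^ (r + 1)) * (w / 2) ^ h) :=
            mul_le_mul_of_nonneg_left hkey (mul_nonneg hC1pos.le hnu0)
        _ = C1 * (2 ^ a0 / c0) ^ (r + 1) *
            (nu r n B * (1 / (2 ^ a) ^ r) / 2 ^ a * (w / 2) ^ h) := by
            rw [pow_succ ((2 : ℝ) ^ a) r]
            field_simp
        _ ≤ _ := by
            apply mul_le_mul_of_nonneg_left _ hE2.le
            apply mul_le_mul_of_nonneg_right _ (pow_nonneg (half_pos hw0).le _)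
            apply div_le_div_of_nonneg_right _ hx0.le
            exact mul_le_mul_of_nonneg_left hallb hnu0
    refine h2.trans ?_
    have h3 : (C * (2 / c0) ^ (r + 1) + C1 * (2 ^ a0 / c0) ^ (r + 1)) *
        (nu r n B * al r P j (2 ^ a)) / 2 ^ a * (w / 2) ^ h =
        C * (2 / c0) ^ (r + 1) * (nu r n B * al r P j (2 ^ a) / 2 ^ a * (w / 2) ^ h) +
        C1 * (2 ^ a0 / c0) ^ (r + 1) * (nu r n B * al r P j (2 ^ a) / 2 ^ a * (w / 2) ^ h) := by
      ring
    rw [h3]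
    have h4 : 0 ≤ C * (2 / c0) ^ (r + 1) *
        (nu r n B * al r P j (2 ^ a) / 2 ^ a * (w / 2) ^ h) := by
      exact mul_nonneg (by first | exact hE2.le | exact hE1.le) hgoal0
    linarith

end Pool.Agent.Work.MP_7d1693_pr.FM
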