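import Pool.Agent.Work.MP_7d1693_pr.FM.Defs
import Pool.Agent.Work.MP_7d1693_pr.FM.AdmCase
import Pool.Agent.Work.MP_7d1693_pr.FM.Term
import Pool.Agent.Work.MP_7d1693_pr.FM.Split

/-! # Module Rec (M): the recursion

* `cm_zero`: boxes with at least `r` parts have all parts equal to `1`. If the shape is admissible use `adm_case` (`x = 2^a`). If not, `Big P B (2^a)` with `a ≥ 1` is impossible on outcomes: `split` would give a part `s ≥ 2`
  (`0 < p < s`). So `a0 = 1`.
* `cm_succ`: `C, c` from `adm_case`, `c0` from `split`, `E, c'` from `term`. `a0' = 1`. Let `B` have shape not admissible and `x = 2^a ≥ 2`. On outcomes (families, `out_struct`; take `K` of the event) `Big P B x` implies by `split` (`K.card ≥ x`) that for some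
  position `i < B.length` with `B = B1 ++ (s, lo, lo+2^L) :: B2`, `B1.length = i`, and some `h < L`, `q < 2^h`, `0 < p < s` the event of `term` holds (`K.card ≥ x = 2^a`). Union bound (`pr_union`) over `i < B.length ≤ r`, `h < L_i`, `q < 2^h`, `p < s ≤ r`:
  `pr ≤ ∑ E A/x ρ^h ≤ r * r * E A/x ∑_h 2^h ρ^h`, `2 ρ = 2^(-1/2)`, `∑_h 2^(-h/2) ≤ 4`. So the constant is `4 r^2 E`; final constants: maximum of both cases and minimum of `c`, `c'`.
  (`L_i` is the exponent of the length of the `i`-th interval; for given `i` the data `B1, s, lo, L, B2` are determined by `B`: `take`, `drop`; `2^L` injective.) 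
* `cm_all`: induction. -/

namespace Pool.Agent.Work.MP_7d1693_pr.FM

open Finset

private theorem pr_false (r t : ℕ) (V : Finset ℕ) (E : Finset (Finset ℕ) → Prop)
    (h : ∀ M, Out r t V M → ¬ E M) : pr r t V E = 0 := by
  apply le_antisymm _ (pr_nonneg r t V E)
  calc pr r t V E ≤ pr r t V (fun M => ∃ i ∈ (∅ : Finset ℕ), (fun _ _ => True) i M) :=
        pr_mono r t V _ _ (fun M hM hE => absurd hE (h M hM))
    _ ≤ ∑ i ∈ (∅ : Finset ℕ), pr r t V ((fun _ _ => True) i) := pr_union r t V ∅ (fun _ _ => True)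
    _ = 0 := by simp

private theorem nu_nonneg (r n : ℕ) (B : Box) : 0 ≤ nu r n B := by
  unfold nu
  positivity

private theorem all_one : ∀ (l : List ℕ), (∀ a ∈ l, 0 < a) → l.sum ≤ l.length → ∀ a ∈ l, a = 1
  | [], _, _, a, ha => by simp at ha
  | b :: l, h, hs, a, ha => by
    have hb : 0 < b := h b (by simp)
    have hl : ∀ a ∈ l, 0 < a := fun a ha => h a (List.mem_cons_of_mem _ ha)
    have hlen : l.length ≤ l.sum := by
      clear ha hs h
      induction l with
      | nil => simp
      | cons c l ih =>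
        have hc := hl c (by simp)
        have := ih (fun a ha => hl a (List.mem_cons_of_mem _ ha))
        simp only [List.length_cons, List.sum_cons]
        omega
    simp only [List.sum_cons, List.length_cons] at hs
    rcases List.mem_cons.1 ha with rfl | ha
    · omega
    · exact all_one l hl (by omega) a ha

private theorem len_le {r : ℕ} {l : List ℕ} (h : Comp r l) : l.length ≤ r := by
  obtain ⟨h1, h2⟩ := h
  rw [← h1]
  clear h1
  induction l with
  | nil => simp
  | cons c l ih =>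
    have hc := h2 c (by simp)
    have := ih (fun a ha => h2 a (List.mem_cons_of_mem _ ha))
    simp only [List.length_cons, List.sum_cons]
    omega

private theorem fam_sub {r n t : ℕ} (hr : 2 ≤ r) (ht : t ≤ n) {M K : Finset (Finset ℕ)}
    (hM : Out r t (range (r * n)) M) (hK : K ⊆ M) : Fam r K := by
  have h := (out_struct r t (by omega) (range (r * n))
    (by rw [card_range]; exact Nat.mul_le_mul_left r ht) M hM).2.1
  exact ⟨fun e he => h.1 e (hK he), fun e he f hf => h.2 e (hK he) f (hK hf)⟩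

theorem cm_zero {r : ℕ} (hr : 2 ≤ r) (P : Set (List Bool)) (j : ℕ) :
    ∃ (C c : ℝ) (a0 : ℕ), 0 < C ∧ 0 < c ∧ Cm r P j 0 C c a0 := by
  obtain ⟨C, c, hC, hc, hadm⟩ := adm_case hr P j
  obtain ⟨c0, hc0, hc01, hsplit⟩ := split hr P
  refine ⟨C, c, 1, hC, hc, ?_⟩
  intro n t B ht htn hB hdy hcomp hj hlen a ha hnu
  by_cases had : Adm r P (shape B)
  · have := hadm n t (2 ^ a) B ht htn Nat.one_le_two_pow hB had hj hnu
    push_cast at this
    exact this
  · have h0 : pr r t (range (r * n)) (Big P B (2 ^ a)) = 0 := by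
      apply pr_false
      rintro M hM ⟨K, hKM, hKc, hKcl, hKin⟩
      have hK2 : 2 ≤ K.card := by
        calc 2 = 2 ^ 1 := by norm_num
          _ ≤ 2 ^ a := Nat.pow_le_pow_right (by norm_num) ha
          _ ≤ K.card := hKc
      obtain ⟨B1, B2, s, lo, L, h, q, p, hBe, _, _, hp, hps, _⟩ :=
        hsplit 0 B hB hdy hcomp had K (fam_sub hr htn hM hKM) hKcl hKin hK2
      have hs : s ∈ shape B := by
        rw [hBe]
        simp [shape]
      have := all_one (shape B) hcomp.2 (by rw [hcomp.1]; simpa using hlen) s hs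
      omega
    rw [h0]
    have h1 := al_nonneg r P j (2 ^ a)
    have h2 := nu_nonneg r n B
    positivity

private theorem rho_two : (2 : ℝ) * (2 : ℝ) ^ (-(3 / 2 : ℝ)) ≤ 3 / 4 := by
  have h1 : (2 : ℝ) * (2 : ℝ) ^ (-(3 / 2 : ℝ)) = (2 : ℝ) ^ (-(1 / 2 : ℝ)) := by
    have : (2 : ℝ) * (2 : ℝ) ^ (-(3 / 2 : ℝ)) = (2 : ℝ) ^ (1 : ℝ) * (2 : ℝ) ^ (-(3 / 2 : ℝ)) := by
      rw [Real.rpow_one]
    rw [this, ← Real.rpow_add (by norm_num)]
    norm_num
  rw [h1, Real.rpow_neg (by norm_num), ← Real.sqrt_eq_rpow]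
  rw [inv_le_comm₀ (by positivity) (by norm_num)]
  apply Real.le_sqrt_of_sq_le
  norm_num

private theorem geo (L : ℕ) : ∑ h ∈ range L, (2 : ℝ) ^ h * ((2 : ℝ) ^ (-(3 / 2 : ℝ))) ^ h ≤ 4 := by
  have h0 : ∀ h, (2 : ℝ) ^ h * ((2 : ℝ) ^ (-(3 / 2 : ℝ))) ^ h ≤ (3 / 4) ^ h := by
    intro h
    rw [← mul_pow]
    exact pow_le_pow_left₀ (by positivity) rho_two h
  calc ∑ h ∈ range L, (2 : ℝ) ^ h * ((2 : ℝ) ^ (-(3 / 2 : ℝ))) ^ h
      ≤ ∑ h ∈ range L, (3 / 4 : ℝ) ^ h := sum_le_sum (fun h _ => h0 h)
    _ ≤ 4 := by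
      have : ∑ h ∈ range L, (3 / 4 : ℝ) ^ h = 4 * (1 - (3 / 4) ^ L) := by
        rw [geom_sum_eq (by norm_num)]
        ring
      rw [this]
      have : (0 : ℝ) ≤ (3 / 4) ^ L := by positivity
      linarith

theorem cm_succ {r : ℕ} (hr : 2 ≤ r) (P : Set (List Bool)) {j m : ℕ}
    (hj : ∃ lam, Adm r P lam ∧ lam.headD 0 ≤ j)
    (h : ∃ (C c : ℝ) (a0 : ℕ), 0 < C ∧ 0 < c ∧ Cm r P j m C c a0) :
    ∃ (C c : ℝ) (a0 : ℕ), 0 < C ∧ 0 < c ∧ Cm r P j (m + 1) C c a0 := by
  obtain ⟨Ca, ca, hCa, hca, hadm⟩ := adm_case hr P j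
  obtain ⟨c0, hc0, hc01, hsplit⟩ := split hr P
  obtain ⟨Ch, ch, a0, hCh, hch, hCm⟩ := h
  obtain ⟨E, c', hE, hc', hterm⟩ := term hr P hCh hch hj hCm hc0 hc01
  refine ⟨Ca + (r : ℝ) * (4 * ((r : ℝ) * E)), min ca c', 1, by positivity, lt_min hca hc', ?_⟩
  intro n t B ht htn hB hdy hcomp hjB hlen a ha hnu
  have hal := al_nonneg r P j (2 ^ a)
  have hnu0 := nu_nonneg r n B
  set A : ℝ := nu r n B * al r P j (2 ^ a) with hA
  have hA0 : 0 ≤ A := mul_nonneg hnu0 hal
  by_cases had : Adm r P (shape B)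
  · have := hadm n t (2 ^ a) B ht htn Nat.one_le_two_pow hB had hjB
      (le_trans hnu (min_le_left _ _))
    push_cast at this
    refine le_trans this ?_
    apply div_le_div_of_nonneg_right _ (by positivity)
    apply mul_le_mul_of_nonneg_right _ hA0
    have : 0 ≤ (r : ℝ) * (4 * ((r : ℝ) * E)) := by positivity
    linarith
  · -- the events
    set X : ℝ := E * A / 2 ^ a with hX
    have hX0 : 0 ≤ X := by positivity
    set ρ : ℝ := (2 : ℝ) ^ (-(3 / 2 : ℝ)) with hρ
    have hρ0 : 0 ≤ ρ := by positivity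
    let Lf : ℕ → ℕ := fun i =>
      Nat.log 2 ((B.getD i (0, 0, 0)).2.2 - (B.getD i (0, 0, 0)).2.1)
    let Ev : ℕ → ℕ → ℕ → ℕ → Finset (Finset ℕ) → Prop := fun i h q p M =>
      p < (B.getD i (0, 0, 0)).1 ∧ 0 < p ∧ ∃ K ⊆ M, c0 * eta r ^ h * (2 : ℝ) ^ a ≤ K.card ∧
        IsClique P K ∧ ∀ e ∈ K, InB (sub (B.take i) (B.getD i (0, 0, 0)).1
          (B.getD i (0, 0, 0)).2.1 (Lf i) (B.drop (i + 1)) h q p) 1 e
    have hEv : ∀ i < B.length, ∀ h < Lf i, ∀ q < 2 ^ h, ∀ p,
        pr r t (range (r * n)) (Ev i h q p) ≤ X * ρ ^ h := by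
      intro i hi h hh q hq p
      by_cases hp : p < (B.getD i (0, 0, 0)).1 ∧ 0 < p
      · have hb : B.getD i (0, 0, 0) = B[i] := by
          simp [List.getD_eq_getElem?_getD, hi]
        have hbm : B.getD i (0, 0, 0) ∈ B := by
          rw [hb]
          exact List.getElem_mem hi
        obtain ⟨L, hL⟩ := hdy _ hbm
        have hLf : Lf i = L := by
          show Nat.log 2 _ = L
          rw [hL, Nat.add_sub_cancel_left, Nat.log_pow (by norm_num)]
        have hBe : B = B.take i ++ ((B.getD i (0, 0, 0)).1, (B.getD i (0, 0, 0)).2.1,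
            (B.getD i (0, 0, 0)).2.1 + 2 ^ L) :: B.drop (i + 1) := by
          have : ((B.getD i (0, 0, 0)).1, (B.getD i (0, 0, 0)).2.1,
            (B.getD i (0, 0, 0)).2.1 + 2 ^ L) = B[i] := by
            rw [← hL, ← hb]
          rw [this]
          conv_lhs => rw [← List.take_append_drop i B]
          rw [List.drop_eq_getElem_cons hi]
        rw [hLf] at hh
        have h1 := hterm n t (B.take i) (B.drop (i + 1)) (B.getD i (0, 0, 0)).1
          (B.getD i (0, 0, 0)).2.1 L h q p a ht htn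
          (by rw [← hBe]; exact hB) (by rw [← hBe]; exact hdy) (by rw [← hBe]; exact hcomp)
          (by rw [← hBe]; exact hjB) (by rw [← hBe]; omega) hh hq hp.2 hp.1
          (by rw [← hBe]; exact le_trans hnu (min_le_right _ _))
        rw [← hBe] at h1
        refine le_trans (pr_mono r t _ _ _ ?_) h1
        rintro M _ ⟨_, _, K, hK1, hK2, hK3, hK4⟩
        refine ⟨K, hK1, hK2, hK3, ?_⟩
        rw [hLf] at hK4
        exact hK4
      · rw [pr_false]
        · positivity
        · rintro M _ ⟨h1, h2, _⟩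
          exact hp ⟨h1, h2⟩
    have hmain : pr r t (range (r * n)) (Big P B (2 ^ a)) ≤
        pr r t (range (r * n)) (fun M => ∃ i ∈ range B.length, (fun i M => ∃ h ∈ range (Lf i),
          (fun h M => ∃ q ∈ range (2 ^ h), (fun q M => ∃ p ∈ range r, Ev i h q p M) q M) h M)
            i M) := by
      apply pr_mono
      rintro M hM ⟨K, hKM, hKc, hKcl, hKin⟩
      have hK2 : 2 ≤ K.card := by
        calc 2 = 2 ^ 1 := by norm_num
          _ ≤ 2 ^ a := Nat.pow_le_pow_right (by norm_num) ha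
          _ ≤ K.card := hKc
      obtain ⟨B1, B2, s, lo, L, h, q, p, hBe, hh, hq, hp, hps, K', hK', hK'c, hK'in⟩ :=
        hsplit 0 B hB hdy hcomp had K (fam_sub hr htn hM hKM) hKcl hKin hK2
      have hi : B1.length < B.length := by
        rw [hBe]
        simp
      have hget : B.getD B1.length (0, 0, 0) = (s, lo, lo + 2 ^ L) := by
        rw [hBe]
        simp [List.getD_eq_getElem?_getD]
      have htake : B.take B1.length = B1 := by
        rw [hBe]
        simp
      have hdrop : B.drop (B1.length + 1) = B2 := by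
        rw [hBe]
        simp [List.drop_append]
      have hLf : Lf B1.length = L := by
        show Nat.log 2 _ = L
        rw [hget]
        show Nat.log 2 (lo + 2 ^ L - lo) = L
        rw [Nat.add_sub_cancel_left, Nat.log_pow (by norm_num)]
      have hsr : s ≤ r := by
        rw [← hcomp.1, hBe]
        simp only [shape, List.map_append, List.map_cons, List.sum_append, List.sum_cons]
        omega
      refine ⟨B1.length, mem_range.2 hi, h, ?_, q, mem_range.2 hq, p, mem_range.2 (by omega), ?_⟩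
      · rw [hLf]
        exact mem_range.2 hh
      · refine ⟨by rw [hget]; exact hps, hp, K', hK'.trans hKM, ?_, ?_, ?_⟩
        · refine le_trans ?_ hK'c
          apply mul_le_mul_of_nonneg_left
          · exact_mod_cast hKc
          · have := eta_pos r
            positivity
        · exact fun e he f hf => hKcl e (hK' he) f (hK' hf)
        · rw [hLf, hget, htake, hdrop]
          exact hK'in
    have hsum : pr r t (range (r * n)) (Big P B (2 ^ a)) ≤
        ∑ i ∈ range B.length, ∑ h ∈ range (Lf i), ∑ q ∈ range (2 ^ h), ∑ p ∈ range r,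
          X * ρ ^ h := by
      refine le_trans hmain (le_trans (pr_union r t _ _ _) ?_)
      apply sum_le_sum
      intro i hi
      refine le_trans (pr_union r t _ _ _) ?_
      apply sum_le_sum
      intro h hh
      refine le_trans (pr_union r t _ _ _) ?_
      apply sum_le_sum
      intro q hq
      refine le_trans (pr_union r t _ _ _) ?_
      apply sum_le_sum
      intro p _
      exact hEv i (mem_range.1 hi) h (mem_range.1 hh) q (mem_range.1 hq) p
    have hlenr : (B.length : ℝ) ≤ r := by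
      have := len_le hcomp
      rw [shape, List.length_map] at this
      exact_mod_cast this
    have hin : ∀ i ∈ range B.length, ∑ h ∈ range (Lf i), ∑ q ∈ range (2 ^ h), ∑ p ∈ range r,
          X * ρ ^ h ≤ 4 * ((r : ℝ) * X) := by
      intro i _
      have h1 : ∀ h ∈ range (Lf i), ∑ q ∈ range (2 ^ h), ∑ p ∈ range r, X * ρ ^ h =
          ((r : ℝ) * X) * (2 ^ h * ρ ^ h) := by
        intro h _
        simp only [sum_const, card_range, nsmul_eq_mul]
        push_cast
        ring
      rw [sum_congr rfl h1, ← mul_sum]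
      have h2 := geo (Lf i)
      have h3 : 0 ≤ (r : ℝ) * X := by positivity
      nlinarith [mul_le_mul_of_nonneg_left h2 h3]
    have hfin : pr r t (range (r * n)) (Big P B (2 ^ a)) ≤ (r : ℝ) * (4 * ((r : ℝ) * X)) := by
      refine le_trans hsum (le_trans (sum_le_sum hin) ?_)
      rw [sum_const, card_range, nsmul_eq_mul]
      apply mul_le_mul_of_nonneg_right hlenr
      positivity
    refine le_trans hfin ?_
    rw [hX]
    have h5 : (r : ℝ) * (4 * ((r : ℝ) * (E * A / 2 ^ a))) =
        ((r : ℝ) * (4 * ((r : ℝ) * E))) * A / 2 ^ a := by ring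
    rw [h5]
    apply div_le_div_of_nonneg_right _ (by positivity)
    apply mul_le_mul_of_nonneg_right _ hA0
    linarith

theorem cm_all {r : ℕ} (hr : 2 ≤ r) (P : Set (List Bool)) {j : ℕ}
    (hj : ∃ lam, Adm r P lam ∧ lam.headD 0 ≤ j) (m : ℕ) :
    ∃ (C c : ℝ) (a0 : ℕ), 0 < C ∧ 0 < c ∧ Cm r P j m C c a0 := by
  induction m with
  | zero => exact cm_zero hr P j
  | succ m ih => exact cm_succ hr P hj ih

end Pool.Agent.Work.MP_7d1693_pr.FM
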