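import Pool.Agent.Work.MP_7d1693_pr.FM.Defs
import Pool.Agent.Work.MP_7d1693_pr.BAD
import Pool.Agent.Work.MP_7d1693_pr.FM.Rec

/-! # Module Top (M): all cliques of the first `t` edges

`a` = least first part of an admissible type; `R0` from `few_bad` (BAD). `2^L1` with `r t ≤ 2^L1 < 2 r t`, `2^L2` with `r n ≤ 2^L2 < 2 r n`. Boxes `B_j = [(j, 0, 2^L1), (r-j, 2^L1, 2^L1 + 2^L2)]` for `j < r`, `B_r = [(r, 0, 2^L1)]`
(ordered, dyadic, compositions with at least one part, head `j`). On outcomes every edge `e` satisfies `e ⊆ range (r n)` and `mn e + r ≤ r t` (`out_struct`: the elements of `range (r n)` below `mn e` are `mn e` many). Let `K` be a clique with `z` edges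
(`exists_clique`), `z ≥ (r+1) x`, `x = 2^a' ≥ R0`. At most `R0 ≤ x` edges have fewer than `a` vertices below `2^L1`; so for some `j` with `a ≤ j ≤ r` at least `x` edges have exactly `j` vertices below `2^L1`, and they are `InB B_j 1`: `Big P B_j x M`.
Union bound over `j`; `Cm r P j (r-1)` (`cm_all`, `j ≥ a` so the hypothesis holds): `pr ≤ ∑_j C nu(B_j) al_j(x)/x` if `nu(B_j) al_j(x) ≤ c`, and `nu(B_j) ≤ (2 r t)^j (2 r n)^(r-j)/n^(r-1) = (2r)^r n (t/n)^j`, so
`nu(B_j) al_j(x) ≤ (2r)^r ∑_{lam adm, head ≤ j} n (t/n)^j phi ≤ (2r)^r θ` with `θ` the sum in the statement (`(t/n)^j ≤ (t/n)^head`). Constants: finitely many `j`. -/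

namespace Pool.Agent.Work.MP_7d1693_pr.FM

open Finset

private theorem exists_dy (m : ℕ) (hm : 1 ≤ m) : ∃ L : ℕ, m ≤ 2 ^ L ∧ 2 ^ L ≤ 2 * m := by
  refine ⟨Nat.log 2 m + 1, (Nat.lt_pow_succ_log_self (by norm_num) m).le, ?_⟩
  have := Nat.pow_log_le_self 2 (show m ≠ 0 by omega)
  rw [pow_succ]
  omega

private def tbox (r j X Y : ℕ) : Box :=
  if j < r then [(j, 0, X), (r - j, X, X + Y)] else [(r, 0, X)]

private theorem phi_nonneg_top (r : ℕ) (P : Set (List Bool)) (lam : List ℕ) (k : ℕ) :
    0 ≤ phi r P lam k := by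
  unfold phi
  positivity

private theorem tbox_props (r j L1 L2 : ℕ) (hj : 1 ≤ j) (hjr : j ≤ r) :
    BOrd 0 (tbox r j (2 ^ L1) (2 ^ L2)) ∧ Dy (tbox r j (2 ^ L1) (2 ^ L2)) ∧
      Comp r (shape (tbox r j (2 ^ L1) (2 ^ L2))) ∧
      (shape (tbox r j (2 ^ L1) (2 ^ L2))).headD 0 ≤ j ∧
      1 ≤ (shape (tbox r j (2 ^ L1) (2 ^ L2))).length ∧
      volB (tbox r j (2 ^ L1) (2 ^ L2)) = (2 ^ L1) ^ j * (2 ^ L2) ^ (r - j) := by
  unfold tbox
  split_ifs with h
  · refine ⟨?_, ?_, ?_, ?_, ?_, ?_⟩
    · simp [BOrd]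
    · intro b hb
      simp only [List.mem_cons, List.not_mem_nil, or_false] at hb
      rcases hb with rfl | rfl
      · exact ⟨L1, by simp⟩
      · exact ⟨L2, by simp⟩
    · constructor
      · simp only [shape, List.map_cons, List.map_nil, List.sum_cons, List.sum_nil]
        omega
      · intro a ha
        simp only [shape, List.map_cons, List.map_nil, List.mem_cons, List.not_mem_nil,
          or_false] at ha
        omega
    · simp [shape]
    · simp [shape]
    · simp [volB]
  · have hjr' : j = r := by omega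
    subst hjr'
    refine ⟨?_, ?_, ?_, ?_, ?_, ?_⟩
    · simp [BOrd]
    · intro b hb
      simp only [List.mem_cons, List.not_mem_nil, or_false] at hb
      subst hb
      exact ⟨L1, by simp⟩
    · constructor
      · simp [shape]
      · intro a ha
        simp only [shape, List.map_cons, List.map_nil, List.mem_cons, List.not_mem_nil,
          or_false] at ha
        omega
    · simp [shape]
    · simp [shape]
    · simp [volB]

private theorem nu_tbox (r j n t L1 L2 : ℕ) (hr : 1 ≤ r) (hj : 1 ≤ j) (hjr : j ≤ r)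
    (hn : 1 ≤ n) (h1 : 2 ^ L1 ≤ 2 * (r * t)) (h2 : 2 ^ L2 ≤ 2 * (r * n)) :
    nu r n (tbox r j (2 ^ L1) (2 ^ L2)) ≤
      (2 * (r : ℝ)) ^ r * ((n : ℝ) * ((t : ℝ) / n) ^ j) := by
  unfold nu
  rw [(tbox_props r j L1 L2 hj hjr).2.2.2.2.2]
  have hn0 : (0 : ℝ) < n := by exact_mod_cast hn
  rw [div_le_iff₀ (by positivity)]
  have e1 : ((2 : ℝ) ^ L1) ≤ 2 * r * t := by
    have : ((2 ^ L1 : ℕ) : ℝ) ≤ ((2 * (r * t) : ℕ) : ℝ) := by exact_mod_cast h1
    push_cast at this
    linarith
  have e2 : ((2 : ℝ) ^ L2) ≤ 2 * r * n := by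
    have : ((2 ^ L2 : ℕ) : ℝ) ≤ ((2 * (r * n) : ℕ) : ℝ) := by exact_mod_cast h2
    push_cast at this
    linarith
  push_cast
  calc ((2 : ℝ) ^ L1) ^ j * ((2 : ℝ) ^ L2) ^ (r - j)
      ≤ (2 * r * t) ^ j * (2 * r * n) ^ (r - j) := by gcongr
    _ = (2 * (r : ℝ)) ^ r * ((t : ℝ) ^ j * (n : ℝ) ^ (r - j)) := by
        rw [mul_pow, mul_pow (2 * (r : ℝ)) (n : ℝ)]
        have : (2 * (r : ℝ)) ^ r = (2 * (r : ℝ)) ^ j * (2 * (r : ℝ)) ^ (r - j) := by
          rw [← pow_add]; congr 1; omega
        rw [this]; ring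
    _ = (2 * (r : ℝ)) ^ r * ((n : ℝ) * ((t : ℝ) / n) ^ j) * (n : ℝ) ^ (r - 1) := by
        rw [div_pow]
        have : (n : ℝ) * (n : ℝ) ^ (r - 1) = (n : ℝ) ^ j * (n : ℝ) ^ (r - j) := by
          rw [← pow_succ', ← pow_add]; congr 1; omega
        have hnj : (n : ℝ) ^ j ≠ 0 := by positivity
        field_simp
        linear_combination (-(t : ℝ) ^ j) * this

private theorem inB_tbox (r j X Y : ℕ) (hjr : j ≤ r) (e : Finset ℕ) (he : e.card = r)
    (hY : ∀ v ∈ e, v < Y) (hj : (e.filter (fun x => x < X)).card = j) :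
    InB (tbox r j X Y) 1 e := by
  have hA : (e.filter (fun v => 0 ≤ v ∧ v < X)) = e.filter (fun x => x < X) := by
    apply Finset.filter_congr
    intro v _
    simp
  have hB : (e.filter (fun v => X ≤ v ∧ v < X + Y)) = e.filter (fun x => ¬ x < X) := by
    apply Finset.filter_congr
    intro v hv
    have := hY v hv
    constructor
    · intro h; omega
    · intro h; omega
  have hsum := Finset.card_filter_add_card_filter_not (s := e) (fun x => x < X)
  unfold tbox
  split_ifs with h
  · intro b hb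
    simp only [List.mem_cons, List.not_mem_nil, or_false] at hb
    rcases hb with rfl | rfl
    · simp only [one_mul]
      rw [hA, hj]
    · simp only [one_mul]
      rw [hB]
      omega
  · intro b hb
    simp only [List.mem_cons, List.not_mem_nil, or_false] at hb
    subst hb
    simp only [one_mul]
    rw [hA, hj]
    omega

open Classical in
theorem top {r : ℕ} (hr : 2 ≤ r) {P : Set (List Bool)} (hP : ∃ lam, Adm r P lam) :
    ∃ (C c : ℝ) (a0 : ℕ), 0 < C ∧ 0 < c ∧ ∀ n t a : ℕ, 1 ≤ t → t ≤ n → a0 ≤ a →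
      ∑ lam ∈ (comps r).filter (fun lam => Adm r P lam),
        (n : ℝ) * ((t : ℝ) / n) ^ (lam.headD 0) * phi r P lam (2 ^ a) ≤ c →
      pr r t (range (r * n)) (fun M => (r + 1) * 2 ^ a ≤ z P M) ≤ C / 2 ^ a := by
  -- the least first part
  have hex : ∃ A : ℕ, ∃ lam, Adm r P lam ∧ lam.headD 0 = A := by
    obtain ⟨lam, h⟩ := hP
    exact ⟨_, lam, h, rfl⟩
  obtain ⟨lam0, hlam0, hA0⟩ := Nat.find_spec hex
  set A := Nat.find hex with hAdef
  have hAmin : ∀ lam, Adm r P lam → A ≤ lam.headD 0 := by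
    intro lam h
    exact Nat.find_min' hex ⟨lam, h, rfl⟩
  have hA1 : 1 ≤ A := by
    have hc := adm_comp hlam0
    rcases lam0 with _ | ⟨x, l⟩
    · have := hc.1
      simp at this
      omega
    · have := hc.2 x (by simp)
      rw [← hA0]
      simp only [List.headD_cons]
      omega
  have hj : ∀ j, A ≤ j → ∃ lam, Adm r P lam ∧ lam.headD 0 ≤ j := by
    intro j hAj
    exact ⟨lam0, hlam0, by omega⟩
  obtain ⟨R0, hR0⟩ := few_bad r hr P A (by
    intro w hw lam a' hsum hT
    have := hAmin (a' :: lam) ⟨hsum, w, hw, hT⟩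
    simpa using this)
  have hcm : ∀ j : ℕ, ∃ (C c : ℝ) (a0 : ℕ), 0 < C ∧ 0 < c ∧ (A ≤ j → Cm r P j (r - 1) C c a0) := by
    intro j
    by_cases h : A ≤ j
    · obtain ⟨C, c, a0, h1, h2, h3⟩ := cm_all hr P (hj j h) (r - 1)
      exact ⟨C, c, a0, h1, h2, fun _ => h3⟩
    · exact ⟨1, 1, 0, one_pos, one_pos, fun h' => absurd h' h⟩
  choose Cf cf af hCf hcf hcmf using hcm
  obtain ⟨j0, hj0, hmin⟩ := Finset.exists_min_image (range (r + 1)) cf ⟨0, by simp⟩
  have hr0 : (0 : ℝ) < 2 * (r : ℝ) := by
    have : 0 < r := by omega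
    positivity
  have hq : (0 : ℝ) < (2 * (r : ℝ)) ^ r := by positivity
  refine ⟨∑ j ∈ range (r + 1), Cf j * cf j, cf j0 / (2 * (r : ℝ)) ^ r,
    (range (r + 1)).sup af + R0, ?_, div_pos (hcf j0) hq, ?_⟩
  · apply Finset.sum_pos
    · intro j _
      exact mul_pos (hCf j) (hcf j)
    · exact ⟨0, by simp⟩
  intro n t a ht htn ha hθ
  have hn : 1 ≤ n := le_trans ht htn
  have hn0 : (0 : ℝ) < n := by exact_mod_cast hn
  have ht0 : (0 : ℝ) < t := by exact_mod_cast ht
  have hrt : 1 ≤ r * t := Nat.mul_pos (by omega) ht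
  have hrn : 1 ≤ r * n := Nat.mul_pos (by omega) hn
  obtain ⟨L1, hL1, hL1'⟩ := exists_dy (r * t) hrt
  obtain ⟨L2, hL2, hL2'⟩ := exists_dy (r * n) hrn
  have hR0x : R0 ≤ 2 ^ a := le_trans (le_trans (by omega) ha) (Nat.lt_two_pow_self).le
  -- inclusion of events
  have hincl : pr r t (range (r * n)) (fun M => (r + 1) * 2 ^ a ≤ z P M) ≤
      pr r t (range (r * n)) (fun M => ∃ j ∈ Finset.Icc A r,
        Big P (tbox r j (2 ^ L1) (2 ^ L2)) (2 ^ a) M) := by
    apply pr_mono
    intro M hM hz
    obtain ⟨-, hFam, hsub⟩ := out_struct r t (by omega) (range (r * n))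
      (by rw [card_range]; exact Nat.mul_le_mul_left r htn) M hM
    have hne : (M.powerset.filter fun K => IsClique P K).Nonempty := by
      refine ⟨∅, ?_⟩
      rw [Finset.mem_filter]
      refine ⟨by simp, ?_⟩
      intro e he
      simp at he
    obtain ⟨K, hK, hKz⟩ := Finset.exists_mem_eq_sup _ hne Finset.card
    rw [Finset.mem_filter, Finset.mem_powerset] at hK
    obtain ⟨hKM, hKc⟩ := hK
    have hKcard : (r + 1) * 2 ^ a ≤ K.card := by
      unfold z at hz
      rw [hKz] at hz
      exact hz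
    have hFamK : Fam r K := ⟨fun e he => hFam.1 e (hKM he),
      fun e he f hf => hFam.2 e (hKM he) f (hKM hf)⟩
    have hmn : ∀ e ∈ K, mn e < 2 ^ L1 := by
      intro e he
      have hcard := hFamK.1 e he
      have hne' : e.Nonempty := Finset.card_pos.1 (by omega)
      have hmem := mn_mem e hne'
      obtain ⟨hs1, hs2⟩ := hsub e (hKM he)
      have hlt : mn e < r * n := by simpa using hs1 hmem
      have : (range (r * n)).filter (fun x => x < mn e) = range (mn e) := by
        ext x
        simp only [Finset.mem_filter, Finset.mem_range]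
        omega
      rw [this, card_range] at hs2
      omega
    have hfew := hR0 K (2 ^ L1) hFamK hKc hmn
    -- pigeonhole
    have hsplit := Finset.card_filter_add_card_filter_not (s := K)
      (fun e => (e.filter (fun x => x < 2 ^ L1)).card < A)
    have hgood : r * 2 ^ a ≤
        (K.filter (fun e => ¬ (e.filter (fun x => x < 2 ^ L1)).card < A)).card := by
      have : (r + 1) * 2 ^ a = r * 2 ^ a + 2 ^ a := by ring
      omega
    have hsum : (K.filter (fun e => ¬ (e.filter (fun x => x < 2 ^ L1)).card < A)).card =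
        ∑ j ∈ Finset.Icc A r,
          (K.filter (fun e => (e.filter (fun x => x < 2 ^ L1)).card = j)).card := by
      rw [Finset.card_eq_sum_card_fiberwise
        (f := fun e : Finset ℕ => (e.filter (fun x => x < 2 ^ L1)).card) (t := Finset.Icc A r)]
      · apply Finset.sum_congr rfl
        intro j hj'
        congr 1
        ext e
        simp only [Finset.mem_filter, Finset.mem_Icc] at hj' ⊢
        constructor
        · rintro ⟨⟨h1, -⟩, h2⟩
          exact ⟨h1, h2⟩
        · rintro ⟨h1, h2⟩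
          exact ⟨⟨h1, by omega⟩, h2⟩
      · intro e he
        have he' := (Finset.mem_filter.1 (Finset.mem_coe.1 he))
        have hle : (e.filter (fun x => x < 2 ^ L1)).card ≤ r := by
          have := Finset.card_filter_le e (fun x => x < 2 ^ L1)
          rw [hFamK.1 e he'.1] at this
          exact this
        simp only [Finset.coe_Icc, Set.mem_Icc]
        exact ⟨by omega, hle⟩
    have hpig : ∃ j ∈ Finset.Icc A r, 2 ^ a ≤
        (K.filter (fun e => (e.filter (fun x => x < 2 ^ L1)).card = j)).card := by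
      by_contra hcon
      push Not at hcon
      rcases (Finset.Icc A r).eq_empty_or_nonempty with hemp | hnon
      · rw [hemp, Finset.sum_empty] at hsum
        have : 0 < r * 2 ^ a := Nat.mul_pos (by omega) (by positivity)
        omega
      · have h1 := Finset.sum_lt_sum_of_nonempty hnon hcon
        rw [← hsum, Finset.sum_const, smul_eq_mul, Nat.card_Icc] at h1
        have h2 : (r + 1 - A) * 2 ^ a ≤ r * 2 ^ a := Nat.mul_le_mul_right _ (by omega)
        omega
    obtain ⟨j, hj', hjx⟩ := hpig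
    refine ⟨j, hj', _, ?_, hjx, ?_, ?_⟩
    · exact fun e he => hKM (Finset.mem_filter.1 he).1
    · intro e he f hf
      exact hKc e (Finset.mem_filter.1 he).1 f (Finset.mem_filter.1 hf).1
    · intro e he
      rw [Finset.mem_filter] at he
      apply inB_tbox r j (2 ^ L1) (2 ^ L2) (Finset.mem_Icc.1 hj').2 e (hFamK.1 e he.1) _ he.2
      intro v hv
      have := (hsub e (hKM he.1)).1 hv
      rw [Finset.mem_range] at this
      omega
  refine le_trans hincl (le_trans (pr_union r t _ _ _) ?_)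
  rw [Finset.sum_div]
  have hx0 : (0 : ℝ) < 2 ^ a := by positivity
  refine le_trans (Finset.sum_le_sum (g := fun j => Cf j * cf j / 2 ^ a) ?_) ?_
  · intro j hj'
    rw [Finset.mem_Icc] at hj'
    have hj1 : 1 ≤ j := by omega
    obtain ⟨p1, p2, p3, p4, p5, p6⟩ := tbox_props r j L1 L2 hj1 hj'.2
    have haj : af j ≤ a := by
      have : af j ≤ (range (r + 1)).sup af :=
        Finset.le_sup (f := af) (Finset.mem_range.2 (by omega))
      omega
    have hal0 : 0 ≤ al r P j (2 ^ a) := by
      unfold al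
      exact Finset.sum_nonneg fun _ _ => phi_nonneg_top _ _ _ _
    have hle : nu r n (tbox r j (2 ^ L1) (2 ^ L2)) * al r P j (2 ^ a) ≤ cf j := by
      calc nu r n (tbox r j (2 ^ L1) (2 ^ L2)) * al r P j (2 ^ a)
          ≤ ((2 * (r : ℝ)) ^ r * ((n : ℝ) * ((t : ℝ) / n) ^ j)) * al r P j (2 ^ a) :=
            mul_le_mul_of_nonneg_right
              (nu_tbox r j n t L1 L2 (by omega) hj1 hj'.2 hn hL1' hL2') hal0
        _ = (2 * (r : ℝ)) ^ r * ∑ lam ∈ (comps r).filter
              (fun lam => Adm r P lam ∧ lam.headD 0 ≤ j),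
              (n : ℝ) * ((t : ℝ) / n) ^ j * phi r P lam (2 ^ a) := by
            unfold al
            rw [mul_assoc, Finset.mul_sum]
        _ ≤ (2 * (r : ℝ)) ^ r * ∑ lam ∈ (comps r).filter (fun lam => Adm r P lam),
              (n : ℝ) * ((t : ℝ) / n) ^ (lam.headD 0) * phi r P lam (2 ^ a) := by
            apply mul_le_mul_of_nonneg_left _ hq.le
            refine le_trans (Finset.sum_le_sum (g := fun lam =>
              (n : ℝ) * ((t : ℝ) / n) ^ (lam.headD 0) * phi r P lam (2 ^ a)) ?_) ?_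
            · intro lam hlam
              rw [Finset.mem_filter] at hlam
              apply mul_le_mul_of_nonneg_right _ (phi_nonneg_top _ _ _ _)
              apply mul_le_mul_of_nonneg_left _ hn0.le
              apply pow_le_pow_of_le_one (by positivity) _ hlam.2.2
              rw [div_le_one hn0]
              exact_mod_cast htn
            · apply Finset.sum_le_sum_of_subset_of_nonneg
              · intro lam hlam
                rw [Finset.mem_filter] at hlam ⊢
                exact ⟨hlam.1, hlam.2.1⟩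
              · intro lam _ _
                have := phi_nonneg_top r P lam (2 ^ a)
                positivity
        _ ≤ (2 * (r : ℝ)) ^ r * (cf j0 / (2 * (r : ℝ)) ^ r) :=
            mul_le_mul_of_nonneg_left hθ hq.le
        _ = cf j0 := by field_simp
        _ ≤ cf j := hmin j (Finset.mem_range.2 (by omega))
    have h := hcmf j hj'.1 n t (tbox r j (2 ^ L1) (2 ^ L2)) ht htn p1 p2 p3 p4
      (by omega) a haj hle
    refine le_trans h ?_
    apply div_le_div_of_nonneg_right _ hx0.le
    exact mul_le_mul_of_nonneg_left hle (hCf j).le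
  · apply Finset.sum_le_sum_of_subset_of_nonneg
    · intro j hj'
      rw [Finset.mem_Icc] at hj'
      exact Finset.mem_range.2 (by omega)
    · intro j _ _
      have := hCf j
      have := hcf j
      positivity

end Pool.Agent.Work.MP_7d1693_pr.FM
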