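import Pool.Agent.Work.MP_7d1693_pr.FM.Defs
import Pool.Agent.Work.MP_7d1693_pr.FM.Top
import Pool.Agent.Work.MP_7d1693_pr.FM.PhiReg

/-! # Module UpMain (S): the upper bound

`C0, c0, a0` from `top`; `C1` = largest constant of `phi_reg` over the admissible types (finite: `comps r`); `N` = number of compositions. `c = c0 / (N C1 (2(r+1))^r)`. If `k < (r+1) 2^a0` the bound is trivial with `C ≥ (r+1) 2^a0` (`pr ≤ 1`).
Otherwise let `a ≥ a0` with `(r+1) 2^a ≤ k < (r+1) 2^(a+1)`. `2^a ≤ k`, `phi (2^a) ≤ C1 (k/2^a)^r phi k ≤ C1 (2(r+1))^r phi k`, so the sum in `top` is `≤ N C1 (2(r+1))^r c = c0` and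
`pr (k ≤ z) ≤ pr ((r+1) 2^a ≤ z) ≤ C0/2^a ≤ 2 (r+1) C0/k`. -/

namespace Pool.Agent.Work.MP_7d1693_pr.FM

open Finset

theorem up_main {r : ℕ} (hr : 2 ≤ r) {P : Set (List Bool)} (hP : ∃ lam, Adm r P lam) :
    ∃ C c : ℝ, 1 ≤ C ∧ 0 < c ∧ ∀ n t k : ℕ, 1 ≤ t → t ≤ n → 1 ≤ k →
      (∀ lam, Adm r P lam → (n : ℝ) * ((t : ℝ) / n) ^ (lam.headD 0) * phi r P lam k ≤ c) →
      pr r t (range (r * n)) (fun M => k ≤ z P M) ≤ C / k := by
  classical
  obtain ⟨C0, c0, a0, hC0, hc0, htop⟩ := top hr hP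
  have hr1 : 1 ≤ r := by omega
  set F := (comps r).filter (fun lam => Adm r P lam) with hF
  -- a common constant
  have hC1 : ∃ C1 : ℝ, 1 ≤ C1 ∧ ∀ lam, Adm r P lam → ∀ j k : ℕ, 1 ≤ j → j ≤ k →
      phi r P lam j ≤ C1 * ((k : ℝ) / j) ^ r * phi r P lam k := by
    have hch : ∀ lam, ∃ C : ℝ, 1 ≤ C ∧ (Adm r P lam → ∀ j k : ℕ, 1 ≤ j → j ≤ k →
        phi r P lam j ≤ C * ((k : ℝ) / j) ^ r * phi r P lam k) := by
      intro lam
      by_cases h : Adm r P lam
      · obtain ⟨C, hC, hC2⟩ := phi_reg hr1 h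
        exact ⟨C, hC, fun _ j k hj hk => (hC2 j k hj hk).2⟩
      · exact ⟨1, le_refl _, fun h' => absurd h' h⟩
    choose g hg1 hg2 using hch
    refine ⟨1 + ∑ lam ∈ F, g lam, ?_, ?_⟩
    · have : 0 ≤ ∑ lam ∈ F, g lam := Finset.sum_nonneg fun lam _ => by linarith [hg1 lam]
      linarith
    · intro lam hlam j k hj hk
      have hmem : lam ∈ F := by
        rw [hF, Finset.mem_filter]
        exact ⟨mem_comps.2 (adm_comp hlam), hlam⟩
      have hle : g lam ≤ 1 + ∑ lam ∈ F, g lam := by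
        have := Finset.single_le_sum (f := g) (fun l _ => by linarith [hg1 l]) hmem
        linarith
      refine (hg2 lam hlam j k hj hk).trans ?_
      apply mul_le_mul_of_nonneg_right _ (phi_nonneg _ _ _ _)
      exact mul_le_mul_of_nonneg_right hle (by positivity)
  obtain ⟨C1, hC11, hC12⟩ := hC1
  have hNpos : (0 : ℝ) < F.card := by
    obtain ⟨lam, hlam⟩ := hP
    have : lam ∈ F := by
      rw [hF, Finset.mem_filter]
      exact ⟨mem_comps.2 (adm_comp hlam), hlam⟩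
    exact_mod_cast Finset.card_pos.2 ⟨lam, this⟩
  have hD : (0 : ℝ) < F.card * C1 * (2 * ((r : ℝ) + 1)) ^ r := by positivity
  refine ⟨((r : ℝ) + 1) * 2 ^ a0 + 2 * ((r : ℝ) + 1) * C0,
    c0 / (F.card * C1 * (2 * ((r : ℝ) + 1)) ^ r), ?_, div_pos hc0 hD, ?_⟩
  · have h1 : (1 : ℝ) ≤ 2 ^ a0 := one_le_pow₀ (by norm_num)
    have h2 : (0 : ℝ) ≤ r := Nat.cast_nonneg r
    have h3 : 0 ≤ 2 * ((r : ℝ) + 1) * C0 := by positivity
    nlinarith
  intro n t k ht htn hk hyp
  have hkpos : (0 : ℝ) < k := by exact_mod_cast hk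
  by_cases hsmall : k < (r + 1) * 2 ^ a0
  · have h1 : (k : ℝ) ≤ ((r : ℝ) + 1) * 2 ^ a0 := by exact_mod_cast hsmall.le
    have h3 : 0 ≤ 2 * ((r : ℝ) + 1) * C0 := by positivity
    refine (pr_le_one _ _ _ _).trans ?_
    rw [le_div_iff₀ hkpos]
    linarith
  · have hbig : (r + 1) * 2 ^ a0 ≤ k := not_lt.1 hsmall
    have hdiv : 2 ^ a0 ≤ k / (r + 1) := by
      rw [Nat.le_div_iff_mul_le (by omega)]
      rw [mul_comm]; exact hbig
    have hne : k / (r + 1) ≠ 0 := by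
      have : 0 < 2 ^ a0 := by positivity
      omega
    obtain ⟨a, ha⟩ : ∃ a, a = Nat.log 2 (k / (r + 1)) := ⟨_, rfl⟩
    have ha0 : a0 ≤ a := by
      rw [ha]
      exact Nat.le_log_of_pow_le (by norm_num) hdiv
    have h1 : 2 ^ a ≤ k / (r + 1) := by
      rw [ha]; exact Nat.pow_log_le_self 2 hne
    have h2 : k / (r + 1) < 2 ^ (a + 1) := by
      rw [ha]; exact Nat.lt_pow_succ_log_self (by norm_num) _
    have h3 : (r + 1) * 2 ^ a ≤ k := by
      rw [mul_comm]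
      exact (Nat.le_div_iff_mul_le (by omega)).1 h1
    have h4 : k < 2 ^ (a + 1) * (r + 1) := (Nat.div_lt_iff_lt_mul (by omega)).1 h2
    have h5 : 2 ^ a ≤ k := by
      refine le_trans ?_ h3
      exact Nat.le_mul_of_pos_left _ (by omega)
    have hpa : (0 : ℝ) < 2 ^ a := by positivity
    have h6 : (k : ℝ) / ((2 ^ a : ℕ) : ℝ) ≤ 2 * ((r : ℝ) + 1) := by
      push_cast
      rw [div_le_iff₀ hpa]
      have : (k : ℝ) < 2 ^ (a + 1) * ((r : ℝ) + 1) := by exact_mod_cast h4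
      rw [pow_succ] at this
      linarith
    have hsum : ∑ lam ∈ F,
        (n : ℝ) * ((t : ℝ) / n) ^ (lam.headD 0) * phi r P lam (2 ^ a) ≤ c0 := by
      have hterm : ∀ lam ∈ F,
          (n : ℝ) * ((t : ℝ) / n) ^ (lam.headD 0) * phi r P lam (2 ^ a) ≤
            C1 * (2 * ((r : ℝ) + 1)) ^ r *
              (c0 / (F.card * C1 * (2 * ((r : ℝ) + 1)) ^ r)) := by
        intro lam hlam
        have hadm : Adm r P lam := by
          rw [hF, Finset.mem_filter] at hlam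
          exact hlam.2
        have e1 := hC12 lam hadm (2 ^ a) k Nat.one_le_two_pow h5
        have e2 := hyp lam hadm
        have e3 : phi r P lam (2 ^ a) ≤ C1 * (2 * ((r : ℝ) + 1)) ^ r * phi r P lam k := by
          refine e1.trans ?_
          apply mul_le_mul_of_nonneg_right _ (phi_nonneg _ _ _ _)
          apply mul_le_mul_of_nonneg_left _ (by linarith)
          exact pow_le_pow_left₀ (by positivity) h6 r
        calc (n : ℝ) * ((t : ℝ) / n) ^ (lam.headD 0) * phi r P lam (2 ^ a)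
            ≤ (n : ℝ) * ((t : ℝ) / n) ^ (lam.headD 0) *
                (C1 * (2 * ((r : ℝ) + 1)) ^ r * phi r P lam k) :=
              mul_le_mul_of_nonneg_left e3 (by positivity)
          _ = C1 * (2 * ((r : ℝ) + 1)) ^ r *
                ((n : ℝ) * ((t : ℝ) / n) ^ (lam.headD 0) * phi r P lam k) := by ring
          _ ≤ _ := mul_le_mul_of_nonneg_left e2 (by positivity)
      refine (Finset.sum_le_sum hterm).trans ?_
      rw [Finset.sum_const, nsmul_eq_mul]
      apply le_of_eq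
      field_simp
    have hmain := htop n t a ht htn ha0 hsum
    have hmono : pr r t (range (r * n)) (fun M => k ≤ z P M) ≤
        pr r t (range (r * n)) (fun M => (r + 1) * 2 ^ a ≤ z P M) :=
      pr_mono r t _ _ _ (fun M _ h => h3.trans h)
    refine (hmono.trans hmain).trans ?_
    rw [div_le_div_iff₀ hpa hkpos]
    have h7 : (k : ℝ) ≤ 2 * ((r : ℝ) + 1) * 2 ^ a := by
      have : (k : ℝ) < 2 ^ (a + 1) * ((r : ℝ) + 1) := by exact_mod_cast h4
      rw [pow_succ] at this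
      linarith
    have h8 : C0 * (k : ℝ) ≤ C0 * (2 * ((r : ℝ) + 1) * 2 ^ a) :=
      mul_le_mul_of_nonneg_left h7 hC0.le
    have h9 : 0 ≤ ((r : ℝ) + 1) * 2 ^ a0 * 2 ^ a := by positivity
    nlinarith

end Pool.Agent.Work.MP_7d1693_pr.FM
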