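import Pool.Agent.Work.MP_7d1693_pr.FM.Defs
import Pool.Agent.Work.MP_7d1693_pr.FM.LowMain
import Pool.Agent.Work.MP_7d1693_pr.FM.UpMain
import Pool.Agent.Work.MP_7d1693_pr.FM.PhiReg

/-! # Module Fin1 (S-M): the order of magnitude (Q1)

`G = gg r P n t = sSup {k | ∃ lam, Adm ∧ k^(r k) ≤ (n (t/n)^(λ_1))^k ac_k}`; for `k ≥ 1` the condition is `1 ≤ ν_lam phi_lam(k)` (`phi_pow`); `k = 0` always satisfies it (`ac_zero` or `pow_zero`). The set is bounded: `phi k ≤ C/k` (`phi_reg`, `phi_one`) and finitely many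
types. So `G` is in the set and `G + 1` is not. `C1` = largest constant of `phi_reg`, `C2` of `low_main`, `C3, c3` of `up_main`.
* Lower: `G ≥ 1`, `ν phi(G) ≥ 1` for some `lam`. For `1 ≤ k ≤ G/(C1 C2)`: `phi G ≤ C1 (k/G) phi k`, so `ν phi k ≥ G/(C1 k) ≥ C2`, `low_main`: `pr (z < k) ≤ C2/k`. Take `k = ⌊G/(C1 C2)⌋` if `G ≥ C1 C2` (then `k ≥ G/(2 C1 C2)`), `c = 1/(2 C1 C2)`; if
  `G < C1 C2` the right side `C/G ≥ 1` with `C ≥ C1 C2`. If `G = 0` the event `z < 0` is impossible.
* Upper: `m ≥ C1/c3`, `k = ⌈m (G+1)⌉ ≥ G+1`: `ν phi k ≤ C1 ((G+1)/k) ν phi (G+1) ≤ C1/m ≤ c3`, `up_main`: `pr (k ≤ z) ≤ C3/k ≤ C3/(m (G+1))`, and `m (G+1) ≤ z` implies `k ≤ z`. -/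

namespace Pool.Agent.Work.MP_7d1693_pr.FM

open Finset

/-- the largest `k` with `k^(rk) ≤ (n (t/n)^(λ_1))^k a_k` for some block type `λ` of a word of `P` -/
noncomputable def gg (r : ℕ) (P : Set (List Bool)) (n t : ℕ) : ℕ :=
  sSup {k : ℕ | ∃ lam, Adm r P lam ∧
    (k : ℝ) ^ (r * k) ≤ ((n : ℝ) * ((t : ℝ) / n) ^ (lam.headD 0)) ^ k * ac r P lam k}

private theorem pr_imp (r t : ℕ) (V : Finset ℕ) (E : Finset (Finset ℕ) → Prop)
    (h : ∀ M, ¬ E M) : pr r t V E ≤ 0 := by
  classical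
  induction t generalizing V E with
  | zero =>
    rw [pr_zero, if_neg (h ∅)]
  | succ t ih =>
    rw [pr_succ]
    apply div_nonpos_of_nonpos_of_nonneg _ (Nat.cast_nonneg _)
    exact Finset.sum_nonpos fun S _ => ih _ _ fun M => h _

private theorem const {r : ℕ} (hr : 1 ≤ r) (P : Set (List Bool)) :
    ∃ C1 : ℝ, 1 ≤ C1 ∧ ∀ lam, Adm r P lam → ∀ j k : ℕ, 1 ≤ j → j ≤ k →
      phi r P lam k ≤ C1 * ((j : ℝ) / k) * phi r P lam j := by
  classical
  have hch : ∀ lam, ∃ C : ℝ, 1 ≤ C ∧ (Adm r P lam → ∀ j k : ℕ, 1 ≤ j → j ≤ k →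
      phi r P lam k ≤ C * ((j : ℝ) / k) * phi r P lam j) := by
    intro lam
    by_cases h : Adm r P lam
    · obtain ⟨C, hC, hC2⟩ := phi_reg hr h
      exact ⟨C, hC, fun _ j k hj hk => (hC2 j k hj hk).1⟩
    · exact ⟨1, le_refl _, fun h' => absurd h' h⟩
  choose g hg1 hg2 using hch
  set F := (comps r).filter (fun lam => Adm r P lam) with hF
  refine ⟨1 + ∑ lam ∈ F, g lam, ?_, ?_⟩
  · have : 0 ≤ ∑ lam ∈ F, g lam := Finset.sum_nonneg fun lam _ => by linarith [hg1 lam]
    linarith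
  · intro lam hlam j k hj hk
    have hmem : lam ∈ F := by
      rw [hF, Finset.mem_filter]
      exact ⟨mem_comps.2 (adm_comp hlam), hlam⟩
    have hle : g lam ≤ 1 + ∑ lam ∈ F, g lam := by
      have := Finset.single_le_sum (f := g) (fun l _ => by linarith [hg1 l]) hmem
      linarith
    refine (hg2 lam hlam j k hj hk).trans ?_
    apply mul_le_mul_of_nonneg_right _ (phi_nonneg _ _ _ _)
    exact mul_le_mul_of_nonneg_right hle (by positivity)

private theorem cond_iff {r : ℕ} (P : Set (List Bool)) (lam : List ℕ) {ν : ℝ} (hν : 0 ≤ ν) {k : ℕ}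
    (hk : 1 ≤ k) :
    (k : ℝ) ^ (r * k) ≤ ν ^ k * ac r P lam k ↔ 1 ≤ ν * phi r P lam k := by
  have hkp : (0 : ℝ) < k := by exact_mod_cast hk
  have h1 : (0 : ℝ) < (k : ℝ) ^ (r * k) := by positivity
  have h2 : 0 ≤ ν * phi r P lam k := mul_nonneg hν (phi_nonneg _ _ _ _)
  rw [← phi_pow r P lam hk, ← mul_assoc, ← mul_pow]
  constructor
  · intro h
    have h3 : 1 ≤ (ν * phi r P lam k) ^ k := by
      by_contra hcon
      have h4 : (ν * phi r P lam k) ^ k < 1 := not_le.1 hcon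
      have h5 := mul_lt_mul_of_pos_right h4 h1
      linarith
    by_contra hcon
    have h6 : (ν * phi r P lam k) ^ k < 1 := pow_lt_one₀ h2 (not_le.1 hcon) (by omega)
    linarith
  · intro h
    have h3 : 1 ≤ (ν * phi r P lam k) ^ k := one_le_pow₀ h
    have h4 := mul_le_mul_of_nonneg_right h3 h1.le
    linarith

theorem fin1 {r : ℕ} (hr : 2 ≤ r) {P : Set (List Bool)} (hP : ∃ lam, Adm r P lam) :
    ∃ c C : ℝ, 0 < c ∧ 0 < C ∧ ∀ n t : ℕ, 1 ≤ t → t ≤ n →
      pr r t (range (r * n)) (fun M => (z P M : ℝ) < c * gg r P n t) ≤ C / gg r P n t ∧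
      ∀ m : ℝ, C ≤ m →
        pr r t (range (r * n)) (fun M => m * (gg r P n t + 1) ≤ (z P M : ℝ)) ≤
          C / (m * (gg r P n t + 1)) := by
  have hr1 : 1 ≤ r := by omega
  obtain ⟨C1, hC1, hreg⟩ := const hr1 P
  obtain ⟨C2, hC2, hlow⟩ := low_main hr P
  obtain ⟨C3, c3, hC3, hc3, hup⟩ := up_main hr hP
  have hC1p : 0 < C1 := by linarith
  have hC2p : 0 < C2 := by linarith
  have hC3p : 0 < C3 := by linarith
  have ha : 0 < C1 / c3 := div_pos hC1p hc3
  have hb : 0 < 2 * C1 * C2 ^ 2 := by positivity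
  have hd : 0 < C1 * C2 := by positivity
  refine ⟨1 / (2 * C1 * C2), C1 / c3 + C3 + 2 * C1 * C2 ^ 2 + C1 * C2 + 1, by positivity,
    by positivity, ?_⟩
  intro n t ht htn
  set C := C1 / c3 + C3 + 2 * C1 * C2 ^ 2 + C1 * C2 + 1 with hCdef
  have hnp : (0 : ℝ) < n := by
    have : 0 < n := by omega
    exact_mod_cast this
  have htp : (0 : ℝ) ≤ t := Nat.cast_nonneg t
  have hnu : ∀ lam : List ℕ, 0 ≤ (n : ℝ) * ((t : ℝ) / n) ^ (lam.headD 0) := fun lam => by positivity
  have hnun : ∀ lam : List ℕ, (n : ℝ) * ((t : ℝ) / n) ^ (lam.headD 0) ≤ n := by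
    intro lam
    have h1 : (t : ℝ) / n ≤ 1 := by
      rw [div_le_one hnp]
      exact_mod_cast htn
    have h2 : ((t : ℝ) / n) ^ (lam.headD 0) ≤ 1 := pow_le_one₀ (by positivity) h1
    nlinarith
  set S := {k : ℕ | ∃ lam, Adm r P lam ∧
    (k : ℝ) ^ (r * k) ≤ ((n : ℝ) * ((t : ℝ) / n) ^ (lam.headD 0)) ^ k * ac r P lam k} with hS
  have hgS : gg r P n t = sSup S := rfl
  have h0 : (0 : ℕ) ∈ S := by
    obtain ⟨lam, hlam⟩ := hP
    refine ⟨lam, hlam, ?_⟩
    rw [ac_zero]
    simp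
  have hbdd : BddAbove S := by
    refine ⟨⌈(n : ℝ) * C1⌉₊, ?_⟩
    rintro k ⟨lam, hlam, hk⟩
    rcases Nat.eq_zero_or_pos k with rfl | hkpos
    · exact Nat.zero_le _
    · rw [cond_iff P lam (hnu lam) hkpos] at hk
      have hkp : (0 : ℝ) < k := by exact_mod_cast hkpos
      have h1 := hreg lam hlam 1 k le_rfl hkpos
      rw [phi_one P hlam.1, mul_one, Nat.cast_one] at h1
      have h2 : (n : ℝ) * ((t : ℝ) / n) ^ (lam.headD 0) * phi r P lam k ≤ n * (C1 * (1 / k)) :=
        mul_le_mul (hnun lam) h1 (phi_nonneg _ _ _ _) hnp.le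
      have h3 : (1 : ℝ) ≤ n * (C1 * (1 / k)) := hk.trans h2
      have h4 : (k : ℝ) ≤ n * C1 := by
        have h5 : (n : ℝ) * (C1 * (1 / k)) * k = n * C1 := by
          field_simp
        nlinarith
      exact_mod_cast h4.trans (Nat.le_ceil _)
  have hG : gg r P n t ∈ S := by
    rw [hgS]
    exact Nat.sSup_mem ⟨0, h0⟩ hbdd
  have hG1 : gg r P n t + 1 ∉ S := by
    intro h
    have h1 := le_csSup hbdd h
    rw [← hgS] at h1
    omega
  set G := gg r P n t with hGdef
  constructor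
  · rcases Nat.eq_zero_or_pos G with hz | hpos
    · rw [hz, Nat.cast_zero, mul_zero, div_zero]
      apply pr_imp
      intro M hM
      have : (0 : ℝ) ≤ z P M := Nat.cast_nonneg _
      linarith
    · have hGp : (0 : ℝ) < G := by exact_mod_cast hpos
      by_cases hlt : (G : ℝ) < C1 * C2
      · refine (pr_le_one _ _ _ _).trans ?_
        rw [one_le_div hGp]
        linarith
      · rw [not_lt] at hlt
        have hx : 1 ≤ (G : ℝ) / (C1 * C2) := by
          rw [one_le_div hd]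
          exact hlt
        set k := ⌊(G : ℝ) / (C1 * C2)⌋₊ with hk
        have hk1 : 1 ≤ k := by
          rw [hk, Nat.one_le_floor_iff]
          exact hx
        have hkp : (0 : ℝ) < k := by exact_mod_cast hk1
        have hkle : (k : ℝ) ≤ (G : ℝ) / (C1 * C2) := Nat.floor_le (by positivity)
        have hklt : (G : ℝ) / (C1 * C2) < k + 1 := Nat.lt_floor_add_one _
        have hk2 : (k : ℝ) * (C1 * C2) ≤ G := by
          rw [← le_div_iff₀ hd]
          exact hkle
        have hkG : k ≤ G := by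
          have h1 : (k : ℝ) ≤ G := by
            have h2 : (1 : ℝ) ≤ C1 * C2 := by nlinarith
            nlinarith
          exact_mod_cast h1
        have hk3 : (G : ℝ) ≤ k * (2 * C1 * C2) := by
          have h1 : (1 : ℝ) ≤ k := by exact_mod_cast hk1
          rw [div_lt_iff₀ hd] at hklt
          nlinarith
        obtain ⟨lam, hlam, hcond⟩ := hG
        rw [cond_iff P lam (hnu lam) hpos] at hcond
        have hr2 := hreg lam hlam k G hk1 hkG
        have h3 : 1 ≤ C1 * ((k : ℝ) / G) *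
            ((n : ℝ) * ((t : ℝ) / n) ^ (lam.headD 0) * phi r P lam k) := by
          refine hcond.trans ?_
          have h4 := mul_le_mul_of_nonneg_left hr2 (hnu lam)
          refine h4.trans (le_of_eq ?_)
          ring
        have h5 : C2 ≤ (n : ℝ) * ((t : ℝ) / n) ^ (lam.headD 0) * phi r P lam k := by
          set y := (n : ℝ) * ((t : ℝ) / n) ^ (lam.headD 0) * phi r P lam k with hy
          have h6 : C1 * ((k : ℝ) / G) * y * G = C1 * k * y := by
            field_simp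
          have h7 : (G : ℝ) ≤ C1 * k * y := by nlinarith
          have h8 : C1 * k * C2 ≤ C1 * k * y := by nlinarith
          exact le_of_mul_le_mul_left h8 (by positivity)
        have h6 := hlow n t k ht htn hk1 ⟨lam, hlam, h5⟩
        have h7 : pr r t (range (r * n)) (fun M => (z P M : ℝ) < 1 / (2 * C1 * C2) * G) ≤
            pr r t (range (r * n)) (fun M => z P M < k) := by
          refine pr_mono r t _ _ _ fun M _ h => ?_
          have h8 : 1 / (2 * C1 * C2) * (G : ℝ) ≤ k := by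
            rw [one_div, inv_mul_le_iff₀ (by positivity)]
            linarith
          have h9 : (z P M : ℝ) < k := lt_of_lt_of_le h h8
          exact_mod_cast h9
        refine (h7.trans h6).trans ?_
        rw [div_le_div_iff₀ hkp hGp]
        have h9 : C2 * (G : ℝ) ≤ C2 * (k * (2 * C1 * C2)) := mul_le_mul_of_nonneg_left hk3 hC2p.le
        have h10 : C2 * (k * (2 * C1 * C2)) = 2 * C1 * C2 ^ 2 * k := by ring
        have h11 : 2 * C1 * C2 ^ 2 * k ≤ C * k := by
          apply mul_le_mul_of_nonneg_right _ hkp.le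
          linarith
        linarith
  · intro m hm
    have hG1p : (0 : ℝ) < (G : ℝ) + 1 := by positivity
    have hm1 : 1 ≤ m := by linarith
    have hmC : C1 / c3 ≤ m := by linarith
    have hmp : 0 < m := by linarith
    set k := ⌈m * ((G : ℝ) + 1)⌉₊ with hk
    have hkge : m * ((G : ℝ) + 1) ≤ k := Nat.le_ceil _
    have hkG : G + 1 ≤ k := by
      have h1 : ((G + 1 : ℕ) : ℝ) ≤ k := by
        push_cast
        nlinarith
      exact_mod_cast h1
    have hk1 : 1 ≤ k := by omega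
    have hkp : (0 : ℝ) < k := by exact_mod_cast hk1
    have h1 : ∀ lam, Adm r P lam →
        (n : ℝ) * ((t : ℝ) / n) ^ (lam.headD 0) * phi r P lam k ≤ c3 := by
      intro lam hlam
      have h2 : ¬ 1 ≤ (n : ℝ) * ((t : ℝ) / n) ^ (lam.headD 0) * phi r P lam (G + 1) := by
        intro h3
        apply hG1
        refine ⟨lam, hlam, ?_⟩
        rw [cond_iff P lam (hnu lam) (by omega)]
        exact h3
      rw [not_le] at h2
      have h4 := hreg lam hlam (G + 1) k (by omega) hkG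
      have h5 := mul_le_mul_of_nonneg_left h4 (hnu lam)
      push_cast at h5
      have h6 : (n : ℝ) * ((t : ℝ) / n) ^ (lam.headD 0) *
          (C1 * (((G : ℝ) + 1) / k) * phi r P lam (G + 1)) =
          C1 * (((G : ℝ) + 1) / k) *
            ((n : ℝ) * ((t : ℝ) / n) ^ (lam.headD 0) * phi r P lam (G + 1)) := by ring
      rw [h6] at h5
      have h7 : C1 * (((G : ℝ) + 1) / k) *
            ((n : ℝ) * ((t : ℝ) / n) ^ (lam.headD 0) * phi r P lam (G + 1)) ≤
          C1 * (((G : ℝ) + 1) / k) * 1 :=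
        mul_le_mul_of_nonneg_left h2.le (by positivity)
      have h8 : C1 * (((G : ℝ) + 1) / k) ≤ c3 := by
        rw [← mul_div_assoc, div_le_iff₀ hkp]
        rw [div_le_iff₀ hc3] at hmC
        have h9 : c3 * (m * ((G : ℝ) + 1)) ≤ c3 * k := mul_le_mul_of_nonneg_left hkge hc3.le
        have h10 : C1 * ((G : ℝ) + 1) ≤ m * c3 * ((G : ℝ) + 1) :=
          mul_le_mul_of_nonneg_right hmC hG1p.le
        nlinarith
      linarith
    have h2 := hup n t k ht htn hk1 h1
    have h3 : pr r t (range (r * n)) (fun M => m * ((G : ℝ) + 1) ≤ (z P M : ℝ)) ≤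
        pr r t (range (r * n)) (fun M => k ≤ z P M) := by
      refine pr_mono r t _ _ _ fun M _ h => ?_
      exact Nat.ceil_le.2 h
    refine (h3.trans h2).trans ?_
    have hpos : 0 < m * ((G : ℝ) + 1) := by positivity
    rw [div_le_div_iff₀ hkp hpos]
    have h4 : C3 * (m * ((G : ℝ) + 1)) ≤ C3 * k := mul_le_mul_of_nonneg_left hkge hC3p.le
    have h5 : C3 * (k : ℝ) ≤ C * k := by
      apply mul_le_mul_of_nonneg_right _ hkp.le
      linarith
    linarith

end Pool.Agent.Work.MP_7d1693_pr.FM
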