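import Pool.Agent.Work.MP_7d1693_pr.FM.Defs
import Pool.Agent.Work.MP_7d1693_pr.FM.LowMain
import Pool.Agent.Work.MP_7d1693_pr.FM.UpMain
import Pool.Agent.Work.MP_7d1693_pr.FM.PhiReg

/-! # Module Fin2 (S-M): the threshold (Q2)

`tstar` is the infimum of a finite nonempty set of positive reals (`comps r`), so it is attained and it is a lower bound. For `x_lam = n^(1-1/a) (k^r/ac^(1/k))^(1/a)`, `a = λ_1 ≥ 1`: `x_lam^a = n^(a-1)/phi_k` (`n ≥ 1`).
* `t ≤ c * tstar ≤ c x_lam` gives `n (t/n)^a phi_k ≤ c^a ≤ c` (for `c ≤ 1`), for all `lam`; `up_main` with `c` at most its constant.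
* `C * tstar ≤ t`: for the minimizing `lam`, `n (t/n)^a phi_k ≥ C^a ≥ C` (`C ≥ 1`); `low_main`. -/

namespace Pool.Agent.Work.MP_7d1693_pr.FM

open Finset

/-- `min_λ n^(1-1/λ_1) (k^r / (a_k^λ)^(1/k))^(1/λ_1)` -/
noncomputable def tstar (r : ℕ) (P : Set (List Bool)) (n k : ℕ) : ℝ :=
  sInf {x : ℝ | ∃ lam, Adm r P lam ∧ x = (n : ℝ) ^ (1 - 1 / ((lam.headD 0 : ℕ) : ℝ)) *
    ((k : ℝ) ^ r / (ac r P lam k : ℝ) ^ (1 / (k : ℝ))) ^ (1 / ((lam.headD 0 : ℕ) : ℝ))}

private noncomputable def fin2_x (r : ℕ) (P : Set (List Bool)) (n k : ℕ) (lam : List ℕ) : ℝ :=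
  (n : ℝ) ^ (1 - 1 / ((lam.headD 0 : ℕ) : ℝ)) *
    ((k : ℝ) ^ r / (ac r P lam k : ℝ) ^ (1 / (k : ℝ))) ^ (1 / ((lam.headD 0 : ℕ) : ℝ))

private theorem fin2_head {r : ℕ} (hr : 2 ≤ r) {P : Set (List Bool)} {lam : List ℕ}
    (h : Adm r P lam) : 1 ≤ lam.headD 0 := by
  obtain ⟨h1, h2⟩ := adm_comp h
  cases lam with
  | nil => simp at h1; omega
  | cons a l => exact h2 a (by simp)

private theorem fin2_pos {r : ℕ} (hr : 2 ≤ r) {P : Set (List Bool)} {lam : List ℕ}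
    (h : Adm r P lam) {n k : ℕ} (hn : 1 ≤ n) (hk : 1 ≤ k) : 0 < fin2_x r P n k lam := by
  have hac : (0 : ℝ) < ac r P lam k := by
    have := ac_pos (by omega : 1 ≤ r) h k
    exact_mod_cast this
  have hn' : (0 : ℝ) < n := by exact_mod_cast hn
  have hk' : (0 : ℝ) < k := by exact_mod_cast hk
  unfold fin2_x
  positivity

private theorem fin2_key {r : ℕ} (hr : 2 ≤ r) {P : Set (List Bool)} {lam : List ℕ}
    (h : Adm r P lam) {n k : ℕ} (t : ℝ) (hn : 1 ≤ n) (hk : 1 ≤ k) :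
    (n : ℝ) * (t / n) ^ (lam.headD 0) * phi r P lam k =
      (t / fin2_x r P n k lam) ^ (lam.headD 0) := by
  have hac : (0 : ℝ) < ac r P lam k := by
    have := ac_pos (by omega : 1 ≤ r) h k
    exact_mod_cast this
  have hn' : (0 : ℝ) < n := by exact_mod_cast hn
  have hk' : (0 : ℝ) < k := by exact_mod_cast hk
  have ha := fin2_head hr h
  obtain ⟨b, hb⟩ : ∃ b, lam.headD 0 = b + 1 := ⟨lam.headD 0 - 1, by omega⟩
  have hxa : fin2_x r P n k lam ^ (lam.headD 0) * phi r P lam k = (n : ℝ) ^ b := by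
    unfold fin2_x phi
    rw [mul_pow, ← Real.rpow_natCast (((k : ℝ) ^ r / (ac r P lam k : ℝ) ^ (1 / (k : ℝ))) ^ _),
      ← Real.rpow_mul (by positivity), ← Real.rpow_natCast ((n : ℝ) ^ _),
      ← Real.rpow_mul (by positivity)]
    have hane : ((lam.headD 0 : ℕ) : ℝ) ≠ 0 := by positivity
    have e1 : 1 / ((lam.headD 0 : ℕ) : ℝ) * ((lam.headD 0 : ℕ) : ℝ) = 1 := by field_simp
    have e2 : (1 - 1 / ((lam.headD 0 : ℕ) : ℝ)) * ((lam.headD 0 : ℕ) : ℝ) = (b : ℝ) := by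
      rw [sub_mul, e1, hb]
      push_cast
      ring
    rw [e1, e2, Real.rpow_one, Real.rpow_natCast]
    have hA : (0 : ℝ) < (ac r P lam k : ℝ) ^ (1 / (k : ℝ)) := by positivity
    field_simp
  have hx := fin2_pos hr h hn hk
  rw [div_pow, div_pow, eq_div_iff (by positivity)]
  calc (n : ℝ) * (t ^ (lam.headD 0) / (n : ℝ) ^ (lam.headD 0)) * phi r P lam k *
        fin2_x r P n k lam ^ (lam.headD 0)
      = (n : ℝ) * (t ^ (lam.headD 0) / (n : ℝ) ^ (lam.headD 0)) *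
        (fin2_x r P n k lam ^ (lam.headD 0) * phi r P lam k) := by ring
    _ = (n : ℝ) * (t ^ (lam.headD 0) / (n : ℝ) ^ (b + 1)) * (n : ℝ) ^ b := by rw [hxa, hb]
    _ = t ^ (lam.headD 0) := by
        rw [pow_succ]
        field_simp

theorem fin2 {r : ℕ} (hr : 2 ≤ r) {P : Set (List Bool)} (hP : ∃ lam, Adm r P lam) :
    ∃ c C : ℝ, 0 < c ∧ 0 < C ∧ ∀ n t k : ℕ, 1 ≤ t → t ≤ n → 1 ≤ k →
      ((t : ℝ) ≤ c * tstar r P n k → pr r t (range (r * n)) (fun M => k ≤ z P M) ≤ C / k) ∧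
      (C * tstar r P n k ≤ t → pr r t (range (r * n)) (fun M => z P M < k) ≤ C / k) := by
  classical
  obtain ⟨C1, c1, hC1, hc1, hup⟩ := up_main hr hP
  obtain ⟨C2, hC2, hlow⟩ := low_main hr P
  refine ⟨min 1 c1, max C1 C2, lt_min one_pos hc1, lt_of_lt_of_le one_pos
    (hC1.trans (le_max_left _ _)), ?_⟩
  intro n t k ht htn hk
  have hn : 1 ≤ n := ht.trans htn
  have hk0 : (0 : ℝ) ≤ k := Nat.cast_nonneg _
  set X : Set ℝ := {x : ℝ | ∃ lam, Adm r P lam ∧ x = (n : ℝ) ^ (1 - 1 / ((lam.headD 0 : ℕ) : ℝ)) *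
    ((k : ℝ) ^ r / (ac r P lam k : ℝ) ^ (1 / (k : ℝ))) ^ (1 / ((lam.headD 0 : ℕ) : ℝ))} with hX
  have hts : tstar r P n k = sInf X := rfl
  have hXeq : X = ((comps r).filter (fun lam => Adm r P lam)).image (fin2_x r P n k) := by
    ext x
    simp only [hX, Set.mem_ofPred_eq, Finset.coe_image, Set.mem_image, Finset.mem_coe,
      Finset.mem_filter]
    constructor
    · rintro ⟨lam, h, rfl⟩
      exact ⟨lam, ⟨mem_comps.2 (adm_comp h), h⟩, rfl⟩
    · rintro ⟨lam, ⟨_, h⟩, rfl⟩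
      exact ⟨lam, h, rfl⟩
  have hfin : X.Finite := by
    rw [hXeq]
    exact Finset.finite_toSet _
  have hne : X.Nonempty := by
    obtain ⟨lam, h⟩ := hP
    exact ⟨_, lam, h, rfl⟩
  constructor
  · intro h
    refine (hup n t k ht htn hk ?_).trans ?_
    · intro lam hlam
      rw [fin2_key hr hlam t hn hk]
      have hx := fin2_pos hr hlam hn hk (k := k) (n := n)
      have hle : tstar r P n k ≤ fin2_x r P n k lam := by
        rw [hts]
        exact csInf_le hfin.bddBelow ⟨lam, hlam, rfl⟩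
      have h1 : (t : ℝ) / fin2_x r P n k lam ≤ min 1 c1 := by
        rw [div_le_iff₀ hx]
        exact h.trans (mul_le_mul_of_nonneg_left hle (lt_min one_pos hc1).le)
      have h0 : 0 ≤ (t : ℝ) / fin2_x r P n k lam := by positivity
      have ha := fin2_head hr hlam
      calc ((t : ℝ) / fin2_x r P n k lam) ^ (lam.headD 0)
          ≤ ((t : ℝ) / fin2_x r P n k lam) ^ 1 :=
            pow_le_pow_of_le_one h0 (h1.trans (min_le_left _ _)) ha
        _ = (t : ℝ) / fin2_x r P n k lam := pow_one _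
        _ ≤ c1 := h1.trans (min_le_right _ _)
    · exact div_le_div_of_nonneg_right (le_max_left _ _) hk0
  · intro h
    refine (hlow n t k ht htn hk ?_).trans ?_
    · obtain ⟨lam, hlam, hx0⟩ : sInf X ∈ X := hne.csInf_mem hfin
      refine ⟨lam, hlam, ?_⟩
      rw [fin2_key hr hlam t hn hk]
      have hx := fin2_pos hr hlam hn hk (k := k) (n := n)
      have hx1 : tstar r P n k = fin2_x r P n k lam := hx0
      have h1 : max C1 C2 ≤ (t : ℝ) / fin2_x r P n k lam := by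
        rw [le_div_iff₀ hx, ← hx1]
        exact h
      have h2 : C2 ≤ (t : ℝ) / fin2_x r P n k lam := (le_max_right _ _).trans h1
      have ha := fin2_head hr hlam
      calc C2 ≤ (t : ℝ) / fin2_x r P n k lam := h2
        _ = ((t : ℝ) / fin2_x r P n k lam) ^ 1 := (pow_one _).symm
        _ ≤ ((t : ℝ) / fin2_x r P n k lam) ^ (lam.headD 0) :=
            pow_le_pow_right₀ (hC2.trans h2) ha
    · exact div_le_div_of_nonneg_right (le_max_right _ _) hk0

end Pool.Agent.Work.MP_7d1693_pr.FM
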