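import Pool.Agent.Work.MP_7d1693_pr.FM.Defs
import Pool.Agent.Work.MP_7d1693_pr.FM.Ex
import Pool.Agent.Work.MP_7d1693_pr.FM.Mom
import Pool.Agent.Work.MP_7d1693_pr.FM.PjNum
import Pool.Agent.Work.MP_7d1693_pr.FM.Coup

/-! # Module Hit (S-M): a large set of possible edges is hit

`C1, c1` from `pj_num`; for `n < 4` the bound is trivial for a large constant (`S.card ≤ (r n)^r ≤ (4 r)^r`, `n^(r-1) ≥ 1`). `X M = (S ∩ M).card`, mean `m = S.card * pj 1 ≥ c1 S.card/n^(r-1)` (`mom1`), `ex X^2 - m^2 ≤ m + m^2 C1/n` (`mom2`, `pj 2 ≤ pj 1^2 (1+C1/n)`). `chebyshev`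
with `b = m`: in the full process `pr (S ∩ M = ∅) ≤ pr (m ≤ |X - m|) ≤ 1/m + C1/n`, and `1/n ≤ r^r n^(r-1)/S.card` (`S.card ≤ (r n).choose r ≤ (r n)^r`). Since all edges of `S` have minimum `< t`, `S ∩ M = S ∩ M.filter (mn < t)`; the event
`(S ∩ M).Nonempty` is increasing, so `coup` (with `N = n`, `b = t`) and `pr_not` give the bound for the process with `t` steps. -/

namespace Pool.Agent.Work.MP_7d1693_pr.FM

open Finset

private theorem hit_card {r n : ℕ} {S : Finset (Finset ℕ)}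
    (hS : S ⊆ (range (r * n)).powersetCard r) : (S.card : ℝ) ≤ ((r : ℝ) * n) ^ r := by
  have h1 : S.card ≤ (r * n) ^ r := by
    calc S.card ≤ ((range (r * n)).powersetCard r).card := card_le_card hS
      _ = (r * n).choose r := by rw [card_powersetCard, card_range]
      _ ≤ (r * n) ^ r := Nat.choose_le_pow _ _
  exact_mod_cast h1

theorem hit {r : ℕ} (hr : 2 ≤ r) : ∃ C : ℝ, 0 < C ∧ ∀ (n t : ℕ) (S : Finset (Finset ℕ)), 1 ≤ t →
    t ≤ n → S ⊆ (range (r * n)).powersetCard r → S.Nonempty → (∀ e ∈ S, mn e < t) →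
    pr r t (range (r * n)) (fun M => ¬ (S ∩ M).Nonempty) ≤ C * (n : ℝ) ^ (r - 1) / S.card := by
  classical
  have hr0 : 0 < r := by omega
  have hrR : (0 : ℝ) < r := by exact_mod_cast hr0
  obtain ⟨C1, c1, hC1, hc1, hpj⟩ := pj_num hr
  refine ⟨(4 * (r : ℝ)) ^ r + 1 / c1 + C1 * (r : ℝ) ^ r, by positivity, ?_⟩
  intro n t S ht htn hS hSne hmn
  have hn0 : (0 : ℝ) < n := by exact_mod_cast (by omega : 0 < n)
  have hn1 : (1 : ℝ) ≤ n := by exact_mod_cast (by omega : 1 ≤ n)
  have hSc : (0 : ℝ) < S.card := by exact_mod_cast card_pos.mpr hSne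
  have hnp : (1 : ℝ) ≤ (n : ℝ) ^ (r - 1) := one_le_pow₀ hn1
  have hcard := hit_card hS
  rw [le_div_iff₀ hSc]
  by_cases hn4 : n < 4
  · have h1 : pr r t (range (r * n)) (fun M => ¬ (S ∩ M).Nonempty) * (S.card : ℝ) ≤
        1 * (4 * (r : ℝ)) ^ r := by
      apply mul_le_mul (pr_le_one _ _ _ _) _ hSc.le zero_le_one
      refine hcard.trans ?_
      apply pow_le_pow_left₀ (by positivity)
      have : (n : ℝ) ≤ 4 := by exact_mod_cast (by omega : n ≤ 4)
      nlinarith
    have h2 : (4 * (r : ℝ)) ^ r ≤ ((4 * (r : ℝ)) ^ r + 1 / c1 + C1 * (r : ℝ) ^ r) * 1 := by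
      have : 0 ≤ 1 / c1 := by positivity
      have : 0 ≤ C1 * (r : ℝ) ^ r := by positivity
      linarith
    have h3 : ((4 * (r : ℝ)) ^ r + 1 / c1 + C1 * (r : ℝ) ^ r) * 1 ≤
        ((4 * (r : ℝ)) ^ r + 1 / c1 + C1 * (r : ℝ) ^ r) * (n : ℝ) ^ (r - 1) :=
      mul_le_mul_of_nonneg_left hnp (by positivity)
    linarith
  · obtain ⟨hp0, -, hpc, -, hp2, -⟩ := hpj n (by omega)
    set V := range (r * n) with hV
    have hVc : V.card = r * n := by rw [hV, card_range]
    let X : Finset (Finset ℕ) → ℝ := fun M => ((S ∩ M).card : ℝ)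
    set m : ℝ := S.card * pj r n 1 with hm
    have hm0 : 0 < m := mul_pos hSc hp0
    have hX1 : ex r n V X = m := mom1 hr hS
    have hX2 : ex r n V (fun M => X M ^ 2) ≤ m + (S.card : ℝ) ^ 2 * pj r n 2 := mom2 hr hS
    have hcheb := chebyshev (r := r) (t := n) hr0 (V := V) (by rw [hVc]) X hm0
    rw [hX1] at hcheb
    have hvar : (ex r n V (fun M => X M ^ 2) - m ^ 2) / m ^ 2 ≤ 1 / m + C1 / n := by
      rw [div_le_iff₀ (by positivity)]
      have e1 : (S.card : ℝ) ^ 2 * pj r n 2 ≤ m ^ 2 * (1 + C1 / n) := by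
        have := mul_le_mul_of_nonneg_left hp2 (sq_nonneg (S.card : ℝ))
        calc (S.card : ℝ) ^ 2 * pj r n 2 ≤ (S.card : ℝ) ^ 2 * (pj r n 1 ^ 2 * (1 + C1 / n)) := this
          _ = m ^ 2 * (1 + C1 / n) := by rw [hm]; ring
      have e2 : (1 / m + C1 / n) * m ^ 2 = m + m ^ 2 * (C1 / n) := by
        field_simp
      rw [e2]
      linarith
    have hempty : pr r n V (fun M => ¬ (S ∩ M).Nonempty) ≤ 1 / m + C1 / n := by
      refine le_trans (pr_mono r n V _ _ ?_) (hcheb.trans hvar)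
      intro M _ hM
      have h1 : S ∩ M = ∅ := not_nonempty_iff_eq_empty.mp hM
      have h2 : X M = 0 := by simp only [X, h1]; simp
      show m ≤ |X M - m|
      rw [h2, zero_sub, abs_neg, abs_of_pos hm0]
    have hcoup := coup hr (N := n) (t := t) htn (V := V) hVc (b := t)
      (by
        calc (V.filter (fun x => x < t)).card ≤ (range t).card := by
              apply card_le_card
              intro x hx
              rw [mem_filter] at hx
              exact mem_range.mpr hx.2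
          _ = t := card_range t) (fun M => (S ∩ M).Nonempty)
      (fun M M' hMM' hne => hne.mono (inter_subset_inter_left hMM'))
    have hfun : (fun M : Finset (Finset ℕ) => (S ∩ M.filter (fun e => mn e < t)).Nonempty) =
        fun M => (S ∩ M).Nonempty := by
      funext M
      congr 1
      ext e
      simp only [mem_inter, mem_filter]
      constructor
      · rintro ⟨a, b, _⟩; exact ⟨a, b⟩
      · rintro ⟨a, b⟩; exact ⟨a, b, hmn e a⟩
    rw [hfun] at hcoup
    have hnot1 := pr_not (r := r) (t := n) hr0 (V := V) (by rw [hVc])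
      (fun M => (S ∩ M).Nonempty)
    have hnot2 := pr_not (r := r) (t := t) hr0 (V := V)
      (by rw [hVc]; exact Nat.mul_le_mul_left r htn) (fun M => (S ∩ M).Nonempty)
    have hfin : pr r t V (fun M => ¬ (S ∩ M).Nonempty) ≤ 1 / m + C1 / n := by linarith
    have hb1 : 1 / m * S.card ≤ 1 / c1 * (n : ℝ) ^ (r - 1) := by
      have e1 : 1 / m * (S.card : ℝ) = 1 / pj r n 1 := by
        rw [hm]; field_simp
      rw [e1, div_le_iff₀ hp0]
      have e2 : 1 / c1 * (n : ℝ) ^ (r - 1) * pj r n 1 = (pj r n 1 * (n : ℝ) ^ (r - 1)) / c1 := by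
        ring
      rw [e2, le_div_iff₀ hc1, one_mul]
      exact hpc
    have hb2 : C1 / n * S.card ≤ C1 * (r : ℝ) ^ r * (n : ℝ) ^ (r - 1) := by
      have e1 : ((r : ℝ) * n) ^ r = (r : ℝ) ^ r * (n : ℝ) ^ (r - 1) * n := by
        rw [mul_pow]
        have : (n : ℝ) ^ r = (n : ℝ) ^ (r - 1) * n := by
          rw [← pow_succ]
          congr 1
          omega
        rw [this]; ring
      rw [e1] at hcard
      have e2 : C1 / n * (S.card : ℝ) = C1 * ((S.card : ℝ) / n) := by ring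
      rw [e2, mul_assoc]
      apply mul_le_mul_of_nonneg_left _ (by linarith)
      rw [div_le_iff₀ hn0]
      exact hcard
    have h1 : pr r t V (fun M => ¬ (S ∩ M).Nonempty) * S.card ≤ (1 / m + C1 / n) * S.card :=
      mul_le_mul_of_nonneg_right hfin hSc.le
    have h2 : (0 : ℝ) ≤ (4 * (r : ℝ)) ^ r * (n : ℝ) ^ (r - 1) := by positivity
    calc pr r t V (fun M => ¬ (S ∩ M).Nonempty) * S.card ≤ (1 / m + C1 / n) * S.card := h1
      _ = 1 / m * S.card + C1 / n * S.card := by ring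
      _ ≤ 1 / c1 * (n : ℝ) ^ (r - 1) + C1 * (r : ℝ) ^ r * (n : ℝ) ^ (r - 1) := add_le_add hb1 hb2
      _ ≤ ((4 * (r : ℝ)) ^ r + 1 / c1 + C1 * (r : ℝ) ^ r) * (n : ℝ) ^ (r - 1) := by
          linarith

end Pool.Agent.Work.MP_7d1693_pr.FM
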