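import Pool.Agent.Work.MP_7d1693_pr.FM.Defs
import Pool.Agent.Work.MP_7d1693_pr.FM.DefsK
import Pool.Agent.Work.MP_7d1693_pr.FM.Hit
import Pool.Agent.Work.MP_7d1693_pr.FM.Alt

/-! # Module FixLow (M): fixed `k`, lower bound

The infimum `ρ = rho r P k` is attained: `K ∈ CK r P k` with `hh K e ≤ ρ` for all `e ∈ K` (`Nat.sInf_mem`); `K` has `k` edges and covers `range (r k)`. `k ≥ 1`. Let `p = #{v ∈ range (r k) : ∃ f ∈ K, v ≤ mn f}`, an initial segment `{0, ..., p-1}` (downward closed),
so `hh K e = #{v ∈ e : v < p}`. If `t < r k` then `n (t/n)^ρ ≤ t < r k` (`ρ ≥ 1`: `mn e` counts in `hh`), so `C = r k` makes the bound trivial. Otherwise `w = t/(r k) ≥ 1`, `W = n/k ≥ 1` (natural division), `w ≤ W`. Let the position `v < p` have the interval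
`I v = [v w, (v+1) w)` and `v ≥ p` the interval `I v = [p w + (v-p) W, p w + (v-p+1) W)`: consecutive disjoint intervals, increasing in `v`, all inside `range (r k W) ⊆ range (r n)`, and those with `v < p` below `p w ≤ r k w ≤ t`. For `e ∈ K` let `S_e` be the set of the `r`-sets with exactly
one vertex in each `I v`, `v ∈ e`: `S_e.card = w^h W^(r-h)`, `h = hh K e ≥ 1`, so `mn e' < t` for `e' ∈ S_e`, and `w ≥ t/(2 r k)`, `W ≥ n/(2k)`: `S_e.card ≥ c t^h n^(r-h)`, `S_e.card/n^(r-1) ≥ c n (t/n)^h ≥ c n (t/n)^ρ`. `hit` for each of the `k` edges and the union bound: with probability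
`≥ 1 - k C/(c n (t/n)^ρ)` there is `e' ∈ S_e ∩ M` for every `e ∈ K`. These `k` sets form a clique: the map `e ↦ e'` preserves words and the order of minima, because it comes from a strictly increasing map of the vertices (`pat_image` in PAT with `φ v` = the vertex of `e'` in `I v`, `v ∈ e`; every `v < r k` lies in exactly one
`e`). They are pairwise different (disjoint). So `k ≤ z P M` (`z_ge`). -/

namespace Pool.Agent.Work.MP_7d1693_pr.FM

open Finset

/-- left end of the interval of position `v` -/
private def lft (p w W v : ℕ) : ℕ := if v < p then v * w else p * w + (v - p) * W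

/-- length of the interval of position `v` -/
private def len (p w W v : ℕ) : ℕ := if v < p then w else W

private theorem lft_add {p w W v v' : ℕ} (h : v < v') :
    lft p w W v + len p w W v ≤ lft p w W v' := by
  unfold lft len
  by_cases h1 : v < p
  · rw [if_pos h1, if_pos h1]
    by_cases h2 : v' < p
    · rw [if_pos h2]
      calc v * w + w = (v + 1) * w := by ring
        _ ≤ v' * w := Nat.mul_le_mul_right _ h
    · rw [if_neg h2]
      calc v * w + w = (v + 1) * w := by ring
        _ ≤ p * w := Nat.mul_le_mul_right _ h1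
        _ ≤ _ := Nat.le_add_right _ _
  · have h2 : ¬ v' < p := by omega
    rw [if_neg h1, if_neg h1, if_neg h2, add_assoc]
    apply Nat.add_le_add_left
    calc (v - p) * W + W = (v - p + 1) * W := by ring
      _ ≤ (v' - p) * W := Nat.mul_le_mul_right _ (by omega)

private theorem lft_le {p w W v : ℕ} (hw : w ≤ W) :
    lft p w W v + len p w W v ≤ (v + 1) * W := by
  unfold lft len
  by_cases h1 : v < p
  · rw [if_pos h1, if_pos h1]
    calc v * w + w = (v + 1) * w := by ring
      _ ≤ _ := Nat.mul_le_mul_left _ hw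
  · rw [if_neg h1, if_neg h1]
    calc p * w + (v - p) * W + W ≤ p * W + (v - p) * W + W := by
          gcongr
      _ = (p + (v - p) + 1) * W := by ring
      _ = (v + 1) * W := by rw [Nat.add_sub_cancel' (not_lt.1 h1)]

/-- `φ v` is in the interval of `v` for all `v ∈ e` -/
private def Okf (p w W : ℕ) (e : Finset ℕ) (φ : ℕ → ℕ) : Prop :=
  ∀ v ∈ e, lft p w W v ≤ φ v ∧ φ v < lft p w W v + len p w W v

private theorem ok_lt {p w W v v' x x' : ℕ} (hx : x < lft p w W v + len p w W v)
    (hx' : lft p w W v' ≤ x') (h : v < v') : x < x' :=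
  lt_of_lt_of_le hx ((lft_add h).trans hx')

private theorem ok_eq {p w W v v' x : ℕ} (h1 : lft p w W v ≤ x)
    (h2 : x < lft p w W v + len p w W v) (h3 : lft p w W v' ≤ x)
    (h4 : x < lft p w W v' + len p w W v') : v = v' := by
  rcases lt_trichotomy v v' with h | h | h
  · exact absurd (ok_lt h2 h3 h) (lt_irrefl _)
  · exact h
  · exact absurd (ok_lt h4 h1 h) (lt_irrefl _)

open Classical in
/-- sets with one vertex in each interval -/
private noncomputable def Se (r n p w W : ℕ) (e : Finset ℕ) : Finset (Finset ℕ) :=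
  ((range (r * n)).powersetCard r).filter (fun s => ∃ φ : ℕ → ℕ, Okf p w W e φ ∧ s = e.image φ)

private theorem card_Se {r n k p w W : ℕ} {e : Finset ℕ} (he : e.card = r)
    (hs : e ⊆ range (r * k)) (hw : w ≤ W) (hW : k * W ≤ n) :
    ∏ v ∈ e, len p w W v ≤ (Se r n p w W e).card := by
  classical
  have h0 : ∏ v ∈ e, len p w W v = (e.pi fun v => range (len p w W v)).card := by
    rw [Finset.card_pi]
    exact Finset.prod_congr rfl fun v _ => (Finset.card_range _).symm
  rw [h0]
  let Φ : ((a : ℕ) → a ∈ e → ℕ) → ℕ → ℕ := fun g v =>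
    if h : v ∈ e then lft p w W v + g v h else 0
  have hΦ : ∀ g (v : ℕ) (h : v ∈ e), Φ g v = lft p w W v + g v h := by
    intro g v h
    simp only [Φ, dif_pos h]
  have hok : ∀ g ∈ e.pi fun v => range (len p w W v), Okf p w W e (Φ g) := by
    intro g hg v hv
    have := Finset.mem_range.1 ((Finset.mem_pi.1 hg) v hv)
    rw [hΦ g v hv]
    constructor
    · exact Nat.le_add_right _ _
    · omega
  refine Finset.card_le_card_of_injOn (fun g => e.image (Φ g)) ?_ ?_
  · intro g hg
    have hg' : g ∈ e.pi fun v => range (len p w W v) := by exact_mod_cast hg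
    have h1 := hok g hg'
    have hmem : e.image (Φ g) ∈ Se r n p w W e := by
      unfold Se
      rw [Finset.mem_filter, Finset.mem_powersetCard]
      refine ⟨⟨?_, ?_⟩, Φ g, h1, rfl⟩
      · intro x hx
        obtain ⟨v, hv, rfl⟩ := Finset.mem_image.1 hx
        rw [Finset.mem_range]
        have h2 := Finset.mem_range.1 (hs hv)
        calc Φ g v < lft p w W v + len p w W v := (h1 v hv).2
          _ ≤ (v + 1) * W := lft_le hw
          _ ≤ (r * k) * W := Nat.mul_le_mul_right _ h2
          _ = r * (k * W) := by ring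
          _ ≤ r * n := Nat.mul_le_mul_left _ hW
      · rw [Finset.card_image_of_injOn, he]
        intro v hv v' hv' hvv
        have hv1 := h1 v (by exact_mod_cast hv)
        have hv2 := h1 v' (by exact_mod_cast hv')
        have hvv' : Φ g v = Φ g v' := hvv
        rw [← hvv'] at hv2
        exact ok_eq hv1.1 hv1.2 hv2.1 hv2.2
    exact_mod_cast hmem
  · intro g hg g' hg' hgg
    have hg1 : g ∈ e.pi fun v => range (len p w W v) := by exact_mod_cast hg
    have hg2 : g' ∈ e.pi fun v => range (len p w W v) := by exact_mod_cast hg'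
    funext v hv
    have h1 : Φ g v ∈ e.image (Φ g') := by
      have hgg' : e.image (Φ g) = e.image (Φ g') := hgg
      rw [← hgg']
      exact Finset.mem_image_of_mem _ hv
    obtain ⟨v', hv', h2⟩ := Finset.mem_image.1 h1
    have h3 := hok g hg1 v hv
    have h4 := hok g' hg2 v' hv'
    rw [h2] at h4
    have h5 := ok_eq h3.1 h3.2 h4.1 h4.2
    subst h5
    rw [hΦ g v hv, hΦ g' v hv] at h2
    omega

private theorem prod_len {p w W : ℕ} (e : Finset ℕ) :
    ∏ v ∈ e, len p w W v = w ^ (e.filter (fun v => v < p)).card *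
      W ^ (e.card - (e.filter (fun v => v < p)).card) := by
  unfold len
  rw [Finset.prod_ite, Finset.prod_const, Finset.prod_const]
  congr 2
  have := Finset.card_filter_add_card_filter_not (s := e) (fun v => v < p)
  omega

/-- the numerical estimate -/
private theorem num {r k n t h ρ w W s : ℕ} (hr : 2 ≤ r) (hk : 1 ≤ k) (ht : 1 ≤ t) (htn : t ≤ n)
    (hw : t ≤ 2 * r * k * w) (hW : n ≤ 2 * r * k * W) (hhr : h ≤ r) (hhρ : h ≤ ρ)
    (hs : w ^ h * W ^ (r - h) ≤ s) (hs0 : 0 < s) {C0 : ℝ} (hC0 : 0 < C0) :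
    C0 * (n : ℝ) ^ (r - 1) / s ≤ C0 * (2 * r * k : ℝ) ^ r / ((n : ℝ) * ((t : ℝ) / n) ^ ρ) := by
  have hn0 : (0 : ℝ) < n := by
    have : 0 < n := by omega
    exact_mod_cast this
  have ht0 : (0 : ℝ) < t := by
    have : 0 < t := by omega
    exact_mod_cast this
  have hs0' : (0 : ℝ) < s := by exact_mod_cast hs0
  have hτ0 : (0 : ℝ) < (t : ℝ) / n := div_pos ht0 hn0
  have hτ1 : (t : ℝ) / n ≤ 1 := by
    rw [div_le_one hn0]
    exact_mod_cast htn
  rw [div_le_div_iff₀ hs0' (mul_pos hn0 (pow_pos hτ0 _)), mul_assoc, mul_assoc]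
  refine mul_le_mul_of_nonneg_left ?_ hC0.le
  have e1 : (n : ℝ) ^ (r - 1) * ((n : ℝ) * ((t : ℝ) / n) ^ ρ) = (n : ℝ) ^ r * ((t : ℝ) / n) ^ ρ := by
    rw [← mul_assoc, ← pow_succ, Nat.sub_add_cancel (by omega)]
  have e2 : (n : ℝ) ^ r * ((t : ℝ) / n) ^ h = (t : ℝ) ^ h * (n : ℝ) ^ (r - h) := by
    rw [div_pow]
    have : (n : ℝ) ^ r = (n : ℝ) ^ h * (n : ℝ) ^ (r - h) := by
      rw [← pow_add]
      congr 1
      omega
    rw [this]
    field_simp
  have e3 : (2 * r * k : ℝ) ^ r = (2 * r * k : ℝ) ^ h * (2 * r * k : ℝ) ^ (r - h) := by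
    rw [← pow_add]
    congr 1
    omega
  have hw' : (t : ℝ) ≤ 2 * r * k * w := by exact_mod_cast hw
  have hW' : (n : ℝ) ≤ 2 * r * k * W := by exact_mod_cast hW
  have hs' : (w : ℝ) ^ h * (W : ℝ) ^ (r - h) ≤ s := by exact_mod_cast hs
  calc (n : ℝ) ^ (r - 1) * ((n : ℝ) * ((t : ℝ) / n) ^ ρ)
      = (n : ℝ) ^ r * ((t : ℝ) / n) ^ ρ := e1
    _ ≤ (n : ℝ) ^ r * ((t : ℝ) / n) ^ h := by
        refine mul_le_mul_of_nonneg_left ?_ (by positivity)
        exact pow_le_pow_of_le_one hτ0.le hτ1 hhρ
    _ = (t : ℝ) ^ h * (n : ℝ) ^ (r - h) := e2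
    _ ≤ (2 * r * k * w : ℝ) ^ h * (2 * r * k * W : ℝ) ^ (r - h) := by
        gcongr
    _ = (2 * r * k : ℝ) ^ r * ((w : ℝ) ^ h * (W : ℝ) ^ (r - h)) := by
        rw [e3, mul_pow _ (w : ℝ), mul_pow _ (W : ℝ)]
        ring
    _ ≤ (2 * r * k : ℝ) ^ r * s := by
        refine mul_le_mul_of_nonneg_left hs' (by positivity)

theorem fix_low {r : ℕ} (hr : 2 ≤ r) (P : Set (List Bool)) {k : ℕ} (hk : 1 ≤ k)
    (hK : (CK r P k).Nonempty) :
    ∃ C : ℝ, 0 < C ∧ ∀ n t : ℕ, 1 ≤ t → t ≤ n →
      pr r t (range (r * n)) (fun M => z P M < k) ≤ C / ((n : ℝ) * ((t : ℝ) / n) ^ rho r P k) := by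
  classical
  obtain ⟨C0, hC0, hhit⟩ := hit hr
  -- an optimal clique
  have hex : ∃ K ∈ CK r P k, ∀ e ∈ K, hh K e ≤ rho r P k := by
    have hne : {ρ : ℕ | ∃ K ∈ CK r P k, ∀ e ∈ K, hh K e ≤ ρ}.Nonempty := by
      obtain ⟨K, hK⟩ := hK
      refine ⟨K.sup (hh K), K, hK, fun e he => Finset.le_sup (f := hh K) he⟩
    exact Nat.sInf_mem hne
  obtain ⟨K, hKC, hKρ⟩ := hex
  set ρ := rho r P k with hρ
  unfold CK PMs at hKC
  rw [Finset.mem_filter, Finset.mem_filter] at hKC
  obtain ⟨⟨-, ⟨hKr, hKd⟩, hKs⟩, hKP⟩ := hKC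
  have hsub : ∀ e ∈ K, e ⊆ range (r * k) := by
    intro e he
    rw [← hKs]
    exact Finset.le_sup (f := id) he
  have hKcard : K.card = k := by
    have h1 : (K.biUnion id).card = ∑ e ∈ K, (id e).card :=
      Finset.card_biUnion fun e he f hf hef => hKd e he f hf hef
    have h2 : ∑ e ∈ K, (id e).card = ∑ _e ∈ K, r := Finset.sum_congr rfl fun e he => hKr e he
    rw [← Finset.sup_eq_biUnion, hKs, Finset.card_range, h2, Finset.sum_const,
      smul_eq_mul] at h1
    have hr0 : 0 < r := by omega
    nlinarith [Nat.eq_of_mul_eq_mul_left hr0 (by linarith : r * k = r * K.card)]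
  have hKne : K.Nonempty := Finset.card_pos.1 (by omega)
  obtain ⟨f0, hf0, hf0m⟩ := Finset.exists_mem_eq_sup K hKne mn
  set p : ℕ := K.sup mn + 1 with hp
  have hpk : p ≤ r * k := by
    rw [hp, hf0m]
    have hne : f0.Nonempty := Finset.card_pos.1 (by rw [hKr f0 hf0]; omega)
    have := Finset.mem_range.1 (hsub f0 hf0 (mn_mem f0 hne))
    omega
  have hhp : ∀ e, hh K e = (e.filter (fun v => v < p)).card := by
    intro e
    unfold hh
    congr 1
    apply Finset.filter_congr
    intro v _
    constructor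
    · rintro ⟨f, hf, hv⟩
      have := Finset.le_sup (f := mn) hf
      omega
    · intro hv
      exact ⟨f0, hf0, by omega⟩
  have hρ1 : 1 ≤ ρ := by
    obtain ⟨e, he⟩ := hKne
    refine le_trans ?_ (hKρ e he)
    rw [hhp]
    apply Finset.card_pos.2
    have hne : e.Nonempty := Finset.card_pos.1 (by rw [hKr e he]; omega)
    refine ⟨mn e, Finset.mem_filter.2 ⟨mn_mem e hne, ?_⟩⟩
    have := Finset.le_sup (f := mn) he
    omega
  have hrk0 : 0 < r * k := Nat.mul_pos (by omega) (by omega)
  refine ⟨(r * k : ℝ) + k * (C0 * (2 * r * k : ℝ) ^ r), ?_, ?_⟩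
  · have h1 : (0 : ℝ) < (r * k : ℝ) := by exact_mod_cast hrk0
    positivity
  intro n t ht htn
  have hn0 : (0 : ℝ) < n := by
    have : 0 < n := by omega
    exact_mod_cast this
  have ht0 : (0 : ℝ) < t := by
    have : 0 < t := by omega
    exact_mod_cast this
  have hτ0 : (0 : ℝ) < (t : ℝ) / n := div_pos ht0 hn0
  have hτ1 : (t : ℝ) / n ≤ 1 := by
    rw [div_le_one hn0]
    exact_mod_cast htn
  have hD : (0 : ℝ) < (n : ℝ) * ((t : ℝ) / n) ^ ρ := mul_pos hn0 (pow_pos hτ0 _)
  by_cases htr : t < r * k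
  · -- trivial bound
    refine (pr_le_one _ _ _ _).trans ?_
    rw [one_le_div hD]
    have h1 : (n : ℝ) * ((t : ℝ) / n) ^ ρ ≤ t := by
      calc (n : ℝ) * ((t : ℝ) / n) ^ ρ ≤ (n : ℝ) * ((t : ℝ) / n) ^ 1 := by
            refine mul_le_mul_of_nonneg_left ?_ hn0.le
            exact pow_le_pow_of_le_one hτ0.le hτ1 hρ1
        _ = t := by
            rw [pow_one]
            field_simp
    have h2 : (t : ℝ) ≤ (r * k : ℝ) := by exact_mod_cast htr.le
    have h3 : (0 : ℝ) ≤ k * (C0 * (2 * r * k : ℝ) ^ r) := by positivity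
    linarith
  · have htr' : r * k ≤ t := not_lt.1 htr
    set w := t / (r * k) with hwdef
    set W := n / k with hWdef
    have hw1 : 1 ≤ w := (Nat.one_le_div_iff hrk0).2 htr'
    have hkW : k * W ≤ n := Nat.mul_div_le n k
    have hrkw : r * k * w ≤ t := Nat.mul_div_le t (r * k)
    have hwW : w ≤ W := by
      rw [hwdef, hWdef]
      refine (Nat.div_le_div_left (Nat.le_mul_of_pos_left k (by omega)) (by omega)).trans ?_
      exact Nat.div_le_div_right htn
    have hW1 : 1 ≤ W := hw1.trans hwW
    have hw2 : t ≤ 2 * r * k * w := by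
      have h1 := Nat.div_add_mod t (r * k)
      have h2 := Nat.mod_lt t hrk0
      rw [← hwdef] at h1
      have h3 : r * k ≤ r * k * w := Nat.le_mul_of_pos_right _ hw1
      have h4 : 2 * r * k * w = r * k * w + r * k * w := by ring
      omega
    have hW2 : n ≤ 2 * r * k * W := by
      have h1 := Nat.div_add_mod n k
      have h2 := Nat.mod_lt n (show k > 0 by omega)
      rw [← hWdef] at h1
      have h3 : k ≤ k * W := Nat.le_mul_of_pos_right _ hW1
      have h4 : 2 * (k * W) ≤ 2 * r * k * W := by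
        calc 2 * (k * W) ≤ (2 * (k * W)) * r := Nat.le_mul_of_pos_right _ (by omega)
          _ = 2 * r * k * W := by ring
      omega
    -- the clique from the hit sets
    have hmono : pr r t (range (r * n)) (fun M => z P M < k) ≤
        pr r t (range (r * n)) (fun M => ∃ e ∈ K, ¬ (Se r n p w W e ∩ M).Nonempty) := by
      apply pr_mono
      intro M _ hzM
      by_contra hcon
      push Not at hcon
      have hch : ∀ e, ∃ s : Finset ℕ, ∃ φ : ℕ → ℕ, e ∈ K → (s ∈ M ∧ s.card = r ∧
          Okf p w W e φ ∧ s = e.image φ) := by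
        intro e
        by_cases he : e ∈ K
        · obtain ⟨s, hs⟩ := hcon e he
          rw [Finset.mem_inter] at hs
          obtain ⟨hs1, hs2⟩ := hs
          unfold Se at hs1
          rw [Finset.mem_filter, Finset.mem_powersetCard] at hs1
          obtain ⟨⟨-, hs3⟩, φ, hφ, hs4⟩ := hs1
          exact ⟨s, φ, fun _ => ⟨hs2, hs3, hφ, hs4⟩⟩
        · exact ⟨∅, id, fun h => absurd h he⟩
      choose σ φ hσ using hch
      have hinj : Set.InjOn σ (K : Set (Finset ℕ)) := by
        intro e he f hf hef
        have he' : e ∈ K := by exact_mod_cast he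
        have hf' : f ∈ K := by exact_mod_cast hf
        by_contra hne
        obtain ⟨-, h2, h3, h4⟩ := hσ e he'
        obtain ⟨-, h6, h7, h8⟩ := hσ f hf'
        have hne' : (σ e).Nonempty := Finset.card_pos.1 (by rw [h2]; omega)
        obtain ⟨x, hx⟩ := hne'
        have hx' := hx
        rw [h4] at hx
        rw [hef, h8] at hx'
        obtain ⟨v, hv, hvx⟩ := Finset.mem_image.1 hx
        obtain ⟨v', hv', hvx'⟩ := Finset.mem_image.1 hx'
        have h9 := h3 v hv
        have h10 := h7 v' hv'
        rw [hvx] at h9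
        rw [hvx'] at h10
        have h11 := ok_eq h9.1 h9.2 h10.1 h10.2
        subst h11
        exact Finset.disjoint_left.1 (hKd e he' f hf' hne) hv hv'
      have hcl : IsClique P (K.image σ) := by
        intro a ha b hb hab
        obtain ⟨e, he, rfl⟩ := Finset.mem_image.1 ha
        obtain ⟨f, hf, rfl⟩ := Finset.mem_image.1 hb
        have hne : e ≠ f := by
          rintro rfl
          exact absurd hab (lt_irrefl _)
        have hdis := hKd e he f hf hne
        obtain ⟨-, h2, h3, h4⟩ := hσ e he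
        obtain ⟨-, h6, h7, h8⟩ := hσ f hf
        let ψ : ℕ → ℕ := fun v => if v ∈ e then φ e v else φ f v
        have hψe : ∀ v ∈ e, ψ v = φ e v := fun v hv => if_pos hv
        have hψf : ∀ v ∈ f, ψ v = φ f v := fun v hv =>
          if_neg (fun hc => Finset.disjoint_left.1 hdis hc hv)
        have hψ : ∀ v ∈ e ∪ f, lft p w W v ≤ ψ v ∧ ψ v < lft p w W v + len p w W v := by
          intro v hv
          rcases Finset.mem_union.1 hv with hv | hv
          · rw [hψe v hv]; exact h3 v hv
          · rw [hψf v hv]; exact h7 v hv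
        have hsm : StrictMonoOn ψ ((e ∪ f : Finset ℕ) : Set ℕ) := by
          intro v hv v' hv' hvv
          exact ok_lt (hψ v (by exact_mod_cast hv)).2 (hψ v' (by exact_mod_cast hv')).1 hvv
        have hie : e.image ψ = σ e := by
          rw [h4]
          exact Finset.image_congr fun v hv => hψe v (by exact_mod_cast hv)
        have hif : f.image ψ = σ f := by
          rw [h8]
          exact Finset.image_congr fun v hv => hψf v (by exact_mod_cast hv)
        rw [← hie, ← hif, pat_image ψ e f hsm]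
        apply hKP e he f hf
        have hene : e.Nonempty := Finset.card_pos.1 (by rw [hKr e he]; omega)
        have hfne : f.Nonempty := Finset.card_pos.1 (by rw [hKr f hf]; omega)
        have hsene : (σ e).Nonempty := Finset.card_pos.1 (by rw [h2]; omega)
        have hsfne : (σ f).Nonempty := Finset.card_pos.1 (by rw [h6]; omega)
        rw [(mn_eq e hene).2, (mn_eq f hfne).2]
        rw [(mn_eq _ hsene).2, (mn_eq _ hsfne).2] at hab
        replace hab : mn (σ e) < mn (σ f) := WithTop.coe_lt_coe.1 hab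
        have hgoal : mn e < mn f := ?_
        · exact WithTop.coe_lt_coe.2 hgoal
        by_contra hc
        have h9 : mn f < mn e := by
          rcases (not_lt.1 hc).eq_or_lt with h | h
          · exact absurd (mn_mem f hfne) (fun hc' =>
              Finset.disjoint_left.1 hdis (mn_mem e hene) (h ▸ hc'))
          · exact h
        have h10 : mn (σ f) ≤ ψ (mn f) := by
          apply mn_le
          rw [← hif]
          exact Finset.mem_image_of_mem _ (mn_mem f hfne)
        have h11 : mn (σ e) ∈ σ e := mn_mem _ hsene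
        rw [← hie] at h11
        obtain ⟨v, hv, hvm⟩ := Finset.mem_image.1 h11
        have h12 : mn f < v := lt_of_lt_of_le h9 (mn_le e v hv)
        have h13 : ψ (mn f) < ψ v := hsm
          (by exact_mod_cast Finset.mem_union_right _ (mn_mem f hfne))
          (by exact_mod_cast Finset.mem_union_left _ hv) h12
        rw [hie] at hvm
        omega
      have hsubM : K.image σ ⊆ M := by
        intro a ha
        obtain ⟨e, he, rfl⟩ := Finset.mem_image.1 ha
        exact (hσ e he).1
      have hz := z_ge P hsubM hcl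
      rw [Finset.card_image_of_injOn hinj, hKcard] at hz
      omega
    refine hmono.trans ((pr_union r t (range (r * n)) K _).trans ?_)
    have hterm : ∀ e ∈ K, pr r t (range (r * n)) (fun M => ¬ (Se r n p w W e ∩ M).Nonempty) ≤
        C0 * (2 * r * k : ℝ) ^ r / ((n : ℝ) * ((t : ℝ) / n) ^ ρ) := by
      intro e he
      have hce : e.card = r := hKr e he
      have h1 := card_Se (p := p) hce (hsub e he) hwW hkW
      rw [prod_len, hce] at h1
      have hpos : 0 < (Se r n p w W e).card := lt_of_lt_of_le (by positivity) h1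
      have hle := hKρ e he
      rw [hhp] at hle
      refine (hhit n t (Se r n p w W e) ht htn (Finset.filter_subset _ _)
        (Finset.card_pos.1 hpos) ?_).trans (num hr hk ht htn hw2 hW2
          (hce ▸ Finset.card_filter_le _ _) hle h1 hpos hC0)
      intro s hs
      unfold Se at hs
      rw [Finset.mem_filter] at hs
      obtain ⟨-, φ, hφ, rfl⟩ := hs
      have hene : e.Nonempty := Finset.card_pos.1 (by rw [hce]; omega)
      have h2 : mn e < p := by
        have := Finset.le_sup (f := mn) he
        omega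
      have h3 := (hφ (mn e) (mn_mem e hene)).2
      have h4 : mn (e.image φ) ≤ φ (mn e) := mn_le _ _ (Finset.mem_image_of_mem _ (mn_mem e hene))
      have h5 : lft p w W (mn e) + len p w W (mn e) ≤ r * k * w := by
        unfold lft len
        rw [if_pos h2, if_pos h2]
        calc mn e * w + w = (mn e + 1) * w := by ring
          _ ≤ (r * k) * w := Nat.mul_le_mul_right _ (by omega)
      omega
    refine (Finset.sum_le_sum hterm).trans ?_
    rw [Finset.sum_const, hKcard, nsmul_eq_mul, ← mul_div_assoc]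
    refine div_le_div_of_nonneg_right ?_ hD.le
    have : (0 : ℝ) ≤ (r * k : ℝ) := by positivity
    linarith

end Pool.Agent.Work.MP_7d1693_pr.FM
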