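import Pool.Agent.Work.MP_7d1693_pr.FM.Defs
import Pool.Agent.Work.MP_7d1693_pr.FM.FirstM
import Pool.Agent.Work.MP_7d1693_pr.OUT

/-! # Module ManyLow (S-M): edges with many small vertices

For `ρ ≤ r`. On outcomes all edges are `r`-subsets of `range (r n)`. Union bound (`pr_union`, `inc0` with `K = {e}`) over the set of the `r`-subsets `e` of `range (r n)` with at least `ρ` vertices below `r t`: there are at most
`(r t).choose ρ * (r n).choose (r - ρ) ≤ (r t)^ρ (r n)^(r-ρ)` of them (map `e` to a subset of `ρ` elements of `e ∩ range (r t)`, e.g. the `ρ` smallest, and the rest; injective, since `e` is the union). So the probability is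
`≤ r^r t^ρ n^(r-ρ) C0/n^(r-1) = r^r C0 n (t/n)^ρ`. -/

namespace Pool.Agent.Work.MP_7d1693_pr.FM

open Finset

private theorem card_bound (r n t ρ : ℕ) :
    (((range (r * n)).powersetCard r).filter
      (fun e => ρ ≤ (e.filter (fun v => v < r * t)).card)).card ≤
      (r * t) ^ ρ * (r * n) ^ (r - ρ) := by
  classical
  have h1 : ((range (r * n)).powersetCard r).filter
      (fun e => ρ ≤ (e.filter (fun v => v < r * t)).card) ⊆
      (((range (r * t)).powersetCard ρ) ×ˢ ((range (r * n)).powersetCard (r - ρ))).image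
        (fun p => p.1 ∪ p.2) := by
    intro e he
    rw [mem_filter, mem_powersetCard] at he
    obtain ⟨⟨h1, h2⟩, h3⟩ := he
    obtain ⟨A, hA, hc⟩ := Finset.exists_subset_card_eq h3
    have hAe : A ⊆ e := hA.trans (filter_subset _ _)
    rw [mem_image]
    refine ⟨(A, e \ A), ?_, ?_⟩
    · rw [mem_product, mem_powersetCard, mem_powersetCard]
      refine ⟨⟨?_, hc⟩, sdiff_subset.trans h1, ?_⟩
      · intro x hx
        exact mem_range.2 (mem_filter.1 (hA hx)).2
      · change (e \ A).card = r - ρ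
        rw [card_sdiff_of_subset hAe, h2, hc]
    · exact union_sdiff_of_subset hAe
  refine (card_le_card h1).trans (card_image_le.trans ?_)
  rw [card_product, card_powersetCard, card_powersetCard, card_range, card_range]
  exact Nat.mul_le_mul (Nat.choose_le_pow _ _) (Nat.choose_le_pow _ _)

theorem many_low {r : ℕ} (hr : 2 ≤ r) : ∃ C : ℝ, 0 < C ∧ ∀ n t ρ : ℕ, 1 ≤ t → t ≤ n → ρ ≤ r →
    pr r t (range (r * n)) (fun M => ∃ e ∈ M, ρ ≤ (e.filter (fun v => v < r * t)).card) ≤
      C * ((n : ℝ) * ((t : ℝ) / n) ^ ρ) := by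
  classical
  obtain ⟨C0, hC0, hinc⟩ := inc0 hr
  have hr0 : (0 : ℝ) < r := by exact_mod_cast (by omega : 0 < r)
  refine ⟨(r : ℝ) ^ r * C0, by positivity, ?_⟩
  intro n t ρ ht htn hρ
  have hn : 1 ≤ n := ht.trans htn
  have hn0 : (0 : ℝ) < n := by exact_mod_cast hn
  have step1 : pr r t (range (r * n))
      (fun M => ∃ e ∈ M, ρ ≤ (e.filter (fun v => v < r * t)).card) ≤
      pr r t (range (r * n)) (fun M => ∃ e ∈ ((range (r * n)).powersetCard r).filter
        (fun e => ρ ≤ (e.filter (fun v => v < r * t)).card), ({e} : Finset (Finset ℕ)) ⊆ M) := by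
    apply pr_mono
    intro M hM hE
    obtain ⟨e, he, hρe⟩ := hE
    have hcard : r * t ≤ (range (r * n)).card := by
      rw [card_range]
      exact Nat.mul_le_mul_left r htn
    obtain ⟨-, hfam, hsub⟩ := out_struct r t (by omega) (range (r * n)) hcard M hM
    refine ⟨e, ?_, Finset.singleton_subset_iff.2 he⟩
    rw [mem_filter, mem_powersetCard]
    exact ⟨⟨(hsub e he).1, hfam.1 e he⟩, hρe⟩
  refine step1.trans ((pr_union r t _ _ _).trans ?_)
  have step2 : ∀ e ∈ ((range (r * n)).powersetCard r).filter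
      (fun e => ρ ≤ (e.filter (fun v => v < r * t)).card),
      pr r t (range (r * n)) (fun M => ({e} : Finset (Finset ℕ)) ⊆ M) ≤
        C0 / (n : ℝ) ^ (r - 1) := by
    intro e he
    have hF : Fam r {e} := by
      refine ⟨?_, ?_⟩
      · intro f hf
        rw [mem_singleton] at hf
        subst hf
        exact (mem_powersetCard.1 (mem_filter.1 he).1).2
      · intro f hf g hg hfg
        rw [mem_singleton] at hf hg
        exact absurd (hf.trans hg.symm) hfg
    have h1 := hinc n t {e} ht htn hF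
    rw [card_singleton, pow_one] at h1
    exact h1
  refine (Finset.sum_le_card_nsmul _ _ _ step2).trans ?_
  rw [nsmul_eq_mul]
  have hcb : ((((range (r * n)).powersetCard r).filter
      (fun e => ρ ≤ (e.filter (fun v => v < r * t)).card)).card : ℝ) ≤
      ((r : ℝ) * t) ^ ρ * ((r : ℝ) * n) ^ (r - ρ) := by
    exact_mod_cast card_bound r n t ρ
  have hpos : 0 ≤ C0 / (n : ℝ) ^ (r - 1) := by positivity
  refine (mul_le_mul_of_nonneg_right hcb hpos).trans (le_of_eq ?_)
  have e1 : (r : ℝ) ^ r = (r : ℝ) ^ ρ * (r : ℝ) ^ (r - ρ) := by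
    rw [← pow_add, Nat.add_sub_cancel' hρ]
  have e2 : (n : ℝ) * (n : ℝ) ^ (r - 1) = (n : ℝ) ^ ρ * (n : ℝ) ^ (r - ρ) := by
    rw [← pow_add, Nat.add_sub_cancel' hρ, ← pow_succ']
    congr 1
    omega
  have hn1 : (n : ℝ) ^ (r - 1) ≠ 0 := by positivity
  have hn2 : (n : ℝ) ^ ρ ≠ 0 := by positivity
  rw [mul_pow, mul_pow, div_pow, e1, mul_div_assoc', mul_div_assoc', mul_div_assoc',
    div_eq_div_iff hn1 hn2]
  calc (r : ℝ) ^ ρ * (t : ℝ) ^ ρ * ((r : ℝ) ^ (r - ρ) * (n : ℝ) ^ (r - ρ)) * C0 * (n : ℝ) ^ ρ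
      = (r : ℝ) ^ ρ * (r : ℝ) ^ (r - ρ) * C0 * (t : ℝ) ^ ρ *
        ((n : ℝ) ^ ρ * (n : ℝ) ^ (r - ρ)) := by ring
    _ = (r : ℝ) ^ ρ * (r : ℝ) ^ (r - ρ) * C0 * (t : ℝ) ^ ρ *
        ((n : ℝ) * (n : ℝ) ^ (r - 1)) := by rw [e2]
    _ = _ := by ring

end Pool.Agent.Work.MP_7d1693_pr.FM
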