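import Pool.Agent.Work.MP_7d1693_pr.FM.Defs
import Pool.Agent.Work.MP_7d1693_pr.CNT2
import Pool.Agent.Work.MP_7d1693_pr.FM.DefsK
import Pool.Agent.Work.MP_7d1693_pr.FM.ManyLow
import Pool.Agent.Work.MP_7d1693_pr.FM.Alt

/-! # Module FixUp (S-M): fixed `k`, upper bound

* `rho_le`: `rho r P k ≤ r` if `CK` is nonempty: `hh K e ≤ e.card = r`.
* `fix_up`: let `M` be an outcome with `k ≤ z P M`; `K0 ⊆ M` a clique with exactly `k` edges (`exists_clique`, subset). `K = c2_nrm K0` is in `CK r P k` (`c2_nrm_mem`, `c2_nrm_clique`). For `e ∈ K0` the number `hh` is the same for `e` in `K0` and its image in `K`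
(`c2_rk` is strictly increasing on the vertices of `K0`, so `v ≤ mn f` iff `rk v ≤ mn (image of f)`; `mn` of the image is the image of `mn`). By minimality of `rho` (if `rho = 0` the claim below is trivial; else `rho - 1` is not in the set) some `e ∈ K0`
has `rho ≤ hh K0 e`. Every `v ≤ mn f`, `f ∈ K0 ⊆ M` satisfies `v < r t` (`out_struct`: `mn f + r ≤ r t`, as the elements of `range (r n)` below `mn f` are `mn f` many). So `e` has at least `rho` vertices below `r t`: `many_low` (with constant `C`).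
* `fix_none`: if `CK r P k` is empty there is no clique with `k` edges in any outcome, so the probability is `0`. -/

namespace Pool.Agent.Work.MP_7d1693_pr.FM

open Finset

theorem rho_le {r : ℕ} {P : Set (List Bool)} {k : ℕ} (hK : (CK r P k).Nonempty) :
    rho r P k ≤ r := by
  classical
  obtain ⟨K, hK⟩ := hK
  apply Nat.sInf_le
  refine ⟨K, hK, fun e he => ?_⟩
  unfold CK PMs at hK
  rw [mem_filter, mem_filter] at hK
  have h1 : e.card = r := hK.1.2.1.1 e he
  unfold hh
  exact (card_filter_le _ _).trans h1.le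

private theorem nrm_CK {r : ℕ} (hr : 1 ≤ r) {P : Set (List Bool)} {k : ℕ}
    {K : Finset (Finset ℕ)} (hF : Fam r K) (hc : IsClique P K) (hk : K.card = k) :
    c2_nrm K ∈ CK r P k := by
  classical
  unfold CK
  rw [mem_filter]
  exact ⟨c2_nrm_mem r k K hF hk, c2_nrm_clique r hr P K hF hc⟩

private theorem exists_sub {r : ℕ} {P : Set (List Bool)} {k : ℕ} {M : Finset (Finset ℕ)}
    (hF : Fam r M) (hz : k ≤ z P M) :
    ∃ K ⊆ M, Fam r K ∧ IsClique P K ∧ K.card = k := by
  obtain ⟨K1, h1, h2, h3⟩ := exists_clique P M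
  obtain ⟨K, hK, hk⟩ := Finset.exists_subset_card_eq (n := k) (s := K1) (by rw [h3]; exact hz)
  refine ⟨K, hK.trans h1, ⟨fun e he => hF.1 e (h1 (hK he)), fun e he f hf hef =>
    hF.2 e (h1 (hK he)) f (h1 (hK hf)) hef⟩, fun e he f hf hlt => h2 e (hK he) f (hK hf) hlt, hk⟩

private theorem key {r : ℕ} (hr : 2 ≤ r) (P : Set (List Bool)) {k n t : ℕ}
    (ht : 1 ≤ t) (htn : t ≤ n) {M : Finset (Finset ℕ)} (hM : Out r t (range (r * n)) M)
    (hz : k ≤ z P M) :
    (CK r P k).Nonempty ∧ ∃ e ∈ M, rho r P k ≤ (e.filter (fun v => v < r * t)).card := by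
  classical
  have hcard : r * t ≤ (range (r * n)).card := by
    rw [card_range]
    exact Nat.mul_le_mul_left r htn
  obtain ⟨hMc, hfam, hsub⟩ := out_struct r t (by omega) (range (r * n)) hcard M hM
  obtain ⟨K0, hK0, hF0, hC0, hk0⟩ := exists_sub hfam hz
  have hN := nrm_CK (by omega) hF0 hC0 hk0
  refine ⟨⟨_, hN⟩, ?_⟩
  rcases Nat.eq_zero_or_pos (rho r P k) with h0 | hpos
  · have hne : M.Nonempty := by
      rw [← card_pos, hMc]
      omega
    obtain ⟨e, he⟩ := hne
    exact ⟨e, he, by rw [h0]; exact Nat.zero_le _⟩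
  · have hnot : rho r P k - 1 ∉ {ρ : ℕ | ∃ K ∈ CK r P k, ∀ e ∈ K, hh K e ≤ ρ} := by
      apply Nat.notMem_of_lt_sInf
      change rho r P k - 1 < rho r P k
      omega
    have h1 : ∃ e' ∈ c2_nrm K0, rho r P k ≤ hh (c2_nrm K0) e' := by
      by_contra hcon
      push Not at hcon
      exact hnot ⟨_, hN, fun e he => by
        have := hcon e he
        omega⟩
    obtain ⟨e', he', hrho⟩ := h1
    have he'' := he'
    rw [c2_nrm, mem_image] at he''
    obtain ⟨e, he, rfl⟩ := he''
    refine ⟨e, hK0 he, hrho.trans ?_⟩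
    have h2 : (e.image (c2_rk (K0.sup id))).filter (fun v => ∃ f ∈ c2_nrm K0, v ≤ mn f) ⊆
        (e.filter (fun v => v < r * t)).image (c2_rk (K0.sup id)) := by
      intro v' hv'
      rw [mem_filter, mem_image] at hv'
      obtain ⟨⟨v, hv, rfl⟩, f', hf', hle⟩ := hv'
      rw [c2_nrm, mem_image] at hf'
      obtain ⟨f, hf, rfl⟩ := hf'
      rw [mem_image]
      refine ⟨v, ?_, rfl⟩
      rw [mem_filter]
      refine ⟨hv, ?_⟩
      have hfne : f.Nonempty := by
        rw [← card_pos, hF0.1 f hf]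
        omega
      have hmf : mn f ∈ f := mn_mem f hfne
      have h3 : mn (f.image (c2_rk (K0.sup id))) ≤ c2_rk (K0.sup id) (mn f) :=
        mn_le _ _ (mem_image_of_mem _ hmf)
      have h4 : v ≤ mn f := by
        by_contra hlt
        push Not at hlt
        have := c2_rk_lt (K0.sup id) (c2_sub_sup K0 hf hmf) hlt
        omega
      obtain ⟨h5, h6⟩ := hsub f (hK0 hf)
      have h7 : (range (r * n)).filter (fun x => x < mn f) = range (mn f) := by
        ext x
        rw [mem_filter, mem_range, mem_range]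
        have := mem_range.1 (h5 hmf)
        omega
      rw [h7, card_range] at h6
      omega
    have h3 := card_le_card h2
    exact h3.trans card_image_le

theorem fix_up {r : ℕ} (hr : 2 ≤ r) (P : Set (List Bool)) {k : ℕ} (hK : (CK r P k).Nonempty) :
    ∃ C : ℝ, 0 < C ∧ ∀ n t : ℕ, 1 ≤ t → t ≤ n →
      pr r t (range (r * n)) (fun M => k ≤ z P M) ≤ C * ((n : ℝ) * ((t : ℝ) / n) ^ rho r P k) := by
  obtain ⟨C, hC, h⟩ := many_low hr
  refine ⟨C, hC, fun n t ht htn => ?_⟩
  refine le_trans ?_ (h n t (rho r P k) ht htn (rho_le hK))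
  apply pr_mono
  intro M hM hz
  exact (key hr P ht htn hM hz).2

theorem fix_none {r : ℕ} (hr : 2 ≤ r) (P : Set (List Bool)) {k : ℕ} (hK : ¬ (CK r P k).Nonempty)
    {n t : ℕ} (ht : 1 ≤ t) (htn : t ≤ n) :
    pr r t (range (r * n)) (fun M => k ≤ z P M) = 0 := by
  apply le_antisymm _ (pr_nonneg _ _ _ _)
  have h1 := pr_union r t (range (r * n)) (∅ : Finset ℕ) (fun _ _ => True)
  rw [Finset.sum_empty] at h1
  refine le_trans ?_ h1
  apply pr_mono
  intro M hM hz
  exact absurd (key hr P ht htn hM hz).1 hK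

end Pool.Agent.Work.MP_7d1693_pr.FM
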