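import Pool.Agent.Work.MP_7d1693_pr.FM.Defs
import Pool.Agent.Work.MP_7d1693_pr.BAD
import Pool.Agent.Work.MP_7d1693_pr.FM.Alt

/-! # Module NoAdm (S): no admissible type

`few_bad` with `a = r + 1` (its hypothesis is vacuous: `HasType w (a' :: lam)` with sum `r` would be admissible). Take `L` larger than all minima: every edge has fewer than `r + 1` vertices below `L`, so `K.card ≤ R`.
Outcomes are families (`out_struct`), `exists_clique`. -/

namespace Pool.Agent.Work.MP_7d1693_pr.FM

open Finset

theorem no_adm {r : ℕ} (hr : 2 ≤ r) {P : Set (List Bool)} (hP : ¬ ∃ lam, Adm r P lam) :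
    ∃ R : ℕ, ∀ n t : ℕ, 1 ≤ t → t ≤ n →
      pr r t (range (r * n)) (fun M => R < z P M) = 0 := by
  classical
  obtain ⟨R, hR⟩ := few_bad r hr P (r + 1) (by
    intro w hw lam a' hsum hty
    exact absurd ⟨a' :: lam, hsum, w, hw, hty⟩ hP)
  refine ⟨R, ?_⟩
  intro n t ht htn
  refine le_antisymm ?_ (pr_nonneg _ _ _ _)
  have hbad : ∀ M, Out r t (range (r * n)) M → (R < z P M) → False := by
    intro M hM hz
    obtain ⟨-, hFam, -⟩ := out_struct r t (by omega) (range (r * n))
      (by rw [card_range]; exact Nat.mul_le_mul_left r htn) M hM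
    obtain ⟨K, hKM, hKc, hKz⟩ := exists_clique P M
    have hFK : Fam r K := ⟨fun e he => hFam.1 e (hKM he),
      fun e he f hf hef => hFam.2 e (hKM he) f (hKM hf) hef⟩
    have h1 := hR K (K.sup mn + 1) hFK hKc
      (fun e he => Nat.lt_succ_of_le (Finset.le_sup (f := mn) he))
    rw [Finset.filter_true_of_mem] at h1
    · omega
    · intro e he
      have h2 : (e.filter (fun x => x < K.sup mn + 1)).card ≤ e.card :=
        Finset.card_le_card (Finset.filter_subset _ _)
      have h3 := hFK.1 e he
      omega
  have h0 : pr r t (range (r * n)) (fun _ => False) = 0 := by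
    have := pr_union (ι := ℕ) r t (range (r * n)) ∅ (fun _ _ => True)
    simp only [Finset.notMem_empty, false_and, exists_false, Finset.sum_empty] at this
    exact le_antisymm this (pr_nonneg _ _ _ _)
  calc pr r t (range (r * n)) (fun M => R < z P M)
      ≤ pr r t (range (r * n)) (fun _ => False) :=
        pr_mono r t _ _ _ (fun M hM h => hbad M hM h)
    _ = 0 := h0

end Pool.Agent.Work.MP_7d1693_pr.FM
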