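import Pool.Agent.Work.MP_7d1693_pr.FM.Fin1
import Pool.Agent.Work.MP_7d1693_pr.FM.Fin2
import Pool.Agent.Work.MP_7d1693_pr.FM.NoAdm

/-! Assembly (draft of the hand-in `FirstMoment`). -/

namespace Pool.Agent.Work.MP_7d1693_pr.FM

open Finset

theorem main (r : ℕ) (hr : 2 ≤ r) (P : Set (List Bool)) :
    ((∃ lam, Adm r P lam) → ∃ c C : ℝ, 0 < c ∧ 0 < C ∧ ∀ n t : ℕ, 1 ≤ t → t ≤ n →
      (process r t (range (r * n))).toOuterMeasure {M | (z P M : ℝ) < c * gg r P n t} ≤
        ENNReal.ofReal (C / gg r P n t) ∧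
      (∀ m : ℝ, C ≤ m →
        (process r t (range (r * n))).toOuterMeasure {M | m * (gg r P n t + 1) ≤ (z P M : ℝ)} ≤
          ENNReal.ofReal (C / (m * (gg r P n t + 1)))) ∧
      ∀ k : ℕ, 1 ≤ k →
        ((t : ℝ) ≤ c * tstar r P n k →
          (process r t (range (r * n))).toOuterMeasure {M | k ≤ z P M} ≤ ENNReal.ofReal (C / k)) ∧
        (C * tstar r P n k ≤ t →
          (process r t (range (r * n))).toOuterMeasure {M | z P M < k} ≤ ENNReal.ofReal (C / k))) ∧
    ((¬ ∃ lam, Adm r P lam) → ∃ R : ℕ, ∀ n t : ℕ, 1 ≤ t → t ≤ n →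
      (process r t (range (r * n))).toOuterMeasure {M | R < z P M} = 0) := by
  have hr0 : 0 < r := by omega
  have hcard : ∀ n t : ℕ, t ≤ n → r * t ≤ (range (r * n)).card := fun n t h => by
    rw [card_range]; exact Nat.mul_le_mul_left _ h
  constructor
  · intro hP
    obtain ⟨c1, C1, hc1, hC1, h1⟩ := fin1 hr hP
    obtain ⟨c2, C2, hc2, hC2, h2⟩ := fin2 hr hP
    refine ⟨min c1 c2, max C1 C2, lt_min hc1 hc2, lt_max_of_lt_left hC1, ?_⟩
    intro n t ht1 htn
    obtain ⟨h1a, h1b⟩ := h1 n t ht1 htn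
    refine ⟨?_, ?_, ?_⟩
    · rw [process_eq r t hr0 _ (hcard n t htn)]
      apply ENNReal.ofReal_le_ofReal
      refine le_trans (pr_mono r t _ _ _ ?_) (h1a.trans ?_)
      · intro M _ hM
        exact lt_of_lt_of_le hM (mul_le_mul_of_nonneg_right (min_le_left _ _) (Nat.cast_nonneg _))
      · exact div_le_div_of_nonneg_right (le_max_left _ _) (Nat.cast_nonneg _)
    · intro m hm
      rw [process_eq r t hr0 _ (hcard n t htn)]
      apply ENNReal.ofReal_le_ofReal
      have hm1 : C1 ≤ m := (le_max_left _ _).trans hm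
      refine (h1b m hm1).trans ?_
      apply div_le_div_of_nonneg_right (le_max_left _ _)
      have : 0 ≤ m := hC1.le.trans hm1
      positivity
    · intro k hk
      obtain ⟨h2a, h2b⟩ := h2 n t k ht1 htn hk
      have hk0 : (0 : ℝ) ≤ k := Nat.cast_nonneg _
      have htp : 0 ≤ tstar r P n k := by
        unfold tstar
        apply Real.sInf_nonneg
        rintro x ⟨lam, _, rfl⟩
        positivity
      constructor
      · intro h
        rw [process_eq r t hr0 _ (hcard n t htn)]
        apply ENNReal.ofReal_le_ofReal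
        refine (h2a (h.trans (mul_le_mul_of_nonneg_right (min_le_right _ _) htp))).trans ?_
        exact div_le_div_of_nonneg_right (le_max_right _ _) hk0
      · intro h
        rw [process_eq r t hr0 _ (hcard n t htn)]
        apply ENNReal.ofReal_le_ofReal
        refine (h2b (le_trans (mul_le_mul_of_nonneg_right (le_max_right _ _) htp) h)).trans ?_
        exact div_le_div_of_nonneg_right (le_max_right _ _) hk0
  · intro hP
    obtain ⟨R, hR⟩ := no_adm hr hP
    refine ⟨R, ?_⟩
    intro n t ht1 htn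
    rw [process_eq r t hr0 _ (hcard n t htn), hR n t ht1 htn, ENNReal.ofReal_zero]

end Pool.Agent.Work.MP_7d1693_pr.FM
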