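import Pool.Agent.Work.MP_7d1693_pr.FM.Defs
import Pool.Agent.Work.MP_7d1693_pr.BAD
import Pool.Agent.Work.MP_7d1693_pr.FM.ManyLow
import Pool.Agent.Work.MP_7d1693_pr.FM.Alt

/-! # Module Small (S): bounded cliques for small `t`

`R` from `few_bad` (BAD) for `a`: its hypothesis follows from `ha` (`HasType w (a' :: lam)` with sum `r` and `w ∈ P` is `Adm r P (a' :: lam)`, so `a ≤ a'`). On an outcome with `R < z P M` let `K ⊆ M` be a clique with `z` edges (`exists_clique`), a family; all minima are `< r t` (`out_struct`).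
At most `R` edges have fewer than `a` vertices below `L = r t`, so some edge of `K ⊆ M` has at least `a`: `many_low`. (`a ≤ r` because there is an admissible type: its first part is `a` at least, at most `r`.) -/

namespace Pool.Agent.Work.MP_7d1693_pr.FM

open Finset

theorem small {r : ℕ} (hr : 2 ≤ r) {P : Set (List Bool)} {a : ℕ}
    (ha : ∀ lam, Adm r P lam → a ≤ lam.headD 0) (hP : ∃ lam, Adm r P lam) :
    ∃ (R : ℕ) (C : ℝ), 0 < C ∧ ∀ n t : ℕ, 1 ≤ t → t ≤ n →
      pr r t (range (r * n)) (fun M => R < z P M) ≤ C * ((n : ℝ) * ((t : ℝ) / n) ^ a) := by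
  classical
  have har : a ≤ r := by
    obtain ⟨lam, hlam⟩ := hP
    have h1 := ha lam hlam
    have h2 := hlam.1
    cases lam with
    | nil =>
      have : a ≤ 0 := h1
      omega
    | cons x l =>
      have h3 : a ≤ x := h1
      rw [List.sum_cons] at h2
      omega
  obtain ⟨R, hR⟩ := few_bad r hr P a (by
    intro w hw lam a' hsum htype
    exact ha (a' :: lam) ⟨hsum, w, hw, htype⟩)
  obtain ⟨C, hC, hlow⟩ := many_low hr
  refine ⟨R, C, hC, ?_⟩
  intro n t ht htn
  refine le_trans (pr_mono r t _ _ _ ?_) (hlow n t a ht htn har)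
  intro M hM hz
  have hcard : r * t ≤ (range (r * n)).card := by
    rw [card_range]
    exact Nat.mul_le_mul_left r htn
  obtain ⟨-, hfam, hsub⟩ := out_struct r t (by omega) (range (r * n)) hcard M hM
  obtain ⟨K, hKM, hKc, hKz⟩ := exists_clique P M
  have hFK : Fam r K := ⟨fun e he => hfam.1 e (hKM he),
    fun e he f hf hne => hfam.2 e (hKM he) f (hKM hf) hne⟩
  have hmin : ∀ e ∈ K, mn e < r * t := by
    intro e he
    obtain ⟨h1, h2⟩ := hsub e (hKM he)
    have hne : e.Nonempty := Finset.card_pos.1 (by rw [hFK.1 e he]; omega)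
    have h3 : mn e ∈ e := proc_mn_mem e hne
    have h4 : mn e < r * n := mem_range.1 (h1 h3)
    have h5 : (range (r * n)).filter (fun x => x < mn e) = range (mn e) := by
      ext x
      rw [mem_filter, mem_range, mem_range]
      constructor
      · exact fun h => h.2
      · exact fun h => ⟨by omega, h⟩
    rw [h5, card_range] at h2
    omega
  have h6 := hR K (r * t) hFK hKc hmin
  have h7 : (K.filter (fun e => (e.filter (fun x => x < r * t)).card < a)).card < K.card := by
    rw [hKz]
    exact lt_of_le_of_lt h6 hz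
  by_contra hcon
  push Not at hcon
  have h8 : K.filter (fun e => (e.filter (fun x => x < r * t)).card < a) = K :=
    Finset.filter_true_of_mem fun e he => hcon e (hKM he)
  rw [h8] at h7
  exact lt_irrefl _ h7

end Pool.Agent.Work.MP_7d1693_pr.FM
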